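import Pool.Agent.Helper22.CM.M_TGh
import Pool.Agent.Helper65.CB.StI

/-! MP_65faa7: the three branch inequality for the bulk case -/

set_option autoImplicit false

open scoped BigOperators ENNReal Topology
open Pool.LE Pool.NL Pool.CL Filter MeasureTheory

namespace Pool.CM

theorem hBKf (hT : StTGh) : Pool.CB.StBKf := by
  intro V _ L E D p f hG h0 h1 hf x hx
  have key : ∀ y ∈ L, ex E p (fun ω => ind (con ω x y) * (ms f (clu L ω x) *
      Real.exp (1 * ms f (clu L ω x)))) ≤
      ∑ z ∈ L, tH L E p 1 f x z * (tH L E p 1 f z y * cH L E p 1 f z) := fun y hy =>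
    hT V L E D p 1 f hG h0 h1 zero_le_one hf x hx y hy
  have hcH : ∀ z, cH L E p 1 f z = ∑ w ∈ L, f w * tH L E p 1 f z w := by
    intro z
    unfold cH tH
    have e2 : (fun ω => ms f (clu L ω z) * Real.exp (1 * ms f (clu L ω z))) =
        fun ω => ∑ w ∈ L, f w * (ind (con ω z w) * Real.exp (1 * ms f (clu L ω z))) := by
      funext ω
      have e3 : ms f (clu L ω z) * Real.exp (1 * ms f (clu L ω z)) =
          (∑ w ∈ L, f w * ind (con ω z w)) * Real.exp (1 * ms f (clu L ω z)) := by
        rw [← TGh.ms_eq]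
      rw [e3, Finset.sum_mul]
      exact Finset.sum_congr rfl fun w _ => by ring
    rw [e2, Basic.ex_sum]
    exact Finset.sum_congr rfl fun w _ => Basic.ex_mul E p (f w) _
  have e1 : ex E p (fun ω => (ms f (clu L ω x)) ^ 2 * Real.exp (ms f (clu L ω x))) =
      ∑ y ∈ L, f y * ex E p (fun ω => ind (con ω x y) * (ms f (clu L ω x) *
        Real.exp (1 * ms f (clu L ω x)))) := by
    have e2 : (fun ω => (ms f (clu L ω x)) ^ 2 * Real.exp (ms f (clu L ω x))) =
        fun ω => ∑ y ∈ L, f y * (ind (con ω x y) * (ms f (clu L ω x) *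
          Real.exp (1 * ms f (clu L ω x)))) := by
      funext ω
      have e3 : (ms f (clu L ω x)) ^ 2 * Real.exp (ms f (clu L ω x)) =
          (∑ y ∈ L, f y * ind (con ω x y)) * (ms f (clu L ω x) *
            Real.exp (1 * ms f (clu L ω x))) := by
        rw [← TGh.ms_eq, one_mul]
        ring
      rw [e3, Finset.sum_mul]
      exact Finset.sum_congr rfl fun y _ => by ring
    rw [e2, Basic.ex_sum]
    exact Finset.sum_congr rfl fun y _ => Basic.ex_mul E p (f y) _
  rw [e1]
  refine (Finset.sum_le_sum fun y hy => mul_le_mul_of_nonneg_left (key y hy) (hf y)).trans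
    (le_of_eq ?_)
  simp_rw [Finset.mul_sum]
  rw [Finset.sum_comm]
  refine Finset.sum_congr rfl fun z _ => ?_
  have e4 : ex E p (fun ω => ind (con ω x z) * Real.exp (ms f (clu L ω x))) =
      tH L E p 1 f x z := by
    unfold tH; simp_rw [one_mul]
  have e5 : ex E p (fun ω => ms f (clu L ω z) * Real.exp (ms f (clu L ω z))) =
      cH L E p 1 f z := by
    unfold cH; simp_rw [one_mul]
  rw [e4, e5]
  have e6 : ∑ y ∈ L, f y * (tH L E p 1 f x z * (tH L E p 1 f z y * cH L E p 1 f z)) =
      (∑ y ∈ L, f y * tH L E p 1 f z y) * (tH L E p 1 f x z * cH L E p 1 f z) := by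
    rw [Finset.sum_mul]
    exact Finset.sum_congr rfl fun y _ => by ring
  rw [e6, ← hcH z]
  ring

end Pool.CM
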