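import Pool.Agent.Helper22.CM.St

/-!
# Project CM, module F0: the tail is not too small
-/

set_option autoImplicit false

open scoped BigOperators ENNReal Topology
open Pool.LE Pool.NL Pool.CL Filter MeasureTheory

namespace Pool.CM

namespace F0

theorem ind_nonneg (A : Prop) : 0 ≤ ind A := by
  unfold ind
  split_ifs <;> norm_num

theorem av_mono {d n : ℕ} {f g : Zd d → ℝ} (h : ∀ x ∈ Bn d n, f x ≤ g x) : av d n f ≤ av d n g := by
  unfold av
  exact div_le_div_of_nonneg_right (Finset.sum_le_sum h) (by positivity)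

theorem av_const {d n : ℕ} (hBn : StBn) (hn : 1 ≤ n) (c : ℝ) : av d n (fun _ => c) = c := by
  have hn0 : (n : ℝ) ≠ 0 := by
    have : n ≠ 0 := by omega
    exact_mod_cast this
  unfold av
  rw [Finset.sum_const, (hBn d n).2.1, nsmul_eq_mul]
  push_cast
  field_simp

theorem av_add {d n : ℕ} (f g : Zd d → ℝ) : av d n (fun x => f x + g x) = av d n f + av d n g := by
  unfold av
  rw [Finset.sum_add_distrib, add_div]

theorem av_smul {d n : ℕ} (c : ℝ) (f : Zd d → ℝ) : av d n (fun x => c * f x) = c * av d n f := by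
  unfold av
  rw [← Finset.mul_sum, mul_div_assoc]

theorem av_sum {d n : ℕ} {ι : Type} (s : Finset ι) (f : ι → Zd d → ℝ) :
    av d n (fun x => ∑ i ∈ s, f i x) = ∑ i ∈ s, av d n (f i) := by
  unfold av
  rw [Finset.sum_comm, Finset.sum_div]

/-- the exponential series is bounded by `exp` with a smaller rate -/
theorem pn_bound (N : ℕ) (θ θ' : ℝ) (hθ : 0 ≤ θ) (hθ' : 0 < θ') : ∃ CN : ℝ, 0 ≤ CN ∧ ∀ t : ℝ, 0 ≤ t →
    ∑ r ∈ Finset.range N, (θ * t) ^ r / (r.factorial : ℝ) ≤ CN * Real.exp (θ' * t / 2) := by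
  refine ⟨∑ r ∈ Finset.range N, θ ^ r * (2 / θ') ^ r, Finset.sum_nonneg fun r _ => by positivity, ?_⟩
  intro t ht
  rw [Finset.sum_mul]
  refine Finset.sum_le_sum fun r _ => ?_
  have h1 := Real.pow_div_factorial_le_exp (θ' * t / 2) (by positivity) r
  have h2 : (θ * t) ^ r / (r.factorial : ℝ) =
      θ ^ r * (2 / θ') ^ r * ((θ' * t / 2) ^ r / (r.factorial : ℝ)) := by
    rw [← mul_div_assoc, ← mul_pow, ← mul_pow]
    congr 2
    field_simp
  rw [h2]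
  exact mul_le_mul_of_nonneg_left h1 (by positivity)

/-- the series is bounded by `exp` -/
theorem pn_exp (N : ℕ) (y : ℝ) (hy : 0 ≤ y) :
    ∑ r ∈ Finset.range N, y ^ r / (r.factorial : ℝ) ≤ Real.exp y := Real.sum_le_exp_of_nonneg hy N

/-- the pointwise bound -/
theorem pointwise (N k₀ k₂ n X : ℕ) (θ θ' CN : ℝ) (hn : 1 ≤ n) (hθ : 0 ≤ θ) (hθ' : 0 < θ')
    (hCN : 0 ≤ CN) (hN : ∀ t : ℝ, 0 ≤ t →
      ∑ r ∈ Finset.range N, (θ * t) ^ r / (r.factorial : ℝ) ≤ CN * Real.exp (θ' * t / 2)) :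
    ∑ r ∈ Finset.range N, θ ^ r * ((X : ℝ) ^ (r + 1) / ((n : ℝ) ^ (2 + 4 * r) * (r.factorial : ℝ))) ≤
      Real.exp (θ * k₀) * ((X : ℝ) / (n : ℝ) ^ 2) +
      ∑ k ∈ Finset.Icc k₀ k₂, ((k : ℝ) + 1) * Real.exp (θ * ((k : ℝ) + 1)) *
        ((n : ℝ) ^ 2 * ind (k * n ^ 4 ≤ X)) +
      CN * Real.exp (-(θ' * k₂ / 2)) * ((X : ℝ) * Real.exp (θ' * X / (n : ℝ) ^ 4) / (n : ℝ) ^ 2) := by
  have hn0 : (0 : ℝ) < n := by exact_mod_cast hn
  have hn4 : (0 : ℝ) < (n : ℝ) ^ 4 := by positivity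
  set t : ℝ := (X : ℝ) / (n : ℝ) ^ 4 with ht
  have ht0 : 0 ≤ t := by positivity
  have e1 : ∑ r ∈ Finset.range N, θ ^ r * ((X : ℝ) ^ (r + 1) / ((n : ℝ) ^ (2 + 4 * r) * (r.factorial : ℝ))) =
      ((X : ℝ) / (n : ℝ) ^ 2) * ∑ r ∈ Finset.range N, (θ * t) ^ r / (r.factorial : ℝ) := by
    rw [Finset.mul_sum]
    refine Finset.sum_congr rfl fun r _ => ?_
    rw [ht, mul_pow, div_pow]
    have hf : (r.factorial : ℝ) ≠ 0 := by positivity
    field_simp
    ring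
  rw [e1]
  have hX0 : 0 ≤ (X : ℝ) / (n : ℝ) ^ 2 := by positivity
  have hA : 0 ≤ Real.exp (θ * k₀) * ((X : ℝ) / (n : ℝ) ^ 2) := by positivity
  have hB : ∀ k ∈ Finset.Icc k₀ k₂, 0 ≤ ((k : ℝ) + 1) * Real.exp (θ * ((k : ℝ) + 1)) *
      ((n : ℝ) ^ 2 * ind (k * n ^ 4 ≤ X)) := by
    intro k _
    have := ind_nonneg (k * n ^ 4 ≤ X)
    positivity
  have hB' := Finset.sum_nonneg hB
  have hC : 0 ≤ CN * Real.exp (-(θ' * k₂ / 2)) * ((X : ℝ) * Real.exp (θ' * X / (n : ℝ) ^ 4) / (n : ℝ) ^ 2) := by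
    positivity
  by_cases h1 : t < k₀
  · have h2 : ∑ r ∈ Finset.range N, (θ * t) ^ r / (r.factorial : ℝ) ≤ Real.exp (θ * k₀) :=
      (pn_exp N _ (by positivity)).trans (Real.exp_le_exp.2 (mul_le_mul_of_nonneg_left h1.le hθ))
    have h3 := mul_le_mul_of_nonneg_left h2 hX0
    rw [mul_comm ((X : ℝ) / (n : ℝ) ^ 2) (Real.exp _)] at h3
    linarith
  · push Not at h1
    by_cases h2 : t < (k₂ : ℝ) + 1
    · set k : ℕ := ⌊t⌋₊ with hk
      have hk1 : (k : ℝ) ≤ t := Nat.floor_le ht0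
      have hk2 : t < (k : ℝ) + 1 := Nat.lt_floor_add_one t
      have hk3 : k₀ ≤ k := Nat.le_floor h1
      have hk4 : k ≤ k₂ := by
        have : (k : ℝ) < (k₂ : ℝ) + 1 := lt_of_le_of_lt hk1 h2
        have : k < k₂ + 1 := by exact_mod_cast this
        omega
      have h3 : ∑ r ∈ Finset.range N, (θ * t) ^ r / (r.factorial : ℝ) ≤ Real.exp (θ * ((k : ℝ) + 1)) :=
        (pn_exp N _ (by positivity)).trans (Real.exp_le_exp.2 (mul_le_mul_of_nonneg_left hk2.le hθ))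
      have h4 : (X : ℝ) / (n : ℝ) ^ 2 = t * (n : ℝ) ^ 2 := by
        rw [ht]
        field_simp
      have h5 : k * n ^ 4 ≤ X := by
        rw [ht, le_div_iff₀ hn4] at hk1
        exact_mod_cast hk1
      have h6 : ((k : ℝ) + 1) * Real.exp (θ * ((k : ℝ) + 1)) * ((n : ℝ) ^ 2 * ind (k * n ^ 4 ≤ X)) ≤
          ∑ k ∈ Finset.Icc k₀ k₂, ((k : ℝ) + 1) * Real.exp (θ * ((k : ℝ) + 1)) *
            ((n : ℝ) ^ 2 * ind (k * n ^ 4 ≤ X)) :=
        Finset.single_le_sum (f := fun k : ℕ => ((k : ℝ) + 1) * Real.exp (θ * ((k : ℝ) + 1)) *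
          ((n : ℝ) ^ 2 * ind (k * n ^ 4 ≤ X))) hB (Finset.mem_Icc.2 ⟨hk3, hk4⟩)
      have h7 : ind (k * n ^ 4 ≤ X) = 1 := by
        unfold ind
        rw [if_pos h5]
      rw [h7, mul_one] at h6
      have h8 : ((X : ℝ) / (n : ℝ) ^ 2) * ∑ r ∈ Finset.range N, (θ * t) ^ r / (r.factorial : ℝ) ≤
          ((k : ℝ) + 1) * Real.exp (θ * ((k : ℝ) + 1)) * (n : ℝ) ^ 2 := by
        rw [h4]
        calc t * (n : ℝ) ^ 2 * ∑ r ∈ Finset.range N, (θ * t) ^ r / (r.factorial : ℝ)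
            ≤ ((k : ℝ) + 1) * (n : ℝ) ^ 2 * Real.exp (θ * ((k : ℝ) + 1)) := by
              refine mul_le_mul (mul_le_mul_of_nonneg_right hk2.le (by positivity)) h3
                (Finset.sum_nonneg fun r _ => by positivity) (by positivity)
          _ = _ := by ring
      linarith
    · push Not at h2
      have h3 := hN t ht0
      have h4 : CN * Real.exp (θ' * t / 2) ≤ CN * Real.exp (-(θ' * k₂ / 2)) * Real.exp (θ' * t) := by
        rw [mul_assoc, ← Real.exp_add]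
        refine mul_le_mul_of_nonneg_left (Real.exp_le_exp.2 ?_) hCN
        have h5 : θ' * k₂ ≤ θ' * t := mul_le_mul_of_nonneg_left (by linarith) hθ'.le
        linarith
      have h5 := mul_le_mul_of_nonneg_left (h3.trans h4) hX0
      have h6 : θ' * X / (n : ℝ) ^ 4 = θ' * t := by
        rw [ht, mul_div_assoc]
      rw [h6]
      have h7 : CN * Real.exp (-(θ' * k₂ / 2)) * ((X : ℝ) * Real.exp (θ' * t) / (n : ℝ) ^ 2) =
          (X : ℝ) / (n : ℝ) ^ 2 * (CN * Real.exp (-(θ' * k₂ / 2)) * Real.exp (θ' * t)) := by ring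
      have hC' : 0 ≤ Real.exp (θ * k₀) * ((X : ℝ) / (n : ℝ) ^ 2) := hA
      rw [h7]
      linarith

/-- the geometric sum -/
theorem geo (ε : ℝ) (hε : 0 < ε) : ∃ C : ℝ, 0 ≤ C ∧ ∀ s : Finset ℕ,
    ∑ k ∈ s, ((k : ℝ) + 1) * Real.exp (-(ε * k / 2)) ≤ C := by
  have hq : Real.exp (-(ε / 2)) < 1 := by
    rw [Real.exp_lt_one_iff]
    linarith
  have hq0 : 0 < Real.exp (-(ε / 2)) := Real.exp_pos _
  have h1 : Summable (fun k : ℕ => ((k : ℝ) + 1) * Real.exp (-(ε / 2)) ^ k) := by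
    have ha : Summable (fun k : ℕ => (k : ℝ) ^ 1 * Real.exp (-(ε / 2)) ^ k) :=
      summable_pow_mul_geometric_of_norm_lt_one 1 (by rw [Real.norm_of_nonneg hq0.le]; exact hq)
    have hb : Summable (fun k : ℕ => Real.exp (-(ε / 2)) ^ k) := summable_geometric_of_lt_one hq0.le hq
    refine (ha.add hb).congr fun k => ?_
    ring
  have h2 : ∀ k : ℕ, ((k : ℝ) + 1) * Real.exp (-(ε * k / 2)) = ((k : ℝ) + 1) * Real.exp (-(ε / 2)) ^ k := by
    intro k
    rw [← Real.exp_nat_mul]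
    congr 2
    ring
  refine ⟨∑' k : ℕ, ((k : ℝ) + 1) * Real.exp (-(ε / 2)) ^ k, tsum_nonneg fun k => by positivity, fun s => ?_⟩
  simp only [h2]
  exact h1.sum_le_tsum s fun k _ => by positivity

end F0

open F0 in
/-- F20 -/
theorem hF0 (hS : StSer) (hB : StBasic) (hHub : StHub) (hHh : StHh) (hBn : StBn) : StF0 := by
  intro d C₁ B c₀ CL hE c R hR ε k₀ hε
  obtain ⟨-, hcr, hmr0, -, -, -, -⟩ := hS d C₁ B c₀ CL hE
  have hp0 : (0 : ℝ) ≤ pH d := hE.env.p0.le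
  have hp1 : pH d ≤ 1 := by linarith [hE.half]
  have hR0 := hR.pos
  obtain ⟨K, hK1, hK⟩ := hR.sub (R / 2) (by linarith) (by linarith)
  set θ : ℝ := R + ε / 2 with hθ
  have hθ0 : 0 ≤ θ := by linarith
  have hθ'0 : 0 < R / 2 := by linarith
  obtain ⟨CE0, hCE0, hCE⟩ := geo ε hε
  have hC1 := hE.env.hC
  -- the partial sums diverge
  have hc0 : ∀ r, 0 ≤ c r := fun r => by
    refine ge_of_tendsto' (hR.lim r) fun n => ?_
    rw [hcr]
    unfold av
    exact div_nonneg (Finset.sum_nonneg fun x _ => hmr0 n r x) (by positivity)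
  have hnot := hR.sup θ (by linarith)
  rw [not_summable_iff_tendsto_nat_atTop_of_nonneg (fun r => mul_nonneg (hc0 r) (pow_nonneg hθ0 r))] at hnot
  set M : ℝ := C₁ * Real.exp (θ * k₀) + Real.exp θ * CE0 + 2 with hM
  obtain ⟨N, hN⟩ := (hnot.eventually_ge_atTop (M + 1)).exists
  obtain ⟨CN, hCN0, hCN⟩ := pn_bound N θ (R / 2) hθ0 hθ'0
  -- the choice of `k₂`
  obtain ⟨k₂, hk₂0, hk₂⟩ : ∃ k₂ : ℕ, k₀ ≤ k₂ ∧ CN * Real.exp (-(R / 2 * k₂ / 2)) * K ≤ 1 := by
    have h1 : Tendsto (fun k : ℕ => CN * Real.exp (-(R / 2 * k / 2)) * K) atTop (𝓝 (CN * 0 * K)) := by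
      refine Tendsto.mul_const _ (Tendsto.const_mul _ ?_)
      have h2 : Tendsto (fun k : ℕ => R / 4 * (k : ℝ)) atTop atTop :=
        tendsto_natCast_atTop_atTop.const_mul_atTop (by linarith)
      have h3 := Real.tendsto_exp_neg_atTop_nhds_zero.comp h2
      refine h3.congr fun k => ?_
      simp only [Function.comp]
      congr 1
      ring
    rw [mul_zero, zero_mul] at h1
    have h4 := (h1.eventually (gt_mem_nhds (show (0 : ℝ) < 1 by norm_num))).and (eventually_ge_atTop k₀)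
    obtain ⟨k, hk1, hk2⟩ := h4.exists
    exact ⟨k, hk2, hk1.le⟩
  -- the choice of `n₀`
  obtain ⟨n₁, hn₁⟩ : ∃ n₁ : ℕ, ∀ n ≥ n₁, M ≤ ∑ r ∈ Finset.range N, cr d n r (fun _ => 1) * θ ^ r := by
    have h1 : Tendsto (fun n : ℕ => ∑ r ∈ Finset.range N, cr d n r (fun _ => 1) * θ ^ r) atTop
        (𝓝 (∑ r ∈ Finset.range N, c r * θ ^ r)) :=
      tendsto_finset_sum _ fun r _ => (hR.lim r).mul_const _
    have h2 : M < ∑ r ∈ Finset.range N, c r * θ ^ r := by linarith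
    exact eventually_atTop.1 ((h1.eventually (lt_mem_nhds h2)).mono fun n hn => hn.le)
  refine ⟨k₂, max n₁ 1, hk₂0, le_max_right _ _, ?_⟩
  intro n hn
  have hn1 : 1 ≤ n := (le_max_right _ _).trans hn
  have hnR : (0 : ℝ) < n := by exact_mod_cast hn1
  by_contra hcon
  push Not at hcon
  have hlow := hn₁ n ((le_max_left _ _).trans hn)
  obtain ⟨bmono, bconst, badd, bsub, bmul, bsum, -⟩ := hB (Zd d) (ES (Bn d n)) (pH d) hp0 hp1
  obtain ⟨hFG, hcard, -⟩ := hBn d n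
  -- the sum as an average
  have e1 : ∑ r ∈ Finset.range N, cr d n r (fun _ => 1) * θ ^ r =
      av d n (fun x => ∑ r ∈ Finset.range N, θ ^ r * mr d n r x) := by
    rw [av_sum]
    refine Finset.sum_congr rfl fun r _ => ?_
    rw [av_smul, hcr, mul_comm]
  -- the bound at each point
  have e2 : ∀ x ∈ Bn d n, ∑ r ∈ Finset.range N, θ ^ r * mr d n r x ≤
      C₁ * Real.exp (θ * k₀) + ∑ k ∈ Finset.Icc k₀ k₂, ((k : ℝ) + 1) * Real.exp (θ * ((k : ℝ) + 1)) *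
        uk d n k x + 1 := by
    intro x hx
    have f1 : ∑ r ∈ Finset.range N, θ ^ r * mr d n r x =
        ex (ES (Bn d n)) (pH d) (fun ω => ∑ r ∈ Finset.range N,
          θ ^ r * ((XB d n ω x : ℝ) ^ (r + 1) / ((n : ℝ) ^ (2 + 4 * r) * (r.factorial : ℝ)))) := by
      rw [bsum]
      refine Finset.sum_congr rfl fun r _ => ?_
      rw [bmul]
      congr 1
      unfold mr eb
      rw [div_eq_inv_mul, ← bmul]
      congr 1
      funext ω
      rw [div_eq_inv_mul]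
    rw [f1]
    refine (bmono _ _ fun ω _ => pointwise N k₀ k₂ n (XB d n ω x) θ (R / 2) CN hn1 hθ0 hθ'0 hCN0 hCN).trans ?_
    rw [badd, badd, bmul, bsum, bmul]
    have g1 : ex (ES (Bn d n)) (pH d) (fun ω => (XB d n ω x : ℝ) / (n : ℝ) ^ 2) ≤ C₁ := by
      have h1 := hHub d C₁ B c₀ hE.env n hn1 x hx
      rw [(hHh (Zd d) (Bn d n) (ES (Bn d n)) (2 * d) (pH d) hFG hp0 hp1).1 x] at h1
      have h2 : (fun ω : Finset (Sym2 (Zd d)) => (XB d n ω x : ℝ) / (n : ℝ) ^ 2) =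
          fun ω => ((n : ℝ) ^ 2)⁻¹ * (Xc (Bn d n) ω x : ℝ) := by
        funext ω
        rw [div_eq_inv_mul]
        rfl
      rw [h2, bmul, inv_mul_le_iff₀ (by positivity), mul_comm]
      exact h1
    have g2 : ∀ k ∈ Finset.Icc k₀ k₂, ex (ES (Bn d n)) (pH d) (fun ω => ((k : ℝ) + 1) * Real.exp (θ * ((k : ℝ) + 1)) *
        ((n : ℝ) ^ 2 * ind (k * n ^ 4 ≤ XB d n ω x))) =
        ((k : ℝ) + 1) * Real.exp (θ * ((k : ℝ) + 1)) * uk d n k x := by
      intro k _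
      rw [bmul, bmul]
      rfl
    rw [Finset.sum_congr rfl g2]
    have g3 : ex (ES (Bn d n)) (pH d) (fun ω => (XB d n ω x : ℝ) *
        Real.exp (R / 2 * XB d n ω x / (n : ℝ) ^ 4) / (n : ℝ) ^ 2) ≤ K := by
      have h1 := hK n hn1 x hx
      unfold sn eb at h1
      have h2 : (fun ω : Finset (Sym2 (Zd d)) => (XB d n ω x : ℝ) *
          Real.exp (R / 2 * XB d n ω x / (n : ℝ) ^ 4) / (n : ℝ) ^ 2) =
          fun ω => ((n : ℝ) ^ 2)⁻¹ * ((XB d n ω x : ℝ) * Real.exp (R / 2 * XB d n ω x / (n : ℝ) ^ 4)) := by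
        funext ω
        rw [div_eq_inv_mul]
      rw [h2, bmul, ← div_eq_inv_mul]
      exact h1
    have g4 : CN * Real.exp (-(R / 2 * k₂ / 2)) * ex (ES (Bn d n)) (pH d) (fun ω => (XB d n ω x : ℝ) *
        Real.exp (R / 2 * XB d n ω x / (n : ℝ) ^ 4) / (n : ℝ) ^ 2) ≤ 1 :=
      (mul_le_mul_of_nonneg_left g3 (by positivity)).trans hk₂
    have g5 : Real.exp (θ * k₀) * ex (ES (Bn d n)) (pH d) (fun ω => (XB d n ω x : ℝ) / (n : ℝ) ^ 2) ≤
        C₁ * Real.exp (θ * k₀) := by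
      rw [mul_comm C₁]
      exact mul_le_mul_of_nonneg_left g1 (Real.exp_pos _).le
    linarith
  have e3 := av_mono e2
  rw [← e1, av_add, av_add, av_const hBn hn1, av_const hBn hn1, av_sum] at e3
  -- the middle term
  have e4 : ∑ k ∈ Finset.Icc k₀ k₂, av d n (fun x => ((k : ℝ) + 1) * Real.exp (θ * ((k : ℝ) + 1)) * uk d n k x) ≤
      Real.exp θ * CE0 := by
    have h1 : ∀ k ∈ Finset.Icc k₀ k₂, av d n (fun x => ((k : ℝ) + 1) * Real.exp (θ * ((k : ℝ) + 1)) * uk d n k x) ≤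
        Real.exp θ * (((k : ℝ) + 1) * Real.exp (-(ε * k / 2))) := by
      intro k hk
      rw [Finset.mem_Icc] at hk
      rw [av_smul]
      have h2 := (hcon k hk.1 hk.2).le
      refine (mul_le_mul_of_nonneg_left h2 (by positivity)).trans (le_of_eq ?_)
      have h3 : Real.exp (θ * ((k : ℝ) + 1)) * Real.exp (-((R + ε) * k)) = Real.exp θ * Real.exp (-(ε * k / 2)) := by
        rw [← Real.exp_add, ← Real.exp_add]
        congr 1
        rw [hθ]
        ring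
      calc ((k : ℝ) + 1) * Real.exp (θ * ((k : ℝ) + 1)) * Real.exp (-((R + ε) * k))
          = ((k : ℝ) + 1) * (Real.exp (θ * ((k : ℝ) + 1)) * Real.exp (-((R + ε) * k))) := by ring
        _ = _ := by rw [h3]; ring
    refine (Finset.sum_le_sum h1).trans ?_
    rw [← Finset.mul_sum]
    exact mul_le_mul_of_nonneg_left (hCE _) (Real.exp_pos _).le
  linarith

end Pool.CM
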