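import Pool.Agent.Helper22.CM.St2
import Pool.Agent.Helper22.CM.M_F0

/-!
# Project CM, module F0S: the tail is not too small, source set version
-/

set_option autoImplicit false

open scoped BigOperators ENNReal Topology
open Pool.LE Pool.NL Pool.CL Filter MeasureTheory

namespace Pool.CM

namespace F0S

theorem Xc_mono {V : Type} [DecidableEq V] {A L : Finset V} (h : A ⊆ L)
    (ω : Finset (Sym2 V)) (x : V) : Xc A ω x ≤ Xc L ω x := by
  classical
  unfold Xc clu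
  exact Finset.card_le_card (Finset.filter_subset_filter _ h)

end F0S

open F0 in
/-- G30 -/
theorem hF0S (hUk : StUkS) (hB : StBasic) (hHub : StHub) (hHh : StHh) (hBn : StBn) : StF0S := by
  classical
  intro d C₁ B c₀ CL hE l S c R₁ R₂ hR ε k₀ hε
  rcases eq_or_neBot l with hl | hl
  · subst hl
    exact ⟨k₀, le_rfl, eventually_bot⟩
  have hp0 : (0 : ℝ) ≤ pH d := hE.env.p0.le
  have hp1 : pH d ≤ 1 := by linarith [hE.half]
  have hR1 := hR.pos
  have hR12 := hR.le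
  obtain ⟨K, hK1, hK⟩ := hR.bd (R₁ / 2) (by linarith) (by linarith)
  set θ : ℝ := R₂ + ε / 2 with hθ
  have hθ0 : 0 ≤ θ := by linarith
  have hθ'0 : 0 < R₁ / 2 := by linarith
  obtain ⟨CE0, hCE0, hCE⟩ := geo ε hε
  have hC1 := hE.env.hC
  -- nonnegative moments
  have hmr0 : ∀ (n r : ℕ) (x : Zd d), 0 ≤ mrS d n (S n) r x := by
    intro n r x
    obtain ⟨bmono, bconst, -⟩ := hB (Zd d) (ES (Bn d n)) (pH d) hp0 hp1
    unfold mrS eb
    refine div_nonneg ?_ (by positivity)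
    have h1 := bmono (fun _ => 0) (fun ω => (Xc (S n) ω x : ℝ) ^ (r + 1)) (fun ω _ => by positivity)
    rw [bconst] at h1
    exact h1
  -- the partial sums diverge
  have hc0 : ∀ r, 0 ≤ c r := fun r => by
    refine ge_of_tendsto' (hR.lim r) fun n => ?_
    unfold av
    exact div_nonneg (Finset.sum_nonneg fun x _ => hmr0 n r x) (by positivity)
  have hnot := hR.dv θ (by linarith)
  rw [not_summable_iff_tendsto_nat_atTop_of_nonneg (fun r => mul_nonneg (hc0 r) (pow_nonneg hθ0 r))] at hnot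
  set M : ℝ := C₁ * Real.exp (θ * k₀) + Real.exp θ * CE0 + 2 with hM
  obtain ⟨N, hN⟩ := (hnot.eventually_ge_atTop (M + 1)).exists
  obtain ⟨CN, hCN0, hCN⟩ := pn_bound N θ (R₁ / 2) hθ0 hθ'0
  -- the choice of `k₂`
  obtain ⟨k₂, hk₂0, hk₂⟩ : ∃ k₂ : ℕ, k₀ ≤ k₂ ∧ CN * Real.exp (-(R₁ / 2 * k₂ / 2)) * K ≤ 1 := by
    have h1 : Tendsto (fun k : ℕ => CN * Real.exp (-(R₁ / 2 * k / 2)) * K) atTop (𝓝 (CN * 0 * K)) := by
      refine Tendsto.mul_const _ (Tendsto.const_mul _ ?_)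
      have h2 : Tendsto (fun k : ℕ => R₁ / 4 * (k : ℝ)) atTop atTop :=
        tendsto_natCast_atTop_atTop.const_mul_atTop (by linarith)
      have h3 := Real.tendsto_exp_neg_atTop_nhds_zero.comp h2
      refine h3.congr fun k => ?_
      simp only [Function.comp]
      congr 1
      ring
    rw [mul_zero, zero_mul] at h1
    have h4 := (h1.eventually (gt_mem_nhds (show (0 : ℝ) < 1 by norm_num))).and (eventually_ge_atTop k₀)
    obtain ⟨k, hk1, hk2⟩ := h4.exists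
    exact ⟨k, hk2, hk1.le⟩
  -- eventually the partial sum is large
  have hn₁ : ∀ᶠ n : ℕ in l, M ≤ ∑ r ∈ Finset.range N, av d n (mrS d n (S n) r) * θ ^ r := by
    have h1 : Tendsto (fun n : ℕ => ∑ r ∈ Finset.range N, av d n (mrS d n (S n) r) * θ ^ r) l
        (𝓝 (∑ r ∈ Finset.range N, c r * θ ^ r)) :=
      tendsto_finset_sum _ fun r _ => (hR.lim r).mul_const _
    have h2 : M < ∑ r ∈ Finset.range N, c r * θ ^ r := by linarith
    exact (h1.eventually (lt_mem_nhds h2)).mono fun n hn => hn.le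
  have hn1' : ∀ᶠ n : ℕ in l, 1 ≤ n := hR.fil (eventually_ge_atTop 1)
  refine ⟨k₂, hk₂0, ?_⟩
  filter_upwards [hn₁, hn1', hK] with n hlow hn1 hKn
  have hnR : (0 : ℝ) < n := by exact_mod_cast hn1
  by_contra hcon
  push Not at hcon
  obtain ⟨bmono, bconst, badd, bsub, bmul, bsum, -⟩ := hB (Zd d) (ES (Bn d n)) (pH d) hp0 hp1
  obtain ⟨hFG, hcard, -⟩ := hBn d n
  -- the sum as an average
  have e1 : ∑ r ∈ Finset.range N, av d n (mrS d n (S n) r) * θ ^ r =
      av d n (fun x => ∑ r ∈ Finset.range N, θ ^ r * mrS d n (S n) r x) := by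
    rw [av_sum]
    refine Finset.sum_congr rfl fun r _ => ?_
    rw [av_smul, mul_comm]
  -- the bound at each point
  have e2 : ∀ x ∈ Bn d n, ∑ r ∈ Finset.range N, θ ^ r * mrS d n (S n) r x ≤
      C₁ * Real.exp (θ * k₀) + ∑ k ∈ Finset.Icc k₀ k₂, ((k : ℝ) + 1) * Real.exp (θ * ((k : ℝ) + 1)) *
        ukS d n (S n) k x + 1 := by
    intro x hx
    have f1 : ∑ r ∈ Finset.range N, θ ^ r * mrS d n (S n) r x =
        ex (ES (Bn d n)) (pH d) (fun ω => ∑ r ∈ Finset.range N,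
          θ ^ r * ((Xc (S n) ω x : ℝ) ^ (r + 1) / ((n : ℝ) ^ (2 + 4 * r) * (r.factorial : ℝ)))) := by
      rw [bsum]
      refine Finset.sum_congr rfl fun r _ => ?_
      rw [bmul]
      congr 1
      unfold mrS eb
      rw [div_eq_inv_mul, ← bmul]
      congr 1
      funext ω
      rw [div_eq_inv_mul]
    rw [f1]
    refine (bmono _ _ fun ω _ => pointwise N k₀ k₂ n (Xc (S n) ω x) θ (R₁ / 2) CN hn1 hθ0 hθ'0 hCN0 hCN).trans ?_
    rw [badd, badd, bmul, bsum, bmul]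
    have g1 : ex (ES (Bn d n)) (pH d) (fun ω => (Xc (S n) ω x : ℝ) / (n : ℝ) ^ 2) ≤ C₁ := by
      have h1 := hHub d C₁ B c₀ hE.env n hn1 x hx
      rw [(hHh (Zd d) (Bn d n) (ES (Bn d n)) (2 * d) (pH d) hFG hp0 hp1).1 x] at h1
      have h2 : (fun ω : Finset (Sym2 (Zd d)) => (Xc (S n) ω x : ℝ) / (n : ℝ) ^ 2) =
          fun ω => ((n : ℝ) ^ 2)⁻¹ * (Xc (S n) ω x : ℝ) := by
        funext ω
        rw [div_eq_inv_mul]
      rw [h2, bmul, inv_mul_le_iff₀ (by positivity), mul_comm]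
      refine le_trans (bmono _ _ fun ω _ => ?_) h1
      exact_mod_cast F0S.Xc_mono (hR.sub n) ω x
    have g2 : ∀ k ∈ Finset.Icc k₀ k₂, ex (ES (Bn d n)) (pH d) (fun ω => ((k : ℝ) + 1) * Real.exp (θ * ((k : ℝ) + 1)) *
        ((n : ℝ) ^ 2 * ind (k * n ^ 4 ≤ Xc (S n) ω x))) =
        ((k : ℝ) + 1) * Real.exp (θ * ((k : ℝ) + 1)) * ukS d n (S n) k x := by
      intro k _
      rw [bmul, bmul]
      rfl
    rw [Finset.sum_congr rfl g2]
    have g3 : ex (ES (Bn d n)) (pH d) (fun ω => (Xc (S n) ω x : ℝ) *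
        Real.exp (R₁ / 2 * Xc (S n) ω x / (n : ℝ) ^ 4) / (n : ℝ) ^ 2) ≤ K := by
      have h1 := hKn x hx
      unfold snS eb at h1
      have h2 : (fun ω : Finset (Sym2 (Zd d)) => (Xc (S n) ω x : ℝ) *
          Real.exp (R₁ / 2 * Xc (S n) ω x / (n : ℝ) ^ 4) / (n : ℝ) ^ 2) =
          fun ω => ((n : ℝ) ^ 2)⁻¹ * ((Xc (S n) ω x : ℝ) * Real.exp (R₁ / 2 * Xc (S n) ω x / (n : ℝ) ^ 4)) := by
        funext ω
        rw [div_eq_inv_mul]
      rw [h2, bmul, ← div_eq_inv_mul]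
      exact h1
    have g4 : CN * Real.exp (-(R₁ / 2 * k₂ / 2)) * ex (ES (Bn d n)) (pH d) (fun ω => (Xc (S n) ω x : ℝ) *
        Real.exp (R₁ / 2 * Xc (S n) ω x / (n : ℝ) ^ 4) / (n : ℝ) ^ 2) ≤ 1 :=
      (mul_le_mul_of_nonneg_left g3 (by positivity)).trans hk₂
    have g5 : Real.exp (θ * k₀) * ex (ES (Bn d n)) (pH d) (fun ω => (Xc (S n) ω x : ℝ) / (n : ℝ) ^ 2) ≤
        C₁ * Real.exp (θ * k₀) := by
      rw [mul_comm C₁]
      exact mul_le_mul_of_nonneg_left g1 (Real.exp_pos _).le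
    linarith
  have e3 := av_mono e2
  rw [← e1, av_add, av_add, av_const hBn hn1, av_const hBn hn1, av_sum] at e3
  -- the middle term
  have e4 : ∑ k ∈ Finset.Icc k₀ k₂, av d n (fun x => ((k : ℝ) + 1) * Real.exp (θ * ((k : ℝ) + 1)) * ukS d n (S n) k x) ≤
      Real.exp θ * CE0 := by
    have h1 : ∀ k ∈ Finset.Icc k₀ k₂, av d n (fun x => ((k : ℝ) + 1) * Real.exp (θ * ((k : ℝ) + 1)) * ukS d n (S n) k x) ≤
        Real.exp θ * (((k : ℝ) + 1) * Real.exp (-(ε * k / 2))) := by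
      intro k hk
      rw [Finset.mem_Icc] at hk
      rw [av_smul]
      have h2 := (hcon k hk.1 hk.2).le
      refine (mul_le_mul_of_nonneg_left h2 (by positivity)).trans (le_of_eq ?_)
      have h3 : Real.exp (θ * ((k : ℝ) + 1)) * Real.exp (-((R₂ + ε) * k)) = Real.exp θ * Real.exp (-(ε * k / 2)) := by
        rw [← Real.exp_add, ← Real.exp_add]
        congr 1
        rw [hθ]
        ring
      calc ((k : ℝ) + 1) * Real.exp (θ * ((k : ℝ) + 1)) * Real.exp (-((R₂ + ε) * k))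
          = ((k : ℝ) + 1) * (Real.exp (θ * ((k : ℝ) + 1)) * Real.exp (-((R₂ + ε) * k))) := by ring
        _ = _ := by rw [h3]; ring
    refine (Finset.sum_le_sum h1).trans ?_
    rw [← Finset.mul_sum]
    exact mul_le_mul_of_nonneg_left (hCE _) (Real.exp_pos _).le
  linarith

end Pool.CM
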