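import Pool.Agent.Helper22.CM.St2

/-!
# Project CM (MP_65faa7), module F1S: a good level (source sets)
-/

set_option autoImplicit false

open scoped BigOperators ENNReal Topology
open Pool.LE Pool.NL Pool.CL Filter MeasureTheory

namespace Pool.CM

namespace F1S

/-- A chain of inequalities. -/
theorem chain (f : ℕ → ℝ) (q : ℝ) (a b : ℕ) (h : ∀ k, a ≤ k → k < b → Real.exp q * f (k + 1) ≤ f k) :
    ∀ j, a ≤ j → j ≤ b → Real.exp (q * ((j : ℝ) - a)) * f j ≤ f a := by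
  intro j haj
  induction j, haj using Nat.le_induction with
  | base =>
    intro _
    rw [sub_self, mul_zero, Real.exp_zero, one_mul]
  | succ j haj ih =>
    intro hjb
    have h1 := ih (by omega)
    have h2 := h j haj (by omega)
    have h3 : Real.exp (q * (((j + 1 : ℕ) : ℝ) - a)) = Real.exp (q * ((j : ℝ) - a)) * Real.exp q := by
      rw [← Real.exp_add]
      congr 1
      push_cast
      ring
    rw [h3, mul_assoc]
    exact (mul_le_mul_of_nonneg_left h2 (Real.exp_nonneg _)).trans h1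

/-- The arithmetic of the choice of the level. -/
theorem arith {g R₁ R₂ e₁ e₂ lK k₁ ka : ℝ} (hg : g = R₂ - R₁) (hg0 : 0 ≤ g) (he₁ : 0 < e₁) (hR₂ : 0 < R₂)
    (he₂ : e₂ = (g + 2 * e₁) / (2 * R₂)) (hk₁ : 0 ≤ k₁) (hka : ka ≤ (1 - e₂) * k₁ + 1) (hka₁ : ka ≤ k₁)
    (hbig : 2 * lK + 6 * R₂ < 2 * e₁ * k₁)
    (hlog : 8 * R₂ * (k₁ - ka) - 2 * (R₂ + e₁) * k₁ ≤ 2 * lK - 2 * (R₁ - e₁) * ka) : False := by
  have h1 : 6 * R₂ * (k₁ - ka) ≤ 2 * lK + (2 * g + 4 * e₁) * k₁ := by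
    have h2 : (g + e₁) * ka ≤ (g + e₁) * k₁ := mul_le_mul_of_nonneg_left hka₁ (by linarith)
    have h3 : R₁ = R₂ - g := by rw [hg]; ring
    rw [h3] at hlog
    nlinarith
  have h4 : 6 * R₂ * e₂ = 3 * g + 6 * e₁ := by
    rw [he₂]
    field_simp
    ring
  have h5 : e₂ * k₁ - 1 ≤ k₁ - ka := by linarith
  have h6 : 6 * R₂ * (e₂ * k₁ - 1) ≤ 6 * R₂ * (k₁ - ka) := mul_le_mul_of_nonneg_left h5 (by positivity)
  have h7 : 6 * R₂ * (e₂ * k₁ - 1) = (3 * g + 6 * e₁) * k₁ - 6 * R₂ := by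
    rw [← h4]; ring
  have h8 : 0 ≤ g * k₁ := mul_nonneg hg0 hk₁
  nlinarith

end F1S

/-- G31 -/
theorem hF1S (hF0 : StF0S) (hUk : StUkS) : StF1S := by
  intro d C₁ B c₀ CL hE l S c R₁ R₂ hR ε k₀ hε
  have hR₁ : 0 < R₁ := hR.pos
  have hR₂ : 0 < R₂ := lt_of_lt_of_le hR.pos hR.le
  set g : ℝ := R₂ - R₁ with hg
  have hg0 : 0 ≤ g := sub_nonneg.2 hR.le
  have hg2 : 2 * g ≤ R₂ := hR.near
  obtain ⟨e₁, he₁, he₁ε, he₁R₂, he₁R₁⟩ : ∃ e₁ : ℝ, 0 < e₁ ∧ e₁ ≤ ε / 5 ∧ e₁ ≤ R₂ / 4 ∧ e₁ ≤ R₁ / 2 :=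
    ⟨min (ε / 5) (min (R₂ / 4) (R₁ / 2)), by positivity, min_le_left _ _,
      (min_le_right _ _).trans (min_le_left _ _), (min_le_right _ _).trans (min_le_right _ _)⟩
  have hθ0 : 0 ≤ R₁ - e₁ := by linarith
  obtain ⟨K, hK, hKev⟩ := hR.bd (R₁ - e₁) hθ0 (by linarith)
  set e₂ : ℝ := (g + 2 * e₁) / (2 * R₂) with he₂
  have he₂0 : 0 < e₂ := by positivity
  have he₂h : e₂ ≤ 1 / 2 := by
    rw [he₂, div_le_iff₀ (by positivity)]
    linarith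
  obtain ⟨k₀', hk₀'⟩ := exists_nat_gt (max (2 * (k₀ : ℝ) + 4) ((2 * Real.log K + 6 * R₂) / (2 * e₁)))
  have hk₀1 : 2 * (k₀ : ℝ) + 4 < k₀' := lt_of_le_of_lt (le_max_left _ _) hk₀'
  have hk₀2 : 2 * Real.log K + 6 * R₂ < 2 * e₁ * k₀' := by
    have h1 := lt_of_le_of_lt (le_max_right _ _) hk₀'
    rw [div_lt_iff₀ (by positivity)] at h1
    linarith
  obtain ⟨k₂, hk₂, hev⟩ := hF0 d C₁ B c₀ CL hE l S c R₁ R₂ hR e₁ k₀' he₁
  have hk₀₂ : k₀ ≤ k₂ := by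
    have h1 : (k₀ : ℝ) ≤ k₀' := by
      have : (0 : ℝ) ≤ k₀ := Nat.cast_nonneg _
      linarith
    have h2 : k₀ ≤ k₀' := by exact_mod_cast h1
    omega
  refine ⟨k₂, hk₀₂, ?_⟩
  have hn1 : ∀ᶠ n : ℕ in l, 1 ≤ n := hR.fil (eventually_ge_atTop 1)
  filter_upwards [hev, hKev, hn1] with n hn hKn hn1
  obtain ⟨k₁, hk₁, hk₁₂, hav⟩ := hn
  obtain ⟨-, -, -, hu4, hu5, hu6, hu7⟩ := hUk d C₁ B c₀ CL hE n (S n) hn1 (hR.sub n)
  have hk₁r : (k₀' : ℝ) ≤ k₁ := by exact_mod_cast hk₁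
  have hk₁0 : (0 : ℝ) ≤ k₁ := Nat.cast_nonneg _
  -- lower bound at `k₁`
  have hlow : Real.exp (-(2 * (R₂ + e₁) * k₁)) ≤ ph2S d n (S n) k₁ := by
    refine le_trans ?_ (hu6 k₁)
    have h1 : Real.exp (-(2 * (R₂ + e₁) * k₁)) = (Real.exp (-((R₂ + e₁) * k₁))) ^ 2 := by
      rw [← Real.exp_nat_mul]
      congr 1
      push_cast
      ring
    rw [h1]
    exact pow_le_pow_left₀ (Real.exp_nonneg _) hav 2
  -- the lower level
  set ka : ℕ := ⌈(1 - e₂) * (k₁ : ℝ)⌉₊ with hka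
  have hka1 : (1 - e₂) * (k₁ : ℝ) ≤ ka := Nat.le_ceil _
  have hka2 : (ka : ℝ) ≤ (1 - e₂) * k₁ + 1 := by
    have := Nat.ceil_lt_add_one (a := (1 - e₂) * (k₁ : ℝ)) (by
      apply mul_nonneg _ hk₁0
      linarith)
    exact this.le
  have hka3 : ka ≤ k₁ := by
    rw [hka]
    apply Nat.ceil_le.2
    have : 0 ≤ e₂ * k₁ := by positivity
    nlinarith
  have hka3r : (ka : ℝ) ≤ k₁ := by exact_mod_cast hka3
  have hka4 : (k₀ : ℝ) + 2 ≤ ka := by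
    have h1 : (1 / 2 : ℝ) * k₁ ≤ (1 - e₂) * k₁ := mul_le_mul_of_nonneg_right (by linarith) hk₁0
    linarith
  have hka5 : k₀ + 2 ≤ ka := by exact_mod_cast hka4
  obtain ⟨k, hk1, hk2, hk3⟩ : ∃ k, ka ≤ k ∧ k < k₁ ∧
      ph2S d n (S n) k ≤ Real.exp (8 * R₂) * ph2S d n (S n) (k + 1) := by
    by_contra hcon
    push Not at hcon
    have h1 := F1S.chain (fun k => ph2S d n (S n) k) (8 * R₂) ka k₁
      (fun k hk1 hk2 => (hcon k hk1 hk2).le) k₁ hka3 le_rfl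
    have h2 : ph2S d n (S n) ka ≤ (K * Real.exp (-((R₁ - e₁) * ka))) ^ 2 :=
      hu7 ka _ (hu4 ka (R₁ - e₁) K (by omega) hθ0 hKn)
    have h3 : Real.exp (8 * R₂ * ((k₁ : ℝ) - ka) - 2 * (R₂ + e₁) * k₁) ≤
        Real.exp (2 * Real.log K - 2 * (R₁ - e₁) * ka) := by
      calc Real.exp (8 * R₂ * ((k₁ : ℝ) - ka) - 2 * (R₂ + e₁) * k₁)
          = Real.exp (8 * R₂ * ((k₁ : ℝ) - ka)) * Real.exp (-(2 * (R₂ + e₁) * k₁)) := by
            rw [← Real.exp_add]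
            congr 1
        _ ≤ Real.exp (8 * R₂ * ((k₁ : ℝ) - ka)) * ph2S d n (S n) k₁ :=
            mul_le_mul_of_nonneg_left hlow (Real.exp_nonneg _)
        _ ≤ ph2S d n (S n) ka := h1
        _ ≤ (K * Real.exp (-((R₁ - e₁) * ka))) ^ 2 := h2
        _ = Real.exp (2 * Real.log K - 2 * (R₁ - e₁) * ka) := by
            rw [mul_pow, ← Real.exp_nat_mul]
            have h4 : K ^ 2 = Real.exp (2 * Real.log K) := by
              rw [two_mul, Real.exp_add, Real.exp_log (by linarith)]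
              ring
            rw [h4, ← Real.exp_add]
            congr 1
            push_cast
            ring
    rw [Real.exp_le_exp] at h3
    have h5 : 2 * Real.log K + 6 * R₂ < 2 * e₁ * k₁ := by
      have : 2 * e₁ * (k₀' : ℝ) ≤ 2 * e₁ * k₁ := mul_le_mul_of_nonneg_left hk₁r (by positivity)
      linarith
    exact F1S.arith hg hg0 he₁ hR₂ he₂ hk₁0 hka2 hka3r h5 h3
  refine ⟨k, by omega, by omega, ?_, hk3⟩
  have h1 : ph2S d n (S n) k₁ ≤ ph2S d n (S n) (k + 1) := hu5 (k + 1) k₁ (by omega)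
  refine le_trans ?_ (hlow.trans h1)
  rw [Real.exp_le_exp, neg_le_neg_iff]
  have hk1r : (ka : ℝ) ≤ k := by exact_mod_cast hk1
  have h2 : (1 - e₂) * (k₁ : ℝ) ≤ (k : ℝ) + 1 := by linarith
  have h3 : R₂ + e₁ ≤ (R₂ + 2 * g + ε) * (1 - e₂) := by
    have h4 : e₂ * R₂ = (g + 2 * e₁) / 2 := by
      rw [he₂]
      field_simp
    have h5 : R₂ + 2 * g + 5 * e₁ ≤ R₂ + 2 * g + ε := by linarith
    have h6 : (R₂ + 2 * g + 5 * e₁) * (1 - e₂) ≤ (R₂ + 2 * g + ε) * (1 - e₂) :=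
      mul_le_mul_of_nonneg_right h5 (by linarith)
    have h7 : e₂ * (2 * g + 5 * e₁) ≤ (1 / 2) * (2 * g + 5 * e₁) :=
      mul_le_mul_of_nonneg_right he₂h (by linarith)
    nlinarith
  have h8 : (R₂ + e₁) * k₁ ≤ (R₂ + 2 * g + ε) * ((k : ℝ) + 1) := by
    calc (R₂ + e₁) * k₁ ≤ (R₂ + 2 * g + ε) * (1 - e₂) * k₁ := mul_le_mul_of_nonneg_right h3 hk₁0
      _ = (R₂ + 2 * g + ε) * ((1 - e₂) * k₁) := by ring
      _ ≤ (R₂ + 2 * g + ε) * ((k : ℝ) + 1) := mul_le_mul_of_nonneg_left h2 (by linarith)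
  linarith

end Pool.CM
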