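import Pool.Agent.Helper22.CM.XA

/-! # Project CM (MP_65faa7): module LocBS (local comparison in the box) -/

set_option autoImplicit false
set_option linter.unusedSectionVars false

open scoped BigOperators ENNReal Topology
open Pool.LE Pool.NL Pool.CL Filter MeasureTheory

namespace Pool.CM

theorem hLocBS (hL : StLocCS) (hHub : StHub) (hBn : StBn) (_hB : StBasic) (hHh : StHh) : StLocBS := by
  intro d C₁ B c₀ CL hE n k S hn hk hS a ha w hw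
  have hp0 : 0 ≤ pH d := hE.env.p0.le
  have hp1 : pH d ≤ 1 / 2 := hE.env.p1
  have hp1' : pH d ≤ 1 := le_trans hp1 (by norm_num)
  have hC : 1 ≤ C₁ := hE.env.hC
  have hFG := (hBn d n).1
  have hn0 : (0 : ℝ) < n := by exact_mod_cast hn
  have hn1 : (1 : ℝ) ≤ n := by exact_mod_cast hn
  have h1 : 1 ≤ n ^ 4 := Nat.one_le_pow _ _ hn
  have h2 : n ^ 4 ≤ (k + 1) * n ^ 4 := Nat.le_mul_of_pos_left _ (Nat.succ_pos k)
  obtain ⟨-, hcp, -, -, hhh⟩ := hHh (Zd d) (Bn d n) (ES (Bn d n)) (2 * d) (pH d) hFG hp0 hp1'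
  have key := hL (Zd d) (Bn d n) S (ES (Bn d n)) (2 * d) (pH d) hFG hS hp0 hp1 ((k + 1) * n ^ 4) (n ^ 4)
    h1 h2 a ha w hw
  have e1 : (k + 1) * n ^ 4 - n ^ 4 = k * n ^ 4 := by
    rw [Nat.add_mul, one_mul, Nat.add_sub_cancel]
  rw [e1] at key
  have hsub : ∀ z, hh S (ES (Bn d n)) (pH d) z ≤ hh (Bn d n) (ES (Bn d n)) (pH d) z := fun z =>
    Finset.sum_le_sum_of_subset_of_nonneg hS fun y _ _ => (hcp z y).2.1
  have hnn : ∀ z, 0 ≤ hh S (ES (Bn d n)) (pH d) z := fun z =>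
    Finset.sum_nonneg fun y _ => (hcp z y).2.1
  have e2 : ∑ z ∈ Bn d n, cp (ES (Bn d n)) (pH d) a z * (cp (ES (Bn d n)) (pH d) z w *
      pr (ES (Bn d n)) (pH d) (fun ω => k * n ^ 4 ≤ Xc S ω z)) =
      c2f d n (ukS d n S k) a w / (n : ℝ) ^ 2 := by
    unfold c2f
    rw [Finset.sum_div]
    refine Finset.sum_congr rfl fun z _ => ?_
    have h3 : ukS d n S k z = (n : ℝ) ^ 2 *
        pr (ES (Bn d n)) (pH d) (fun ω => k * n ^ 4 ≤ Xc S ω z) := rfl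
    have h4 : ∀ u v : Zd d, G0 d n u v = cp (ES (Bn d n)) (pH d) u v := fun _ _ => rfl
    rw [h3, h4, h4]
    field_simp
  rw [e2] at key
  have e3 : ∑ z ∈ Bn d n, ∑ z' ∈ Bn d n, cp (ES (Bn d n)) (pH d) a z *
      cp (ES (Bn d n)) (pH d) z z' * cp (ES (Bn d n)) (pH d) z' w *
        (hh S (ES (Bn d n)) (pH d) z * hh S (ES (Bn d n)) (pH d) z') ≤
      (C₁ * (n : ℝ) ^ 2) ^ 2 * c3 d n a w := by
    unfold c3
    rw [Finset.mul_sum]
    refine Finset.sum_le_sum fun z hz => ?_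
    rw [Finset.mul_sum]
    refine Finset.sum_le_sum fun z' hz' => ?_
    have h3 := (hsub z).trans (hHub d C₁ B c₀ hE.env n hn z hz)
    have h4 := (hsub z').trans (hHub d C₁ B c₀ hE.env n hn z' hz')
    have h6 := hnn z'
    have h7 : hh S (ES (Bn d n)) (pH d) z * hh S (ES (Bn d n)) (pH d) z' ≤
        (C₁ * (n : ℝ) ^ 2) ^ 2 := by
      rw [pow_two]
      exact mul_le_mul h3 h4 h6 (by positivity)
    have h8 : 0 ≤ cp (ES (Bn d n)) (pH d) a z * cp (ES (Bn d n)) (pH d) z z' *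
        cp (ES (Bn d n)) (pH d) z' w :=
      mul_nonneg (mul_nonneg (hcp a z).2.1 (hcp z z').2.1) (hcp z' w).2.1
    have h9 : G0 d n a z * G0 d n z z' * G0 d n z' w = cp (ES (Bn d n)) (pH d) a z *
        cp (ES (Bn d n)) (pH d) z z' * cp (ES (Bn d n)) (pH d) z' w := rfl
    rw [h9, mul_comm ((C₁ * (n : ℝ) ^ 2) ^ 2)]
    exact mul_le_mul_of_nonneg_left h7 h8
  have hc3 : 0 ≤ c3 d n a w := by
    unfold c3
    refine Finset.sum_nonneg fun z _ => Finset.sum_nonneg fun z' _ => ?_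
    exact mul_nonneg (mul_nonneg (hcp a z).2.1 (hcp z z').2.1) (hcp z' w).2.1
  have e4 : 2 / ((((k + 1) * n ^ 4 : ℕ) : ℝ) * ((n ^ 4 : ℕ) : ℝ)) ≤ 2 / ((n : ℝ) ^ 4 * (n : ℝ) ^ 4) := by
    push_cast
    refine div_le_div_of_nonneg_left (by norm_num) (by positivity) ?_
    refine mul_le_mul_of_nonneg_right ?_ (by positivity)
    have h3 : (0 : ℝ) ≤ k := Nat.cast_nonneg k
    have h4 : (0 : ℝ) ≤ (n : ℝ) ^ 4 := by positivity
    nlinarith
  have e5 : 2 / ((((k + 1) * n ^ 4 : ℕ) : ℝ) * ((n ^ 4 : ℕ) : ℝ)) *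
      ∑ z ∈ Bn d n, ∑ z' ∈ Bn d n, cp (ES (Bn d n)) (pH d) a z *
      cp (ES (Bn d n)) (pH d) z z' * cp (ES (Bn d n)) (pH d) z' w *
        (hh S (ES (Bn d n)) (pH d) z * hh S (ES (Bn d n)) (pH d) z') ≤
      2 * C₁ ^ 2 / (n : ℝ) ^ 4 * c3 d n a w := by
    have h3 : (0 : ℝ) ≤ 2 / ((((k + 1) * n ^ 4 : ℕ) : ℝ) * ((n ^ 4 : ℕ) : ℝ)) := by positivity
    have h4 : 0 ≤ (C₁ * (n : ℝ) ^ 2) ^ 2 * c3 d n a w := mul_nonneg (by positivity) hc3
    refine le_trans (mul_le_mul_of_nonneg_left e3 h3) (le_trans (mul_le_mul_of_nonneg_right e4 h4) ?_)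
    refine le_of_eq ?_
    field_simp
  exact le_trans key (add_le_add le_rfl e5)

end Pool.CM
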