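import Pool.Agent.Helper22.CM.St2
import Pool.Agent.Helper22.CM.M_Loss

/-!
# Project CM (MP_65faa7): module LossS
The loss in the pair estimate.
-/

set_option autoImplicit false

open scoped BigOperators ENNReal Topology
open Pool.LE Pool.NL Pool.CL Filter MeasureTheory

namespace Pool.CM

theorem LossS.pr_nn (hB : StBasic) {d : ℕ} (h0 : 0 ≤ pH d) (h1 : pH d ≤ 1) (n : ℕ)
    (A : Finset (Sym2 (Zd d)) → Prop) : 0 ≤ pr (ES (Bn d n)) (pH d) A := by
  obtain ⟨-, -, -, -, -, -, h, -⟩ := hB (Zd d) (ES (Bn d n)) (pH d) h0 h1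
  exact (h A).1

open Loss LossS in
theorem hLossS (hLB : StLocBS) (hK : StKpC) (hUk : StUkS) (hBn : StBn) (hB : StBasic) : StLossS := by
  intro d C₁ B c₀ CL hE
  have hEn := hE.env
  have hC := hEn.hC
  have hBB := hEn.hB
  have h0 := hEn.p0.le
  have h1 : pH d ≤ 1 := hEn.p1.trans (by norm_num)
  have hd := hEn.hd
  refine ⟨4 * C₁ ^ 3 * B + 4 * C₁ ^ 4 * B, by positivity, ?_⟩
  intro n k S hn hk hS v
  obtain ⟨k1, k2, k3⟩ := hK d C₁ B c₀ CL hE n hn
  obtain ⟨u1, -, u3, -, -, -, -⟩ := hUk d C₁ B c₀ CL hE n S hn hS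
  have hL := hLB d C₁ B c₀ CL hE n k S hn hk hS
  have hcard := (hBn d n).2.1
  have hG : ∀ x y, 0 ≤ G0 d n x y := G0_nonneg hB h0 h1 n
  have hgk : ∀ x y, 0 ≤ gkS d n S (k + 1) x y := fun x y => pr_nn hB h0 h1 n _
  have hN : (1 : ℝ) ≤ n := by exact_mod_cast hn
  have hN0 : (0 : ℝ) < n := by linarith
  set f := ukS d n S k with hf
  have hf0 : ∀ x, 0 ≤ f x := u1 k
  have hf1 : ∀ x ∈ Bn d n, f x ≤ C₁ := u3 k hk
  have c2n : ∀ a w, 0 ≤ c2 d n a w := fun a w =>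
    Finset.sum_nonneg fun z _ => mul_nonneg (hG _ _) (hG _ _)
  have c3n : ∀ a w, 0 ≤ c3 d n a w := fun a w =>
    Finset.sum_nonneg fun z _ => Finset.sum_nonneg fun z' _ =>
      mul_nonneg (mul_nonneg (hG _ _) (hG _ _)) (hG _ _)
  have c2fn : ∀ a w, 0 ≤ c2f d n f a w := fun a w =>
    Finset.sum_nonneg fun z _ => mul_nonneg (hG _ _) (mul_nonneg (hG _ _) (hf0 _))
  have c2f_le : ∀ a w, c2f d n f a w ≤ C₁ * c2 d n a w := by
    intro a w
    unfold c2f c2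
    rw [Finset.mul_sum]
    refine Finset.sum_le_sum fun z hz => ?_
    have h2 := mul_le_mul_of_nonneg_left (hf1 z hz) (mul_nonneg (hG a z) (hG z w))
    calc G0 d n a z * (G0 d n z w * f z) = G0 d n a z * G0 d n z w * f z := by ring
      _ ≤ G0 d n a z * G0 d n z w * C₁ := h2
      _ = C₁ * (G0 d n a z * G0 d n z w) := by ring
  -- one pair of points
  have hpair : ∀ a ∈ Bn d n, ∀ b ∈ Bn d n,
      ∑ w ∈ Bn d n, gkS d n S (k + 1) a w * gkS d n S (k + 1) b w ≤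
        (∑ w ∈ Bn d n, c2f d n f a w * c2f d n f b w) / (n : ℝ) ^ 4 +
          (4 * C₁ ^ 3 * B + 4 * C₁ ^ 4 * B) / (n : ℝ) ^ 6 := by
    intro a ha b hb
    have e1 : ∀ w ∈ Bn d n, gkS d n S (k + 1) a w * gkS d n S (k + 1) b w ≤
        c2f d n f a w * c2f d n f b w / (n : ℝ) ^ 4 +
          (2 * C₁ ^ 2 / (n : ℝ) ^ 6) * (C₁ * (c2 d n a w * c3 d n b w) +
            C₁ * (c2 d n b w * c3 d n a w)) +
          (4 * C₁ ^ 4 / (n : ℝ) ^ 8) * (c3 d n a w * c3 d n b w) := by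
      intro w hw
      have e2 := mul_le_mul (hL a ha w hw) (hL b hb w hw) (hgk b w)
        (by
          have := c2fn a w
          have := c3n a w
          positivity)
      refine e2.trans ?_
      have e3 : (c2f d n f a w / (n : ℝ) ^ 2 + 2 * C₁ ^ 2 / (n : ℝ) ^ 4 * c3 d n a w) *
          (c2f d n f b w / (n : ℝ) ^ 2 + 2 * C₁ ^ 2 / (n : ℝ) ^ 4 * c3 d n b w) =
          c2f d n f a w * c2f d n f b w / (n : ℝ) ^ 4 +
          (2 * C₁ ^ 2 / (n : ℝ) ^ 6) * (c2f d n f a w * c3 d n b w +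
            c2f d n f b w * c3 d n a w) +
          (4 * C₁ ^ 4 / (n : ℝ) ^ 8) * (c3 d n a w * c3 d n b w) := by
        field_simp
        ring
      rw [e3]
      have e4 : c2f d n f a w * c3 d n b w ≤ C₁ * (c2 d n a w * c3 d n b w) := by
        have := mul_le_mul_of_nonneg_right (c2f_le a w) (c3n b w)
        linarith [mul_assoc C₁ (c2 d n a w) (c3 d n b w)]
      have e5 : c2f d n f b w * c3 d n a w ≤ C₁ * (c2 d n b w * c3 d n a w) := by
        have := mul_le_mul_of_nonneg_right (c2f_le b w) (c3n a w)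
        linarith [mul_assoc C₁ (c2 d n b w) (c3 d n a w)]
      have e6 := mul_le_mul_of_nonneg_left (add_le_add e4 e5)
        (show 0 ≤ 2 * C₁ ^ 2 / (n : ℝ) ^ 6 by positivity)
      linarith
    refine (Finset.sum_le_sum e1).trans ?_
    rw [Finset.sum_add_distrib, Finset.sum_add_distrib, ← Finset.sum_div, ← Finset.mul_sum,
      ← Finset.mul_sum, Finset.sum_add_distrib, ← Finset.mul_sum, ← Finset.mul_sum]
    obtain ⟨-, m2, m3⟩ := k3 a ha b hb
    obtain ⟨-, m4, -⟩ := k3 b hb a ha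
    have e7 : (2 * C₁ ^ 2 / (n : ℝ) ^ 6) * (C₁ * ∑ w ∈ Bn d n, c2 d n a w * c3 d n b w +
        C₁ * ∑ w ∈ Bn d n, c2 d n b w * c3 d n a w) ≤
        (2 * C₁ ^ 2 / (n : ℝ) ^ 6) * (C₁ * B + C₁ * B) := by
      refine mul_le_mul_of_nonneg_left ?_ (by positivity)
      exact add_le_add (mul_le_mul_of_nonneg_left m2 (by linarith))
        (mul_le_mul_of_nonneg_left m4 (by linarith))
    have e8 : (4 * C₁ ^ 4 / (n : ℝ) ^ 8) * ∑ w ∈ Bn d n, c3 d n a w * c3 d n b w ≤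
        (4 * C₁ ^ 4 / (n : ℝ) ^ 6) * B := by
      refine mul_le_mul ?_ m3 (Finset.sum_nonneg fun w _ => mul_nonneg (c3n _ _) (c3n _ _))
        (by positivity)
      exact div_le_div_of_nonneg_left (by positivity) (by positivity)
        (pow_le_pow_right₀ hN (by norm_num))
    have e9 : (2 * C₁ ^ 2 / (n : ℝ) ^ 6) * (C₁ * B + C₁ * B) + (4 * C₁ ^ 4 / (n : ℝ) ^ 6) * B =
        (4 * C₁ ^ 3 * B + 4 * C₁ ^ 4 * B) / (n : ℝ) ^ 6 := by
      field_simp
      ring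
    linarith
  -- the main term
  have hmain : ∑ a ∈ Bn d n, ind (a + v ∈ Bn d n) *
      ∑ w ∈ Bn d n, c2f d n f a w * c2f d n f (a + v) w ≤ (B / Qw v) * ∑ z ∈ Bn d n, f z ^ 2 := by
    have m1 := main4 (Bn d n) (fun a w z z' => ind (a + v ∈ Bn d n) *
      (G0 d n a z * G0 d n z w * (G0 d n (a + v) z' * G0 d n z' w))) f (B / Qw v)
      (fun a w z z' => mul_nonneg (by unfold ind; split_ifs <;> norm_num)
        (mul_nonneg (mul_nonneg (hG _ _) (hG _ _)) (mul_nonneg (hG _ _) (hG _ _))))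
      (k1 v) (k2 v)
    refine le_trans (le_of_eq ?_) m1
    refine Finset.sum_congr rfl fun a _ => ?_
    rw [Finset.mul_sum]
    refine Finset.sum_congr rfl fun w _ => ?_
    unfold c2f
    rw [Finset.sum_mul_sum, Finset.mul_sum]
    refine Finset.sum_congr rfl fun z _ => ?_
    rw [Finset.mul_sum]
    refine Finset.sum_congr rfl fun z' _ => ?_
    ring
  -- together
  have hterm : ∀ a ∈ Bn d n, ind (a + v ∈ Bn d n) *
      ∑ w ∈ Bn d n, gkS d n S (k + 1) a w * gkS d n S (k + 1) (a + v) w ≤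
      (ind (a + v ∈ Bn d n) * ∑ w ∈ Bn d n, c2f d n f a w * c2f d n f (a + v) w) / (n : ℝ) ^ 4 +
        (4 * C₁ ^ 3 * B + 4 * C₁ ^ 4 * B) / (n : ℝ) ^ 6 := by
    intro a ha
    by_cases hb : a + v ∈ Bn d n
    · have h2 : ind (a + v ∈ Bn d n) = 1 := by
        unfold ind
        rw [if_pos hb]
      rw [h2, one_mul, one_mul]
      exact hpair a ha _ hb
    · have h2 : ind (a + v ∈ Bn d n) = 0 := by
        unfold ind
        rw [if_neg hb]
      rw [h2, zero_mul, zero_mul, zero_div, zero_add]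
      positivity
  refine (Finset.sum_le_sum hterm).trans ?_
  rw [Finset.sum_add_distrib, ← Finset.sum_div, Finset.sum_const, hcard, nsmul_eq_mul]
  have h3 : ∑ z ∈ Bn d n, f z ^ 2 = (n : ℝ) ^ d * ph2S d n S k := by
    unfold ph2S av
    rw [mul_div_cancel₀ _ (by positivity)]
  have h4 : (∑ a ∈ Bn d n, ind (a + v ∈ Bn d n) *
      ∑ w ∈ Bn d n, c2f d n f a w * c2f d n f (a + v) w) / (n : ℝ) ^ 4 ≤
      (n : ℝ) ^ (d - 4) * (B / Qw v) * ph2S d n S k := by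
    rw [h3] at hmain
    have h5 := div_le_div_of_nonneg_right hmain (show (0 : ℝ) ≤ (n : ℝ) ^ 4 by positivity)
    refine h5.trans (le_of_eq ?_)
    rw [pow_sub₀ _ hN0.ne' (show 4 ≤ d by omega)]
    field_simp
  have h6 : ((n ^ d : ℕ) : ℝ) * ((4 * C₁ ^ 3 * B + 4 * C₁ ^ 4 * B) / (n : ℝ) ^ 6) =
      (4 * C₁ ^ 3 * B + 4 * C₁ ^ 4 * B) * (n : ℝ) ^ (d - 6) := by
    rw [pow_sub₀ _ hN0.ne' (show 6 ≤ d by omega)]
    push_cast
    field_simp
  linarith

end Pool.CM
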