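import Pool.Agent.Helper22.CM.St2
import Pool.Agent.Helper22.NL.M_Pair1

/-!
# Project CM (MP_65faa7): module Pair3S
Pairs of clusters with many points in a source set.
-/

set_option autoImplicit false

open scoped BigOperators ENNReal Topology
open Pool.LE Pool.NL Pool.CL Filter MeasureTheory

namespace Pool.CM

namespace Pair3S

variable {V : Type} [DecidableEq V]

theorem xc_rst (L : Finset V) {η : Finset (Sym2 V)} {S : Set V} {b : V}
    (h : ∀ y, con η b y → y ∉ S) : Xc L (rst η S) b = Xc L η b := by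
  have h1 : clu L (rst η S) b = clu L η b := by
    classical
    unfold clu
    ext x
    simp only [Finset.mem_filter]
    rw [pair_con_rst h]
  unfold Xc
  rw [h1]

theorem ind_and (A B : Prop) : ind A * ind B = ind (A ∧ B) := by
  unfold ind
  by_cases hA : A
  · by_cases hB : B
    · rw [if_pos hA, if_pos hB, if_pos ⟨hA, hB⟩, one_mul]
    · rw [if_neg hB, if_neg (show ¬ (A ∧ B) from fun h => hB h.2), mul_zero]
  · rw [if_neg hA, if_neg (show ¬ (A ∧ B) from fun h => hA h.1), zero_mul]

end Pair3S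

open Pair3S in
theorem hPair3S (hMK : StMK) (hB : StBasic) (hClu : StClu) : StPair3S := by
  classical
  intro V _ L A E D p hFG hAL hp0 hp1 a ha b hb m
  obtain ⟨hmono, -, hadd, hsub, hmul, hsum, -, -, -, -⟩ := hB V E p hp0 hp1
  have hpr : ∀ Q : Finset (Sym2 V) → Prop, pr E p Q = ex E p (fun ω => ind (Q ω)) := fun Q => rfl
  have hgg : ∀ u w, GG2 A E p m u w = ex E p (fun ω => ind (m ≤ Xc A ω u ∧ con ω u w)) :=
    fun u w => rfl
  -- the function of the Markov property
  set G : Set V → Finset (Sym2 V) → ℝ := fun S ζ =>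
    ind ((m : ℝ) ≤ ∑ y ∈ A, if y ∈ S then (1 : ℝ) else 0) *
      ind (b ∉ S ∧ m ≤ Xc A ζ b) with hG
  have hcast : ∀ ω : Finset (Sym2 V), ((m : ℝ) ≤ (Xc A ω a : ℝ)) ↔ m ≤ Xc A ω a := by
    intro ω
    exact Nat.cast_le
  have h1 : ex E p (fun ω => G (cset ω a) (rst ω (cset ω a))) ≤
      pr E p (fun ω => m ≤ Xc A ω a ∧ m ≤ Xc A ω b ∧ ¬ con ω a b) := by
    rw [hpr]
    apply hmono
    intro ω _
    rw [hG]
    simp only []
    rw [pair_card]
    by_cases hc : con ω a b
    · rw [pair_ind_false (A := b ∉ cset ω a ∧ _) (fun h => h.1 hc), mul_zero]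
      exact pair_ind_nonneg _
    · rw [pair_xc_rst A hc]
      by_cases h2 : (m : ℝ) ≤ (Xc A ω a : ℝ)
      · by_cases h3 : m ≤ Xc A ω b
        · rw [pair_ind_true (show m ≤ Xc A ω a ∧ m ≤ Xc A ω b ∧ ¬ con ω a b from
            ⟨(hcast ω).1 h2, h3, hc⟩)]
          exact mul_le_one₀ (pair_ind_le_one _) (pair_ind_nonneg _) (pair_ind_le_one _)
        · rw [pair_ind_false (A := b ∉ cset ω a ∧ _) (fun h => h3 h.2), mul_zero]
          exact pair_ind_nonneg _
      · rw [pair_ind_false h2, zero_mul]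
        exact pair_ind_nonneg _
  refine le_trans ?_ h1
  rw [hMK V E p a G]
  -- lower bound of the inner probability
  have h2 : ∀ S : Set V, pr E p (fun ω => m ≤ Xc A ω b) -
      ∑ w ∈ L, (if w ∈ S then (1 : ℝ) else 0) * GG2 A E p m b w ≤
      ex E p (fun η => ind (b ∉ S ∧ m ≤ Xc A (rst η S) b)) := by
    intro S
    have h4 : pr E p (fun ω => m ≤ Xc A ω b) ≤
        ex E p (fun η => ind (b ∉ S ∧ m ≤ Xc A (rst η S) b) +
          ∑ w ∈ L, (if w ∈ S then (1 : ℝ) else 0) * ind (m ≤ Xc A η b ∧ con η b w)) := by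
      rw [hpr]
      apply hmono
      intro η hη
      have h5 : ∀ w ∈ L, 0 ≤ (if w ∈ S then (1 : ℝ) else 0) *
          ind (m ≤ Xc A η b ∧ con η b w) := by
        intro w _
        refine mul_nonneg ?_ (pair_ind_nonneg _)
        split_ifs <;> norm_num
      by_cases h7 : m ≤ Xc A η b
      · rw [pair_ind_true h7]
        by_cases h8 : ∃ w ∈ L, w ∈ S ∧ con η b w
        · obtain ⟨w, hwL, hwS, hbw⟩ := h8
          have h9 := Finset.single_le_sum h5 hwL
          rw [if_pos hwS, one_mul, pair_ind_true ⟨h7, hbw⟩] at h9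
          have h10 := pair_ind_nonneg (b ∉ S ∧ m ≤ Xc A (rst η S) b)
          linarith
        · push Not at h8
          have h9 : ∀ y, con η b y → y ∉ S := by
            intro y hy hyS
            exact h8 y ((hClu V L E η D hFG hη).2.2.2.1 b y hb hy) hyS hy
          have h10 : b ∉ S := h9 b (con_refl _ _)
          have h11 : m ≤ Xc A (rst η S) b := by rw [xc_rst A h9]; exact h7
          rw [pair_ind_true ⟨h10, h11⟩]
          have h12 := Finset.sum_nonneg h5
          linarith
      · rw [pair_ind_false h7]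
        exact add_nonneg (pair_ind_nonneg _) (Finset.sum_nonneg h5)
    rw [hadd, hsum] at h4
    have h5 : ∑ w ∈ L, ex E p (fun η => (if w ∈ S then (1 : ℝ) else 0) *
        ind (m ≤ Xc A η b ∧ con η b w)) =
        ∑ w ∈ L, (if w ∈ S then (1 : ℝ) else 0) * GG2 A E p m b w := by
      refine Finset.sum_congr rfl fun w _ => ?_
      rw [hmul, hgg]
    rw [h5] at h4
    linarith
  have h5 : ∀ ω, ω ⊆ E → pr E p (fun ω => m ≤ Xc A ω b) * ind (m ≤ Xc A ω a) -
      ∑ w ∈ L, GG2 A E p m b w * ind (m ≤ Xc A ω a ∧ con ω a w) ≤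
      ex E p (fun η => G (cset ω a) (rst η (cset ω a))) := by
    intro ω _
    have h6 : ex E p (fun η => G (cset ω a) (rst η (cset ω a))) =
        ind (m ≤ Xc A ω a) * ex E p (fun η => ind (b ∉ cset ω a ∧
          m ≤ Xc A (rst η (cset ω a)) b)) := by
      rw [← hmul]
      congr 1
      funext η
      rw [hG]
      simp only []
      rw [pair_card]
      congr 1
      unfold ind
      by_cases h : m ≤ Xc A ω a
      · rw [if_pos h, if_pos ((hcast ω).2 h)]
      · rw [if_neg h, if_neg (fun h' => h ((hcast ω).1 h'))]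
    rw [h6]
    have h7 := mul_le_mul_of_nonneg_left (h2 (cset ω a)) (pair_ind_nonneg (m ≤ Xc A ω a))
    refine le_trans (le_of_eq ?_) h7
    rw [mul_sub, Finset.mul_sum, mul_comm]
    congr 1
    refine Finset.sum_congr rfl fun w _ => ?_
    rw [← ind_and]
    have h8 : (if w ∈ cset ω a then (1 : ℝ) else 0) = ind (con ω a w) := by
      by_cases hw : con ω a w
      · rw [pair_ind_true hw, if_pos (show w ∈ cset ω a from hw)]
      · rw [pair_ind_false hw, if_neg (show w ∉ cset ω a from hw)]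
    rw [h8]
    ring
  refine le_trans (le_of_eq ?_) (hmono _ _ h5)
  rw [hsub, hsum, hmul]
  rw [← hpr (fun ω => m ≤ Xc A ω a), mul_comm]
  congr 1
  refine Finset.sum_congr rfl fun w _ => ?_
  rw [hmul, hgg a w, mul_comm]

end Pool.CM
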