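import Pool.Agent.Helper22.CM.St2
import Pool.Agent.Helper22.NL.M_Sb
import Pool.Agent.Helper22.NL.M_Sc

/-! # Project CM: module SbS, pairs of bridges for source sets -/

set_option autoImplicit false

open scoped BigOperators ENNReal Topology
open Pool.LE Pool.NL Pool.CL Filter MeasureTheory

namespace Pool.CM

theorem hSbS (hD : StDist) (hB : StBasic) (hC : StClu) : StSbS := by
  intro V _ L A E D p m hFG hAL h0 h1
  have h2 := ex_pairs_Sb hB A E m h0 h1 (fun ω a b => con ω a.1 b.1 ∧ con ω a.2 b.2)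
    (fun ω => (SS2 A E m ω : ℝ)) (fun ω => by
      rw [← card_pairs_Sb A E m ω (fun a b => con ω a.1 b.1 ∧ con ω a.2 b.2)]
      unfold SS2
      congr)
  rw [h2]
  exact Finset.sum_le_sum fun a _ => Finset.sum_le_sum fun b _ =>
    pr_both_Sb hD hB A E m h0 h1 a b

theorem hScS (hD : StDist) (hB : StBasic) (hC : StClu) : StScS := by
  classical
  intro V _ L A E D p q m hFG hAL h0 h1 hq0 hq
  obtain ⟨-, -, -, -, -, -, hpr, hprmono, -⟩ := hB V E p h0 h1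
  -- the four relations
  let T : V × V → V × V → ℝ := fun a b =>
    pr E p (fun ω => a ∈ JJ A E m ω ∧ b ∈ JJ A E m ω ∧ con ω a.1 b.1)
  have hT : ex E p (fun ω => (SS1 A E m ω : ℝ)) = ∑ a ∈ drt E, ∑ b ∈ drt E, T a b :=
    ex_pairs_Sb hB A E m h0 h1 (fun ω a b => con ω a.1 b.1)
      (fun ω => (SS1 A E m ω : ℝ)) (fun ω => by
        rw [← card_pairs_Sb A E m ω (fun a b => con ω a.1 b.1)]
        unfold SS1
        congr)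
  have hJ : ex E p (fun ω => ((JJ A E m ω).card : ℝ) ^ 2) = ∑ a ∈ drt E, ∑ b ∈ drt E,
      pr E p (fun ω => a ∈ JJ A E m ω ∧ b ∈ JJ A E m ω ∧ True) :=
    ex_pairs_Sb hB A E m h0 h1 (fun _ _ _ => True)
      (fun ω => ((JJ A E m ω).card : ℝ) ^ 2) (fun ω => by
        rw [← card_pairs_Sb A E m ω (fun _ _ => True)]
        simp [Finset.card_product, pow_two])
  have hs1 : ∀ a b : V × V,
      pr E p (fun ω => a ∈ JJ A E m ω ∧ b ∈ JJ A E m ω ∧ con ω a.1 b.2) = T a b.swap := by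
    intro a b
    refine le_antisymm (hprmono _ _ ?_) (hprmono _ _ ?_)
    · rintro ω - ⟨h1, h2, h3⟩
      exact ⟨h1, swap_mem_JJ_Sc.2 h2, h3⟩
    · rintro ω - ⟨h1, h2, h3⟩
      exact ⟨h1, swap_mem_JJ_Sc.1 h2, h3⟩
  have hs2 : ∀ a b : V × V,
      pr E p (fun ω => a ∈ JJ A E m ω ∧ b ∈ JJ A E m ω ∧ con ω a.2 b.1) = T a.swap b := by
    intro a b
    refine le_antisymm (hprmono _ _ ?_) (hprmono _ _ ?_)
    · rintro ω - ⟨h1, h2, h3⟩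
      exact ⟨swap_mem_JJ_Sc.2 h1, h2, h3⟩
    · rintro ω - ⟨h1, h2, h3⟩
      exact ⟨swap_mem_JJ_Sc.1 h1, h2, h3⟩
  have hs3 : ∀ a b : V × V,
      pr E p (fun ω => a ∈ JJ A E m ω ∧ b ∈ JJ A E m ω ∧ con ω a.2 b.2) =
        T a.swap b.swap := by
    intro a b
    refine le_antisymm (hprmono _ _ ?_) (hprmono _ _ ?_)
    · rintro ω - ⟨h1, h2, h3⟩
      exact ⟨swap_mem_JJ_Sc.2 h1, swap_mem_JJ_Sc.2 h2, h3⟩
    · rintro ω - ⟨h1, h2, h3⟩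
      exact ⟨swap_mem_JJ_Sc.1 h1, swap_mem_JJ_Sc.1 h2, h3⟩
  have hmain : ∀ a ∈ drt E, ∀ b ∈ drt E,
      pr E p (fun ω => a ∈ JJ A E m ω ∧ b ∈ JJ A E m ω ∧ True) ≤
        q ^ 4 + (T a b + (T a b.swap + (T a.swap b + T a.swap b.swap))) := by
    intro a ha b hb
    have h4 := pr_four_Sc hD hB A E m h0 h1 a b
    have h5 : pr E p (fun ω => m ≤ Xc A ω a.1) * (pr E p (fun ω => m ≤ Xc A ω a.2) *
        (pr E p (fun ω => m ≤ Xc A ω b.1) * pr E p (fun ω => m ≤ Xc A ω b.2))) ≤ q ^ 4 := by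
      have e : q ^ 4 = q * (q * (q * q)) := by ring
      rw [e]
      have ha1 := (mem_drt_Sa hFG ha).1
      have ha2 := (mem_drt_Sa hFG ha).2
      have hb1 := (mem_drt_Sa hFG hb).1
      have hb2 := (mem_drt_Sa hFG hb).2
      have n1 := (hpr (fun ω => m ≤ Xc A ω a.2)).1
      have n2 := (hpr (fun ω => m ≤ Xc A ω b.1)).1
      have n3 := (hpr (fun ω => m ≤ Xc A ω b.2)).1
      refine mul_le_mul (hq _ ha1) (mul_le_mul (hq _ ha2) (mul_le_mul (hq _ hb1) (hq _ hb2)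
        n3 hq0) (mul_nonneg n2 n3) hq0) (mul_nonneg n1 (mul_nonneg n2 n3)) hq0
    have h6 := hprmono
      (fun ω => a ∈ JJ A E m ω ∧ b ∈ JJ A E m ω ∧ True)
      (fun ω => (a ∈ JJ A E m ω ∧ b ∈ JJ A E m ω ∧ ¬ con ω a.1 b.1 ∧ ¬ con ω a.1 b.2 ∧
        ¬ con ω a.2 b.1 ∧ ¬ con ω a.2 b.2) ∨
        ((a ∈ JJ A E m ω ∧ b ∈ JJ A E m ω ∧ con ω a.1 b.1) ∨
        ((a ∈ JJ A E m ω ∧ b ∈ JJ A E m ω ∧ con ω a.1 b.2) ∨
        ((a ∈ JJ A E m ω ∧ b ∈ JJ A E m ω ∧ con ω a.2 b.1) ∨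
        (a ∈ JJ A E m ω ∧ b ∈ JJ A E m ω ∧ con ω a.2 b.2)))))
      (fun ω _ h => by tauto)
    have h7 := pr_or_Sb hB E h0 h1
      (fun ω => a ∈ JJ A E m ω ∧ b ∈ JJ A E m ω ∧ ¬ con ω a.1 b.1 ∧ ¬ con ω a.1 b.2 ∧
        ¬ con ω a.2 b.1 ∧ ¬ con ω a.2 b.2)
      (fun ω => (a ∈ JJ A E m ω ∧ b ∈ JJ A E m ω ∧ con ω a.1 b.1) ∨
        ((a ∈ JJ A E m ω ∧ b ∈ JJ A E m ω ∧ con ω a.1 b.2) ∨
        ((a ∈ JJ A E m ω ∧ b ∈ JJ A E m ω ∧ con ω a.2 b.1) ∨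
        (a ∈ JJ A E m ω ∧ b ∈ JJ A E m ω ∧ con ω a.2 b.2))))
    have h8 := pr_or_Sb hB E h0 h1
      (fun ω => a ∈ JJ A E m ω ∧ b ∈ JJ A E m ω ∧ con ω a.1 b.1)
      (fun ω => (a ∈ JJ A E m ω ∧ b ∈ JJ A E m ω ∧ con ω a.1 b.2) ∨
        ((a ∈ JJ A E m ω ∧ b ∈ JJ A E m ω ∧ con ω a.2 b.1) ∨
        (a ∈ JJ A E m ω ∧ b ∈ JJ A E m ω ∧ con ω a.2 b.2)))
    have h9 := pr_or_Sb hB E h0 h1
      (fun ω => a ∈ JJ A E m ω ∧ b ∈ JJ A E m ω ∧ con ω a.1 b.2)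
      (fun ω => (a ∈ JJ A E m ω ∧ b ∈ JJ A E m ω ∧ con ω a.2 b.1) ∨
        (a ∈ JJ A E m ω ∧ b ∈ JJ A E m ω ∧ con ω a.2 b.2))
    have h10 := pr_or_Sb hB E h0 h1
      (fun ω => a ∈ JJ A E m ω ∧ b ∈ JJ A E m ω ∧ con ω a.2 b.1)
      (fun ω => a ∈ JJ A E m ω ∧ b ∈ JJ A E m ω ∧ con ω a.2 b.2)
    have e1 := hs1 a b
    have e2 := hs2 a b
    have e3 := hs3 a b
    have e0 : pr E p (fun ω => a ∈ JJ A E m ω ∧ b ∈ JJ A E m ω ∧ con ω a.1 b.1) = T a b := rfl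
    linarith
  rw [hJ, hT]
  have hsum := Finset.sum_le_sum fun a ha => Finset.sum_le_sum fun b hb => hmain a ha b hb
  refine le_trans hsum ?_
  simp only [Finset.sum_add_distrib]
  have k1 : ∀ f : V × V → V × V → ℝ, ∑ a ∈ drt E, ∑ b ∈ drt E, f a b.swap =
      ∑ a ∈ drt E, ∑ b ∈ drt E, f a b := fun f =>
    Finset.sum_congr rfl fun a _ => sum_swap_Sc E (f a)
  have k2 : ∀ f : V × V → V × V → ℝ, ∑ a ∈ drt E, ∑ b ∈ drt E, f a.swap b =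
      ∑ a ∈ drt E, ∑ b ∈ drt E, f a b := fun f =>
    sum_swap_Sc E (fun a => ∑ b ∈ drt E, f a b)
  have k3 : ∑ a ∈ drt E, ∑ b ∈ drt E, T a.swap b.swap = ∑ a ∈ drt E, ∑ b ∈ drt E, T a b := by
    rw [k2 (fun a b => T a b.swap), k1 T]
  rw [k1 T, k2 T, k3]
  simp only [Finset.sum_const, nsmul_eq_mul]
  apply le_of_eq
  ring


end Pool.CM
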