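import Pool.Agent.Helper22.CM.XA

/-! # Project CM: module SdS (number of large clusters) -/

set_option autoImplicit false

open scoped BigOperators ENNReal Topology
open Pool.LE Pool.NL Pool.CL Filter MeasureTheory

namespace Pool.CM

theorem hSdS (hB : StBasic) (_hC : StClu) : StSdS := by
  intro V _ L A E D p q m hFG hA h0 h1 hm hq
  classical
  obtain ⟨hmono, -, -, -, hsmul, hsum, -, -, -, -⟩ := hB V E p h0 h1
  have hm0 : (0 : ℝ) < m := by exact_mod_cast hm
  -- combinatorial inequality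
  have hcomb : ∀ ω, ω ⊆ E →
      m * (bigS L A m ω).card ≤ (A.filter (fun x => m ≤ Xc A ω x)).card := by
    intro ω _
    have e1 : (A.filter (fun x => m ≤ Xc A ω x)).card =
        ∑ C ∈ (A.filter (fun x => m ≤ Xc A ω x)).image (clu L ω),
          ((A.filter (fun x => m ≤ Xc A ω x)).filter (fun y => clu L ω y = C)).card :=
      Finset.card_eq_sum_card_image _ _
    have hmem : ∀ C ∈ bigS L A m ω, ∃ x, m ≤ Xc A ω x ∧ C = clu L ω x := by
      intro C hC
      unfold bigS at hC
      obtain ⟨x, hx, rfl⟩ := Finset.mem_image.1 hC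
      rw [Finset.mem_filter] at hx
      exact ⟨x, hx.2, rfl⟩
    have hfib : ∀ C ∈ bigS L A m ω,
        m ≤ ((A.filter (fun x => m ≤ Xc A ω x)).filter (fun y => clu L ω y = C)).card := by
      intro C hC
      obtain ⟨x, hx, rfl⟩ := hmem C hC
      refine hx.trans ?_
      refine (Finset.card_le_card fun y hy => ?_ : (clu A ω x).card ≤ _)
      rw [mem_Clu] at hy
      rw [Finset.mem_filter, Finset.mem_filter]
      exact ⟨⟨hy.1, by rw [← XA.xc_eq A hy.2]; exact hx⟩, (XA.clu_eq L hy.2).symm⟩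
    have hsub : bigS L A m ω ⊆ (A.filter (fun x => m ≤ Xc A ω x)).image (clu L ω) := by
      intro C hC
      have h2 := hfib C hC
      have h3 : 0 < ((A.filter (fun x => m ≤ Xc A ω x)).filter (fun y => clu L ω y = C)).card :=
        lt_of_lt_of_le hm h2
      obtain ⟨y, hy⟩ := Finset.card_pos.1 h3
      rw [Finset.mem_filter] at hy
      exact Finset.mem_image.2 ⟨y, hy.1, hy.2⟩
    rw [e1]
    calc m * (bigS L A m ω).card = ∑ _C ∈ bigS L A m ω, m := by
          rw [Finset.sum_const, smul_eq_mul, mul_comm]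
      _ ≤ ∑ C ∈ bigS L A m ω,
          ((A.filter (fun x => m ≤ Xc A ω x)).filter (fun y => clu L ω y = C)).card :=
          Finset.sum_le_sum hfib
      _ ≤ _ := Finset.sum_le_sum_of_subset hsub
  have e4 : (m : ℝ) * ex E p (fun ω => ((bigS L A m ω).card : ℝ)) ≤
      ∑ x ∈ A, pr E p (fun ω => m ≤ Xc A ω x) := by
    have e5 : ∑ x ∈ A, pr E p (fun ω => m ≤ Xc A ω x) =
        ex E p (fun ω => ∑ x ∈ A, ind (m ≤ Xc A ω x)) :=
      (hsum V A (fun x ω => ind (m ≤ Xc A ω x))).symm
    rw [e5, ← hsmul]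
    refine hmono _ _ fun ω hω => ?_
    have e6 : ∑ x ∈ A, ind (m ≤ Xc A ω x) =
        ((A.filter (fun x => m ≤ Xc A ω x)).card : ℝ) := by
      rw [Finset.card_filter, Nat.cast_sum]
      refine Finset.sum_congr rfl fun x _ => ?_
      unfold ind
      split_ifs <;> simp
    rw [e6]
    exact_mod_cast hcomb ω hω
  have e7 : ∑ x ∈ A, pr E p (fun ω => m ≤ Xc A ω x) ≤ A.card * q := by
    calc ∑ x ∈ A, pr E p (fun ω => m ≤ Xc A ω x) ≤ ∑ _x ∈ A, q := Finset.sum_le_sum hq
      _ = A.card * q := by rw [Finset.sum_const, nsmul_eq_mul]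
  rw [le_div_iff₀ hm0, mul_comm]
  exact e4.trans e7

end Pool.CM
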