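import Pool.Agent.Helper22.CM.St2
import Pool.Agent.Helper22.CM.M_ShiftU

/-!
# Project CM, module ShiftUS: shift of the tail (source sets)
-/

set_option autoImplicit false

open scoped BigOperators ENNReal Topology
open Pool.LE Pool.NL Pool.CL Filter MeasureTheory

namespace Pool.CM

namespace ShiftUS

/-- the mass of a set with respect to the indicator of `S` -/
theorem ms_ind {d : ℕ} (S C : Finset (Zd d)) : ms (fun y => ind (y ∈ S)) C = ((C ∩ S).card : ℝ) := by
  classical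
  unfold ms
  have h : ∀ y ∈ C, ind (y ∈ S) = if y ∈ S then (1 : ℝ) else 0 := by
    intro y _
    by_cases h : y ∈ S
    · rw [if_pos h]
      exact if_pos h
    · rw [if_neg h]
      exact if_neg h
  rw [Finset.sum_congr rfl h, Finset.sum_boole, Finset.filter_mem_eq_inter]

/-- the trace of the cluster in the box -/
theorem cb_inter {d n : ℕ} {S : Finset (Zd d)} (hS : S ⊆ Bn d n) (ω : Finset (Sym2 (Zd d)))
    (x : Zd d) : cb d n ω x ∩ S = clu S ω x := by
  classical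
  ext y
  unfold cb clu
  simp only [Finset.mem_inter, Finset.mem_filter]
  constructor
  · rintro ⟨⟨_, h1⟩, h2⟩
    exact ⟨h2, h1⟩
  · rintro ⟨h1, h2⟩
    exact ⟨⟨hS h1, h2⟩, h1⟩

end ShiftUS

open ShiftU ShiftUS in
theorem hShiftUS (hReg : Pool.CL.StReg) (hUk : StUkS) (hBd : Pool.CL.StBd) (hB : StBasic)
    (hBn : StBn) : StShiftUS := by
  classical
  intro d C₁ B c₀ CL henv
  obtain ⟨CR, hCR, hreg⟩ := hReg d C₁ B c₀ CL henv
  have hd : 21 ≤ d := henv.env.hd
  have hC1 : 1 ≤ C₁ := henv.env.hC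
  have hp0 : 0 ≤ pH d := henv.env.p0.le
  have hp1 : pH d ≤ 1 := by linarith [henv.env.p1]
  refine ⟨2 * d * C₁ ^ 2 + Real.sqrt (2 * CR) * C₁ ^ 2, by
    have : (0 : ℝ) < d := by
      have : 0 < d := by omega
      exact_mod_cast this
    have := Real.sqrt_nonneg (2 * CR)
    positivity, ?_⟩
  intro n k l S hn hk hS
  obtain ⟨u0, -, uC, -⟩ := hUk d C₁ B c₀ CL henv n S hn hS
  obtain ⟨hcard, -, hbx, -, -, -⟩ := hBd d (by omega)
  obtain ⟨-, hBc, -, -, -⟩ := hBn d n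
  have hN1 : (1 : ℝ) ≤ n := by exact_mod_cast hn
  have hN0 : (0 : ℝ) < n := by linarith
  -- the regularity
  have hw : ∀ x ∈ Bn d n, ukS d n S k x = eb d n (fun ω =>
      ((n : ℝ) ^ 2 * ind (k * n ^ 4 ≤ (cb d n ω x ∩ S).card) / (cb d n ω x ∩ S).card) *
        ms (fun y => ind (y ∈ S)) (cb d n ω x)) := by
    intro x _
    obtain ⟨-, -, -, -, hsmul, -⟩ := hB (Zd d) (ES (Bn d n)) (pH d) hp0 hp1
    have e0' : ukS d n S k x = (n : ℝ) ^ 2 *
      ex (ES (Bn d n)) (pH d) (fun ω => ind (k * n ^ 4 ≤ Xc S ω x)) := rfl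
    rw [e0', ← hsmul]
    unfold eb
    congr 1
    funext ω
    rw [ms_ind]
    have e1 : Xc S ω x = (cb d n ω x ∩ S).card := by
      rw [cb_inter hS]
      rfl
    rw [e1]
    by_cases h : k * n ^ 4 ≤ (cb d n ω x ∩ S).card
    · have h1 : 0 < (cb d n ω x ∩ S).card := lt_of_lt_of_le (by positivity) h
      have h2 : ((cb d n ω x ∩ S).card : ℝ) ≠ 0 := by
        have := h1.ne'
        exact_mod_cast this
      field_simp
    · have h1 : ind (k * n ^ 4 ≤ (cb d n ω x ∩ S).card) = 0 := if_neg h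
      rw [h1]
      simp
  have hi01 : ∀ A : Prop, ind A = 0 ∨ ind A = 1 := by
    intro A
    by_cases h : A
    · exact Or.inr (if_pos h)
    · exact Or.inl (if_neg h)
  have hmain := hreg n (fun y => ind (y ∈ S)) (fun C : Finset (Zd d) =>
      (n : ℝ) ^ 2 * ind (k * n ^ 4 ≤ (C ∩ S).card) / (C ∩ S).card) (ukS d n S k) (1 / (n : ℝ) ^ 2) C₁ hn
    (fun y => by
      beta_reduce
      rcases hi01 (y ∈ S) with h | h <;> rw [h] <;> norm_num)
    (by positivity) (by linarith) (by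
      intro C
      by_cases h : k * n ^ 4 ≤ (C ∩ S).card
      · have h1 : ind (k * n ^ 4 ≤ (C ∩ S).card) = 1 := if_pos h
        have h4 : n ^ 4 ≤ (C ∩ S).card := le_trans (Nat.le_mul_of_pos_left _ (by omega)) h
        have h5 : (n : ℝ) ^ 4 ≤ (C ∩ S).card := by exact_mod_cast h4
        have h6 : (0 : ℝ) < (n : ℝ) ^ 4 := by positivity
        rw [h1, mul_one]
        refine ⟨by positivity, ?_⟩
        rw [div_le_div_iff₀ (by linarith) (by positivity)]
        nlinarith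
      · have h1 : ind (k * n ^ 4 ≤ (C ∩ S).card) = 0 := if_neg h
        rw [h1, mul_zero, zero_div]
        exact ⟨le_rfl, by positivity⟩) hw (by
      intro x hx
      rw [abs_of_nonneg (u0 k x)]
      exact uC k hk x hx) (e0 l)
  -- notation
  set P : ℝ := (n : ℝ) ^ d with hP
  set Q : ℝ := (n : ℝ) ^ (d - 1) with hQ
  have hP0 : 0 < P := by positivity
  have hQ0 : 0 < Q := by positivity
  have hPQ : P = Q * n := by
    rw [hP, hQ, ← pow_succ]
    congr 1
    omega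
  have hsumle : ∑ x ∈ Bn d n, ukS d n S k x ^ 2 ≤ P * C₁ ^ 2 := by
    calc ∑ x ∈ Bn d n, ukS d n S k x ^ 2 ≤ ∑ _x ∈ Bn d n, C₁ ^ 2 :=
          Finset.sum_le_sum fun x hx => pow_le_pow_left₀ (u0 k x) (uC k hk x hx) 2
      _ = P * C₁ ^ 2 := by
        rw [Finset.sum_const, hBc, nsmul_eq_mul]
        push_cast
        rfl
  have hph : P * ph2S d n S k = ∑ x ∈ Bn d n, ukS d n S k x ^ 2 := by
    unfold ph2S av
    rw [← hP, mul_div_cancel₀ _ hP0.ne']
  -- the sum of the squares of the differences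
  have hdiff : ∑ x ∈ Bn d n, ind (x + e0 l ∈ Bn d n) * (ukS d n S k (x + e0 l) - ukS d n S k x) ^ 2 ≤
      CR * (1 + (l : ℝ)) ^ 2 * (2 * C₁ ^ 2 * Q) := by
    refine le_trans hmain ?_
    have h1 : (nrm (e0 l : Zd d) : ℝ) ≤ l := by exact_mod_cast nrm_e0 d l
    have h2 : (0 : ℝ) ≤ (nrm (e0 l : Zd d) : ℝ) := by positivity
    have h3 : (1 + (nrm (e0 l : Zd d) : ℝ)) ^ 2 ≤ (1 + (l : ℝ)) ^ 2 :=
      pow_le_pow_left₀ (by linarith) (by linarith) 2
    have h4 : ∑ x ∈ Bn d n, ind (x ∈ S) * ukS d n S k x ≤ P * C₁ := by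
      calc ∑ x ∈ Bn d n, ind (x ∈ S) * ukS d n S k x ≤ ∑ _x ∈ Bn d n, C₁ :=
            Finset.sum_le_sum fun x hx => by
              have h5 := uC k hk x hx
              rcases hi01 (x ∈ S) with h | h <;> rw [h]
              · rw [zero_mul]
                linarith
              · rw [one_mul]
                exact h5
        _ = P * C₁ := by
          rw [Finset.sum_const, hBc, nsmul_eq_mul]
          push_cast
          rfl
    have h5 : 1 / (n : ℝ) ^ 2 * ∑ x ∈ Bn d n, ind (x ∈ S) * ukS d n S k x ≤ C₁ ^ 2 * Q := by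
      have h6 : 1 / (n : ℝ) ^ 2 * ∑ x ∈ Bn d n, ind (x ∈ S) * ukS d n S k x ≤ 1 / (n : ℝ) ^ 2 * (P * C₁) :=
        mul_le_mul_of_nonneg_left h4 (by positivity)
      refine le_trans h6 ?_
      rw [hPQ, div_mul_eq_mul_div, one_mul, div_le_iff₀ (by positivity)]
      have h7 : C₁ ≤ C₁ ^ 2 := by nlinarith
      have h8 : (n : ℝ) ≤ (n : ℝ) ^ 2 := by nlinarith
      calc Q * n * C₁ = Q * (n * C₁) := by ring
        _ ≤ Q * ((n : ℝ) ^ 2 * C₁ ^ 2) :=
          mul_le_mul_of_nonneg_left (mul_le_mul h8 h7 (by linarith) (by positivity)) hQ0.le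
        _ = C₁ ^ 2 * Q * (n : ℝ) ^ 2 := by ring
    have h6 : 1 / (n : ℝ) ^ 2 * ∑ x ∈ Bn d n, ind (x ∈ S) * ukS d n S k x + C₁ ^ 2 * Q ≤ 2 * C₁ ^ 2 * Q := by
      linarith
    have h7 : (0 : ℝ) ≤ 2 * C₁ ^ 2 * Q := by positivity
    calc _ ≤ CR * (1 + (nrm (e0 l : Zd d) : ℝ)) ^ 2 * (2 * C₁ ^ 2 * Q) :=
          mul_le_mul_of_nonneg_left h6 (by positivity)
      _ ≤ _ := mul_le_mul_of_nonneg_right (mul_le_mul_of_nonneg_left h3 hCR.le) h7
  -- the points near the boundary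
  have hnear : ∑ x ∈ Bn d n, (1 - ind (x + e0 l ∈ Bn d n)) * ukS d n S k x ^ 2 ≤
      C₁ ^ 2 * (2 * d * l * Q) := by
    have h1 : ∀ x ∈ Bn d n, (1 - ind (x + e0 l ∈ Bn d n)) * ukS d n S k x ^ 2 ≤
        if ¬ deep d n l x then C₁ ^ 2 else 0 := by
      intro x hx
      by_cases h : x + e0 l ∈ Bn d n
      · have h2 : ind (x + e0 l ∈ Bn d n) = 1 := if_pos h
        rw [h2, sub_self, zero_mul]
        split_ifs <;> positivity
      · have h2 : ind (x + e0 l ∈ Bn d n) = 0 := if_neg h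
        have h3 : ¬ deep d n l x := fun h4 => h (h4 _ ((hbx l _).2 (nrm_e0 d l)))
        rw [h2, if_pos h3, sub_zero, one_mul]
        exact pow_le_pow_left₀ (u0 k x) (uC k hk x hx) 2
    calc _ ≤ ∑ x ∈ Bn d n, (if ¬ deep d n l x then C₁ ^ 2 else 0) := Finset.sum_le_sum h1
      _ = (((Bn d n).filter (fun u => ¬ deep d n l u)).card : ℝ) * C₁ ^ 2 := by
        rw [← Finset.sum_filter, Finset.sum_const, nsmul_eq_mul]
      _ ≤ (2 * d * l * Q) * C₁ ^ 2 :=
        mul_le_mul_of_nonneg_right (by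
          have h2 := hcard n l hn
          convert h2) (by positivity)
      _ = _ := by ring
  -- Cauchy-Schwarz
  have hcs := Finset.sum_mul_sq_le_sq_mul_sq (Bn d n) (fun x => ukS d n S k x)
    (fun x => ind (x + e0 l ∈ Bn d n) * |ukS d n S k (x + e0 l) - ukS d n S k x|)
  have hcs2 : ∑ x ∈ Bn d n, (ind (x + e0 l ∈ Bn d n) * |ukS d n S k (x + e0 l) - ukS d n S k x|) ^ 2 =
      ∑ x ∈ Bn d n, ind (x + e0 l ∈ Bn d n) * (ukS d n S k (x + e0 l) - ukS d n S k x) ^ 2 := by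
    refine Finset.sum_congr rfl fun x _ => ?_
    rw [mul_pow, sq_abs]
    rcases hi01 (x + e0 l ∈ Bn d n) with h | h <;> rw [h] <;> ring
  rw [hcs2] at hcs
  have hgoal := fin_est (N := n) (P := P) (Q := Q) (R := P / Real.sqrt n) (s := Real.sqrt n) (CR := CR)
    (C₁ := C₁) (l := l) (d := d)
    (S := ∑ a ∈ Bn d n, ind (a + e0 l ∈ Bn d n) * (ukS d n S k a * ukS d n S k (a + e0 l)))
    (Sd := ∑ x ∈ Bn d n, ukS d n S k x * (ind (x + e0 l ∈ Bn d n) * |ukS d n S k (x + e0 l) - ukS d n S k x|))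
    (Sa := ∑ x ∈ Bn d n, ind (x + e0 l ∈ Bn d n) * ukS d n S k x ^ 2)
    (Sb := ∑ x ∈ Bn d n, (1 - ind (x + e0 l ∈ Bn d n)) * ukS d n S k x ^ 2)
    (Sall := ∑ x ∈ Bn d n, ukS d n S k x ^ 2)
    (Real.sqrt_pos.2 hN0) (by
      rw [Real.sqrt_le_left hN0.le]
      nlinarith) (Real.mul_self_sqrt hN0.le) hPQ rfl hQ0.le hCR hC1 (by positivity) (by positivity)
    (by
      rw [← Finset.sum_sub_distrib]
      refine Finset.sum_le_sum fun x _ => ?_
      have h1 := neg_abs_le (ukS d n S k (x + e0 l) - ukS d n S k x)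
      have h2 := u0 k x
      rcases hi01 (x + e0 l ∈ Bn d n) with h | h
      · rw [h]
        simp
      · rw [h]
        nlinarith [mul_le_mul_of_nonneg_left h1 h2])
    (by
      rw [← Finset.sum_sub_distrib]
      exact Finset.sum_le_sum fun x _ => by
        apply le_of_eq
        ring)
    hnear hsumle
    (le_trans hcs (mul_le_mul_of_nonneg_left hdiff (Finset.sum_nonneg fun x _ => sq_nonneg _)))
  rw [← hph] at hgoal
  refine le_trans (le_of_eq ?_) hgoal
  ring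

end Pool.CM
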