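import Pool.Agent.Helper22.CM.St2

/-! # Project CM: sprinkling in the box with a source set (module SprS) -/

set_option autoImplicit false

open scoped BigOperators ENNReal Topology
open Pool.LE Pool.NL Pool.CL Filter MeasureTheory

namespace Pool.CM

namespace SprS

/-- the elementary lower bound for the growth probability -/
theorem spr_q {a A R' : ℝ} (ha : 0 < a) (ha1 : a ≤ 1) (hA : 0 < A) (hR' : 0 ≤ R') (k n : ℕ)
    (hk : 1 ≤ k) (hn : 1 ≤ n)
    (hlarge : 1 + A * Real.log n ≤ 3 / 4 * (Real.exp (-(R' * k)) * (n : ℝ) ^ 2)) :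
    ⌊A * Real.log n / k⌋₊ ≤ ⌊Real.exp (-(R' * k)) * (n : ℝ) ^ 2⌋₊ ∧
    Real.exp (-((A * Real.log (8 / a) / k + A * R') * Real.log n)) ≤
      (1 - (1 - a / (n : ℝ) ^ 2) ^ (⌊Real.exp (-(R' * k)) * (n : ℝ) ^ 2⌋₊ -
        ⌊A * Real.log n / k⌋₊)) ^ ⌊A * Real.log n / k⌋₊ := by
  have hnR : (1 : ℝ) ≤ n := by exact_mod_cast hn
  have hkR : (1 : ℝ) ≤ k := by exact_mod_cast hk
  have hn0 : (0 : ℝ) < n := by linarith
  have hk0 : (0 : ℝ) < k := by linarith
  have hlog : 0 ≤ Real.log n := Real.log_nonneg hnR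
  have hn2 : (0 : ℝ) < (n : ℝ) ^ 2 := by positivity
  set L := Real.log n with hL
  set b := Real.exp (-(R' * k)) with hb
  have hb0 : 0 < b := Real.exp_pos _
  have hb1 : b ≤ 1 := by
    rw [hb, Real.exp_le_one_iff]
    have : 0 ≤ R' * k := by positivity
    linarith
  set J := ⌊A * L / k⌋₊ with hJ
  set k' := ⌊b * (n : ℝ) ^ 2⌋₊ with hk'
  have hAL : 0 ≤ A * L := by positivity
  have h1 : (J : ℝ) ≤ A * L / k := Nat.floor_le (by positivity)
  have h1' : A * L / k ≤ A * L := div_le_self hAL hkR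
  have h2 : b * (n : ℝ) ^ 2 < (k' : ℝ) + 1 := Nat.lt_floor_add_one _
  have h3 : (J : ℝ) + b / 4 * (n : ℝ) ^ 2 ≤ k' := by linarith
  have hkk : J ≤ k' := by
    have : (J : ℝ) ≤ k' := by
      have : 0 ≤ b / 4 * (n : ℝ) ^ 2 := by positivity
      linarith
    exact_mod_cast this
  refine ⟨hkk, ?_⟩
  have hcast : ((k' - J : ℕ) : ℝ) = (k' : ℝ) - J := by push_cast [hkk]; ring
  have hδ1 : a / (n : ℝ) ^ 2 ≤ 1 := by
    rw [div_le_one hn2]
    nlinarith
  have hδ0 : 0 ≤ 1 - a / (n : ℝ) ^ 2 := by linarith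
  set t := a * b / 4 with ht
  have ht0 : 0 < t := by positivity
  have ht1 : t ≤ 1 := by
    have : a * b ≤ 1 := by nlinarith
    rw [ht]
    linarith
  have h4 : (1 - a / (n : ℝ) ^ 2) ^ (k' - J) ≤ Real.exp (-t) := by
    have h5 : 1 - a / (n : ℝ) ^ 2 ≤ Real.exp (-(a / (n : ℝ) ^ 2)) := Real.one_sub_le_exp_neg _
    calc (1 - a / (n : ℝ) ^ 2) ^ (k' - J) ≤ (Real.exp (-(a / (n : ℝ) ^ 2))) ^ (k' - J) :=
          pow_le_pow_left₀ hδ0 h5 _
      _ = Real.exp (((k' - J : ℕ) : ℝ) * (-(a / (n : ℝ) ^ 2))) := by rw [← Real.exp_nat_mul]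
      _ ≤ Real.exp (-t) := by
          apply Real.exp_le_exp.2
          rw [hcast]
          have h6 : b / 4 * (n : ℝ) ^ 2 ≤ (k' : ℝ) - J := by linarith
          have h7 : t ≤ ((k' : ℝ) - J) * (a / (n : ℝ) ^ 2) := by
            rw [ht, mul_div_assoc', le_div_iff₀ hn2]
            nlinarith
          linarith
  have h8 : Real.exp (-t) ≤ 1 - t / 2 := by
    have h9 : 1 + t ≤ Real.exp t := by
      have := Real.add_one_le_exp t
      linarith
    rw [Real.exp_neg, inv_le_comm₀ (Real.exp_pos _) (by linarith)]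
    refine le_trans ?_ h9
    rw [inv_le_iff_one_le_mul₀ (by linarith)]
    nlinarith
  have hΛ : 0 ≤ Real.log (8 / a) := by
    apply Real.log_nonneg
    rw [le_div_iff₀ ha]
    linarith
  have h10 : Real.log (a * b / 8) = -(Real.log (8 / a) + R' * k) := by
    have e1 : a * b / 8 = (8 / a)⁻¹ * b := by
      field_simp
    rw [e1, Real.log_mul (by positivity) hb0.ne', Real.log_inv, hb, Real.log_exp]
    ring
  have h11 : 0 < a * b / 8 := by positivity
  calc Real.exp (-((A * Real.log (8 / a) / k + A * R') * L)) ≤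
        Real.exp ((J : ℝ) * Real.log (a * b / 8)) := by
        apply Real.exp_le_exp.2
        rw [h10]
        have e2 : (J : ℝ) * (Real.log (8 / a) + R' * k) ≤
            A * L / k * (Real.log (8 / a) + R' * k) :=
          mul_le_mul_of_nonneg_right h1 (by positivity)
        have e3 : A * L / k * (Real.log (8 / a) + R' * k) =
            (A * Real.log (8 / a) / k + A * R') * L := by
          field_simp
        linarith
    _ = (a * b / 8) ^ J := by
        rw [Real.exp_nat_mul, Real.exp_log h11]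
    _ ≤ (1 - (1 - a / (n : ℝ) ^ 2) ^ (k' - J)) ^ J := by
        apply pow_le_pow_left₀ h11.le
        have : a * b / 8 = t / 2 := by rw [ht]; ring
        linarith

/-- the sum over a disjoint family of clusters, traces on a set -/
theorem spr_sum {d n : ℕ} (hBn : StBn) (hClu : StClu) {m : ℕ} {ω : Finset (Sym2 (Zd d))}
    {S : Finset (Zd d)} (hS : S ⊆ Bn d n)
    (hω : ω ⊆ ES (Bn d n)) (F : Finset (Finset (Zd d))) (hF : F ⊆ bigS (Bn d n) S m ω)
    (g : Zd d → ℝ) (hg : ∀ x, 0 ≤ g x) (q : ℝ) (hq : 0 ≤ q) (hgq : ∀ C ∈ F, ∀ x ∈ C, q ≤ g x) :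
    (F.card : ℝ) * (m * q) ≤ ∑ x ∈ S, g x := by
  classical
  obtain ⟨hFG, -, -, -, -⟩ := hBn d n
  obtain ⟨-, hc2, hc3, -, -, -, -⟩ := hClu (Zd d) (Bn d n) (ES (Bn d n)) ω (2 * d) hFG hω
  have hmem : ∀ C ∈ F, ∃ x ∈ Bn d n, m ≤ Xc S ω x ∧ clu (Bn d n) ω x = C := by
    intro C hC
    have h1 := hF hC
    unfold bigS at h1
    rw [Finset.mem_image] at h1
    obtain ⟨x, hx, hxC⟩ := h1
    rw [Finset.mem_filter] at hx
    exact ⟨x, hx.1, hx.2, hxC⟩
  have hdisj : ∀ C ∈ F, ∀ B ∈ F, C ≠ B → Disjoint C B := by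
    intro C hC B hB hCB
    obtain ⟨x, -, -, rfl⟩ := hmem C hC
    obtain ⟨y, -, -, rfl⟩ := hmem B hB
    apply hc3
    intro hcon
    exact hCB (hc2 x y hcon).1
  have hsub : F.biUnion (fun C => C ∩ S) ⊆ S := by
    intro y hy
    rw [Finset.mem_biUnion] at hy
    obtain ⟨C, _, hyC⟩ := hy
    exact (Finset.mem_inter.1 hyC).2
  calc (F.card : ℝ) * (m * q) = ∑ C ∈ F, (m : ℝ) * q := by rw [Finset.sum_const, nsmul_eq_mul]
    _ ≤ ∑ C ∈ F, ∑ x ∈ C ∩ S, g x := by
        refine Finset.sum_le_sum fun C hC => ?_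
        obtain ⟨x, -, hxm, hxC⟩ := hmem C hC
        have hcard : (m : ℝ) ≤ (C ∩ S).card := by
          have h1 : m ≤ (C ∩ S).card := by
            refine hxm.trans ?_
            unfold Xc
            apply Finset.card_le_card
            intro y hy
            rw [← hxC]
            unfold clu at hy ⊢
            rw [Finset.mem_filter] at hy
            rw [Finset.mem_inter, Finset.mem_filter]
            exact ⟨⟨hS hy.1, hy.2⟩, hy.1⟩
          exact_mod_cast h1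
        calc (m : ℝ) * q ≤ (C ∩ S).card * q := mul_le_mul_of_nonneg_right hcard hq
          _ = ∑ x ∈ C ∩ S, q := by rw [Finset.sum_const, nsmul_eq_mul]
          _ ≤ _ := Finset.sum_le_sum fun y hy => hgq C hC y (Finset.mem_inter.1 hy).1
    _ = ∑ x ∈ F.biUnion (fun C => C ∩ S), g x := by
        rw [Finset.sum_biUnion]
        intro C hC B hB hCB
        exact (hdisj C hC B hB hCB).mono Finset.inter_subset_left Finset.inter_subset_left
    _ ≤ _ := Finset.sum_le_sum_of_subset_of_nonneg hsub fun x _ _ => hg x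

end SprS

open SprS

theorem hSprS (hFam : StFamS) (hSpr : Pool.NL.StSpr) (hGrow : StGrowS) (hBn : StBn)
    (hB : StBasic) (hC : StClu) : StSprS := by
  classical
  intro d C₁ B c₀ CL hE l S c R₁ R₂ hRad A a ε hA ha ha1 hε
  have hR1 := hRad.pos
  have hR12 := hRad.le
  set R : ℝ := R₂ + 35 * (R₂ - R₁) with hRdef
  have hR : 0 < R := by linarith
  have hd := hE.env.hd
  have hp0 : 0 ≤ pH d := hE.env.p0.le
  have hp1 : pH d ≤ 1 := hE.env.p1.trans (by norm_num)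
  set e1 := ε / (4 * (A + 1)) with he1
  have he10 : 0 < e1 := by positivity
  have hAe1 : A * e1 ≤ ε / 4 := by
    rw [he1, mul_div_assoc', div_le_div_iff₀ (by positivity) (by norm_num)]
    have h1 : A * ε * 4 = ε * (4 * (A + 1)) - 4 * ε := by ring
    rw [h1]
    linarith
  set Λ := Real.log (8 / a) with hΛd
  have hΛ : 0 ≤ Λ := by
    apply Real.log_nonneg
    rw [le_div_iff₀ ha]
    linarith
  set k₀ := ⌈4 * A * Λ / ε⌉₊ with hk₀
  obtain ⟨k₂, c', hc', hfam⟩ := hFam d C₁ B c₀ CL hE l S c R₁ R₂ hRad e1 k₀ he10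
  set β := Real.exp (-((R + e1) * k₂)) with hβ
  have hβ0 : 0 < β := Real.exp_pos _
  have hlev := hRad.fil (eventually_ge_atTop (max 1 (max ⌈(1 + A) / (3 / 4 * β)⌉₊
    (max ⌈Real.exp k₂⌉₊ ⌈Real.exp (4 * |Real.log c'| / ε)⌉₊))))
  filter_upwards [hfam, hlev] with n hfamn hnn
  have hn_a : 1 ≤ n := le_trans (le_max_left _ _) hnn
  have hSn : S n ⊆ Bn d n := hRad.sub n
  have hnn2 := le_trans (le_max_right _ _) hnn
  have hn_b : (1 + A) / (3 / 4 * β) ≤ n := Nat.ceil_le.1 (le_trans (le_max_left _ _) hnn2)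
  have hnn3 := le_trans (le_max_right _ _) hnn2
  have hn_c : Real.exp k₂ ≤ n := Nat.ceil_le.1 (le_trans (le_max_left _ _) hnn3)
  have hn_d : Real.exp (4 * |Real.log c'| / ε) ≤ n :=
    Nat.ceil_le.1 (le_trans (le_max_right _ _) hnn3)
  have hn1 : 1 ≤ n := hn_a
  have hnR : (1 : ℝ) ≤ n := by exact_mod_cast hn1
  have hnp : (0 : ℝ) < n := by linarith
  have hlog0 : 0 ≤ Real.log n := Real.log_nonneg hnR
  have hL1 : (k₂ : ℝ) ≤ Real.log n := by
    rw [← Real.log_exp (k₂ : ℝ)]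
    exact Real.log_le_log (Real.exp_pos _) hn_c
  have hL3 : 4 * |Real.log c'| / ε ≤ Real.log n := by
    rw [← Real.log_exp (4 * |Real.log c'| / ε)]
    exact Real.log_le_log (Real.exp_pos _) hn_d
  obtain ⟨k, hk0, hk1, hk2, hprob⟩ := hfamn
  have hkR : (1 : ℝ) ≤ k := by exact_mod_cast hk1
  have hkp : (0 : ℝ) < k := by linarith
  have hk2R : (k : ℝ) ≤ k₂ := by exact_mod_cast hk2
  have hβk : β ≤ Real.exp (-((R + e1) * k)) := by
    apply Real.exp_le_exp.2
    have : (R + e1) * k ≤ (R + e1) * k₂ := mul_le_mul_of_nonneg_left hk2R (by positivity)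
    linarith
  have hlarge : 1 + A * Real.log n ≤ 3 / 4 * (Real.exp (-((R + e1) * k)) * (n : ℝ) ^ 2) := by
    have h1 : Real.log n ≤ n := by
      have := Real.log_le_sub_one_of_pos hnp
      linarith
    have h2 : 0 < 3 / 4 * β := by positivity
    rw [div_le_iff₀ h2] at hn_b
    have h3 : A * Real.log n ≤ A * n := mul_le_mul_of_nonneg_left h1 hA.le
    have h4 : (1 + A) * n ≤ 3 / 4 * (β * (n : ℝ) ^ 2) := by
      calc (1 + A) * n ≤ n * (3 / 4 * β) * n := mul_le_mul_of_nonneg_right hn_b hnp.le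
        _ = _ := by ring
    have h5 : β * (n : ℝ) ^ 2 ≤ Real.exp (-((R + e1) * k)) * (n : ℝ) ^ 2 :=
      mul_le_mul_of_nonneg_right hβk (by positivity)
    have h6 : (1 + A) * (n : ℝ) = n + A * n := by ring
    linarith
  obtain ⟨hkk, hq⟩ := spr_q ha ha1 hA (R' := R + e1) (by positivity) k n hk1 hn1 hlarge
  set J := ⌊A * Real.log n / k⌋₊ with hJ
  set k' := ⌊Real.exp (-((R + e1) * k)) * (n : ℝ) ^ 2⌋₊ with hk'
  set q := Real.exp (-((A * R + ε / 2) * Real.log n)) with hqdef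
  have hq0 : 0 < q := Real.exp_pos _
  have hqq : q ≤ (1 - (1 - a / (n : ℝ) ^ 2) ^ (k' - J)) ^ J := by
    refine le_trans ?_ hq
    apply Real.exp_le_exp.2
    have h1 : A * Λ / k ≤ ε / 4 := by
      have h2 : 4 * A * Λ / ε ≤ k := by
        have h3 : (k₀ : ℝ) ≤ k := by exact_mod_cast hk0
        exact le_trans (Nat.le_ceil _) h3
      rw [div_le_iff₀ hε] at h2
      rw [div_le_iff₀ hkp]
      linarith
    have h4 : (A * Λ / k + A * (R + e1)) * Real.log n ≤ (A * R + ε / 2) * Real.log n := by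
      apply mul_le_mul_of_nonneg_right _ hlog0
      have h5 : A * (R + e1) = A * R + A * e1 := by ring
      rw [h5]
      linarith
    linarith
  set s := (J + 1) * (k * n ^ 4) with hs
  have hsR : (s : ℝ) = ((J : ℝ) + 1) * k * (n : ℝ) ^ 4 := by
    rw [hs]
    push_cast
    ring
  have hn4 : (0 : ℝ) < (n : ℝ) ^ 4 := by positivity
  have hJle : (J : ℝ) ≤ A * Real.log n / k := Nat.floor_le (by positivity)
  have hJlt : A * Real.log n / k < (J : ℝ) + 1 := Nat.lt_floor_add_one _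
  have hs1 : 1 ≤ s := by
    rw [hs]
    have h1 : 0 < k * n ^ 4 := by positivity
    exact Nat.succ_le_of_lt (Nat.mul_pos (Nat.succ_pos J) h1)
  have hs2 : A * (n : ℝ) ^ 4 * Real.log n ≤ s := by
    rw [hsR]
    rw [div_lt_iff₀ hkp] at hJlt
    calc A * (n : ℝ) ^ 4 * Real.log n = A * Real.log n * (n : ℝ) ^ 4 := by ring
      _ ≤ ((J : ℝ) + 1) * k * (n : ℝ) ^ 4 := mul_le_mul_of_nonneg_right hJlt.le hn4.le
  have hs3 : (s : ℝ) ≤ (A + 1) * (n : ℝ) ^ 4 * Real.log n := by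
    rw [hsR]
    rw [le_div_iff₀ hkp] at hJle
    have h1 : ((J : ℝ) + 1) * k ≤ (A + 1) * Real.log n := by
      have h2 : ((J : ℝ) + 1) * k = J * k + k := by ring
      have h3 : (A + 1) * Real.log n = A * Real.log n + Real.log n := by ring
      rw [h2, h3]
      linarith
    calc ((J : ℝ) + 1) * k * (n : ℝ) ^ 4 ≤ (A + 1) * Real.log n * (n : ℝ) ^ 4 :=
          mul_le_mul_of_nonneg_right h1 hn4.le
      _ = _ := by ring
  refine ⟨s, hs1, hs2, hs3, ?_⟩
  obtain ⟨hFG, -, -, -, -⟩ := hBn d n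
  obtain ⟨hmono, -, -, -, hsmul, hsum, hpr, -, -, -⟩ := hB (Zd d) (ES (Bn d n)) (pH d) hp0 hp1
  have hδ0 : (0 : ℝ) ≤ a / (n : ℝ) ^ 2 := by positivity
  have hδ1 : a / (n : ℝ) ^ 2 ≤ 1 := by
    rw [div_le_one (by positivity)]
    have h1 : (1 : ℝ) ≤ (n : ℝ) ^ 2 := one_le_pow₀ hnR
    linarith
  obtain ⟨hmonoδ, hconstδ, -, -, -, -, hprδ, -, -, -⟩ :=
    hB (Zd d) (ES (Bn d n)) (a / (n : ℝ) ^ 2) hδ0 hδ1
  have hm1 : 1 ≤ k * n ^ 4 := Nat.succ_le_of_lt (by positivity)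
  -- the function of ω
  set gg : Finset (Sym2 (Zd d)) → Zd d → ℝ := fun ω x => ex (ES (Bn d n)) (a / (n : ℝ) ^ 2)
    (fun ζ => ind (s ≤ Xc (S n) (ω ∪ ζ) x)) with hgg
  have hgg0 : ∀ ω x, 0 ≤ gg ω x := fun ω x => (hprδ _).1
  have hrew : ∑ x ∈ S n, pB d n (psa d n a) (fun ω => s ≤ Xc (S n) ω x) =
      ex (ES (Bn d n)) (pH d) (fun ω => ∑ x ∈ S n, gg ω x) := by
    rw [hsum]
    refine Finset.sum_congr rfl fun x _ => ?_
    exact hSpr (Zd d) (ES (Bn d n)) (pH d) (a / (n : ℝ) ^ 2)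
      (fun ω => ind (s ≤ Xc (S n) ω x))
  rw [hrew]
  set Ev : Finset (Sym2 (Zd d)) → Prop := fun ω => ∃ F : Finset (Finset (Zd d)),
    F ⊆ bigS (Bn d n) (S n) (k * n ^ 4) ω ∧ c' * (n : ℝ) ^ (d - 6) ≤ F.card ∧
      minDeg (ES (Bn d n)) F ⌊Real.exp (-((R + e1) * k)) * (n : ℝ) ^ 2⌋₊ with hEv
  have hprA : c' ≤ pr (ES (Bn d n)) (pH d) Ev := hprob
  set K : ℝ := c' * (n : ℝ) ^ (d - 6) * ((n : ℝ) ^ 4 * q) with hK
  have hK0 : 0 ≤ K := by positivity
  have hlow : K * pr (ES (Bn d n)) (pH d) Ev ≤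
      ex (ES (Bn d n)) (pH d) (fun ω => ∑ x ∈ S n, gg ω x) := by
    have h1 : K * pr (ES (Bn d n)) (pH d) Ev =
        ex (ES (Bn d n)) (pH d) (fun ω => K * ind (Ev ω)) := (hsmul K _).symm
    rw [h1]
    refine hmono _ _ fun ω hω => ?_
    have hs0 : 0 ≤ ∑ x ∈ S n, gg ω x := Finset.sum_nonneg fun x _ => hgg0 ω x
    by_cases hAω : Ev ω
    · have hi : ind (Ev ω) = 1 := by unfold ind; rw [if_pos hAω]
      rw [hi, mul_one]
      obtain ⟨F, hF1, hF2, hF3⟩ := hAω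
      have h2 : ∀ A' ∈ F, ∀ x ∈ A', q ≤ gg ω x := by
        intro A' hA' x hx
        exact hqq.trans (hGrow (Zd d) (Bn d n) (S n) (ES (Bn d n)) ω (2 * d) (k * n ^ 4)
          (a / (n : ℝ) ^ 2) hFG hSn hω hm1 hδ0 hδ1 F k' hF1 hF3 J hkk A' hA' x hx)
      have h3 := spr_sum hBn hC hSn hω F hF1 (gg ω) (hgg0 ω) q hq0.le h2
      refine le_trans ?_ h3
      rw [hK]
      have h4 : (n : ℝ) ^ 4 * q ≤ ((k * n ^ 4 : ℕ) : ℝ) * q := by
        apply mul_le_mul_of_nonneg_right _ hq0.le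
        push_cast
        have h5 : 1 * (n : ℝ) ^ 4 ≤ k * (n : ℝ) ^ 4 := mul_le_mul_of_nonneg_right hkR hn4.le
        linarith
      exact mul_le_mul hF2 h4 (by positivity) (by positivity)
    · have hi : ind (Ev ω) = 0 := by unfold ind; rw [if_neg hAω]
      rw [hi, mul_zero]
      exact hs0
  refine le_trans ?_ hlow
  refine le_trans ?_ (mul_le_mul_of_nonneg_left hprA hK0)
  rw [hK]
  obtain ⟨j, hj⟩ : ∃ j, d = 21 + j := ⟨d - 21, by omega⟩
  rw [show d - 6 = 15 + j by omega]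
  have hjR : (d : ℝ) = 21 + j := by exact_mod_cast hj
  have e1' : c' * (n : ℝ) ^ (15 + j) * ((n : ℝ) ^ 4 * q) * c' =
      c' ^ 2 * ((n : ℝ) ^ (19 + j) * q) := by ring
  have e2 : (n : ℝ) ^ (19 + j) = Real.exp (((19 + j : ℕ) : ℝ) * Real.log n) := by
    rw [Real.exp_nat_mul, Real.exp_log hnp]
  have e3 : c' ^ 2 = Real.exp (2 * Real.log c') := by
    have := Real.exp_nat_mul (Real.log c') 2
    rw [Real.exp_log hc'] at this
    rw [← this]
    norm_num
  rw [e1', e2, e3, hqdef, ← Real.exp_add, ← Real.exp_add, Real.rpow_def_of_pos hnp]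
  apply Real.exp_le_exp.2
  have h6 : -(4 * Real.log c') ≤ ε * Real.log n := by
    rw [div_le_iff₀ hε] at hL3
    have := neg_abs_le (Real.log c')
    linarith
  rw [hjR]
  push_cast
  linarith

end Pool.CM
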