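import Pool.Agent.Helper22.CM.St2
import Pool.Agent.Helper84.LE.BWT
import Pool.Agent.Helper84.LE.BGR

set_option autoImplicit false

open scoped BigOperators ENNReal Topology
open Pool.LE Pool.NL Pool.CL Filter MeasureTheory

namespace Pool.CM

namespace SurgSS

lemma mem_Bn_Li {d n : ℕ} (x : Zd d) : x ∈ Bn d n ↔ ∀ i, 0 ≤ x i ∧ x i < n := by
  simp [Bn]

lemma e0_add_Li {d : ℕ} (a b : ℕ) : (e0 (a + b) : Zd d) = e0 a + e0 b := by
  funext i
  simp only [e0, Pi.add_apply]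
  split_ifs <;> simp

lemma e0_one_Li {d : ℕ} (hd : 1 ≤ d) : (e0 1 : Zd d) = Pi.single ⟨0, hd⟩ 1 := by
  funext i
  simp only [e0, Pi.single_apply, Fin.ext_iff]
  split_ifs <;> simp

lemma ind_nn (A : Prop) : 0 ≤ ind A := by
  classical
  unfold ind
  split_ifs <;> norm_num

lemma ind_and3 (A B C : Prop) : ind (A ∧ B ∧ C) = ind A * ind B * ind C := by
  classical
  unfold ind
  by_cases hA : A <;> by_cases hB : B <;> by_cases hC : C <;> simp [hA, hB, hC]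

lemma ind_mono {A B : Prop} (h : A → B) : ind A ≤ ind B := by
  classical
  unfold ind
  by_cases hA : A
  · rw [if_pos hA, if_pos (h hA)]
  · rw [if_neg hA]
    split_ifs <;> norm_num

lemma mem_ES {d : ℕ} {S : Finset (Zd d)} (i : Fin d) (x : Zd d) (h1 : x ∈ S)
    (h2 : x + Pi.single i (1 : ℤ) ∈ S) : s(x, x + Pi.single i (1 : ℤ)) ∈ ES S := by
  classical
  unfold ES
  rw [Finset.mem_image]
  refine ⟨(x, i), ?_, rfl⟩
  rw [Finset.mem_filter]
  exact ⟨Finset.mem_product.2 ⟨h1, Finset.mem_univ _⟩, h2⟩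

end SurgSS

theorem hSurgSS (hSurg : StSurgX) (hB : StBasic) (hBn : StBn) : StSurgSS := by
  classical
  intro d C₁ B c₀ CL hE n k l S hn hSB
  obtain ⟨m, hm⟩ : ∃ m, m = k * n ^ 4 := ⟨_, rfl⟩
  rw [← hm]
  have hd : 1 ≤ d := by have := hE.env.hd; omega
  have hp0 : 0 < pH d := hE.env.p0
  have hp1 : pH d ≤ 1 := by linarith [hE.half]
  obtain ⟨p, hp⟩ : ∃ p, p = pH d := ⟨_, rfl⟩
  rw [← hp] at hp0 hp1
  obtain ⟨hFG, -⟩ := hBn d n
  obtain ⟨-, -, -, -, -, hsum, hpr, -, -, -⟩ := hB (Zd d) (ES (Bn d n)) p hp0.le hp1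
  let F : Zd d × Zd d → ℝ := fun ub =>
    pr (ES (Bn d n)) p (fun ω => m ≤ Xc S ω ub.1 ∧ m ≤ Xc S ω ub.2 ∧
      ¬ con ω ub.1 ub.2)
  have hF0 : ∀ ub, 0 ≤ F ub := fun ub => (hpr _).1
  obtain ⟨Sg, hSg⟩ : ∃ Sg, Sg = ∑ ub ∈ drt (ES (Bn d n)), F ub := ⟨_, rfl⟩
  have hSg0 : 0 ≤ Sg := hSg ▸ Finset.sum_nonneg fun ub _ => hF0 ub
  have hJJ : eb d n (JS d n S k) = Sg := by
    rw [hSg]
    unfold eb
    have e0 : JS d n S k = fun ω => ((JJ S (ES (Bn d n)) m ω).card : ℝ) := by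
      rw [hm]
      rfl
    rw [e0]
    rw [← hp]
    have e1 : (fun ω => ((JJ S (ES (Bn d n)) m ω).card : ℝ)) =
        fun ω => ∑ ub ∈ drt (ES (Bn d n)), ind (m ≤ Xc S ω ub.1 ∧
          m ≤ Xc S ω ub.2 ∧ ¬ con ω ub.1 ub.2) := by
      funext ω
      unfold JJ
      rw [Finset.card_filter]
      push_cast
      refine Finset.sum_congr rfl fun ub _ => ?_
      unfold ind
      by_cases hA : m ≤ Xc S ω ub.1 ∧ m ≤ Xc S ω ub.2 ∧ ¬ con ω ub.1 ub.2
      · rw [if_pos hA, if_pos hA]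
      · rw [if_neg hA, if_neg hA]
    rw [e1, hsum]
    rfl
  rw [hJJ]
  have hin : ∀ a ∈ Bn d n, a + e0 l ∈ Bn d n → ∀ i : ℕ, i ≤ l → a + e0 i ∈ Bn d n := by
    intro a ha ha' i hi
    have h1 := (SurgSS.mem_Bn_Li a).1 ha
    have h2 := (SurgSS.mem_Bn_Li _).1 ha'
    rw [SurgSS.mem_Bn_Li]
    intro j
    have h3 := h1 j
    have h4 := h2 j
    simp only [Pi.add_apply, e0] at h4 ⊢
    by_cases hj : (j : ℕ) = 0
    · rw [if_pos hj] at h4 ⊢
      have : (i : ℤ) ≤ l := by exact_mod_cast hi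
      constructor <;> omega
    · rw [if_neg hj] at h4 ⊢
      exact h4
  have hedge : ∀ a ∈ Bn d n, a + e0 l ∈ Bn d n → ∀ i : ℕ, i < l →
      s(a + e0 i, a + e0 (i + 1)) ∈ ES (Bn d n) := by
    intro a ha ha' i hi
    have h1 := hin a ha ha' i hi.le
    have h2 := hin a ha ha' (i + 1) hi
    rw [SurgSS.e0_add_Li, SurgSS.e0_one_Li hd, ← add_assoc] at h2 ⊢
    exact SurgSS.mem_ES ⟨0, hd⟩ _ h1 h2
  obtain ⟨P, hP⟩ : ∃ P, P = (Bn d n).filter (fun a => a + e0 l ∈ Bn d n) := ⟨_, rfl⟩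
  have hPm : ∀ a, a ∈ P ↔ a ∈ Bn d n ∧ a + e0 l ∈ Bn d n := by
    intro a
    rw [hP, Finset.mem_filter]
  have hinner : ∀ i, i < l → ∑ a ∈ P, F (a + e0 i, a + e0 (i + 1)) ≤ Sg := by
    intro i hi
    have hinj : Set.InjOn (fun a : Zd d => (a + e0 i, a + e0 (i + 1))) (P : Set (Zd d)) := by
      intro a _ b _ h
      simp only [Prod.mk.injEq] at h
      exact add_right_cancel h.1
    rw [← Finset.sum_image (g := fun a : Zd d => (a + e0 i, a + e0 (i + 1))) (f := F) hinj, hSg]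
    apply Finset.sum_le_sum_of_subset_of_nonneg
    · intro q hq
      obtain ⟨a, ha, rfl⟩ := Finset.mem_image.1 hq
      exact mem_drt.2 (hedge a ((hPm a).1 ha).1 ((hPm a).1 ha).2 i hi)
    · intro q _ _
      exact hF0 q
  have hone : ∀ a ∈ P, pr (ES (Bn d n)) p (fun ω => m ≤ Xc S ω a ∧ m ≤ Xc S ω (a + e0 l) ∧
      ¬ con ω a (a + e0 l)) ≤
        (1 / p) ^ l * ∑ i ∈ Finset.range l, F (a + e0 i, a + e0 (i + 1)) := by
    intro a ha
    have ha' := (hPm a).1 ha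
    have h1 := hSurg (Zd d) S (ES (Bn d n)) p hp0 hp1
      (fun i j => ind (m ≤ i) * ind (m ≤ j))
      (fun i j => mul_nonneg (SurgSS.ind_nn _) (SurgSS.ind_nn _))
      (fun a a' b b' h h' => mul_le_mul (SurgSS.ind_mono fun q => q.trans h)
        (SurgSS.ind_mono fun q => q.trans h') (SurgSS.ind_nn _) (SurgSS.ind_nn _)) l
      (fun i => a + e0 i) (fun i hi => hedge a ha'.1 ha'.2 i hi)
    have h0 : (a + e0 0 : Zd d) = a := by
      funext j
      simp [e0]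
    simp only [h0] at h1
    have e2 : ∀ x y : Zd d, ex (ES (Bn d n)) p (fun ω => ind (m ≤ Xc S ω x) *
        ind (m ≤ Xc S ω y) * ind (¬ con ω x y)) = F (x, y) := by
      intro x y
      show _ = ex (ES (Bn d n)) p (fun ω => ind (m ≤ Xc S ω x ∧ m ≤ Xc S ω y ∧
        ¬ con ω x y))
      congr 1
      funext ω
      rw [SurgSS.ind_and3]
    simp only [e2] at h1
    exact h1
  have hLHS : ∑ a ∈ Bn d n, ind (a + e0 l ∈ Bn d n) * pB d n (pH d) (fun ω => m ≤ Xc S ω a ∧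
      m ≤ Xc S ω (a + e0 l) ∧ ¬ con ω a (a + e0 l)) = ∑ a ∈ P, pr (ES (Bn d n)) p (fun ω =>
        m ≤ Xc S ω a ∧ m ≤ Xc S ω (a + e0 l) ∧ ¬ con ω a (a + e0 l)) := by
    rw [hP, Finset.sum_filter]
    refine Finset.sum_congr rfl fun a _ => ?_
    unfold ind pB
    rw [← hp]
    by_cases hA : a + e0 l ∈ Bn d n
    · rw [if_pos hA, if_pos hA, one_mul]
    · rw [if_neg hA, if_neg hA, zero_mul]
  rw [hLHS, ← hp]
  calc ∑ a ∈ P, pr (ES (Bn d n)) p (fun ω =>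
        m ≤ Xc S ω a ∧ m ≤ Xc S ω (a + e0 l) ∧ ¬ con ω a (a + e0 l))
      ≤ ∑ a ∈ P, (1 / p) ^ l * ∑ i ∈ Finset.range l, F (a + e0 i, a + e0 (i + 1)) :=
          Finset.sum_le_sum hone
    _ = (1 / p) ^ l * ∑ i ∈ Finset.range l, ∑ a ∈ P, F (a + e0 i, a + e0 (i + 1)) := by
          rw [← Finset.mul_sum, Finset.sum_comm]
    _ ≤ (1 / p) ^ l * ∑ _i ∈ Finset.range l, Sg := by
          apply mul_le_mul_of_nonneg_left _ (by positivity)
          exact Finset.sum_le_sum fun i hi => hinner i (Finset.mem_range.1 hi)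
    _ = l * (1 / p) ^ l * Sg := by
          rw [Finset.sum_const, Finset.card_range, nsmul_eq_mul]
          ring

end Pool.CM
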