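import Pool.Agent.Helper22.CM.XA
import Pool.Agent.Helper22.NL.M_Surg

/-! # Project CM: module SurgX (surgery along a path, any count set) -/

set_option autoImplicit false

open scoped BigOperators ENNReal Topology
open Pool.LE Pool.NL Pool.CL Filter MeasureTheory

namespace Pool.CM

theorem SurgX.path {V : Type} [DecidableEq V] (A : Finset V) (f : ℕ → ℕ → ℝ)
    (hf0 : ∀ a b, 0 ≤ f a b)
    (hf : ∀ a a' b b', a ≤ a' → b ≤ b' → f a b ≤ f a' b') (l : ℕ) (v : ℕ → V)
    (ω : Finset (Sym2 V)) :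
    f (Xc A ω (v 0)) (Xc A ω (v l)) * ind (¬ con ω (v 0) (v l)) ≤
      ∑ i ∈ Finset.range l, f (Xc A (W_Surg v i ω) (v i)) (Xc A (W_Surg v i ω) (v (i + 1))) *
        ind (¬ con (W_Surg v i ω) (v i) (v (i + 1))) := by
  classical
  have hn : ∀ i ∈ Finset.range l, 0 ≤ f (Xc A (W_Surg v i ω) (v i))
      (Xc A (W_Surg v i ω) (v (i + 1))) * ind (¬ con (W_Surg v i ω) (v i) (v (i + 1))) :=
    fun i _ => mul_nonneg (hf0 _ _) (ind_nonneg_Surg _)
  by_cases hc : con ω (v 0) (v l)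
  · have h0 : ind (¬ con ω (v 0) (v l)) = 0 := by
      unfold ind
      rw [if_neg (not_not.2 hc)]
    rw [h0, mul_zero]
    exact Finset.sum_nonneg hn
  · have hex : ∃ i, con (W_Surg v i ω) (v 0) (v l) := ⟨l, con_W_Surg v ω l⟩
    have hi1 : con (W_Surg v (Nat.find hex) ω) (v 0) (v l) := Nat.find_spec hex
    have hi2 : Nat.find hex ≤ l := Nat.find_min' hex (con_W_Surg v ω l)
    have hi0 : Nat.find hex ≠ 0 := by
      intro h0
      rw [h0] at hi1
      exact hc hi1
    obtain ⟨k, hk⟩ := Nat.exists_eq_succ_of_ne_zero hi0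
    have hk1 : ¬ con (W_Surg v k ω) (v 0) (v l) := Nat.find_min hex (by omega)
    rw [hk] at hi1 hi2
    have hkl : k < l := hi2
    set η := W_Surg v k ω with hη
    have hωη : ω ⊆ η := subset_W_Surg v k ω
    have h0k : con η (v 0) (v k) := con_W_Surg v ω k
    have h1 : con η (v (k + 1)) (v l) := by
      have hi3 : con (insert s(v k, v (k + 1)) η) (v 0) (v l) := hi1
      rcases con_insert_Surg hi3 with h | h | h
      · exact absurd h hk1
      · exact h.2
      · exact absurd (con_trans h0k h.2) hk1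
    have h2 : ¬ con η (v k) (v (k + 1)) := fun h => hk1 (con_trans (con_trans h0k h) h1)
    have h3 : Xc A ω (v 0) ≤ Xc A η (v k) := (XA.xc_mono A hωη _).trans (XA.xc_eq A h0k).le
    have h4 : Xc A ω (v l) ≤ Xc A η (v (k + 1)) :=
      (XA.xc_mono A hωη _).trans (XA.xc_eq A h1).symm.le
    have h5 : f (Xc A ω (v 0)) (Xc A ω (v l)) * ind (¬ con ω (v 0) (v l)) ≤
        f (Xc A η (v k)) (Xc A η (v (k + 1))) * ind (¬ con η (v k) (v (k + 1))) := by
      unfold ind
      rw [if_pos hc, if_pos h2, mul_one, mul_one]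
      exact hf _ _ _ _ h3 h4
    exact h5.trans (Finset.single_le_sum hn (Finset.mem_range.2 hkl))

theorem hSurgX (hB : StBasic) (hE : StEdge) : StSurgX := by
  classical
  intro V _ A E p hp0 hp1 f hf0 hf l v hv
  obtain ⟨h1, -, -, -, -, h6, -⟩ := hB V E p hp0.le hp1
  refine (h1 _ _ fun ω _ => SurgX.path A f hf0 hf l v ω).trans ?_
  rw [h6 ℕ (Finset.range l) (fun i ω => f (Xc A (W_Surg v i ω) (v i))
    (Xc A (W_Surg v i ω) (v (i + 1))) * ind (¬ con (W_Surg v i ω) (v i) (v (i + 1)))),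
    Finset.mul_sum]
  refine Finset.sum_le_sum fun i hi => ?_
  have hil : i ≤ l := (Finset.mem_range.1 hi).le
  have hF : ∀ ω : Finset (Sym2 V), 0 ≤ f (Xc A ω (v i)) (Xc A ω (v (i + 1))) *
      ind (¬ con ω (v i) (v (i + 1))) := fun ω => mul_nonneg (hf0 _ _) (ind_nonneg_Surg _)
  have h7 := ex_W_Surg hB hE E p hp0 hp1 l v hv i hil (fun ω => f (Xc A ω (v i))
    (Xc A ω (v (i + 1))) * ind (¬ con ω (v i) (v (i + 1)))) hF
  refine h7.trans ?_
  refine mul_le_mul_of_nonneg_right ?_ (ex_nonneg_Surg hB E p hp0.le hp1 _ hF)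
  exact pow_le_pow_right₀ ((one_le_div hp0).2 hp1) hil

end Pool.CM
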