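import Pool.Agent.Helper22.CM.XA

/-! # Project CM: module TailS (tail bounds) -/

set_option autoImplicit false

open scoped BigOperators ENNReal Topology
open Pool.LE Pool.NL Pool.CL Filter MeasureTheory

namespace Pool.CM

theorem hTailS (hB : StBasic) : StTailS := by
  intro d C₁ B c₀ CL hE n S θ K x hn hθ hK s hs
  have hp0 : 0 ≤ pH d := hE.env.p0.le
  have hp1 : pH d ≤ 1 := hE.env.p1.trans (by norm_num)
  obtain ⟨hmono, -, -, -, hmul, -, -, -, -, -⟩ := hB (Zd d) (ES (Bn d n)) (pH d) hp0 hp1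
  have hn0 : (0 : ℝ) < n := by exact_mod_cast hn
  have h4 : (0 : ℝ) < (n : ℝ) ^ 4 := by positivity
  have h2 : (0 : ℝ) < (n : ℝ) ^ 2 := by positivity
  have key : eb d n (fun ω => (Xc S ω x : ℝ) * ind (s ≤ Xc S ω x)) ≤
      K * (n : ℝ) ^ 2 * Real.exp (-(θ * s / (n : ℝ) ^ 4)) := by
    have e1 : eb d n (fun ω => (Xc S ω x : ℝ) * ind (s ≤ Xc S ω x)) ≤
        eb d n (fun ω => Real.exp (-(θ * s / (n : ℝ) ^ 4)) *
          ((Xc S ω x : ℝ) * Real.exp (θ * Xc S ω x / (n : ℝ) ^ 4))) := by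
      refine hmono _ _ fun ω _ => ?_
      have hX : (0 : ℝ) ≤ (Xc S ω x : ℝ) := Nat.cast_nonneg _
      have e2 : Real.exp (-(θ * s / (n : ℝ) ^ 4)) *
          ((Xc S ω x : ℝ) * Real.exp (θ * Xc S ω x / (n : ℝ) ^ 4)) =
          (Xc S ω x : ℝ) * Real.exp (θ * (Xc S ω x - s) / (n : ℝ) ^ 4) := by
        rw [mul_left_comm, ← Real.exp_add]
        congr 2
        field_simp
        ring
      rw [e2]
      refine mul_le_mul_of_nonneg_left ?_ hX
      unfold ind
      split_ifs with hc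
      · refine Real.one_le_exp (div_nonneg (mul_nonneg hθ ?_) h4.le)
        linarith
      · exact (Real.exp_pos _).le
    have e3 : eb d n (fun ω => (Xc S ω x : ℝ) * Real.exp (θ * Xc S ω x / (n : ℝ) ^ 4)) ≤
        K * (n : ℝ) ^ 2 := by
      unfold snS at hK
      rwa [div_le_iff₀ h2] at hK
    refine e1.trans ?_
    unfold eb at *
    rw [hmul, mul_comm]
    exact mul_le_mul_of_nonneg_right e3 (Real.exp_pos _).le
  refine ⟨key, ?_⟩
  rw [le_div_iff₀ hs]
  refine le_trans ?_ key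
  have e5 : pB d n (pH d) (fun ω => s ≤ Xc S ω x) * s =
      eb d n (fun ω => s * ind (s ≤ (Xc S ω x : ℝ))) := by
    unfold eb
    rw [hmul, mul_comm]
    rfl
  rw [e5]
  refine hmono _ _ fun ω _ => ?_
  by_cases hc : s ≤ (Xc S ω x : ℝ)
  · unfold ind
    rw [if_pos hc]
    linarith
  · unfold ind
    rw [if_neg hc, mul_zero, mul_zero]

end Pool.CM
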