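import Pool.Agent.Helper22.CM.St

/-!
# Project CM, module TraZ: back to the critical point
-/

set_option autoImplicit false

open scoped BigOperators ENNReal Topology
open Pool.LE Pool.NL Pool.CL Filter MeasureTheory

namespace Pool.CM

namespace TraZ

/-- Hoelder inequality with natural powers -/
theorem holder {V : Type} (s : Finset V) (f h : V → ℝ) (q : ℕ) (hq : 2 ≤ q) (Q : ℝ) (hQ : 0 ≤ Q)
    (hf : ∀ x ∈ s, 0 ≤ f x) (hh : ∀ x ∈ s, 0 ≤ h x) (H : ∀ x ∈ s, f x ^ q ≤ Q * h x ^ (q - 1)) :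
    (∑ x ∈ s, f x) ^ q ≤ Q * s.card * (∑ x ∈ s, h x) ^ (q - 1) := by
  have hq0 : q ≠ 0 := by omega
  have hqR : (1 : ℝ) < q := by exact_mod_cast (show 1 < q by omega)
  have hqR0 : (0 : ℝ) < q := by linarith
  set e : ℝ := ((q : ℝ) - 1) / q with he
  have he0 : 0 < e := div_pos (by linarith) hqR0
  have hcast : ((q - 1 : ℕ) : ℝ) = (q : ℝ) - 1 := by
    rw [Nat.cast_sub (by omega), Nat.cast_one]
  have key : ∀ y : ℝ, 0 ≤ y → (y ^ e) ^ q = y ^ (q - 1) := by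
    intro y hy
    rw [← Real.rpow_natCast (y ^ e) q, ← Real.rpow_mul hy, ← Real.rpow_natCast y (q - 1), hcast]
    congr 1
    rw [he]
    field_simp
  have hQq : (Q ^ ((q : ℝ)⁻¹)) ^ q = Q := Real.rpow_inv_natCast_pow hQ hq0
  have hQ0 : 0 ≤ Q ^ ((q : ℝ)⁻¹) := Real.rpow_nonneg hQ _
  have h1 : ∀ x ∈ s, f x ≤ Q ^ ((q : ℝ)⁻¹) * (h x) ^ e := by
    intro x hx
    refine le_of_pow_le_pow_left₀ hq0 (mul_nonneg hQ0 (Real.rpow_nonneg (hh x hx) _)) ?_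
    rw [mul_pow, hQq, key _ (hh x hx)]
    exact H x hx
  have h2 : ∑ x ∈ s, f x ≤ Q ^ ((q : ℝ)⁻¹) * ∑ x ∈ s, (h x) ^ e := by
    rw [Finset.mul_sum]
    exact Finset.sum_le_sum h1
  have hconj : (q : ℝ).HolderConjugate (Real.conjExponent q) := Real.HolderConjugate.conjExponent hqR
  have h3 := Real.inner_le_Lp_mul_Lq_of_nonneg s hconj (f := fun _ => (1 : ℝ)) (g := fun x => (h x) ^ e)
    (fun _ _ => zero_le_one) (fun x hx => Real.rpow_nonneg (hh x hx) _)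
  simp only [one_mul, Real.one_rpow, Finset.sum_const, nsmul_eq_mul, mul_one] at h3
  have h4 : ∀ x ∈ s, ((h x) ^ e) ^ (Real.conjExponent q) = h x := by
    intro x hx
    rw [← Real.rpow_mul (hh x hx)]
    have : e * Real.conjExponent q = 1 := by
      rw [he, Real.conjExponent]
      field_simp
      exact div_self (by linarith)
    rw [this, Real.rpow_one]
  rw [Finset.sum_congr rfl h4] at h3
  have h5 : 1 / Real.conjExponent (q : ℝ) = e := by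
    rw [he, Real.conjExponent, one_div_div]
  rw [h5, one_div] at h3
  have hS : 0 ≤ ∑ x ∈ s, h x := Finset.sum_nonneg hh
  have h6 : ∑ x ∈ s, f x ≤ Q ^ ((q : ℝ)⁻¹) * (((s.card : ℝ) ^ ((q : ℝ)⁻¹)) * (∑ x ∈ s, h x) ^ e) :=
    h2.trans (mul_le_mul_of_nonneg_left h3 hQ0)
  have h7 := pow_le_pow_left₀ (Finset.sum_nonneg hf) h6 q
  rw [mul_pow, mul_pow, hQq, key _ hS, Real.rpow_inv_natCast_pow (by positivity) hq0] at h7
  rw [mul_assoc]
  exact h7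

end TraZ

open TraZ in
/-- F31 -/
theorem hTraZ (hSpr : StSprZ) (hTr : StTreeH) (hPh : StPhq) (hBn : StBn) (hB : StBasic) : StTraZ := by
  intro d C₁ B c₀ CL hE c R hR A ε hA hε
  have hR0 := hR.pos
  have hp0 : 0 < pH d := hE.env.p0
  have hp1 : pH d < 1 := by linarith [hE.half]
  -- the choice of `q`
  obtain ⟨q0, hq0⟩ := exists_nat_ge ((2 + A * R + ε / 2 + ε / 4) / (ε / 2))
  set q : ℕ := q0 + 2 with hq
  have hq2 : 2 ≤ q := by omega
  have hqe : 2 + A * R + ε / 2 + ε / 4 ≤ ε / 2 * ((q : ℝ) - 1) := by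
    rw [div_le_iff₀ (by linarith)] at hq0
    have : (q : ℝ) - 1 = q0 + 1 := by
      rw [hq]
      push_cast
      ring
    rw [this]
    nlinarith
  obtain ⟨C, hC0, hC⟩ := hPh q (pH d) hq2 hp0 hp1
  -- the choice of `a`
  obtain ⟨a, ha0, ha1, ha⟩ : ∃ a : ℝ, 0 < a ∧ a ≤ 1 ∧ C * a ^ 2 * (2 * d * (A + 1)) ≤ ε / 4 := by
    set D : ℝ := C * (2 * d * (A + 1)) + 1 with hD
    have hD1 : 1 ≤ D := by
      have : 0 ≤ C * (2 * d * (A + 1)) := by positivity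
      linarith
    refine ⟨min 1 (ε / (4 * D)), lt_min one_pos (by positivity), min_le_left _ _, ?_⟩
    set a := min 1 (ε / (4 * D)) with ha
    have h0 : 0 < a := lt_min one_pos (by positivity)
    have h1 : a ≤ 1 := min_le_left _ _
    have h2 : a ≤ ε / (4 * D) := min_le_right _ _
    have h3 : a ^ 2 ≤ a := by nlinarith
    rw [le_div_iff₀ (by positivity)] at h2
    have h4 : C * a ^ 2 * (2 * d * (A + 1)) ≤ a * D := by
      have h5 : C * a ^ 2 * (2 * d * (A + 1)) = a ^ 2 * (D - 1) := by rw [hD]; ring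
      rw [h5]
      nlinarith [mul_nonneg h0.le (show (0 : ℝ) ≤ D - 1 by linarith), mul_le_mul_of_nonneg_right h3 (show (0 : ℝ) ≤ D - 1 by linarith)]
    linarith
  obtain ⟨n₀, hn₀, hn⟩ := hSpr d C₁ B c₀ CL hE c R hR A a (ε / 2) hA ha0 ha1 (by linarith)
  refine ⟨n₀, hn₀, ?_⟩
  intro n hnn
  obtain ⟨s, hs1, hs2, hs3, hs4⟩ := hn n hnn
  refine ⟨s, hs1, hs2, ?_⟩
  have hn1 : 1 ≤ n := hn₀.trans hnn
  have hn1R : (1 : ℝ) ≤ n := by exact_mod_cast hn1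
  have hnR : (0 : ℝ) < n := by linarith
  obtain ⟨hFG, hcard, -⟩ := hBn d n
  set δ : ℝ := a / (n : ℝ) ^ 2 with hδ
  have hn2 : (1 : ℝ) ≤ (n : ℝ) ^ 2 := one_le_pow₀ hn1R
  have hδ0 : 0 ≤ δ := by positivity
  have hδ1 : δ ≤ 1 := by
    rw [hδ, div_le_one (by positivity)]
    linarith
  obtain ⟨hΦ1, hΦ2⟩ := hC δ hδ0 hδ1
  have hpsa : psa d n a = 1 - (1 - pH d) * (1 - δ) := rfl
  have hpsa0 : 0 ≤ psa d n a := by
    rw [hpsa]
    nlinarith [mul_nonneg (show (0 : ℝ) ≤ 1 - pH d by linarith) hδ0]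
  have hpsa1 : psa d n a ≤ 1 := by
    rw [hpsa]
    nlinarith [mul_nonneg (show (0 : ℝ) ≤ 1 - pH d by linarith) (show (0 : ℝ) ≤ 1 - δ by linarith)]
  set f : Zd d → ℝ := fun x => pB d n (psa d n a) (fun ω => s ≤ XB d n ω x) with hf
  set h : Zd d → ℝ := fun x => pB d n (pH d) (fun ω => s ≤ XB d n ω x) with hh
  have hf0 : ∀ x, 0 ≤ f x := fun x =>
    ((hB (Zd d) (ES (Bn d n)) (psa d n a) hpsa0 hpsa1).2.2.2.2.2.2.1 _).1
  have hh0 : ∀ x, 0 ≤ h x := fun x =>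
    ((hB (Zd d) (ES (Bn d n)) (pH d) hp0.le hp1.le).2.2.2.2.2.2.1 _).1
  -- the cost
  have hcost : (Phq q (pH d) (psa d n a)) ^ (2 * d * s) ≤ (n : ℝ) ^ (ε / 4) := by
    rw [hpsa]
    refine (pow_le_pow_left₀ (by linarith) hΦ2 _).trans ?_
    rw [← Real.exp_nat_mul, Real.rpow_def_of_pos hnR, Real.exp_le_exp]
    have h1 : ((2 * d * s : ℕ) : ℝ) * (C * δ ^ 2) = C * a ^ 2 * (2 * d) * (s / (n : ℝ) ^ 4) := by
      rw [hδ]
      push_cast
      field_simp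
    rw [h1]
    have h2 : (s : ℝ) / (n : ℝ) ^ 4 ≤ (A + 1) * Real.log n := by
      rw [div_le_iff₀ (by positivity)]
      linarith
    have h3 : 0 ≤ C * a ^ 2 * (2 * d) := by positivity
    have h4 := mul_le_mul_of_nonneg_left h2 h3
    have h5 : 0 ≤ Real.log n := Real.log_nonneg hn1R
    have h6 := mul_le_mul_of_nonneg_right ha h5
    calc C * a ^ 2 * (2 * d) * (s / (n : ℝ) ^ 4) ≤ C * a ^ 2 * (2 * d) * ((A + 1) * Real.log n) := h4
      _ = C * a ^ 2 * (2 * d * (A + 1)) * Real.log n := by ring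
      _ ≤ ε / 4 * Real.log n := h6
      _ = Real.log n * (ε / 4) := by ring
  have hpt : ∀ x ∈ Bn d n, f x ^ q ≤ (n : ℝ) ^ (ε / 4) * h x ^ (q - 1) := by
    intro x hx
    have h1 := hTr (Zd d) (Bn d n) (ES (Bn d n)) (2 * d) q (pH d) (psa d n a) hFG hq2 hp0 hp1 hpsa0 hpsa1 x hx s hs1
    exact h1.trans (mul_le_mul_of_nonneg_right hcost (pow_nonneg (hh0 x) _))
  have hQ0 : (0 : ℝ) ≤ (n : ℝ) ^ (ε / 4) := Real.rpow_nonneg hnR.le _
  have hhol := holder (Bn d n) f h q hq2 _ hQ0 (fun x _ => hf0 x) (fun x _ => hh0 x) hpt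
  rw [hcard] at hhol
  by_contra hcon
  push Not at hcon
  have hH0 : 0 ≤ ∑ x ∈ Bn d n, h x := Finset.sum_nonneg fun x _ => hh0 x
  have k1 : (∑ x ∈ Bn d n, h x) ^ (q - 1) < ((n : ℝ) ^ ((d : ℝ) - 2 - A * R - ε)) ^ (q - 1) :=
    pow_lt_pow_left₀ hcon hH0 (by omega)
  have k2 : ((n : ℝ) ^ ((d : ℝ) - 2 - A * R - ε / 2)) ^ q ≤ (∑ x ∈ Bn d n, f x) ^ q :=
    pow_le_pow_left₀ (Real.rpow_nonneg hnR.le _) hs4 q
  have k3 : (0 : ℝ) < (n : ℝ) ^ (ε / 4) * ((n ^ d : ℕ) : ℝ) := by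
    push_cast
    positivity
  have k4 := lt_of_le_of_lt (k2.trans hhol) (mul_lt_mul_of_pos_left k1 k3)
  have hcast : ((q - 1 : ℕ) : ℝ) = (q : ℝ) - 1 := by
    rw [Nat.cast_sub (by omega), Nat.cast_one]
  rw [← Real.rpow_natCast, ← Real.rpow_natCast, ← Real.rpow_mul hnR.le, ← Real.rpow_mul hnR.le, hcast] at k4
  have k5 : (((n ^ d : ℕ) : ℝ)) = (n : ℝ) ^ (d : ℝ) := by
    push_cast
    rw [Real.rpow_natCast]
  rw [k5, ← Real.rpow_add hnR, ← Real.rpow_add hnR] at k4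
  have k6 : ε / 4 + (d : ℝ) + ((d : ℝ) - 2 - A * R - ε) * ((q : ℝ) - 1) ≤ ((d : ℝ) - 2 - A * R - ε / 2) * (q : ℝ) := by
    nlinarith
  have k7 := Real.rpow_le_rpow_of_exponent_le hn1R k6
  exact absurd k4 (not_lt.2 k7)

end Pool.CM
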