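import Pool.Agent.Helper22.CM.St2
import Pool.Agent.Helper22.CM.M_TraZ

/-!
# Project CM, module TraS: back to the critical point, source sets
-/

set_option autoImplicit false

open scoped BigOperators ENNReal Topology
open Pool.LE Pool.NL Pool.CL Filter MeasureTheory

namespace Pool.CM

namespace TraS

/-- the exponential moments of the cluster size are bounded for a small parameter -/
theorem snbd (hM : Pool.CL.StMom) (hSer : StSer) (d : ℕ) (C₁ B c₀ CL : ℝ) (hE : EnvC d C₁ B c₀ CL) :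
    ∃ th K : ℝ, 0 < th ∧ 1 ≤ K ∧ ∀ n : ℕ, 1 ≤ n → ∀ x ∈ Bn d n, sn d n th x ≤ K := by
  obtain ⟨K, hK1, hK⟩ := hM d C₁ B c₀ CL hE
  obtain ⟨-, -, -, hsum, -, -, -⟩ := hSer d C₁ B c₀ CL hE
  have hK0 : 0 < K := by linarith
  refine ⟨1 / (2 * K), 2 * K, by positivity, by linarith, fun n hn x hx => ?_⟩
  obtain ⟨-, h2, -⟩ := hK n (fun _ => 1) hn fun _ => ⟨zero_le_one, le_rfl⟩
  have hnR : (0 : ℝ) < n := by exact_mod_cast hn
  have hmr : ∀ r : ℕ, mr d n r x ≤ K ^ (r + 1) := by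
    intro r
    have h3 := h2 x r hx
    unfold mr
    have hpos : (0 : ℝ) < (n : ℝ) ^ (2 + 4 * r) * (r.factorial : ℝ) := by positivity
    rw [div_le_iff₀ hpos]
    have e1 : (fun ω => (ms (fun _ : Zd d => (1 : ℝ)) (cb d n ω x)) ^ (r + 1)) =
        fun ω => (XB d n ω x : ℝ) ^ (r + 1) := by
      funext ω
      unfold ms
      rw [Finset.sum_const, nsmul_eq_mul, mul_one]
      rfl
    rw [e1] at h3
    exact h3
  have hg : HasSum (fun r : ℕ => K * (1 / 2 : ℝ) ^ r) (K * 2) :=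
    (hasSum_geometric_two).mul_left K
  have h4 := hasSum_le (fun r => ?_) (hsum n (1 / (2 * K)) x hn) hg
  · linarith
  · have h5 : (1 / (2 * K)) ^ r * mr d n r x ≤ (1 / (2 * K)) ^ r * K ^ (r + 1) :=
      mul_le_mul_of_nonneg_left (hmr r) (by positivity)
    refine h5.trans (le_of_eq ?_)
    rw [pow_succ, one_div_pow, mul_pow, one_div_pow]
    field_simp

/-- intersection of a cluster with the source set -/
theorem clu_filter {V : Type} [DecidableEq V] (L A : Finset V) (hA : A ⊆ L) (ω : Finset (Sym2 V)) (x : V) :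
    ((clu L ω x).filter (· ∈ A)).card = Xc A ω x := by
  classical
  unfold Xc clu
  congr 1
  ext y
  simp only [Finset.mem_filter]
  constructor
  · rintro ⟨⟨h1, h2⟩, h3⟩
    exact ⟨h3, h2⟩
  · rintro ⟨h1, h2⟩
    exact ⟨⟨hA h1, h2⟩, h1⟩

end TraS

open TraS in
/-- G34 -/
theorem hTraS (hSpr : StSprS) (hTQ : StTreeQ) (hTr : StTreeH) (hPh : StPhq) (hM : Pool.CL.StMom) (hSer : StSer)
    (hTail : StTail) (hBn : StBn) (hB : StBasic) : StTraS := by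
  intro d C₁ B c₀ CL hE l S c R₁ R₂ hR A ε hA hε
  have hR0 := hR.pos
  have hRle := hR.le
  have hp0 : 0 < pH d := hE.env.p0
  have hp1 : pH d < 1 := by linarith [hE.half]
  set Rt : ℝ := R₂ + 35 * (R₂ - R₁) with hRt
  have hRt0 : 0 < Rt := by rw [hRt]; linarith
  have hARt : 0 < A * Rt := mul_pos hA hRt0
  set η : ℝ := min ε 1 with hη
  have hη0 : 0 < η := lt_min hε one_pos
  have hη1 : η ≤ 1 := min_le_right _ _
  have hηε : η ≤ ε := min_le_left _ _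
  set T : ℝ := A * Rt + 3 with hT
  -- the choice of `q`
  obtain ⟨q0, hq0⟩ := exists_nat_ge ((2 + A * Rt + η / 2 + η / 4) / (η / 2))
  set q : ℕ := q0 + 2 with hq
  have hq2 : 2 ≤ q := by omega
  have hqe : 2 + A * Rt + η / 2 + η / 4 ≤ η / 2 * ((q : ℝ) - 1) := by
    rw [div_le_iff₀ (by linarith)] at hq0
    have : (q : ℝ) - 1 = q0 + 1 := by
      rw [hq]
      push_cast
      ring
    rw [this]
    nlinarith
  have hq2R : (2 : ℝ) ≤ q := by exact_mod_cast hq2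
  obtain ⟨C, hC0, hC⟩ := hPh q (pH d) hq2 hp0 hp1
  obtain ⟨th, Kz, hth, hKz, hsn⟩ := snbd hM hSer d C₁ B c₀ CL hE
  -- the choice of `A'`
  obtain ⟨A', hA'1, hA'2⟩ : ∃ A' : ℝ, A + 1 ≤ A' ∧ 2 * (T + 2) ≤ th * A' := by
    refine ⟨max (A + 1) (2 * (T + 2) / th), le_max_left _ _, ?_⟩
    have h1 : 2 * (T + 2) / th ≤ max (A + 1) (2 * (T + 2) / th) := le_max_right _ _
    rw [div_le_iff₀ hth] at h1
    linarith
  have hA'0 : 0 < A' := by linarith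
  -- the choice of `a`
  obtain ⟨a, ha0, ha1, ha⟩ : ∃ a : ℝ, 0 < a ∧ a ≤ 1 ∧ C * a ^ 2 * (2 * d * (A' + 1)) ≤ η / 4 := by
    set D : ℝ := C * (2 * d * (A' + 1)) + 1 with hD
    have hD1 : 1 ≤ D := by
      have : 0 ≤ C * (2 * d * (A' + 1)) := by positivity
      linarith
    refine ⟨min 1 (η / (4 * D)), lt_min one_pos (by positivity), min_le_left _ _, ?_⟩
    set a := min 1 (η / (4 * D)) with ha
    have h0 : 0 < a := lt_min one_pos (by positivity)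
    have h1 : a ≤ 1 := min_le_left _ _
    have h2 : a ≤ η / (4 * D) := min_le_right _ _
    have h3 : a ^ 2 ≤ a := by nlinarith
    rw [le_div_iff₀ (by positivity)] at h2
    have h4 : C * a ^ 2 * (2 * d * (A' + 1)) ≤ a * D := by
      have h5 : C * a ^ 2 * (2 * d * (A' + 1)) = a ^ 2 * (D - 1) := by rw [hD]; ring
      rw [h5]
      nlinarith [mul_nonneg h0.le (show (0 : ℝ) ≤ D - 1 by linarith), mul_le_mul_of_nonneg_right h3 (show (0 : ℝ) ≤ D - 1 by linarith)]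
    linarith
  -- large `n`
  have hev1 : ∀ᶠ n : ℕ in l, 3 ≤ n := hR.fil (eventually_ge_atTop 3)
  have hev2 : ∀ᶠ n : ℕ in l, Kz ≤ (n : ℝ) :=
    hR.fil (tendsto_natCast_atTop_atTop.eventually_ge_atTop Kz)
  have hev3 : ∀ᶠ n : ℕ in l, 2 ≤ (n : ℝ) ^ (η / 4) :=
    hR.fil (((tendsto_rpow_atTop (by positivity)).comp tendsto_natCast_atTop_atTop).eventually_ge_atTop 2)
  have hev4 := hSpr d C₁ B c₀ CL hE l S c R₁ R₂ hR A a (η / 4) hA ha0 ha1 (by linarith)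
  filter_upwards [hev1, hev2, hev3, hev4] with n hn3 hnK hn2e hnn
  obtain ⟨s, hs1, hs2, hs3, hs4⟩ := hnn
  refine ⟨s, hs1, hs2, ?_⟩
  rw [← hRt] at hs4
  have hsub := hR.sub n
  have hn1 : 1 ≤ n := by omega
  have hn3R : (3 : ℝ) ≤ n := by exact_mod_cast hn3
  have hn1R : (1 : ℝ) ≤ n := by linarith
  have hnR : (0 : ℝ) < n := by linarith
  have hlog1 : 1 ≤ Real.log n := by
    rw [← Real.log_exp 1]
    refine Real.log_le_log (Real.exp_pos 1) ?_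
    have := Real.exp_one_lt_d9
    linarith
  have hlog0 : 0 ≤ Real.log n := by linarith
  have hn4 : (1 : ℝ) ≤ (n : ℝ) ^ 4 := one_le_pow₀ hn1R
  have hn4l : (1 : ℝ) ≤ (n : ℝ) ^ 4 * Real.log n := by nlinarith
  obtain ⟨hFG, hcard, -⟩ := hBn d n
  have hcS : ((S n).card : ℝ) ≤ (n : ℝ) ^ (d : ℝ) := by
    have h4 : (S n).card ≤ n ^ d := by
      rw [← hcard]
      exact Finset.card_le_card hsub
    rw [Real.rpow_natCast]
    exact_mod_cast h4
  set δ : ℝ := a / (n : ℝ) ^ 2 with hδ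
  have hn2 : (1 : ℝ) ≤ (n : ℝ) ^ 2 := one_le_pow₀ hn1R
  have hδ0 : 0 ≤ δ := by positivity
  have hδ1 : δ ≤ 1 := by
    rw [hδ, div_le_one (by positivity)]
    linarith
  obtain ⟨hΦ1, hΦ2⟩ := hC δ hδ0 hδ1
  have hpsa : psa d n a = 1 - (1 - pH d) * (1 - δ) := rfl
  have hpsa0 : 0 ≤ psa d n a := by
    rw [hpsa]
    nlinarith [mul_nonneg (show (0 : ℝ) ≤ 1 - pH d by linarith) hδ0]
  have hpsa1 : psa d n a ≤ 1 := by
    rw [hpsa]
    nlinarith [mul_nonneg (show (0 : ℝ) ≤ 1 - pH d by linarith) (show (0 : ℝ) ≤ 1 - δ by linarith)]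
  obtain ⟨hmono', -, hadd', -, -, -, hpr', hpm', -, -⟩ := hB (Zd d) (ES (Bn d n)) (psa d n a) hpsa0 hpsa1
  obtain ⟨-, -, -, -, -, -, hpr, hpm, -, -⟩ := hB (Zd d) (ES (Bn d n)) (pH d) hp0.le hp1.le
  -- the cut off
  set N1 : ℕ := ⌈A' * ((n : ℝ) ^ 4 * Real.log n)⌉₊ with hN1
  have hN1a : A' * ((n : ℝ) ^ 4 * Real.log n) ≤ N1 := Nat.le_ceil _
  have hN1b : (N1 : ℝ) ≤ (A' + 1) * ((n : ℝ) ^ 4 * Real.log n) := by
    have h1 := (Nat.ceil_lt_add_one (show 0 ≤ A' * ((n : ℝ) ^ 4 * Real.log n) by positivity)).le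
    calc (N1 : ℝ) ≤ A' * ((n : ℝ) ^ 4 * Real.log n) + 1 := h1
      _ ≤ (A' + 1) * ((n : ℝ) ^ 4 * Real.log n) := by linarith
  have hA'1R : 1 ≤ A' := by linarith
  have hN1c : (n : ℝ) ^ 4 ≤ N1 := by
    refine le_trans ?_ hN1a
    nlinarith [mul_le_mul_of_nonneg_left hlog1 (show (0 : ℝ) ≤ (n : ℝ) ^ 4 by positivity)]
  have hN1d : 1 ≤ N1 := by
    have h1 : (1 : ℝ) ≤ N1 := hn4.trans hN1c
    exact_mod_cast h1
  set f : Zd d → ℝ := fun x => pB d n (psa d n a) (fun ω => s ≤ Xc (S n) ω x) with hf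
  set QQ : Finset (Zd d) → Prop := fun Cc => s ≤ (Cc.filter (· ∈ S n)).card with hQQ
  set f1 : Zd d → ℝ := fun x => pr (ES (Bn d n)) (psa d n a)
    (fun ω => QQ (clu (Bn d n) ω x) ∧ Xc (Bn d n) ω x ≤ N1) with hf1
  set f2 : Zd d → ℝ := fun x => pr (ES (Bn d n)) (psa d n a) (fun ω => N1 ≤ Xc (Bn d n) ω x) with hf2
  set h : Zd d → ℝ := fun x => pB d n (pH d) (fun ω => s ≤ Xc (S n) ω x) with hh
  have hf10 : ∀ x, 0 ≤ f1 x := fun x => (hpr' _).1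
  have hf20 : ∀ x, 0 ≤ f2 x := fun x => (hpr' _).1
  have hh0 : ∀ x, 0 ≤ h x := fun x => (hpr _).1
  have hsplit : ∀ x, f x ≤ f1 x + f2 x := by
    intro x
    have h1 := hadd' (fun ω => ind (QQ (clu (Bn d n) ω x) ∧ Xc (Bn d n) ω x ≤ N1))
      (fun ω => ind (N1 ≤ Xc (Bn d n) ω x))
    have h2 := hmono' (fun ω => ind (s ≤ Xc (S n) ω x))
      (fun ω => ind (QQ (clu (Bn d n) ω x) ∧ Xc (Bn d n) ω x ≤ N1) + ind (N1 ≤ Xc (Bn d n) ω x)) ?_
    · exact h2.trans (le_of_eq h1)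
    · intro ω _
      by_cases hs : s ≤ Xc (S n) ω x
      · have h3 : QQ (clu (Bn d n) ω x) := by
          rw [hQQ]
          change s ≤ ((clu (Bn d n) ω x).filter (· ∈ S n)).card
          rw [clu_filter (Bn d n) (S n) hsub]
          exact hs
        rcases le_total (Xc (Bn d n) ω x) N1 with h4 | h4
        · have h5 : (ind (s ≤ Xc (S n) ω x) : ℝ) = 1 := if_pos hs
          have h6 : (ind (QQ (clu (Bn d n) ω x) ∧ Xc (Bn d n) ω x ≤ N1) : ℝ) = 1 := if_pos ⟨h3, h4⟩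
          have h7 : (0 : ℝ) ≤ ind (N1 ≤ Xc (Bn d n) ω x) := by
            unfold ind
            split_ifs <;> norm_num
          rw [h5, h6]
          linarith
        · have h5 : (ind (s ≤ Xc (S n) ω x) : ℝ) = 1 := if_pos hs
          have h6 : (ind (N1 ≤ Xc (Bn d n) ω x) : ℝ) = 1 := if_pos h4
          have h7 : (0 : ℝ) ≤ ind (QQ (clu (Bn d n) ω x) ∧ Xc (Bn d n) ω x ≤ N1) := by
            unfold ind
            split_ifs <;> norm_num
          rw [h5, h6]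
          linarith
      · have h5 : (ind (s ≤ Xc (S n) ω x) : ℝ) = 0 := if_neg hs
        have h6 : (0 : ℝ) ≤ ind (N1 ≤ Xc (Bn d n) ω x) := by
          unfold ind
          split_ifs <;> norm_num
        have h7 : (0 : ℝ) ≤ ind (QQ (clu (Bn d n) ω x) ∧ Xc (Bn d n) ω x ≤ N1) := by
          unfold ind
          split_ifs <;> norm_num
        rw [h5]
        linarith
  -- the cost
  have hcost : (Phq q (pH d) (psa d n a)) ^ (2 * d * N1) ≤ (n : ℝ) ^ (η / 4) := by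
    rw [hpsa]
    refine (pow_le_pow_left₀ (by linarith) hΦ2 _).trans ?_
    rw [← Real.exp_nat_mul, Real.rpow_def_of_pos hnR, Real.exp_le_exp]
    have h1 : ((2 * d * N1 : ℕ) : ℝ) * (C * δ ^ 2) = C * a ^ 2 * (2 * d) * (N1 / (n : ℝ) ^ 4) := by
      rw [hδ]
      push_cast
      field_simp
    rw [h1]
    have h2 : (N1 : ℝ) / (n : ℝ) ^ 4 ≤ (A' + 1) * Real.log n := by
      rw [div_le_iff₀ (by positivity)]
      linarith
    have h3 : 0 ≤ C * a ^ 2 * (2 * d) := by positivity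
    have h4 := mul_le_mul_of_nonneg_left h2 h3
    have h6 := mul_le_mul_of_nonneg_right ha hlog0
    calc C * a ^ 2 * (2 * d) * (N1 / (n : ℝ) ^ 4) ≤ C * a ^ 2 * (2 * d) * ((A' + 1) * Real.log n) := h4
      _ = C * a ^ 2 * (2 * d * (A' + 1)) * Real.log n := by ring
      _ ≤ η / 4 * Real.log n := h6
      _ = Real.log n * (η / 4) := by ring
  have hQ0 : (0 : ℝ) ≤ (n : ℝ) ^ (η / 4) := Real.rpow_nonneg hnR.le _
  -- the first part
  have hpt : ∀ x ∈ S n, f1 x ^ q ≤ (n : ℝ) ^ (η / 4) * h x ^ (q - 1) := by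
    intro x hx
    have h1 := hTQ (Zd d) (Bn d n) (ES (Bn d n)) (2 * d) q (pH d) (psa d n a) QQ hFG hq2 hp0 hp1 hpsa0 hpsa1 x
      (hsub hx) N1
    have h2 : pr (ES (Bn d n)) (pH d) (fun ω => QQ (clu (Bn d n) ω x) ∧ Xc (Bn d n) ω x ≤ N1) ≤ h x := by
      refine hpm _ _ fun ω _ hω => ?_
      have h3 := hω.1
      rw [hQQ] at h3
      change s ≤ ((clu (Bn d n) ω x).filter (· ∈ S n)).card at h3
      rwa [clu_filter (Bn d n) (S n) hsub] at h3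
    have h3 := pow_le_pow_left₀ (hpr _).1 h2 (q - 1)
    refine h1.trans (mul_le_mul hcost h3 (pow_nonneg (hpr _).1 _) hQ0)
  have hhol := TraZ.holder (S n) f1 h q hq2 _ hQ0 (fun x _ => hf10 x) (fun x _ => hh0 x) hpt
  -- the second part
  have hcast : ((q - 1 : ℕ) : ℝ) = (q : ℝ) - 1 := by
    rw [Nat.cast_sub (by omega), Nat.cast_one]
  have htl : ∀ x ∈ S n, f2 x ≤ (n : ℝ) ^ (-(T + 1)) := by
    intro x hx
    have h1 := hTr (Zd d) (Bn d n) (ES (Bn d n)) (2 * d) q (pH d) (psa d n a) hFG hq2 hp0 hp1 hpsa0 hpsa1 x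
      (hsub hx) N1 hN1d
    have hN1R : (0 : ℝ) < N1 := by exact_mod_cast hN1d
    have h2 := (hTail d C₁ B c₀ CL hE n th Kz hn1 hth.le (hsn n hn1) x (hsub hx) N1 hN1R).2
    have h3 : pr (ES (Bn d n)) (pH d) (fun ω => N1 ≤ Xc (Bn d n) ω x) =
        pB d n (pH d) (fun ω => (N1 : ℝ) ≤ XB d n ω x) := by
      unfold pB XB
      simp only [Nat.cast_le]
    have h4 : Real.exp (-(th * N1 / (n : ℝ) ^ 4)) ≤ (n : ℝ) ^ (-(th * A')) := by
      rw [Real.rpow_def_of_pos hnR, Real.exp_le_exp]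
      have h5 : A' * Real.log n ≤ N1 / (n : ℝ) ^ 4 := by
        rw [le_div_iff₀ (by positivity)]
        linarith
      have h6 := mul_le_mul_of_nonneg_left h5 hth.le
      have e2 : th * N1 / (n : ℝ) ^ 4 = th * (N1 / (n : ℝ) ^ 4) := by ring
      rw [e2]
      linarith
    have h5 : pr (ES (Bn d n)) (pH d) (fun ω => N1 ≤ Xc (Bn d n) ω x) ≤ (n : ℝ) ^ (-(th * A')) := by
      rw [h3]
      refine h2.trans ?_
      rw [div_le_iff₀ hN1R]
      have hr0 : (0 : ℝ) ≤ (n : ℝ) ^ (-(th * A')) := Real.rpow_nonneg hnR.le _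
      have h6 : Kz * (n : ℝ) ^ 2 ≤ N1 := by
        refine le_trans ?_ hN1c
        have h7 : Kz ≤ (n : ℝ) ^ 2 := hnK.trans (by nlinarith)
        calc Kz * (n : ℝ) ^ 2 ≤ (n : ℝ) ^ 2 * (n : ℝ) ^ 2 := mul_le_mul_of_nonneg_right h7 (by positivity)
          _ = (n : ℝ) ^ 4 := by ring
      calc Kz * (n : ℝ) ^ 2 * Real.exp (-(th * N1 / (n : ℝ) ^ 4)) ≤ N1 * (n : ℝ) ^ (-(th * A')) :=
            mul_le_mul h6 h4 (Real.exp_pos _).le hN1R.le
        _ = (n : ℝ) ^ (-(th * A')) * N1 := mul_comm _ _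
    refine le_of_pow_le_pow_left₀ (show q ≠ 0 by omega) (Real.rpow_nonneg hnR.le _) ?_
    have h6 := pow_le_pow_left₀ (hpr _).1 h5 (q - 1)
    refine (h1.trans (mul_le_mul hcost h6 (pow_nonneg (hpr _).1 _) hQ0)).trans ?_
    rw [← Real.rpow_natCast, ← Real.rpow_natCast, ← Real.rpow_mul hnR.le, ← Real.rpow_mul hnR.le, hcast,
      ← Real.rpow_add hnR]
    refine Real.rpow_le_rpow_of_exponent_le hn1R ?_
    have hT0 : 0 < T := by rw [hT]; linarith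
    have h7 : 2 * (T + 2) * ((q : ℝ) - 1) ≤ th * A' * ((q : ℝ) - 1) :=
      mul_le_mul_of_nonneg_right hA'2 (by linarith)
    nlinarith
  have hsum2 : ∑ x ∈ S n, f2 x ≤ (n : ℝ) ^ ((d : ℝ) - T - 1) := by
    refine (Finset.sum_le_sum htl).trans ?_
    rw [Finset.sum_const, nsmul_eq_mul]
    have e1 : (n : ℝ) ^ ((d : ℝ) - T - 1) = (n : ℝ) ^ (d : ℝ) * (n : ℝ) ^ (-(T + 1)) := by
      rw [← Real.rpow_add hnR]
      congr 1
      ring
    rw [e1]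
    exact mul_le_mul_of_nonneg_right hcS (Real.rpow_nonneg hnR.le _)
  have hhalf : 2 * (n : ℝ) ^ ((d : ℝ) - T - 1) ≤ (n : ℝ) ^ ((d : ℝ) - 2 - A * Rt - η / 4) := by
    have h1 : (2 : ℝ) ≤ (n : ℝ) ^ (1 : ℝ) := by rw [Real.rpow_one]; linarith
    calc 2 * (n : ℝ) ^ ((d : ℝ) - T - 1) ≤ (n : ℝ) ^ (1 : ℝ) * (n : ℝ) ^ ((d : ℝ) - T - 1) :=
          mul_le_mul_of_nonneg_right h1 (Real.rpow_nonneg hnR.le _)
      _ = (n : ℝ) ^ (1 + ((d : ℝ) - T - 1)) := (Real.rpow_add hnR _ _).symm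
      _ ≤ _ := by
        refine Real.rpow_le_rpow_of_exponent_le hn1R ?_
        rw [hT]
        linarith
  have hf1sum : (n : ℝ) ^ ((d : ℝ) - 2 - A * Rt - η / 2) ≤ ∑ x ∈ S n, f1 x := by
    have h1 : ∑ x ∈ S n, f x ≤ ∑ x ∈ S n, f1 x + ∑ x ∈ S n, f2 x := by
      rw [← Finset.sum_add_distrib]
      exact Finset.sum_le_sum fun x _ => hsplit x
    have h2 : (n : ℝ) ^ ((d : ℝ) - 2 - A * Rt - η / 4) ≤ ∑ x ∈ S n, f x := hs4
    have h3 : 2 * (n : ℝ) ^ ((d : ℝ) - 2 - A * Rt - η / 2) ≤ (n : ℝ) ^ ((d : ℝ) - 2 - A * Rt - η / 4) := by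
      calc 2 * (n : ℝ) ^ ((d : ℝ) - 2 - A * Rt - η / 2)
          ≤ (n : ℝ) ^ (η / 4) * (n : ℝ) ^ ((d : ℝ) - 2 - A * Rt - η / 2) :=
            mul_le_mul_of_nonneg_right hn2e (Real.rpow_nonneg hnR.le _)
        _ = (n : ℝ) ^ (η / 4 + ((d : ℝ) - 2 - A * Rt - η / 2)) := (Real.rpow_add hnR _ _).symm
        _ = _ := by
          congr 1
          ring
    linarith
  by_contra hcon
  push Not at hcon
  have hcon' : ∑ x ∈ S n, h x < (n : ℝ) ^ ((d : ℝ) - 2 - A * Rt - η) := by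
    refine lt_of_lt_of_le hcon ?_
    refine Real.rpow_le_rpow_of_exponent_le hn1R ?_
    linarith
  have hH0 : 0 ≤ ∑ x ∈ S n, h x := Finset.sum_nonneg fun x _ => hh0 x
  have k1 : (∑ x ∈ S n, h x) ^ (q - 1) < ((n : ℝ) ^ ((d : ℝ) - 2 - A * Rt - η)) ^ (q - 1) :=
    pow_lt_pow_left₀ hcon' hH0 (by omega)
  have k2 : ((n : ℝ) ^ ((d : ℝ) - 2 - A * Rt - η / 2)) ^ q ≤ (∑ x ∈ S n, f1 x) ^ q :=
    pow_le_pow_left₀ (Real.rpow_nonneg hnR.le _) hf1sum q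
  have k3 : (0 : ℝ) < (n : ℝ) ^ (η / 4) * (n : ℝ) ^ (d : ℝ) := by positivity
  have k30 : (n : ℝ) ^ (η / 4) * ((S n).card : ℝ) * (∑ x ∈ S n, h x) ^ (q - 1) ≤
      (n : ℝ) ^ (η / 4) * (n : ℝ) ^ (d : ℝ) * (∑ x ∈ S n, h x) ^ (q - 1) :=
    mul_le_mul_of_nonneg_right (mul_le_mul_of_nonneg_left hcS hQ0) (pow_nonneg hH0 _)
  have k4 := lt_of_le_of_lt ((k2.trans hhol).trans k30) (mul_lt_mul_of_pos_left k1 k3)
  rw [← Real.rpow_natCast, ← Real.rpow_natCast, ← Real.rpow_mul hnR.le, ← Real.rpow_mul hnR.le, hcast] at k4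
  rw [← Real.rpow_add hnR, ← Real.rpow_add hnR] at k4
  have k6 : η / 4 + (d : ℝ) + ((d : ℝ) - 2 - A * Rt - η) * ((q : ℝ) - 1) ≤
      ((d : ℝ) - 2 - A * Rt - η / 2) * (q : ℝ) := by
    nlinarith
  have k7 := Real.rpow_le_rpow_of_exponent_le hn1R k6
  exact absurd k4 (not_lt.2 k7)

end Pool.CM
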