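import Pool.Agent.Helper22.CM.St
import Pool.Agent.Helper22.NL.M_Tree

/-! # Project CM: F10, comparison of cluster tails at two parameters, Hoelder form -/

set_option autoImplicit false

open scoped BigOperators ENNReal Topology
open Pool.LE Pool.NL Pool.CL Filter MeasureTheory

namespace Pool.CM
namespace TreeH

open Pool.NL.Tree

theorem root_bound {q : ℕ} (hq : 2 ≤ q) {a c R : ℝ} (ha : 0 ≤ a) (hc : 0 ≤ c) (hR : 0 ≤ R)
    (hac : a ^ q ≤ R * c ^ (q - 1)) :
    a ≤ R ^ (1 / (q : ℝ)) * c ^ (1 - 1 / (q : ℝ)) := by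
  have hq0 : (0 : ℝ) < q := by exact_mod_cast (by omega : 0 < q)
  have hq' : (q : ℝ) ≠ 0 := hq0.ne'
  have h1 : (R ^ (1 / (q : ℝ)) * c ^ (1 - 1 / (q : ℝ))) ^ q = R * c ^ (q - 1) := by
    rw [mul_pow, ← Real.rpow_natCast (R ^ (1 / (q : ℝ))) q, ← Real.rpow_mul hR,
      ← Real.rpow_natCast (c ^ (1 - 1 / (q : ℝ))) q, ← Real.rpow_mul hc]
    have e1 : 1 / (q : ℝ) * q = 1 := by field_simp
    have e2 : (1 - 1 / (q : ℝ)) * q = ((q - 1 : ℕ) : ℝ) := by
      rw [Nat.cast_sub (by omega)]
      push_cast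
      field_simp
    rw [e1, e2, Real.rpow_one, Real.rpow_natCast]
  have h2 : 0 ≤ R ^ (1 / (q : ℝ)) * c ^ (1 - 1 / (q : ℝ)) := by positivity
  rw [← h1] at hac
  exact le_of_pow_le_pow_left₀ (by omega) h2 hac

theorem cs_bound {q : ℕ} (hq : 2 ≤ q) {p p' a b c d R : ℝ} (hp : 0 < p) (hp1 : p < 1)
    (h0 : 0 ≤ p') (h1 : p' ≤ 1) (ha : 0 ≤ a) (hb : 0 ≤ b) (hc : 0 ≤ c) (hd : 0 ≤ d) (hR : 0 ≤ R)
    (hac : a ^ q ≤ R * c ^ (q - 1)) (hbd : b ^ q ≤ R * d ^ (q - 1)) :
    (p' * a + (1 - p') * b) ^ q ≤ Phq q p p' * (R * (p * c + (1 - p) * d) ^ (q - 1)) := by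
  have hq0 : (0 : ℝ) < q := by exact_mod_cast (by omega : 0 < q)
  have hq1 : (1 : ℝ) < q := by exact_mod_cast (by omega : 1 < q)
  have hq' : (q : ℝ) ≠ 0 := hq0.ne'
  have h1p : 0 < 1 - p := by linarith
  have h1p' : 0 ≤ 1 - p' := by linarith
  have A := root_bound hq ha hc hR hac
  have B := root_bound hq hb hd hR hbd
  set u : ℝ := 1 - 1 / (q : ℝ) with hu
  have hu0 : 0 < u := by
    rw [hu]
    have : 1 / (q : ℝ) < 1 := by rw [div_lt_one hq0]; exact hq1
    linarith
  have huq : u * q = ((q - 1 : ℕ) : ℝ) := by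
    rw [Nat.cast_sub (by omega), hu]
    push_cast
    field_simp
  have hconj : (q : ℝ).HolderConjugate (1 / u) := by
    rw [Real.holderConjugate_iff]
    refine ⟨hq1, ?_⟩
    rw [one_div, inv_inv, hu]
    ring
  have key : ∀ x y : ℝ, 0 ≤ x → 0 < y → ∀ w : ℝ, 0 ≤ w →
      x * w ^ u = (x / y ^ u) * (y * w) ^ u := by
    intro x y hx hy w hw
    rw [Real.mul_rpow hy.le hw]
    have : y ^ u ≠ 0 := (Real.rpow_pos_of_pos hy u).ne'
    field_simp
  have H := Real.inner_le_Lp_mul_Lq_of_nonneg (Finset.univ : Finset (Fin 2))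
    (f := ![p' / p ^ u, (1 - p') / (1 - p) ^ u]) (g := ![(p * c) ^ u, ((1 - p) * d) ^ u]) hconj
    (by
      intro i _
      fin_cases i
      · simp only [Fin.zero_eta, Matrix.cons_val_zero]; positivity
      · simp only [Fin.mk_one, Matrix.cons_val_one, Matrix.cons_val_fin_one]; positivity)
    (by
      intro i _
      fin_cases i
      · simp only [Fin.zero_eta, Matrix.cons_val_zero]; positivity
      · simp only [Fin.mk_one, Matrix.cons_val_one, Matrix.cons_val_fin_one]; positivity)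
  simp only [Fin.sum_univ_two, Matrix.cons_val_zero, Matrix.cons_val_one,
    Matrix.cons_val_fin_one] at H
  have f1 : ∀ x y : ℝ, 0 ≤ x → 0 < y → (x / y ^ u) ^ (q : ℝ) = x ^ q / y ^ (q - 1) := by
    intro x y hx hy
    rw [Real.div_rpow hx (Real.rpow_nonneg hy.le u), ← Real.rpow_mul hy.le, huq,
      Real.rpow_natCast, Real.rpow_natCast]
  have g1 : ∀ x : ℝ, 0 ≤ x → (x ^ u) ^ (1 / u) = x := by
    intro x hx
    rw [← Real.rpow_mul hx]
    have : u * (1 / u) = 1 := by field_simp
    rw [this, Real.rpow_one]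
  rw [f1 _ _ h0 hp, f1 _ _ h1p' h1p, g1 _ (by positivity), g1 _ (by positivity)] at H
  rw [← key p' p h0 hp c hc, ← key (1 - p') (1 - p) h1p' h1p d hd] at H
  have hPh : p' ^ q / p ^ (q - 1) + (1 - p') ^ q / (1 - p) ^ (q - 1) = Phq q p p' := rfl
  rw [hPh] at H
  have hPh0 : 0 ≤ Phq q p p' := by
    rw [← hPh]; positivity
  have hS0 : 0 ≤ p * c + (1 - p) * d := by positivity
  have e3 : (1 / (1 / u)) = u := by rw [one_div, one_div, inv_inv]
  rw [e3] at H
  have C : p' * a + (1 - p') * b ≤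
      R ^ (1 / (q : ℝ)) * (Phq q p p' ^ (1 / (q : ℝ)) * (p * c + (1 - p) * d) ^ u) := by
    calc p' * a + (1 - p') * b ≤ p' * (R ^ (1 / (q : ℝ)) * c ^ u) +
        (1 - p') * (R ^ (1 / (q : ℝ)) * d ^ u) :=
          add_le_add (mul_le_mul_of_nonneg_left A h0) (mul_le_mul_of_nonneg_left B h1p')
      _ = R ^ (1 / (q : ℝ)) * (p' * c ^ u + (1 - p') * d ^ u) := by ring
      _ ≤ _ := mul_le_mul_of_nonneg_left H (Real.rpow_nonneg hR _)
  have D : (p' * a + (1 - p') * b) ^ q ≤
      (R ^ (1 / (q : ℝ)) * (Phq q p p' ^ (1 / (q : ℝ)) * (p * c + (1 - p) * d) ^ u)) ^ q :=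
    pow_le_pow_left₀ (by positivity) C q
  refine D.trans (le_of_eq ?_)
  have r1 : ∀ x : ℝ, 0 ≤ x → (x ^ (1 / (q : ℝ))) ^ q = x := by
    intro x hx
    rw [← Real.rpow_natCast, ← Real.rpow_mul hx]
    have : 1 / (q : ℝ) * q = 1 := by field_simp
    rw [this, Real.rpow_one]
  have r2 : ∀ x : ℝ, 0 ≤ x → (x ^ u) ^ q = x ^ (q - 1) := by
    intro x hx
    rw [← Real.rpow_natCast, ← Real.rpow_mul hx, huq, Real.rpow_natCast]
  rw [mul_pow, mul_pow, r1 R hR, r1 _ hPh0, r2 _ hS0]
  ring

theorem r_ge {q : ℕ} (hq : 2 ≤ q) {p p' : ℝ} (hp : 0 < p) (hp1 : p < 1) (h0 : 0 ≤ p')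
    (h1 : p' ≤ 1) : 1 ≤ Phq q p p' := by
  have h := cs_bound hq hp hp1 h0 h1 zero_le_one zero_le_one zero_le_one zero_le_one
    (zero_le_one (α := ℝ)) (by simp) (by simp)
  have e1 : p' * 1 + (1 - p') * 1 = (1 : ℝ) := by ring
  have e2 : p * 1 + (1 - p) * 1 = (1 : ℝ) := by ring
  rw [e1, e2, one_pow, one_pow, mul_one, mul_one] at h
  exact h

variable {V : Type} [DecidableEq V]

theorem main (hE : StEdge) (hB : StBasic) (L : Finset V) (D q : ℕ) (hq : 2 ≤ q) (p p' : ℝ)
    (hp : 0 < p) (hp1 : p < 1) (hp' : 0 ≤ p') (hp1' : p' ≤ 1) (s : ℕ) :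
    ∀ n : ℕ, ∀ F : Finset (Sym2 V), F.card = n → FG L F D → ∀ K : Finset V, K ⊆ L →
      (pr F p' (fun ω => s ≤ (rs L K ω).card)) ^ q ≤
        (Phq q p p') ^ ((∑ w ∈ K, dg F w) + D * (s - K.card)) *
          (pr F p (fun ω => s ≤ (rs L K ω).card)) ^ (q - 1) := by
  set r := Phq q p p' with hr
  have hr1 : 1 ≤ r := r_ge hq hp hp1 hp' hp1'
  have hr0 : 0 ≤ r := by linarith
  have hq0 : q ≠ 0 := by omega
  have triv1 : ∀ F : Finset (Sym2 V), ∀ K : Finset V, K ⊆ L → s ≤ K.card →
      (pr F p' (fun ω => s ≤ (rs L K ω).card)) ^ q ≤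
        r ^ ((∑ w ∈ K, dg F w) + D * (s - K.card)) *
          (pr F p (fun ω => s ≤ (rs L K ω).card)) ^ (q - 1) := by
    intro F K hK hs
    have h1 : ∀ t : ℝ, 0 ≤ t → t ≤ 1 → pr F t (fun ω => s ≤ (rs L K ω).card) = 1 := by
      intro t ht ht1
      have h2 : (fun ω => ind (s ≤ (rs L K ω).card)) = fun _ : Finset (Sym2 V) => (1 : ℝ) := by
        funext ω
        unfold ind
        rw [if_pos (hs.trans (Finset.card_le_card (rs_ge hK ω)))]
      have h3 := (hB V F t ht ht1).2.1 1
      unfold pr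
      unfold ex at h3
      rw [h2]
      exact h3
    rw [h1 p' hp' hp1', h1 p hp.le hp1.le, one_pow, one_pow, mul_one]
    exact one_le_pow₀ hr1
  have triv0 : ∀ F : Finset (Sym2 V), ∀ K : Finset V, K ⊆ L → ¬ s ≤ K.card →
      (∀ u v, u ∈ K → v ∉ K → s(u, v) ∉ F) →
      (pr F p' (fun ω => s ≤ (rs L K ω).card)) ^ q ≤
        r ^ ((∑ w ∈ K, dg F w) + D * (s - K.card)) *
          (pr F p (fun ω => s ≤ (rs L K ω).card)) ^ (q - 1) := by
    intro F K hK hs hno
    have h4 : pr F p' (fun ω => s ≤ (rs L K ω).card) ≤ pr F p' (fun _ => False) := by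
      apply (hB V F p' hp' hp1').2.2.2.2.2.2.2.1
      intro ω hω h
      have h5 : rs L K ω ⊆ K := rs_le hω hno
      have := Finset.card_le_card h5
      omega
    have h7 : pr F p' (fun _ => False) = 0 := by
      have h3 := (hB V F p' hp' hp1').2.1 0
      unfold pr ind
      unfold ex at h3
      simpa using h3
    have h8 := ((hB V F p' hp' hp1').2.2.2.2.2.2.1 (fun ω => s ≤ (rs L K ω).card)).1
    have h9 : pr F p' (fun ω => s ≤ (rs L K ω).card) = 0 := by linarith
    rw [h9, zero_pow hq0]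
    have h10 := ((hB V F p hp.le hp1.le).2.2.2.2.2.2.1 (fun ω => s ≤ (rs L K ω).card)).1
    have h11 : (0:ℝ) ≤ r ^ ((∑ w ∈ K, dg F w) + D * (s - K.card)) := by positivity
    exact mul_nonneg h11 (pow_nonneg h10 _)
  intro n
  induction n with
  | zero =>
    intro F hF hG K hK
    have hF0 : F = ∅ := Finset.card_eq_zero.mp hF
    by_cases hs : s ≤ K.card
    · exact triv1 F K hK hs
    · apply triv0 F K hK hs
      intro u v _ _ h6
      rw [hF0] at h6
      simp at h6
  | succ n ih =>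
    intro F hF hG K hK
    by_cases hs : s ≤ K.card
    · exact triv1 F K hK hs
    · by_cases hno : ∀ u v, u ∈ K → v ∉ K → s(u, v) ∉ F
      · exact triv0 F K hK hs hno
      · push_neg at hno
        obtain ⟨u, v, hu, hv, he⟩ := hno
        have hvL : v ∈ L := hG.inside _ he v (Sym2.mem_mk_right u v)
        have hcard : (F.erase s(u, v)).card = n := by
          rw [Finset.card_erase_of_mem he, hF]; rfl
        have hG' : FG L (F.erase s(u, v)) D := by
          refine ⟨fun e he' => hG.inside e (Finset.mem_of_mem_erase he'),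
            fun e he' => hG.noloop e (Finset.mem_of_mem_erase he'), ?_⟩
          intro w hw
          exact (dg_erase_le F s(u, v) w).trans (hG.deg w hw)
        have hK' : insert v K ⊆ L := by
          intro w hw
          rw [Finset.mem_insert] at hw
          rcases hw with rfl | hw
          · exact hvL
          · exact hK hw
        have hsplit : ∀ t : ℝ, pr F t (fun ω => s ≤ (rs L K ω).card) =
            t * pr (F.erase s(u, v)) t (fun ω => s ≤ (rs L (insert v K) ω).card) +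
            (1 - t) * pr (F.erase s(u, v)) t (fun ω => s ≤ (rs L K ω).card) := by
          intro t
          have h1 := (hE V F t s(u, v) (fun ω => ind (s ≤ (rs L K ω).card)) he).1
          have h2 : (fun ω => ind (s ≤ (rs L K (insert s(u, v) ω)).card)) =
              fun ω => ind (s ≤ (rs L (insert v K) ω).card) := by
            funext ω
            rw [rs_insert L K ω hu hv]
          simp only [h2] at h1
          exact h1
        have ih1 := ih (F.erase s(u, v)) hcard hG' (insert v K) hK'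
        have ih0 := ih (F.erase s(u, v)) hcard hG' K hK
        have hm0 : (∑ w ∈ K, dg (F.erase s(u, v)) w) + D * (s - K.card) + 1 ≤
            (∑ w ∈ K, dg F w) + D * (s - K.card) := by
          have := sum_dg he hu (Sym2.mem_mk_left u v)
          omega
        have hm1 : (∑ w ∈ insert v K, dg (F.erase s(u, v)) w) + D * (s - (insert v K).card) + 1 ≤
            (∑ w ∈ K, dg F w) + D * (s - K.card) := by
          rw [Finset.sum_insert hv, Finset.card_insert_of_notMem hv]
          have h1 := sum_dg he hu (Sym2.mem_mk_left u v)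
          have h2 := dg_erase_mem he (Sym2.mem_mk_right u v)
          have h3 : dg F v ≤ D := hG.deg v hvL
          have h4 : D * (s - K.card) = D * (s - (K.card + 1)) + D := by
            have : s - K.card = (s - (K.card + 1)) + 1 := by omega
            rw [this]; ring
          omega
        set m := (∑ w ∈ K, dg F w) + D * (s - K.card) with hm
        obtain ⟨k, hk⟩ : ∃ k, m = k + 1 := ⟨m - 1, by omega⟩
        have a1 := ((hB V (F.erase s(u, v)) p hp.le hp1.le).2.2.2.2.2.2.1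
          (fun ω => s ≤ (rs L (insert v K) ω).card)).1
        have a0 := ((hB V (F.erase s(u, v)) p hp.le hp1.le).2.2.2.2.2.2.1
          (fun ω => s ≤ (rs L K ω).card)).1
        have b1 := ((hB V (F.erase s(u, v)) p' hp' hp1').2.2.2.2.2.2.1
          (fun ω => s ≤ (rs L (insert v K) ω).card)).1
        have b0 := ((hB V (F.erase s(u, v)) p' hp' hp1').2.2.2.2.2.2.1
          (fun ω => s ≤ (rs L K ω).card)).1
        have j1 := ih1.trans (mul_le_mul_of_nonneg_right
          (pow_le_pow_right₀ hr1 (show _ ≤ k by omega)) (pow_nonneg a1 _))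
        have j0 := ih0.trans (mul_le_mul_of_nonneg_right
          (pow_le_pow_right₀ hr1 (show _ ≤ k by omega)) (pow_nonneg a0 _))
        rw [hsplit p', hsplit p, hk, pow_succ]
        have := cs_bound hq hp hp1 hp' hp1' b1 b0 a1 a0 (pow_nonneg hr0 k) j1 j0
        rw [← hr] at this
        calc _ ≤ _ := this
          _ = _ := by ring

end TreeH

open Pool.NL.Tree in
theorem hTreeH (hEd : StEdge) (hB : StBasic) (_hC : StClu) : StTreeH := by
  intro V _ L E D q p p' hG hq hp hp1 hp' hp1' x hx s hs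
  have h := TreeH.main hEd hB L D q hq p p' hp hp1 hp' hp1' s E.card E rfl hG {x}
    (by simpa using hx)
  have hX : ∀ ω : Finset (Sym2 V), (rs L {x} ω).card = Xc L ω x := by
    intro ω
    unfold rs Xc clu
    congr 1
    ext y
    simp
  simp only [hX] at h
  refine h.trans ?_
  apply mul_le_mul_of_nonneg_right
  · apply pow_le_pow_right₀ (TreeH.r_ge hq hp hp1 hp' hp1')
    rw [Finset.sum_singleton, Finset.card_singleton]
    have h3 : dg E x ≤ D := hG.deg x hx
    have h4 : D * s = D * (s - 1) + D := by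
      obtain ⟨t, rfl⟩ : ∃ t, s = t + 1 := ⟨s - 1, by omega⟩
      simp; ring
    omega
  · exact pow_nonneg ((hB V E p hp.le hp1.le).2.2.2.2.2.2.1 _).1 _

end Pool.CM
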