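import Pool.Agent.Helper22.CM.St2
import Pool.Agent.Helper22.CM.M_TreeH

/-! # Project CM: G09, change of the parameter for an event which depends on a cluster of bounded size -/

set_option autoImplicit false

open scoped BigOperators ENNReal Topology
open Pool.LE Pool.NL Pool.CL Filter MeasureTheory

namespace Pool.CM
namespace TreeQ

open Pool.NL.Tree

variable {V : Type} [DecidableEq V]

/-- the event: `Q` holds for the explored cluster, which has at most `N` points -/
def Ev (L : Finset V) (Q : Finset V → Prop) (N : ℕ) (K : Finset V) (ω : Finset (Sym2 V)) : Prop :=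
  Q (rs L K ω) ∧ (rs L K ω).card ≤ N

/-- an event which never happens for `ω ⊆ F` -/
theorem pr_zero (hB : StBasic) {F : Finset (Sym2 V)} {t : ℝ} (ht : 0 ≤ t) (ht1 : t ≤ 1)
    {A : Finset (Sym2 V) → Prop} (h : ∀ ω, ω ⊆ F → ¬ A ω) : pr F t A = 0 := by
  have h4 : pr F t A ≤ pr F t (fun _ => False) := by
    apply (hB V F t ht ht1).2.2.2.2.2.2.2.1
    intro ω hω hA
    exact h ω hω hA
  have h7 : pr F t (fun _ => False) = 0 := by
    have h3 := (hB V F t ht ht1).2.1 0
    unfold pr ind
    unfold ex at h3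
    simpa using h3
  have h8 := ((hB V F t ht ht1).2.2.2.2.2.2.1 A).1
  linarith

/-- an event which always happens for `ω ⊆ F` -/
theorem pr_one (hB : StBasic) {F : Finset (Sym2 V)} {t : ℝ} (ht : 0 ≤ t) (ht1 : t ≤ 1)
    {A : Finset (Sym2 V) → Prop} (h : ∀ ω, ω ⊆ F → A ω) : pr F t A = 1 := by
  have h4 : pr F t (fun _ => True) ≤ pr F t A := by
    apply (hB V F t ht ht1).2.2.2.2.2.2.2.1
    intro ω hω _
    exact h ω hω
  have h7 : pr F t (fun _ => True) = 1 := by
    have h3 := (hB V F t ht ht1).2.1 1
    unfold pr ind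
    unfold ex at h3
    simpa using h3
  have h8 := ((hB V F t ht ht1).2.2.2.2.2.2.1 A).2
  linarith

theorem main (hE : StEdge) (hB : StBasic) (L : Finset V) (D q : ℕ) (hq : 2 ≤ q) (p p' : ℝ)
    (hp : 0 < p) (hp1 : p < 1) (hp' : 0 ≤ p') (hp1' : p' ≤ 1) (Q : Finset V → Prop) (N : ℕ) :
    ∀ n : ℕ, ∀ F : Finset (Sym2 V), F.card = n → FG L F D → ∀ K : Finset V, K ⊆ L →
      (pr F p' (Ev L Q N K)) ^ q ≤
        (Phq q p p') ^ ((∑ w ∈ K, dg F w) + D * (N - K.card)) *
          (pr F p (Ev L Q N K)) ^ (q - 1) := by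
  set r := Phq q p p' with hr
  have hr1 : 1 ≤ r := TreeH.r_ge hq hp hp1 hp' hp1'
  have hr0 : 0 ≤ r := by linarith
  have hq0 : q ≠ 0 := by omega
  -- the event fails
  have zero : ∀ (F : Finset (Sym2 V)) (K : Finset V) (m : ℕ), (∀ ω, ω ⊆ F → ¬ Ev L Q N K ω) →
      (pr F p' (Ev L Q N K)) ^ q ≤ r ^ m * (pr F p (Ev L Q N K)) ^ (q - 1) := by
    intro F K m h
    rw [pr_zero hB hp' hp1' h, zero_pow hq0]
    have h10 := ((hB V F p hp.le hp1.le).2.2.2.2.2.2.1 (Ev L Q N K)).1
    exact mul_nonneg (pow_nonneg hr0 _) (pow_nonneg h10 _)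
  have trivN : ∀ (F : Finset (Sym2 V)) (K : Finset V) (m : ℕ), K ⊆ L → N < K.card →
      (pr F p' (Ev L Q N K)) ^ q ≤ r ^ m * (pr F p (Ev L Q N K)) ^ (q - 1) := by
    intro F K m hK hN
    refine zero F K m ?_
    rintro ω _ ⟨_, h⟩
    have := Finset.card_le_card (rs_ge hK ω)
    omega
  have triv0 : ∀ (F : Finset (Sym2 V)) (K : Finset V) (m : ℕ), K ⊆ L →
      (∀ u v, u ∈ K → v ∉ K → s(u, v) ∉ F) →
      (pr F p' (Ev L Q N K)) ^ q ≤ r ^ m * (pr F p (Ev L Q N K)) ^ (q - 1) := by
    intro F K m hK hno
    have hrs : ∀ ω, ω ⊆ F → rs L K ω = K := fun ω hω =>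
      Finset.Subset.antisymm (rs_le hω hno) (rs_ge hK ω)
    by_cases hQ : Q K ∧ K.card ≤ N
    · have h1 : ∀ ω, ω ⊆ F → Ev L Q N K ω := by
        intro ω hω
        unfold Ev
        rw [hrs ω hω]
        exact hQ
      rw [pr_one hB hp' hp1' h1, pr_one hB hp.le hp1.le h1, one_pow, one_pow, mul_one]
      exact one_le_pow₀ hr1
    · refine zero F K m ?_
      intro ω hω h
      unfold Ev at h
      rw [hrs ω hω] at h
      exact hQ h
  intro n
  induction n with
  | zero =>
    intro F hF hG K hK
    have hF0 : F = ∅ := Finset.card_eq_zero.mp hF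
    apply triv0 F K _ hK
    intro u v _ _ h6
    rw [hF0] at h6
    simp at h6
  | succ n ih =>
    intro F hF hG K hK
    by_cases hs : N < K.card
    · exact trivN F K _ hK hs
    · by_cases hno : ∀ u v, u ∈ K → v ∉ K → s(u, v) ∉ F
      · exact triv0 F K _ hK hno
      · push Not at hno
        obtain ⟨u, v, hu, hv, he⟩ := hno
        have hvL : v ∈ L := hG.inside _ he v (Sym2.mem_mk_right u v)
        have hcard : (F.erase s(u, v)).card = n := by
          rw [Finset.card_erase_of_mem he, hF]; rfl
        have hG' : FG L (F.erase s(u, v)) D := by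
          refine ⟨fun e he' => hG.inside e (Finset.mem_of_mem_erase he'),
            fun e he' => hG.noloop e (Finset.mem_of_mem_erase he'), ?_⟩
          intro w hw
          exact (dg_erase_le F s(u, v) w).trans (hG.deg w hw)
        have hK' : insert v K ⊆ L := by
          intro w hw
          rw [Finset.mem_insert] at hw
          rcases hw with rfl | hw
          · exact hvL
          · exact hK hw
        have hsplit : ∀ t : ℝ, pr F t (Ev L Q N K) =
            t * pr (F.erase s(u, v)) t (Ev L Q N (insert v K)) +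
            (1 - t) * pr (F.erase s(u, v)) t (Ev L Q N K) := by
          intro t
          have h1 := (hE V F t s(u, v) (fun ω => ind (Ev L Q N K ω)) he).1
          have h2 : (fun ω => ind (Ev L Q N K (insert s(u, v) ω))) =
              fun ω => ind (Ev L Q N (insert v K) ω) := by
            funext ω
            unfold Ev
            rw [rs_insert L K ω hu hv]
          simp only [h2] at h1
          exact h1
        have ih1 := ih (F.erase s(u, v)) hcard hG' (insert v K) hK'
        have ih0 := ih (F.erase s(u, v)) hcard hG' K hK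
        have hm0 : (∑ w ∈ K, dg (F.erase s(u, v)) w) + D * (N - K.card) + 1 ≤
            (∑ w ∈ K, dg F w) + D * (N - K.card) := by
          have := sum_dg he hu (Sym2.mem_mk_left u v)
          omega
        set m := (∑ w ∈ K, dg F w) + D * (N - K.card) with hm
        obtain ⟨k, hk⟩ : ∃ k, m = k + 1 := ⟨m - 1, by omega⟩
        have a1 := ((hB V (F.erase s(u, v)) p hp.le hp1.le).2.2.2.2.2.2.1
          (Ev L Q N (insert v K))).1
        have a0 := ((hB V (F.erase s(u, v)) p hp.le hp1.le).2.2.2.2.2.2.1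
          (Ev L Q N K)).1
        have b1 := ((hB V (F.erase s(u, v)) p' hp' hp1').2.2.2.2.2.2.1
          (Ev L Q N (insert v K))).1
        have b0 := ((hB V (F.erase s(u, v)) p' hp' hp1').2.2.2.2.2.2.1
          (Ev L Q N K)).1
        have j1 : (pr (F.erase s(u, v)) p' (Ev L Q N (insert v K))) ^ q ≤
            r ^ k * (pr (F.erase s(u, v)) p (Ev L Q N (insert v K))) ^ (q - 1) := by
          by_cases hlt : K.card < N
          · have hm1 : (∑ w ∈ insert v K, dg (F.erase s(u, v)) w) +
                D * (N - (insert v K).card) + 1 ≤ m := by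
              rw [Finset.sum_insert hv, Finset.card_insert_of_notMem hv]
              have h1 := sum_dg he hu (Sym2.mem_mk_left u v)
              have h2 := dg_erase_mem he (Sym2.mem_mk_right u v)
              have h3 : dg F v ≤ D := hG.deg v hvL
              have h4 : D * (N - K.card) = D * (N - (K.card + 1)) + D := by
                have : N - K.card = (N - (K.card + 1)) + 1 := by omega
                rw [this]; ring
              omega
            exact ih1.trans (mul_le_mul_of_nonneg_right
              (pow_le_pow_right₀ hr1 (show _ ≤ k by omega)) (pow_nonneg a1 _))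
          · refine trivN _ _ _ hK' ?_
            rw [Finset.card_insert_of_notMem hv]
            omega
        have j0 := ih0.trans (mul_le_mul_of_nonneg_right
          (pow_le_pow_right₀ hr1 (show _ ≤ k by omega)) (pow_nonneg a0 _))
        rw [hsplit p', hsplit p, hk, pow_succ]
        have := TreeH.cs_bound hq hp hp1 hp' hp1' b1 b0 a1 a0 (pow_nonneg hr0 k) j1 j0
        rw [← hr] at this
        calc _ ≤ _ := this
          _ = _ := by ring

end TreeQ

open Pool.NL.Tree in
theorem hTreeQ (hEd : StEdge) (hB : StBasic) (_hC : StClu) : StTreeQ := by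
  intro V _ L E D q p p' Q hG hq hp hp1 hp' hp1' x hx N
  have hxL : ({x} : Finset V) ⊆ L := by simpa using hx
  have h := TreeQ.main hEd hB L D q hq p p' hp hp1 hp' hp1' Q N E.card E rfl hG {x} hxL
  have hcl : ∀ ω : Finset (Sym2 V), rs L {x} ω = clu L ω x := by
    intro ω
    unfold rs clu
    ext y
    simp
  have hEv : TreeQ.Ev L Q N {x} = fun ω => Q (clu L ω x) ∧ Xc L ω x ≤ N := by
    funext ω
    unfold TreeQ.Ev Xc
    rw [hcl]
  rw [hEv] at h
  by_cases hN : N = 0
  · -- the event is empty
    have hz : ∀ ω, ω ⊆ E → ¬ (Q (clu L ω x) ∧ Xc L ω x ≤ N) := by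
      rintro ω _ ⟨_, h2⟩
      have h3 := Finset.card_le_card (rs_ge hxL ω)
      rw [hcl ω, Finset.card_singleton] at h3
      unfold Xc at h2
      omega
    rw [TreeQ.pr_zero hB hp' hp1' hz, zero_pow (by omega : q ≠ 0)]
    have h10 := ((hB V E p hp.le hp1.le).2.2.2.2.2.2.1 (fun ω => Q (clu L ω x) ∧ Xc L ω x ≤ N)).1
    have h11 := TreeH.r_ge hq hp hp1 hp' hp1'
    exact mul_nonneg (pow_nonneg (by linarith) _) (pow_nonneg h10 _)
  · refine h.trans ?_
    apply mul_le_mul_of_nonneg_right
    · apply pow_le_pow_right₀ (TreeH.r_ge hq hp hp1 hp' hp1')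
      rw [Finset.sum_singleton, Finset.card_singleton]
      have h3 : dg E x ≤ D := hG.deg x hx
      have h4 : D * N = D * (N - 1) + D := by
        obtain ⟨t, rfl⟩ : ∃ t, N = t + 1 := ⟨N - 1, by omega⟩
        simp; ring
      omega
    · exact pow_nonneg ((hB V E p hp.le hp1.le).2.2.2.2.2.2.1 _).1 _

end Pool.CM
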