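import Pool.Agent.Helper22.CM.AllZ
import Pool.Agent.Helper22.CM.M_F0S
import Pool.Agent.Helper22.CM.M_F1S
import Pool.Agent.Helper22.CM.M_FamS
import Pool.Agent.Helper22.CM.M_GraphS
import Pool.Agent.Helper22.CM.M_GrowS
import Pool.Agent.Helper22.CM.M_LocBS
import Pool.Agent.Helper22.CM.M_LossS
import Pool.Agent.Helper22.CM.M_LowJS
import Pool.Agent.Helper22.CM.M_LowS
import Pool.Agent.Helper22.CM.M_Pair3S
import Pool.Agent.Helper22.CM.M_SbS
import Pool.Agent.Helper22.CM.M_SdS
import Pool.Agent.Helper22.CM.M_Sec3S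
import Pool.Agent.Helper22.CM.M_ShiftUS
import Pool.Agent.Helper22.CM.M_SprS
import Pool.Agent.Helper22.CM.M_SurgSS
import Pool.Agent.Helper22.CM.M_SurgX
import Pool.Agent.Helper22.CM.M_TailS
import Pool.Agent.Helper22.CM.M_TraS
import Pool.Agent.Helper22.CM.M_TreeQ
import Pool.Agent.Helper22.CM.M_UkS
import Pool.Agent.Helper22.CM.M_UpJS
import Pool.Agent.Helper22.CM.M_BKf

/-! # Project CM: the lower bound for source sets -/

set_option autoImplicit false

open scoped BigOperators ENNReal Topology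
open Pool.LE Pool.NL Pool.CL Filter MeasureTheory

namespace Pool.CM

/-- the lower bound for source sets, from the moment bound and the energy regularity -/
theorem allS (hM : StMom) (hReg : StReg) : StLowS := by
  have b := Pool.NL.bundle
  have hB := b.bBasic
  have hC := b.bClu
  have hBn := b.bBn
  have hBd : StBd := Pool.CL.hBd
  have hFBK3 := hFBK3 hB (hFBK hB b.bEdge)
  have hPath := hPath hHang
  have hSer := hSer hB hC hBn
  have hTail := hTail hB
  have hTailS := hTailS hB
  have hUkS := hUkS hTailS hB b.bHub b.bHh hBn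
  have hF0S := hF0S hUkS hB b.bHub b.bHh hBn
  have hF1S := hF1S hF0S hUkS
  have hKpC := hKpC b.bCpTau b.bTauBasic b.bQw hBn
  have hLocCS := hLocCS hB hFBK3 hPath b.bDRBK hC
  have hLocBS := hLocBS hLocCS b.bHub hBn hB b.bHh
  have hLossS := hLossS hLocBS hKpC hUkS hBn hB
  have hShiftUS := hShiftUS hReg hUkS hBd hB hBn
  have hSurgSS := hSurgSS (hSurgX hB b.bEdge) hB hBn
  have hPair3S := hPair3S b.bMK hB hC
  have hLowJS := hLowJS hPair3S hLossS hShiftUS hSurgSS hBn
  have hUpJS := hUpJS b.bUpJ (hSbS b.bDist hB hC) (hScS b.bDist hB hC) (hSdS hB hC) hLocBS hKpC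
    hUkS hBn hB hC
  have hFamS := hFamS hF1S hLowJS hUpJS hUkS b.bPZ (hGraphS hC) hBn hB
  have hSprS := hSprS hFamS b.bSpr (hGrowS b.bEdge hB hC) hBn hB hC
  have hTraS := hTraS hSprS (hTreeQ b.bEdge hB hC) (hTreeH b.bEdge hB hC) hPhq hM hSer hTail hBn hB
  exact hLowS hTraS (hSec3S b.bDist hB) hTailS hBn hB

/-- the three branch inequality of the bulk case -/
theorem allBKf : Pool.CB.StBKf := by
  have b := Pool.NL.bundle
  exact hBKf (hTGh b.bBasic (hFBK3 b.bBasic (hFBK b.bBasic b.bEdge)) (hExt3 hHang) b.bClu)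

end Pool.CM
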