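import Pool.Agent.Helper22.CM.St

/-!
# Project CM (MP_65faa7), module E1: `sn` is bounded a bit further
-/

set_option autoImplicit false

open scoped BigOperators ENNReal Topology
open Pool.LE Pool.NL Pool.CL Filter MeasureTheory

namespace Pool.CM

namespace E1

theorem Xc_sum {V : Type} [DecidableEq V] (L : Finset V) (ω : Finset (Sym2 V)) (x : V) :
    (Xc L ω x : ℝ) = ∑ y ∈ L, ind (con ω x y) := by
  classical
  unfold Xc clu ind
  rw [Finset.sum_boole]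

theorem ms_nonneg {V : Type} {ψ : V → ℝ} (hψ : U01 ψ) (C : Finset V) : 0 ≤ ms ψ C :=
  Finset.sum_nonneg fun y _ => (hψ y).1

theorem ms_le {V : Type} {ψ : V → ℝ} (hψ : U01 ψ) (C : Finset V) : ms ψ C ≤ C.card := by
  have h := Finset.sum_le_sum (s := C) fun y _ => (hψ y).2
  rw [Finset.sum_const, nsmul_eq_mul, mul_one] at h
  exact h

/-- derivative of an expectation -/
theorem hasDeriv {V : Type} [DecidableEq V] (E : Finset (Sym2 V)) (p : ℝ) (f f' : Finset (Sym2 V) → ℝ → ℝ)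
    (t : ℝ) (h : ∀ ω, HasDerivAt (f ω) (f' ω t) t) :
    HasDerivAt (fun s => ex E p (fun ω => f ω s)) (ex E p (fun ω => f' ω t)) t := by
  unfold ex Ex
  apply HasDerivAt.fun_sum
  intro ω _
  exact (h ω).const_smul (wt E p ω)

end E1

open E1 in
/-- E01 -/
theorem hE1 (hT : StTGh) (hO : StODE) (hB : StBasic) (_hC : StClu) (hBn : StBn) : StE1 := by
  intro d C₁ B c₀ CL hE n ψ K θ θ' hn hψ hK hθ hθθ' hθ' hs
  have hp0 : 0 ≤ pH d := hE.env.p0.le
  have hp1 : pH d ≤ 1 := by linarith [hE.env.p1]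
  obtain ⟨hFG, -, -, -, -⟩ := hBn d n
  obtain ⟨bmono, bconst, -, -, bmul, bsum, -, -, -, -⟩ := hB (Zd d) (ES (Bn d n)) (pH d) hp0 hp1
  have hn0 : (0 : ℝ) < n := by exact_mod_cast hn
  have hn2 : (0 : ℝ) < (n : ℝ) ^ 2 := by positivity
  have hn4 : (0 : ℝ) < (n : ℝ) ^ 4 := by positivity
  have hnn : ∀ f : Finset (Sym2 (Zd d)) → ℝ, (∀ ω, 0 ≤ f ω) → 0 ≤ ex (ES (Bn d n)) (pH d) f := by
    intro f hf
    have h := bmono (fun _ => 0) f (fun ω _ => hf ω)
    rwa [bconst] at h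
  have hexp : ∀ (t : ℝ) (x : Zd d) (ω : Finset (Sym2 (Zd d))),
      Real.exp (t * ms ψ (cb d n ω x) / (n : ℝ) ^ 4) = Real.exp (t / (n : ℝ) ^ 4 * ms ψ (clu (Bn d n) ω x)) := by
    intro t x ω
    rw [div_mul_eq_mul_div]
    rfl
  -- the function as an expectation
  have hS : ∀ (t : ℝ) (x : Zd d), ex (ES (Bn d n)) (pH d) (fun ω => (Xc (Bn d n) ω x : ℝ) *
      Real.exp (t / (n : ℝ) ^ 4 * ms ψ (clu (Bn d n) ω x))) = (n : ℝ) ^ 2 * snw d n t ψ x := by
    intro t x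
    unfold snw eb
    rw [mul_div_cancel₀ _ hn2.ne']
    congr 1
    funext ω
    rw [hexp]
    rfl
  have hsum : ∀ (t : ℝ) (x : Zd d), ∑ y ∈ Bn d n, tH (Bn d n) (ES (Bn d n)) (pH d) (t / (n : ℝ) ^ 4) ψ x y =
      (n : ℝ) ^ 2 * snw d n t ψ x := by
    intro t x
    rw [← hS]
    unfold tH
    rw [← bsum]
    congr 1
    funext ω
    rw [← Finset.sum_mul, Xc_sum]
  have hind : ∀ A : Prop, 0 ≤ ind A := by
    intro A
    unfold ind
    split_ifs <;> norm_num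
  have htH : ∀ (h : ℝ) (x y : Zd d), 0 ≤ tH (Bn d n) (ES (Bn d n)) (pH d) h ψ x y := by
    intro h x y
    exact hnn _ fun ω => mul_nonneg (hind _) (Real.exp_pos _).le
  have hcH0 : ∀ (h : ℝ) (x : Zd d), 0 ≤ cH (Bn d n) (ES (Bn d n)) (pH d) h ψ x := by
    intro h x
    exact hnn _ fun ω => mul_nonneg (ms_nonneg hψ _) (Real.exp_pos _).le
  have hcH : ∀ (t : ℝ) (x : Zd d), cH (Bn d n) (ES (Bn d n)) (pH d) (t / (n : ℝ) ^ 4) ψ x ≤
      (n : ℝ) ^ 2 * snw d n t ψ x := by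
    intro t x
    rw [← hS]
    unfold cH
    apply bmono
    intro ω _
    exact mul_le_mul_of_nonneg_right (ms_le hψ _) (Real.exp_pos _).le
  set F' : Zd d → ℝ → ℝ := fun x t => ex (ES (Bn d n)) (pH d) (fun ω => (Xc (Bn d n) ω x : ℝ) *
    (Real.exp (t / (n : ℝ) ^ 4 * ms ψ (clu (Bn d n) ω x)) * (1 / (n : ℝ) ^ 4 * ms ψ (clu (Bn d n) ω x)))) / (n : ℝ) ^ 2 with hF'
  have key := hO (Zd d) (Bn d n) (fun x t => snw d n t ψ x) F' K θ hK ?_ ?_ ?_ hs
  · intro x hx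
    exact key x hx θ' hθθ' hθ'
  · -- derivative
    intro x _ t
    have h1 : (fun t => snw d n t ψ x) = fun t => ex (ES (Bn d n)) (pH d) (fun ω => (Xc (Bn d n) ω x : ℝ) *
        Real.exp (t / (n : ℝ) ^ 4 * ms ψ (clu (Bn d n) ω x))) / (n : ℝ) ^ 2 := by
      funext t
      rw [hS, mul_div_cancel_left₀ _ hn2.ne']
    show HasDerivAt (fun t => snw d n t ψ x) (F' x t) t
    rw [h1, hF']
    apply HasDerivAt.div_const
    apply hasDeriv (ES (Bn d n)) (pH d) (fun ω t => (Xc (Bn d n) ω x : ℝ) *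
        Real.exp (t / (n : ℝ) ^ 4 * ms ψ (clu (Bn d n) ω x))) (fun ω t => (Xc (Bn d n) ω x : ℝ) *
    (Real.exp (t / (n : ℝ) ^ 4 * ms ψ (clu (Bn d n) ω x)) * (1 / (n : ℝ) ^ 4 * ms ψ (clu (Bn d n) ω x))))
    intro ω
    apply HasDerivAt.const_mul
    apply HasDerivAt.exp
    exact ((hasDerivAt_id t).div_const ((n : ℝ) ^ 4)).mul_const _
  · -- monotone
    intro x _ t
    rw [hF']
    apply div_nonneg _ hn2.le
    apply hnn
    intro ω
    have := ms_nonneg hψ (clu (Bn d n) ω x)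
    positivity
  · -- differential inequality
    intro t M ht hM x hx
    have ht0 : 0 ≤ t / (n : ℝ) ^ 4 := div_nonneg (hθ.trans ht) hn4.le
    have hsn0 : ∀ y, 0 ≤ snw d n t ψ y := by
      intro y
      have h1 := hS t y
      have h2 : 0 ≤ (n : ℝ) ^ 2 * snw d n t ψ y := by
        rw [← h1]
        exact hnn _ fun ω => by positivity
      exact nonneg_of_mul_nonneg_right h2 hn2
    have hM0 : 0 ≤ M := (hsn0 x).trans (hM x hx)
    set S := (n : ℝ) ^ 2 * M with hSdef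
    have hS0 : 0 ≤ S := by positivity
    have hle : ∀ y ∈ Bn d n, (n : ℝ) ^ 2 * snw d n t ψ y ≤ S := fun y hy =>
      mul_le_mul_of_nonneg_left (hM y hy) hn2.le
    -- rewrite the derivative
    have h1 : F' x t = (∑ y ∈ Bn d n, ex (ES (Bn d n)) (pH d) (fun ω => ind (con ω x y) *
        (ms ψ (clu (Bn d n) ω x) * Real.exp (t / (n : ℝ) ^ 4 * ms ψ (clu (Bn d n) ω x))))) / (n : ℝ) ^ 6 := by
      rw [← bsum]
      have h2 : F' x t = ((n : ℝ) ^ 4)⁻¹ * ex (ES (Bn d n)) (pH d) (fun ω => (∑ y ∈ Bn d n, ind (con ω x y) *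
        (ms ψ (clu (Bn d n) ω x) * Real.exp (t / (n : ℝ) ^ 4 * ms ψ (clu (Bn d n) ω x))))) / (n : ℝ) ^ 2 := by
        rw [← bmul, hF']
        dsimp only
        congr 2
        funext ω
        rw [← Finset.sum_mul, ← Xc_sum]
        ring
      have h6 : ∀ A : ℝ, ((n : ℝ) ^ 4)⁻¹ * A / (n : ℝ) ^ 2 = A / (n : ℝ) ^ 6 := by
        intro A
        field_simp
      rw [h2]
      exact h6 _
    have h3 : ∑ y ∈ Bn d n, ex (ES (Bn d n)) (pH d) (fun ω => ind (con ω x y) *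
        (ms ψ (clu (Bn d n) ω x) * Real.exp (t / (n : ℝ) ^ 4 * ms ψ (clu (Bn d n) ω x)))) ≤ S ^ 3 := by
      calc _ ≤ ∑ y ∈ Bn d n, ∑ z ∈ Bn d n, tH (Bn d n) (ES (Bn d n)) (pH d) (t / (n : ℝ) ^ 4) ψ x z *
            (tH (Bn d n) (ES (Bn d n)) (pH d) (t / (n : ℝ) ^ 4) ψ z y *
              cH (Bn d n) (ES (Bn d n)) (pH d) (t / (n : ℝ) ^ 4) ψ z) :=
            Finset.sum_le_sum fun y hy => hT (Zd d) (Bn d n) (ES (Bn d n)) (2 * d) (pH d) _ ψ hFG hp0 hp1 ht0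
              (fun y => (hψ y).1) x hx y hy
        _ = ∑ z ∈ Bn d n, tH (Bn d n) (ES (Bn d n)) (pH d) (t / (n : ℝ) ^ 4) ψ x z *
            (((n : ℝ) ^ 2 * snw d n t ψ z) * cH (Bn d n) (ES (Bn d n)) (pH d) (t / (n : ℝ) ^ 4) ψ z) := by
            rw [Finset.sum_comm]
            apply Finset.sum_congr rfl
            intro z _
            rw [← Finset.mul_sum, ← Finset.sum_mul, hsum]
        _ ≤ ∑ z ∈ Bn d n, tH (Bn d n) (ES (Bn d n)) (pH d) (t / (n : ℝ) ^ 4) ψ x z * (S * S) := by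
            apply Finset.sum_le_sum
            intro z hz
            apply mul_le_mul_of_nonneg_left _ (htH _ _ _)
            exact mul_le_mul (hle z hz) ((hcH t z).trans (hle z hz)) (hcH0 _ _) hS0
        _ = ((n : ℝ) ^ 2 * snw d n t ψ x) * (S * S) := by
            rw [← Finset.sum_mul, hsum]
        _ ≤ S * (S * S) := mul_le_mul_of_nonneg_right (hle x hx) (mul_nonneg hS0 hS0)
        _ = S ^ 3 := by ring
    show F' x t ≤ M ^ 3
    rw [h1, div_le_iff₀ (by positivity)]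
    calc _ ≤ S ^ 3 := h3
      _ = M ^ 3 * (n : ℝ) ^ 6 := by rw [hSdef]; ring

end Pool.CM

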