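import Pool.Agent.Helper22.CM.St

/-! # Project CM, module E2: pointwise bound for the moments by the average in a larger box -/

set_option autoImplicit false
set_option linter.unusedSectionVars false

open scoped BigOperators ENNReal Topology
open Pool.LE Pool.NL Pool.CL Filter MeasureTheory

namespace Pool.CM

namespace E2

lemma con_mono {V : Type} [DecidableEq V] {ω ω' : Finset (Sym2 V)} (h : ω ⊆ ω') {x y : V}
    (hc : con ω x y) : con ω' x y := by
  refine SimpleGraph.Reachable.mono ?_ hc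
  exact SimpleGraph.fromEdgeSet_mono (by exact_mod_cast h)

lemma mem_clu {V : Type} [DecidableEq V] {L : Finset V} {ω : Finset (Sym2 V)} {x y : V} :
    y ∈ clu L ω x ↔ y ∈ L ∧ con ω x y := by
  classical
  unfold clu
  exact Finset.mem_filter

lemma Xc_mono {V : Type} [DecidableEq V] (L : Finset V) {ω ω' : Finset (Sym2 V)} (h : ω ⊆ ω')
    (x : V) : Xc L ω x ≤ Xc L ω' x := by
  refine Finset.card_le_card ?_
  intro y hy
  rw [mem_clu] at hy ⊢
  exact ⟨hy.1, con_mono h hy.2⟩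

lemma ES_mono {d : ℕ} {S S' : Finset (Zd d)} (h : S ⊆ S') : ES S ⊆ ES S' := by
  intro e he
  rw [ES, Finset.mem_image] at he ⊢
  obtain ⟨q, hq, rfl⟩ := he
  rw [Finset.mem_filter, Finset.mem_product] at hq
  exact ⟨q, by rw [Finset.mem_filter, Finset.mem_product]; exact ⟨⟨h hq.1.1, hq.1.2⟩, h hq.2⟩, rfl⟩

lemma shift_le (hTr : StTr) (hB : StBasic) {d n N r : ℕ} (hp0 : 0 ≤ pH d) (hp1 : pH d ≤ 1)
    (a x : Zd d) (hsub : ∀ y ∈ Bn d n, a + y ∈ Bn d N) :
    eb d n (fun ω => (XB d n ω x : ℝ) ^ (r + 1)) ≤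
      eb d N (fun ω => (XB d N ω (a + x) : ℝ) ^ (r + 1)) := by
  obtain ⟨t1, t2, t3, t4⟩ := hTr d (pH d) hp0 hp1
  have hb := (hB (Zd d) (ES (Bn d n)) (pH d) hp0 hp1).1
  have e1 : ex (trE a (ES (Bn d n))) (pH d) (fun ω => (XB d N ω (a + x) : ℝ) ^ (r + 1)) =
      ex (ES (Bn d n)) (pH d) (fun ω => (XB d N (trE a ω) (a + x) : ℝ) ^ (r + 1)) :=
    t1 (ES (Bn d n)) a (fun ω => (XB d N ω (a + x) : ℝ) ^ (r + 1))
  have h1 : ex (ES (Bn d n)) (pH d) (fun ω => (XB d n ω x : ℝ) ^ (r + 1)) ≤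
      ex (ES (Bn d n)) (pH d) (fun ω => (XB d N (trE a ω) (a + x) : ℝ) ^ (r + 1)) := by
    refine hb _ _ ?_
    intro ω _
    refine pow_le_pow_left₀ (Nat.cast_nonneg _) ?_ _
    rw [Nat.cast_le, XB, XB, Xc, Xc]
    refine Finset.card_le_card_of_injOn (fun y => a + y) ?_ (fun y _ z _ h => add_left_cancel h)
    intro y hy
    rw [Finset.mem_coe, mem_clu] at hy ⊢
    exact ⟨hsub y hy.1, (t2 ω a x y).mpr hy.2⟩
  have h2 : ex (trE a (ES (Bn d n))) (pH d) (fun ω => (XB d N ω (a + x) : ℝ) ^ (r + 1)) ≤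
      ex (ES (Bn d N)) (pH d) (fun ω => (XB d N ω (a + x) : ℝ) ^ (r + 1)) := by
    refine t3 _ _ _ ?_ ?_
    · rw [t4]
      refine ES_mono ?_
      intro y hy
      rw [Finset.mem_map] at hy
      obtain ⟨z, hz, rfl⟩ := hy
      exact hsub z hz
    · intro ω ω' h
      refine pow_le_pow_left₀ (Nat.cast_nonneg _) ?_ _
      rw [Nat.cast_le]
      exact Xc_mono _ h _
  rw [eb, eb]
  exact h1.trans (e1.symm.le.trans h2)

end E2

open Pool.CM.E2 in
theorem hE2 (hTr : StTr) (hS : StSer) (hB : StBasic) (hBn : StBn) : StE2 := by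
  intro d C₁ B c₀ CL hE ε hε hε1 n hn
  have hp0 : 0 ≤ pH d := hE.env.p0.le
  have hp1 : pH d ≤ 1 := by linarith [hE.env.p1]
  have hn0 : (0 : ℝ) < n := by exact_mod_cast hn
  set j : ℕ := ⌊ε * n⌋₊ with hj
  have hj1 : (j : ℝ) ≤ ε * n := Nat.floor_le (by positivity)
  have hj2 : ε * n < j + 1 := Nat.lt_floor_add_one _
  refine ⟨n + j, Nat.le_add_right _ _, ?_⟩
  intro r x hx
  have hNpos : 1 ≤ n + j := le_trans hn (Nat.le_add_right _ _)
  have hN0 : (0 : ℝ) < ((n + j : ℕ) : ℝ) := by exact_mod_cast hNpos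
  obtain ⟨-, s2, s3, -⟩ := hS d C₁ B c₀ CL hE
  have hcr : cr d (n + j) r (fun _ => 1) = av d (n + j) (mr d (n + j) r) := s2 (n + j) r
  have hmr0 : ∀ y, 0 ≤ mr d (n + j) r y := s3 (n + j) r
  have hr0 : (0 : ℝ) < (r.factorial : ℝ) := by exact_mod_cast Nat.factorial_pos r
  have hmemn := (hBn d n).2.2.2.1
  have hmemN := (hBn d (n + j)).2.2.2.1
  -- the shifts
  set A : Finset (Zd d) := Fintype.piFinset fun _ => Finset.Icc (0 : ℤ) (j : ℤ) with hA
  have hAcard : (A.card : ℝ) = ((j : ℝ) + 1) ^ d := by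
    have h1 : A.card = (j + 1) ^ d := by
      rw [hA, Fintype.card_piFinset]
      simp
    rw [h1]; push_cast; rfl
  have hAmem : ∀ a ∈ A, ∀ y ∈ Bn d n, a + y ∈ Bn d (n + j) := by
    intro a ha y hy
    rw [hA, Fintype.mem_piFinset] at ha
    rw [hmemN]
    rw [hmemn] at hy
    intro i
    have h1 := Finset.mem_Icc.mp (ha i)
    have h2 := hy i
    rw [Pi.add_apply]
    push_cast
    constructor <;> omega
  set T : Zd d → ℝ := fun y => eb d (n + j) (fun ω => (XB d (n + j) ω y : ℝ) ^ (r + 1)) with hT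
  have hTmr : ∀ y, T y = mr d (n + j) r y * (((n + j : ℕ) : ℝ) ^ (2 + 4 * r) * (r.factorial : ℝ)) := by
    intro y
    rw [mr, div_mul_cancel₀]
    positivity
  have hT0 : ∀ y, 0 ≤ T y := by
    intro y
    rw [hTmr]
    exact mul_nonneg (hmr0 y) (by positivity)
  have hsum1 : (A.card : ℝ) * eb d n (fun ω => (XB d n ω x : ℝ) ^ (r + 1)) ≤
      ∑ y ∈ Bn d (n + j), T y := by
    have h1 : (A.card : ℝ) * eb d n (fun ω => (XB d n ω x : ℝ) ^ (r + 1)) ≤
        ∑ a ∈ A, T (a + x) := by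
      rw [← nsmul_eq_mul, ← Finset.sum_const]
      exact Finset.sum_le_sum fun a ha => shift_le hTr hB hp0 hp1 a x (hAmem a ha)
    have h2 : ∑ a ∈ A, T (a + x) = ∑ y ∈ A.map (addRightEmbedding x), T y := by
      rw [Finset.sum_map]; rfl
    rw [h2] at h1
    refine h1.trans (Finset.sum_le_sum_of_subset_of_nonneg ?_ fun y _ _ => hT0 y)
    intro y hy
    rw [Finset.mem_map] at hy
    obtain ⟨a, ha, rfl⟩ := hy
    exact hAmem a ha x hx
  have hsum2 : ∑ y ∈ Bn d (n + j), T y = ((n + j : ℕ) : ℝ) ^ d *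
      (((n + j : ℕ) : ℝ) ^ (2 + 4 * r) * (r.factorial : ℝ)) * cr d (n + j) r (fun _ => 1) := by
    rw [hcr, av]
    have h1 : ∑ y ∈ Bn d (n + j), T y = (∑ y ∈ Bn d (n + j), mr d (n + j) r y) *
        (((n + j : ℕ) : ℝ) ^ (2 + 4 * r) * (r.factorial : ℝ)) := by
      rw [Finset.sum_mul]
      exact Finset.sum_congr rfl fun y _ => hTmr y
    rw [h1]
    have h2 : ((n + j : ℕ) : ℝ) ^ d ≠ 0 := by positivity
    field_simp
  have hcr0 : 0 ≤ cr d (n + j) r (fun _ => 1) := by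
    rw [hcr, av]
    exact div_nonneg (Finset.sum_nonneg fun y _ => hmr0 y) (by positivity)
  -- conclusion
  have hj0 : (0 : ℝ) < (j : ℝ) + 1 := by positivity
  have hAc : (0 : ℝ) < ((j : ℝ) + 1) ^ d := by positivity
  rw [hsum2, hAcard] at hsum1
  have hN2 : ((n + j : ℕ) : ℝ) ≤ (1 + ε) * n := by push_cast; linarith
  have hq1 : ((n + j : ℕ) : ℝ) / ((j : ℝ) + 1) ≤ 2 / ε := by
    rw [div_le_div_iff₀ hj0 hε]
    nlinarith
  have hq2 : ((n + j : ℕ) : ℝ) / (n : ℝ) ≤ 1 + ε := by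
    rw [div_le_iff₀ hn0]; exact hN2
  have hfin : mr d n r x ≤ (((n + j : ℕ) : ℝ) / ((j : ℝ) + 1)) ^ d *
      (((n + j : ℕ) : ℝ) / (n : ℝ)) ^ (4 * r + 2) * cr d (n + j) r (fun _ => 1) := by
    rw [mr, div_le_iff₀ (by positivity), div_pow, div_pow]
    have e1 : ((n + j : ℕ) : ℝ) ^ d / ((j : ℝ) + 1) ^ d * (((n + j : ℕ) : ℝ) ^ (4 * r + 2) /
        (n : ℝ) ^ (4 * r + 2)) * cr d (n + j) r (fun _ => 1) *
        ((n : ℝ) ^ (2 + 4 * r) * (r.factorial : ℝ)) =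
        (((n + j : ℕ) : ℝ) ^ d * (((n + j : ℕ) : ℝ) ^ (2 + 4 * r) * (r.factorial : ℝ)) *
          cr d (n + j) r (fun _ => 1)) / ((j : ℝ) + 1) ^ d := by
      rw [show 4 * r + 2 = 2 + 4 * r by ring]
      have h2 : (n : ℝ) ^ (2 + 4 * r) ≠ 0 := by positivity
      field_simp
    rw [e1, le_div_iff₀ hAc, mul_comm]
    exact hsum1
  refine hfin.trans ?_
  refine mul_le_mul_of_nonneg_right ?_ hcr0
  refine mul_le_mul ?_ ?_ (by positivity) (by positivity)
  · exact pow_le_pow_left₀ (by positivity) hq1 _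
  · exact pow_le_pow_left₀ (by positivity) hq2 _

end Pool.CM
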