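import Pool.Agent.Helper22.CM.St

/-!
# Project CM, module E3: `sn` is bounded below the radius of convergence
-/

set_option autoImplicit false

open scoped BigOperators ENNReal Topology
open Pool.LE Pool.NL Pool.CL Filter MeasureTheory

namespace Pool.CM

namespace E3

theorem eps {θ R : ℝ} (hθ : 0 ≤ θ) (hθR : θ < R) : ∃ ε : ℝ, 0 < ε ∧ ε ≤ 1 ∧ (1 + ε) ^ 4 * θ ≤ R := by
  have h1 : 0 < (R - θ) / (15 * (θ + 1)) := div_pos (by linarith) (by linarith)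
  refine ⟨min 1 ((R - θ) / (15 * (θ + 1))), lt_min one_pos h1, min_le_left _ _, ?_⟩
  set ε := min 1 ((R - θ) / (15 * (θ + 1))) with hε
  have hε0 : 0 < ε := lt_min one_pos h1
  have hε1 : ε ≤ 1 := min_le_left _ _
  have hε2 : ε ≤ (R - θ) / (15 * (θ + 1)) := min_le_right _ _
  rw [le_div_iff₀ (by linarith)] at hε2
  have h2 : (1 + ε) ^ 4 ≤ 1 + 15 * ε := by
    have e2 : ε ^ 2 ≤ ε := by nlinarith
    have e3 : ε ^ 3 ≤ ε := by nlinarith [mul_nonneg hε0.le (sub_nonneg.2 e2)]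
    have e4 : ε ^ 4 ≤ ε := by nlinarith [mul_nonneg hε0.le (sub_nonneg.2 e3)]
    nlinarith
  nlinarith [mul_le_mul_of_nonneg_right h2 hθ]

theorem mr_le {d n : ℕ} {K0 : ℝ} (hn : 1 ≤ n)
    (h : ∀ (x : Zd d) (r : ℕ), x ∈ Bn d n → eb d n (fun ω => (ms (fun _ => (1 : ℝ)) (cb d n ω x)) ^ (r + 1)) ≤
      K0 ^ (r + 1) * ((n : ℝ) ^ (2 + 4 * r) * (r.factorial : ℝ))) {x : Zd d} (hx : x ∈ Bn d n) (r : ℕ) :
    mr d n r x ≤ K0 ^ (r + 1) := by
  have hn0 : (0 : ℝ) < n := by exact_mod_cast hn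
  have hf : (0 : ℝ) < r.factorial := by exact_mod_cast Nat.factorial_pos r
  unfold mr
  rw [div_le_iff₀ (mul_pos (pow_pos hn0 _) hf)]
  have h1 := h x r hx
  have h2 : (fun ω => (ms (fun _ => (1 : ℝ)) (cb d n ω x)) ^ (r + 1)) = fun ω => (XB d n ω x : ℝ) ^ (r + 1) := by
    funext ω
    unfold ms XB Xc cb
    rw [Finset.sum_const, nsmul_eq_mul, mul_one]
  rw [h2] at h1
  exact h1

theorem base {d : ℕ} {K0 : ℝ} (hK0 : 1 ≤ K0) (hmr : ∀ n : ℕ, 1 ≤ n → ∀ x ∈ Bn d n, ∀ r : ℕ, mr d n r x ≤ K0 ^ (r + 1))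
    (s4 : ∀ (n : ℕ) (θ : ℝ) (x : Zd d), 1 ≤ n → HasSum (fun r : ℕ => θ ^ r * mr d n r x) (sn d n θ x)) :
    Sb d (1 / (2 * K0)) (2 * K0) := by
  intro n hn x hx
  have h1 := s4 n (1 / (2 * K0)) x hn
  have h2 : HasSum (fun r : ℕ => K0 * (1 / 2 : ℝ) ^ r) (K0 * 2) := hasSum_geometric_two.mul_left K0
  have h3 := hasSum_le (fun r => ?_) h1 h2
  · linarith
  · have h4 : (0 : ℝ) < 1 / (2 * K0) := by positivity
    have h5 := mul_le_mul_of_nonneg_left (hmr n hn x hx r) (pow_pos h4 r).le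
    refine h5.trans (le_of_eq ?_)
    rw [pow_succ, mul_comm (K0 ^ r) K0, ← mul_assoc, mul_comm _ K0, mul_assoc, ← mul_pow]
    have h6 : 1 / (2 * K0) * K0 = 1 / 2 := by
      field_simp
    rw [h6]

theorem step {d : ℕ} {C₁ B c₀ CL : ℝ} (hE1 : StE1) (hE2 : StE2) (hS : StSer) (hEnv : EnvC d C₁ B c₀ CL) {c : ℕ → ℝ}
    (hlim : ∀ r : ℕ, Tendsto (fun n : ℕ => cr d n r (fun _ => 1)) atTop (𝓝 (c r))) (hc0 : ∀ r, 0 ≤ c r) {θ R ε K : ℝ}
    (hR : 0 ≤ R) (hε0 : 0 < ε) (hε1 : ε ≤ 1) (hεR : (1 + ε) ^ 4 * θ ≤ R) (hsum : Summable (fun r : ℕ => c r * R ^ r))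
    (hK1 : 1 ≤ K) (hK : (2 / ε) ^ d * (1 + ε) ^ 2 * (∑' r, c r * R ^ r) + 2 ≤ K) {t δ A : ℝ} (hδ : δ = 1 / (8 * K ^ 2))
    (hA : Sb d t A) (hA1 : 1 ≤ A) (ht0 : δ / 2 ≤ t) (htθ : t - δ / 2 ≤ θ) :
    ∃ K' : ℝ, 1 ≤ K' ∧ Sb d (t + δ / 2) K' := by
  obtain ⟨s1, -, s3, -, s5, -, s7⟩ := hS d C₁ B c₀ CL hEnv
  have hK0 : 0 < K := by linarith
  have hδ0 : 0 < δ := by rw [hδ]; positivity
  have ht : 0 < t := by linarith
  have hA0 : 0 < A := by linarith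
  obtain ⟨s, hs⟩ : ∃ s : ℝ, s = t - δ / 2 := ⟨_, rfl⟩
  have hs0 : 0 ≤ s := by linarith
  have hst : s < t := by linarith
  have hsθ : s ≤ θ := by linarith
  have hq0 : 0 ≤ s / t := div_nonneg hs0 ht.le
  have hq1 : s / t < 1 := (div_lt_one ht).2 hst
  obtain ⟨Nn, hNn⟩ := exists_pow_lt_of_lt_one (show (0 : ℝ) < 1 / A by positivity) hq1
  have hNn' : (s / t) ^ Nn * A ≤ 1 := by
    rw [lt_div_iff₀ hA0] at hNn
    exact hNn.le
  set w : ℕ → ℝ := fun r => s ^ r * ((2 / ε) ^ d * (1 + ε) ^ (4 * r + 2)) with hw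
  have hw0 : ∀ r, 0 ≤ w r := fun r => by
    have : 0 ≤ s ^ r := pow_nonneg hs0 r
    positivity
  set W := ∑ r ∈ Finset.range Nn, w r with hW
  have hW0 : 0 ≤ W := Finset.sum_nonneg fun r _ => hw0 r
  have hη0 : 0 < 1 / (1 + W) := by positivity
  have hev : ∀ᶠ n : ℕ in atTop, ∀ r ∈ Finset.range Nn, cr d n r (fun _ => 1) ≤ c r + 1 / (1 + W) := by
    rw [Filter.eventually_all_finset]
    intro r _
    exact (hlim r).eventually (eventually_le_nhds (by linarith))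
  obtain ⟨n0, hn0⟩ := eventually_atTop.1 hev
  -- the bound at `s`
  have hbd : ∀ n : ℕ, n0 ≤ n → 1 ≤ n → ∀ x ∈ Bn d n, sn d n s x ≤ K := by
    intro n hn hn1 x hx
    have h1 := s5 n Nn s t x hn1 hs0 hst
    have h2 : (s / t) ^ Nn * sn d n t x ≤ 1 :=
      (mul_le_mul_of_nonneg_left (hA n hn1 x hx) (pow_nonneg hq0 Nn)).trans hNn'
    obtain ⟨N, hN, hNr⟩ := hE2 d C₁ B c₀ CL hEnv ε hε0 hε1 n hn1
    have h3 : ∑ r ∈ Finset.range Nn, s ^ r * mr d n r x ≤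
        ∑ r ∈ Finset.range Nn, (w r * (1 / (1 + W)) + (2 / ε) ^ d * (1 + ε) ^ 2 * (c r * R ^ r)) := by
      refine Finset.sum_le_sum fun r hr => ?_
      have a1 := hNr r x hx
      have a2 := hn0 N (hn.trans hN) r hr
      have a3 : 0 ≤ (2 / ε) ^ d * (1 + ε) ^ (4 * r + 2) := by positivity
      have a4 : mr d n r x ≤ (2 / ε) ^ d * (1 + ε) ^ (4 * r + 2) * (c r + 1 / (1 + W)) :=
        a1.trans (mul_le_mul_of_nonneg_left a2 a3)
      have a5 := mul_le_mul_of_nonneg_left a4 (pow_nonneg hs0 r)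
      refine a5.trans ?_
      have a6 : s ^ r * ((2 / ε) ^ d * (1 + ε) ^ (4 * r + 2) * (c r + 1 / (1 + W))) =
          w r * (1 / (1 + W)) + (2 / ε) ^ d * (1 + ε) ^ 2 * (c r * ((1 + ε) ^ 4 * s) ^ r) := by
        rw [hw]
        have : (1 + ε) ^ (4 * r + 2) = ((1 + ε) ^ 4) ^ r * (1 + ε) ^ 2 := by
          rw [← pow_mul, ← pow_add]
        simp only
        rw [this, mul_pow]
        ring
      rw [a6]
      have a7 : ((1 + ε) ^ 4 * s) ^ r ≤ R ^ r := by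
        refine pow_le_pow_left₀ (by positivity) ?_ r
        refine le_trans ?_ hεR
        exact mul_le_mul_of_nonneg_left hsθ (by positivity)
      have a8 := mul_le_mul_of_nonneg_left a7 (hc0 r)
      have a9 : 0 ≤ (2 / ε) ^ d * (1 + ε) ^ 2 := by positivity
      have a10 := mul_le_mul_of_nonneg_left a8 a9
      linarith
    rw [Finset.sum_add_distrib, ← Finset.sum_mul, ← Finset.mul_sum] at h3
    have h4 : (∑ r ∈ Finset.range Nn, w r) * (1 / (1 + W)) ≤ 1 := by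
      rw [← hW, mul_one_div, div_le_one (by positivity)]
      linarith
    have h5 : ∑ r ∈ Finset.range Nn, c r * R ^ r ≤ ∑' r, c r * R ^ r :=
      hsum.sum_le_tsum _ fun r _ => mul_nonneg (hc0 r) (pow_nonneg hR r)
    have h6 : 0 ≤ (2 / ε) ^ d * (1 + ε) ^ 2 := by positivity
    have h7 := mul_le_mul_of_nonneg_left h5 h6
    linarith
  have hst' : t + δ / 2 = s + δ := by linarith
  rw [hst']
  have hU : U01 (fun _ : Zd d => (1 : ℝ)) := fun _ => ⟨zero_le_one, le_refl _⟩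
  obtain ⟨n1, hn1⟩ : ∃ n1 : ℕ, n1 = max n0 1 := ⟨_, rfl⟩
  have hsd : 0 ≤ s + δ := by linarith
  refine ⟨max (2 * K) ((n1 : ℝ) ^ d * Real.exp ((s + δ) * (n1 : ℝ) ^ d)), ?_, ?_⟩
  · exact le_trans (by linarith) (le_max_left _ _)
  · intro n hn x hx
    rcases le_or_gt n1 n with h | h
    · refine le_trans ?_ (le_max_left _ _)
      have h1 := hE1 d C₁ B c₀ CL hEnv n (fun _ => 1) K s (s + δ) hn hU hK0 hs0 (by linarith) (by rw [hδ])
        (fun y hy => by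
          rw [s1]
          exact hbd n (by omega) hn y hy) x hx
      rw [s1] at h1
      exact h1
    · refine le_trans (s7 n (s + δ) hn hsd x hx) (le_trans ?_ (le_max_right _ _))
      have h1 : (n : ℝ) ≤ n1 := by exact_mod_cast h.le
      have h2 : (n : ℝ) ^ d ≤ (n1 : ℝ) ^ d := pow_le_pow_left₀ (Nat.cast_nonneg n) h1 d
      exact mul_le_mul h2 (Real.exp_le_exp.2 (mul_le_mul_of_nonneg_left h2 hsd)) (Real.exp_pos _).le (by positivity)

end E3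

open E3 in
/-- E04 -/
theorem hE3 (hE1 : StE1) (hE2 : StE2) (hS : StSer) (hM : StMom) (_hBn : StBn) : StE3 := by
  intro d C₁ B c₀ CL hEnv c hlim θ R hθ hθR hsum
  obtain ⟨K0, hK0, hmom⟩ := hM d C₁ B c₀ CL hEnv
  have hU : U01 (fun _ : Zd d => (1 : ℝ)) := fun _ => ⟨zero_le_one, le_refl _⟩
  obtain ⟨-, -, -, s4, -, s6, -⟩ := hS d C₁ B c₀ CL hEnv
  have hmr : ∀ n : ℕ, 1 ≤ n → ∀ x ∈ Bn d n, ∀ r : ℕ, mr d n r x ≤ K0 ^ (r + 1) := fun n hn x hx r =>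
    mr_le hn (hmom n _ hn hU).2.1 hx r
  have hc0 : ∀ r, 0 ≤ c r := fun r =>
    ge_of_tendsto (hlim r) (eventually_atTop.2 ⟨1, fun n hn => ((hmom n _ hn hU).1 r).1⟩)
  obtain ⟨ε, hε0, hε1, hεR⟩ := eps hθ hθR
  have hR : 0 ≤ R := by linarith
  obtain ⟨K, hK⟩ : ∃ K : ℝ, K = max K0 ((2 / ε) ^ d * (1 + ε) ^ 2 * (∑' r, c r * R ^ r) + 2) := ⟨_, rfl⟩
  have hKK0 : K0 ≤ K := hK ▸ le_max_left _ _
  have hK2 : (2 / ε) ^ d * (1 + ε) ^ 2 * (∑' r, c r * R ^ r) + 2 ≤ K := hK ▸ le_max_right _ _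
  have hK1 : 1 ≤ K := hK0.trans hKK0
  obtain ⟨δ, hδ⟩ : ∃ δ : ℝ, δ = 1 / (8 * K ^ 2) := ⟨_, rfl⟩
  have hK0' : 0 < K := by linarith
  have hδ0 : 0 < δ := by rw [hδ]; positivity
  have hδK : δ / 2 ≤ 1 / (2 * K0) := by
    rw [hδ, div_div]
    apply one_div_le_one_div_of_le (by positivity)
    nlinarith
  have hmono : ∀ {a b A : ℝ}, Sb d b A → a ≤ b → Sb d a A := fun h hab n hn x hx =>
    (s6 n _ _ x hab).trans (h n hn x hx)
  have hind : ∀ j : ℕ, ∃ A : ℝ, 1 ≤ A ∧ Sb d (min (1 / (2 * K0) + j * (δ / 2)) θ) A := by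
    intro j
    induction j with
    | zero =>
      refine ⟨2 * K0, by linarith, ?_⟩
      exact hmono (base hK0 hmr s4) (by
        rw [Nat.cast_zero, zero_mul, add_zero]
        exact min_le_left _ _)
    | succ j ih =>
      obtain ⟨A, hA1, hA⟩ := ih
      rcases le_or_gt θ (1 / (2 * K0) + j * (δ / 2)) with h | h
      · refine ⟨A, hA1, ?_⟩
        rw [min_eq_right h] at hA
        exact hmono hA (min_le_right _ _)
      · rw [min_eq_left h.le] at hA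
        have hj0 : (0 : ℝ) ≤ j * (δ / 2) := by positivity
        obtain ⟨K', hK'1, hK'⟩ := step hE1 hE2 hS hEnv hlim hc0 hR hε0 hε1 hεR hsum hK1 hK2 hδ hA hA1
          (by linarith) (by linarith)
        refine ⟨K', hK'1, hmono hK' ?_⟩
        refine le_trans (min_le_left _ _) (le_of_eq ?_)
        push_cast
        ring
  obtain ⟨j, hj⟩ := exists_nat_gt (θ / (δ / 2))
  rw [div_lt_iff₀ (by positivity)] at hj
  obtain ⟨A, hA1, hA⟩ := hind j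
  refine ⟨A, hA1, ?_⟩
  rw [min_eq_right] at hA
  · exact hA
  · have : (0 : ℝ) < 1 / (2 * K0) := by positivity
    linarith

end Pool.CM
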