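import Pool.Agent.Helper22.CM.St

/-!
# Project CM (MP_65faa7), module Ext3: three disjoint pieces which cover the cluster
-/

set_option autoImplicit false
set_option linter.unusedSectionVars false

open scoped BigOperators ENNReal Topology
open Pool.LE Pool.NL Pool.CL Filter MeasureTheory

namespace Pool.CM.Ext3

section

variable {V : Type} [DecidableEq V]

theorem mem_of_edges {ω : Finset (Sym2 V)} {x y : V} (q : (gr ω).Walk x y) {e : Sym2 V}
    (he : e ∈ q.edges) : e ∈ ω ∧ ¬ e.IsDiag := by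
  have h1 := q.edges_subset_edgeSet he
  unfold gr at h1
  rw [SimpleGraph.edgeSet_fromEdgeSet] at h1
  exact ⟨Finset.mem_coe.1 h1.1, h1.2⟩

theorem con_of_walk {ω J : Finset (Sym2 V)} {x y : V} (q : (gr ω).Walk x y)
    (h : ∀ e ∈ q.edges, e ∈ J) : con J x y := by
  refine ⟨q.transfer (gr J) ?_⟩
  intro e he
  unfold gr
  rw [SimpleGraph.edgeSet_fromEdgeSet]
  exact ⟨Finset.mem_coe.2 (h e he), (mem_of_edges q he).2⟩

theorem con_mono' {ω η : Finset (Sym2 V)} (h : ω ⊆ η) {x y : V} (hc : con ω x y) : con η x y := by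
  obtain ⟨q⟩ := hc
  exact con_of_walk q fun e he => h (mem_of_edges q he).1

end

end Pool.CM.Ext3

namespace Pool.CM

open Ext3 in
theorem hExt3 (hH : StHang) : StExt3 := by
  intro V _ ω x y w hxy hxw
  obtain ⟨γ, g, I, hγ, hIω, hII, hγI, hgs, hg⟩ := hH V ω x y hxy
  obtain ⟨hz, hzw⟩ := hg w hxw
  generalize hzdef : g w = z at hz hzw
  -- the two parts of the path
  have hspec := γ.take_spec hz
  obtain ⟨g1, hg1⟩ : ∃ q, q = γ.takeUntil z hz := ⟨_, rfl⟩
  obtain ⟨g2, hg2⟩ : ∃ q, q = γ.dropUntil z hz := ⟨_, rfl⟩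
  rw [← hg1, ← hg2] at hspec
  have hedges : γ.edges = g1.edges ++ g2.edges := by
    rw [← hspec, SimpleGraph.Walk.edges_append]
  have hsupp : γ.support = g1.support ++ g2.support.tail := by
    rw [← hspec, SimpleGraph.Walk.support_append]
  have hend := hγ.isTrail.edges_nodup
  rw [hedges] at hend
  have hsnd := hγ.support_nodup
  rw [hsupp] at hsnd
  have hed := (List.nodup_append'.1 hend).2.2
  have hsd := (List.nodup_append'.1 hsnd).2.2
  have hsub1 : ∀ e ∈ g1.edges, e ∈ γ.edges := fun e he => by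
    rw [hedges]
    exact List.mem_append_left _ he
  have hsub2 : ∀ e ∈ g2.edges, e ∈ γ.edges := fun e he => by
    rw [hedges]
    exact List.mem_append_right _ he
  -- the pieces
  let I₁ : Finset (Sym2 V) := g1.edges.toFinset ∪ (g1.support.toFinset.erase z).biUnion I
  let I₂ : Finset (Sym2 V) := g2.edges.toFinset ∪ (g2.support.toFinset.erase z).biUnion I
  have m1 : ∀ e, e ∈ I₁ ↔ e ∈ g1.edges ∨ ∃ u, (u ≠ z ∧ u ∈ g1.support) ∧ e ∈ I u := by
    intro e
    simp only [I₁, Finset.mem_union, List.mem_toFinset, Finset.mem_biUnion, Finset.mem_erase]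
  have m2 : ∀ e, e ∈ I₂ ↔ e ∈ g2.edges ∨ ∃ u, (u ≠ z ∧ u ∈ g2.support) ∧ e ∈ I u := by
    intro e
    simp only [I₂, Finset.mem_union, List.mem_toFinset, Finset.mem_biUnion, Finset.mem_erase]
  have hIu : ∀ u u' e, u ≠ u' → e ∈ I u → e ∈ I u' → False := by
    intro u u' e h1 h2 h3
    exact Finset.disjoint_left.1 (hII u u' h1) h2 h3
  refine ⟨z, I₁, I₂, I z, ?_, ?_, hIω z, ?_, ?_, ?_, ?_, ?_, hzw, ?_⟩
  · intro e he
    rcases (m1 e).1 he with h | ⟨u, -, h⟩
    · exact (mem_of_edges g1 h).1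
    · exact hIω u h
  · intro e he
    rcases (m2 e).1 he with h | ⟨u, -, h⟩
    · exact (mem_of_edges g2 h).1
    · exact hIω u h
  · rw [Finset.disjoint_left]
    intro e he he'
    rcases (m1 e).1 he with h | ⟨u, ⟨hu1, hu2⟩, h⟩
    · rcases (m2 e).1 he' with h' | ⟨u', -, h'⟩
      · exact hed h h'
      · exact hγI u' e (hsub1 e h) h'
    · rcases (m2 e).1 he' with h' | ⟨u', ⟨hu1', hu2'⟩, h'⟩
      · exact hγI u e (hsub2 e h') h
      · have h3 : u' ∈ g2.support.tail := by
          rcases (SimpleGraph.Walk.mem_support_iff g2).1 hu2' with h4 | h4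
          · exact absurd h4 hu1'
          · exact h4
        have h5 : u ≠ u' := by
          rintro rfl
          exact hsd hu2 h3
        exact hIu u u' e h5 h h'
  · rw [Finset.disjoint_left]
    intro e he he'
    rcases (m1 e).1 he with h | ⟨u, ⟨hu1, -⟩, h⟩
    · exact hγI z e (hsub1 e h) he'
    · exact hIu u z e hu1 h he'
  · rw [Finset.disjoint_left]
    intro e he he'
    rcases (m2 e).1 he with h | ⟨u, ⟨hu1, -⟩, h⟩
    · exact hγI z e (hsub2 e h) he'
    · exact hIu u z e hu1 h he'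
  · exact con_of_walk g1 fun e he => (m1 e).2 (Or.inl he)
  · exact con_of_walk g2 fun e he => (m2 e).2 (Or.inl he)
  · intro v hv
    obtain ⟨h1, h2⟩ := hg v hv
    by_cases huz : g v = z
    · rw [huz] at h2
      exact Or.inr (Or.inr h2)
    rw [hsupp, List.mem_append] at h1
    by_cases h3 : g v ∈ g1.support
    · left
      have h4 : con I₁ x (g v) := con_of_walk (g1.takeUntil (g v) h3) fun e he =>
        (m1 e).2 (Or.inl (g1.edges_takeUntil_subset_edges h3 he))
      have h5 : con I₁ (g v) v := con_mono' (fun e he => (m1 e).2 (Or.inr ⟨g v, ⟨huz, h3⟩, he⟩)) h2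
      exact h4.trans h5
    · right
      left
      have h6 : g v ∈ g2.support := by
        rcases h1 with h1 | h1
        · exact absurd h1 h3
        · exact List.mem_of_mem_tail h1
      have h4 : con I₂ z (g v) := con_of_walk (g2.takeUntil (g v) h6) fun e he =>
        (m2 e).2 (Or.inl (g2.edges_takeUntil_subset_edges h6 he))
      have h5 : con I₂ (g v) v := con_mono' (fun e he => (m2 e).2 (Or.inr ⟨g v, ⟨huz, h6⟩, he⟩)) h2
      exact h4.trans h5

end Pool.CM
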