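import Pool.Agent.Helper22.CM.St

/-! # Project CM: module F1 (a good level) -/

set_option autoImplicit false

open scoped BigOperators ENNReal Topology
open Pool.LE Pool.NL Pool.CL Filter MeasureTheory

namespace Pool.CM

/-- iteration of a lower bound for the drop -/
theorem F1.iter (f : ℕ → ℝ) (c : ℝ) (a b : ℕ) (hab : a ≤ b)
    (h : ∀ k, a ≤ k → k < b → Real.exp c * f (k + 1) ≤ f k) :
    Real.exp (c * ((b : ℝ) - a)) * f b ≤ f a := by
  induction b, hab using Nat.le_induction with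
  | base => simp
  | succ b hb ih =>
    have h1 := ih fun k hk hkb => h k hk (by omega)
    have h2 := h b hb (Nat.lt_succ_self b)
    have h3 : Real.exp (c * (((b + 1 : ℕ) : ℝ) - a)) = Real.exp (c * ((b : ℝ) - a)) * Real.exp c := by
      rw [← Real.exp_add]
      congr 1
      push_cast
      ring
    rw [h3, mul_assoc]
    exact (mul_le_mul_of_nonneg_left h2 (Real.exp_pos _).le).trans h1

theorem hF1 (hF0 : StF0) (hUk : StUk) : StF1 := by
  intro d C₁ B c₀ CL hE c R hR ε k₀ hε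
  have hR0 := hR.pos
  set e1 : ℝ := min (1 / 2) (min (R / 2) (ε / (1 + R + ε))) with he1
  have h1 : 0 < e1 := lt_min (by norm_num) (lt_min (by linarith) (div_pos hε (by linarith)))
  have h2 : e1 ≤ 1 / 2 := min_le_left _ _
  have h3 : e1 ≤ R / 2 := (min_le_right _ _).trans (min_le_left _ _)
  have h4 : e1 * (1 + R + ε) ≤ ε := by
    have h5 : e1 ≤ ε / (1 + R + ε) := (min_le_right _ _).trans (min_le_right _ _)
    rwa [le_div_iff₀ (by linarith)] at h5
  obtain ⟨K, hK, hS⟩ := hR.sub (R - e1) (by linarith) (by linarith)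
  obtain ⟨k0', hk0'⟩ := exists_nat_ge (max (2 * (k₀ : ℝ) + 4) ((2 * Real.log K + 7) / (2 * e1)))
  have hk1 : 2 * (k₀ : ℝ) + 4 ≤ k0' := (le_max_left _ _).trans hk0'
  have hk2 : 2 * Real.log K + 7 ≤ 2 * e1 * k0' := by
    have h5 := (le_max_right _ _).trans hk0'
    rw [div_le_iff₀ (by linarith)] at h5
    linarith
  obtain ⟨k₂, n₀, hk₂, hn₀, hF⟩ := hF0 d C₁ B c₀ CL hE c R hR e1 k0' h1
  refine ⟨k₂, n₀, ?_, hn₀, fun n hn => ?_⟩
  · have : (k₀ : ℝ) ≤ k0' := by linarith [(Nat.cast_nonneg k₀ : (0 : ℝ) ≤ k₀)]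
    exact (by exact_mod_cast this : k₀ ≤ k0').trans hk₂
  have hn1 : 1 ≤ n := hn₀.trans hn
  obtain ⟨k1, hk3, hk4, hk5⟩ := hF n hn
  obtain ⟨u1, u2, u3, u4, u5, u6, u7⟩ := hUk d C₁ B c₀ CL hE n hn1
  have hk3r : (k0' : ℝ) ≤ k1 := by exact_mod_cast hk3
  have hlogK : 0 ≤ Real.log K := Real.log_nonneg hK
  -- the lower bound at `k1`
  have hlow : Real.exp (-(2 * (R + e1) * k1)) ≤ ph2 d n k1 := by
    refine le_trans ?_ (u6 k1)
    have h5 : Real.exp (-(2 * (R + e1) * k1)) = (Real.exp (-((R + e1) * k1))) ^ 2 := by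
      rw [← Real.exp_nat_mul]
      congr 1
      push_cast
      ring
    rw [h5]
    exact pow_le_pow_left₀ (Real.exp_pos _).le hk5 2
  -- the window
  set ka : ℕ := ⌈(1 - e1) * (k1 : ℝ)⌉₊ with hka
  have hka1 : (1 - e1) * (k1 : ℝ) ≤ ka := Nat.le_ceil _
  have hka2 : (ka : ℝ) < (1 - e1) * (k1 : ℝ) + 1 :=
    Nat.ceil_lt_add_one (mul_nonneg (by linarith) (Nat.cast_nonneg _))
  have hk1pos : (0 : ℝ) < k1 := by linarith [(Nat.cast_nonneg k₀ : (0 : ℝ) ≤ k₀)]
  have hek : 7 / 2 ≤ e1 * k1 := by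
    have : e1 * (k0' : ℝ) ≤ e1 * k1 := mul_le_mul_of_nonneg_left hk3r h1.le
    linarith
  have hkalt : (ka : ℝ) < k1 := by linarith
  have hkalt' : ka < k1 := by exact_mod_cast hkalt
  have hka3 : (k₀ : ℝ) + 1 ≤ ka := by
    have : (1 / 2 : ℝ) * k1 ≤ (1 - e1) * k1 := mul_le_mul_of_nonneg_right (by linarith) hk1pos.le
    linarith
  have hka4 : k₀ + 1 ≤ ka := by exact_mod_cast hka3
  have hka5 : 1 ≤ ka := by omega
  -- the upper bound at `ka`
  have hup : ph2 d n ka ≤ (K * Real.exp (-((R - e1) * ka))) ^ 2 :=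
    u7 ka _ fun x hx => u4 ka (R - e1) K hka5 (by linarith) (fun y hy => hS n hn1 y hy) x hx
  -- a good level
  have hex : ∃ k, ka ≤ k ∧ k < k1 ∧ ph2 d n k ≤ Real.exp (2 * R + 6) * ph2 d n (k + 1) := by
    by_contra hno
    push_neg at hno
    have h5 := F1.iter (fun k => ph2 d n k) (2 * R + 6) ka k1 hkalt'.le
      fun k hk hkb => (hno k hk hkb).le
    have h6 : Real.exp ((2 * R + 6) * ((k1 : ℝ) - ka)) * Real.exp (-(2 * (R + e1) * k1)) ≤
        (K * Real.exp (-((R - e1) * ka))) ^ 2 :=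
      (mul_le_mul_of_nonneg_left hlow (Real.exp_pos _).le).trans (h5.trans hup)
    have h7 : (K * Real.exp (-((R - e1) * ka))) ^ 2 =
        Real.exp (2 * Real.log K - 2 * (R - e1) * ka) := by
      have h8 : K = Real.exp (Real.log K) := (Real.exp_log (by linarith)).symm
      rw [h8, Real.log_exp, ← Real.exp_add, ← Real.exp_nat_mul]
      congr 1
      push_cast
      ring
    rw [h7, ← Real.exp_add, Real.exp_le_exp] at h6
    have h9 : 6 * ((k1 : ℝ) - ka) ≤ 2 * Real.log K + 4 * e1 * k1 := by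
      nlinarith [mul_le_mul_of_nonneg_left hkalt.le h1.le]
    have h10 : e1 * k1 - 1 ≤ (k1 : ℝ) - ka := by linarith
    have h11 : 2 * e1 * (k0' : ℝ) ≤ 2 * e1 * k1 := mul_le_mul_of_nonneg_left hk3r (by linarith)
    linarith
  obtain ⟨k, hk6, hk7, hk8⟩ := hex
  refine ⟨k, by omega, by omega, ?_, hk8⟩
  have h12 : ph2 d n k1 ≤ ph2 d n (k + 1) := u5 _ _ (by omega)
  refine le_trans (Real.exp_le_exp.2 ?_) (hlow.trans h12)
  have hkr : (ka : ℝ) ≤ k := by exact_mod_cast hk6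
  have h13 : (1 - e1) * (k1 : ℝ) ≤ (k : ℝ) + 1 := by linarith
  have h14 : (R + e1) * k1 ≤ (R + ε) * ((k : ℝ) + 1) := by
    have h15 : R + e1 ≤ (R + ε) * (1 - e1) := by nlinarith
    calc (R + e1) * k1 ≤ (R + ε) * (1 - e1) * k1 := mul_le_mul_of_nonneg_right h15 hk1pos.le
      _ = (R + ε) * ((1 - e1) * k1) := by ring
      _ ≤ (R + ε) * ((k : ℝ) + 1) := mul_le_mul_of_nonneg_left h13 (by linarith)
  linarith

end Pool.CM
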