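import Pool.Agent.Helper22.CM.St

/-! # Project CM: functional BK inequality -/

set_option autoImplicit false

open scoped BigOperators ENNReal Topology
open Pool.LE Pool.NL Pool.CL Filter MeasureTheory

namespace Pool.CM

namespace FBK

variable {V : Type} [DecidableEq V]

/-- sup over the splittings of `w` -/
noncomputable def M (f g : Finset (Sym2 V) → ℝ) (w : Finset (Sym2 V)) : ℝ :=
  w.powerset.sup' ⟨∅, Finset.empty_mem_powerset w⟩ (fun I => f I * g (w \ I))

theorem le_M (f g : Finset (Sym2 V) → ℝ) {w I : Finset (Sym2 V)} (hI : I ⊆ w) :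
    f I * g (w \ I) ≤ M f g w :=
  Finset.le_sup' (fun I => f I * g (w \ I)) (Finset.mem_powerset.2 hI)

theorem M_le (f g : Finset (Sym2 V) → ℝ) {w : Finset (Sym2 V)} {c : ℝ}
    (h : ∀ I, I ⊆ w → f I * g (w \ I) ≤ c) : M f g w ≤ c :=
  Finset.sup'_le _ _ (fun I hI => h I (Finset.mem_powerset.1 hI))

theorem M_att (f g : Finset (Sym2 V) → ℝ) (w : Finset (Sym2 V)) :
    ∃ I, I ⊆ w ∧ M f g w = f I * g (w \ I) := by
  obtain ⟨I, hI, h⟩ := Finset.exists_mem_eq_sup' (⟨∅, Finset.empty_mem_powerset w⟩ :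
    w.powerset.Nonempty) (fun I => f I * g (w \ I))
  exact ⟨I, Finset.mem_powerset.1 hI, h⟩

theorem M_mono_left {f f' g : Finset (Sym2 V) → ℝ} (hf : ∀ w, f w ≤ f' w) (hg : ∀ w, 0 ≤ g w)
    (w : Finset (Sym2 V)) : M f g w ≤ M f' g w :=
  M_le f g fun I hI => (mul_le_mul_of_nonneg_right (hf I) (hg _)).trans (le_M f' g hI)

theorem M_mono_right {f g g' : Finset (Sym2 V) → ℝ} (hf : ∀ w, 0 ≤ f w) (hg : ∀ w, g w ≤ g' w)
    (w : Finset (Sym2 V)) : M f g w ≤ M f g' w :=
  M_le f g fun I hI => (mul_le_mul_of_nonneg_left (hg _) (hf I)).trans (le_M f g' hI)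

theorem M_insert (f g : Finset (Sym2 V) → ℝ) {e : Sym2 V} {w : Finset (Sym2 V)} (he : e ∉ w) :
    M f g (insert e w) ≤ max (M (fun w => f (insert e w)) g w) (M f (fun w => g (insert e w)) w) := by
  refine M_le f g fun I hI => ?_
  by_cases h : e ∈ I
  · refine le_trans ?_ (le_max_left _ _)
    have h1 : I.erase e ⊆ w := by
      intro x hx
      rcases Finset.mem_erase.1 hx with ⟨h1, h2⟩
      rcases Finset.mem_insert.1 (hI h2) with h3 | h3
      · exact absurd h3 h1
      · exact h3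
    have h2 := le_M (fun w => f (insert e w)) g h1
    have h3 : insert e (I.erase e) = I := Finset.insert_erase h
    have h4 : insert e w \ I = w \ I.erase e := by
      ext x
      simp only [Finset.mem_sdiff, Finset.mem_insert, Finset.mem_erase]
      constructor
      · rintro ⟨h5, h6⟩
        rcases h5 with h5 | h5
        · subst h5; exact absurd h h6
        · exact ⟨h5, fun h7 => h6 h7.2⟩
      · rintro ⟨h5, h6⟩
        refine ⟨Or.inr h5, fun h7 => h6 ⟨?_, h7⟩⟩
        rintro rfl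
        exact he h5
    simp only [h3] at h2
    rw [h4]
    exact h2
  · refine le_trans ?_ (le_max_right _ _)
    have h1 : I ⊆ w := by
      intro x hx
      rcases Finset.mem_insert.1 (hI hx) with h3 | h3
      · subst h3; exact absurd hx h
      · exact h3
    have h2 := le_M f (fun w => g (insert e w)) h1
    have h4 : insert e w \ I = insert e (w \ I) := Finset.insert_sdiff_of_notMem w h
    rw [h4]
    exact h2

theorem M_mono {f g : Finset (Sym2 V) → ℝ} (hf : ∀ w, 0 ≤ f w)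
    (hgm : ∀ w w', w ⊆ w' → g w ≤ g w') {w w' : Finset (Sym2 V)} (h : w ⊆ w') :
    M f g w ≤ M f g w' :=
  M_le f g fun I hI => (mul_le_mul_of_nonneg_left (hgm _ _ (Finset.sdiff_subset_sdiff h
    (le_refl I))) (hf I)).trans (le_M f g (hI.trans h))

theorem M_nonneg {f g : Finset (Sym2 V) → ℝ} (hf : ∀ w, 0 ≤ f w) (hg : ∀ w, 0 ≤ g w)
    (w : Finset (Sym2 V)) : 0 ≤ M f g w :=
  (mul_nonneg (hf ∅) (hg (w \ ∅))).trans (le_M f g (Finset.empty_subset w))

theorem ex_empty (hB : StBasic) (p : ℝ) (hp : 0 ≤ p) (hp1 : p ≤ 1) (f : Finset (Sym2 V) → ℝ) :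
    ex (∅ : Finset (Sym2 V)) p f = f ∅ := by
  obtain ⟨hm, hc, -⟩ := hB V ∅ p hp hp1
  have h1 : ex (∅ : Finset (Sym2 V)) p f ≤ ex (∅ : Finset (Sym2 V)) p (fun _ => f (∅ : Finset (Sym2 V))) := by
    refine hm _ _ fun w hw => ?_
    rw [Finset.subset_empty.1 hw]
  have h2 : ex (∅ : Finset (Sym2 V)) p (fun _ => f (∅ : Finset (Sym2 V))) ≤ ex (∅ : Finset (Sym2 V)) p f := by
    refine hm _ _ fun w hw => ?_
    rw [Finset.subset_empty.1 hw]
  rw [hc] at h1 h2
  exact le_antisymm h1 h2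

theorem claim (hB : StBasic) (hEd : StEdge) (p : ℝ) (hp : 0 ≤ p) (hp1 : p ≤ 1)
    (E : Finset (Sym2 V)) : ∀ f g : Finset (Sym2 V) → ℝ, (∀ w, 0 ≤ f w) → (∀ w, 0 ≤ g w) →
      (∀ w w', w ⊆ w' → f w ≤ f w') → (∀ w w', w ⊆ w' → g w ≤ g w') →
        ex E p (M f g) ≤ ex E p f * ex E p g := by
  induction E using Finset.induction_on with
  | empty =>
    intro f g hf hg hfm hgm
    rw [ex_empty hB p hp hp1, ex_empty hB p hp hp1, ex_empty hB p hp hp1]
    refine M_le f g fun I hI => ?_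
    rw [Finset.subset_empty.1 hI]
    simp
  | insert e E he ih =>
    intro f g hf hg hfm hgm
    obtain ⟨hm, hc, hadd, hsub, hmul, -⟩ := hB V E p hp hp1
    have hee : (insert e E).erase e = E := Finset.erase_insert he
    have key : ∀ F : Finset (Sym2 V) → ℝ, ex (insert e E) p F =
        p * ex E p (fun w => F (insert e w)) + (1 - p) * ex E p F := by
      intro F
      have := (hEd V (insert e E) p e F (Finset.mem_insert_self e E)).1
      rw [hee] at this
      exact this
    rw [key, key f, key g]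
    set f1 : Finset (Sym2 V) → ℝ := fun w => f (insert e w) with hf1
    set g1 : Finset (Sym2 V) → ℝ := fun w => g (insert e w) with hg1
    have hf1n : ∀ w, 0 ≤ f1 w := fun w => hf _
    have hg1n : ∀ w, 0 ≤ g1 w := fun w => hg _
    have hf1m : ∀ w w', w ⊆ w' → f1 w ≤ f1 w' := fun w w' h =>
      hfm _ _ (Finset.insert_subset_insert e h)
    have hg1m : ∀ w w', w ⊆ w' → g1 w ≤ g1 w' := fun w w' h =>
      hgm _ _ (Finset.insert_subset_insert e h)
    have hff : ∀ w, f w ≤ f1 w := fun w => hfm _ _ (Finset.subset_insert e w)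
    have hgg : ∀ w, g w ≤ g1 w := fun w => hgm _ _ (Finset.subset_insert e w)
    have i00 := ih f g hf hg hfm hgm
    have i10 := ih f1 g hf1n hg hf1m hgm
    have i01 := ih f g1 hf hg1n hfm hg1m
    have i11 := ih f1 g1 hf1n hg1n hf1m hg1m
    have h1 : ex E p (fun w => M f g (insert e w)) ≤
        p * ex E p (M f1 g1) + (1 - p) * (ex E p (M f1 g) + ex E p (M f g1) - ex E p (M f g)) := by
      have h2 : ex E p (fun w => M f g (insert e w)) ≤
          ex E p (fun w => p * M f1 g1 w + (1 - p) * (M f1 g w + M f g1 w - M f g w)) := by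
        refine hm _ _ fun w hw => ?_
        have hew : e ∉ w := fun h => he (hw h)
        have h3 := M_insert f g hew
        have a1 : M f g w ≤ M f1 g w := M_mono_left hff hg w
        have a2 : M f g w ≤ M f g1 w := M_mono_right hf hgg w
        have a3 : M f1 g w ≤ M f1 g1 w := M_mono_right hf1n hgg w
        have a4 : M f g1 w ≤ M f1 g1 w := M_mono_left hff hg1n w
        have b1 : max (M f1 g w) (M f g1 w) ≤ M f1 g1 w := max_le a3 a4
        have b2 : max (M f1 g w) (M f g1 w) ≤ M f1 g w + M f g1 w - M f g w := by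
          refine max_le ?_ ?_ <;> linarith
        have h3' : M f g (insert e w) ≤ max (M f1 g w) (M f g1 w) := h3
        have b3 : p * max (M f1 g w) (M f g1 w) ≤ p * M f1 g1 w :=
          mul_le_mul_of_nonneg_left b1 hp
        have b4 : (1 - p) * max (M f1 g w) (M f g1 w) ≤
            (1 - p) * (M f1 g w + M f g1 w - M f g w) :=
          mul_le_mul_of_nonneg_left b2 (by linarith)
        linarith
      refine h2.trans (le_of_eq ?_)
      rw [hadd, hmul, hmul, hsub, hadd]
    have q0 : 0 ≤ 1 - p := by linarith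
    have c1 : p * ex E p (fun w => M f g (insert e w)) ≤
        p * (p * ex E p (M f1 g1) + (1 - p) * (ex E p (M f1 g) + ex E p (M f g1) -
          ex E p (M f g))) := mul_le_mul_of_nonneg_left h1 hp
    have c2 : p * (p * ex E p (M f1 g1)) ≤ p * (p * (ex E p f1 * ex E p g1)) :=
      mul_le_mul_of_nonneg_left (mul_le_mul_of_nonneg_left i11 hp) hp
    have c3 : p * ((1 - p) * ex E p (M f1 g)) ≤ p * ((1 - p) * (ex E p f1 * ex E p g)) :=
      mul_le_mul_of_nonneg_left (mul_le_mul_of_nonneg_left i10 q0) hp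
    have c4 : p * ((1 - p) * ex E p (M f g1)) ≤ p * ((1 - p) * (ex E p f * ex E p g1)) :=
      mul_le_mul_of_nonneg_left (mul_le_mul_of_nonneg_left i01 q0) hp
    have c5 : (1 - p) * ((1 - p) * ex E p (M f g)) ≤ (1 - p) * ((1 - p) * (ex E p f * ex E p g)) :=
      mul_le_mul_of_nonneg_left (mul_le_mul_of_nonneg_left i00 q0) q0
    nlinarith [c1, c2, c3, c4, c5]

end FBK

open FBK in
theorem hFBK (hB : StBasic) (hEd : StEdge) : StFBK := by
  intro V _ E p hp hp1 f g F hf hg hfm hgm hF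
  obtain ⟨hm, -⟩ := hB V E p hp hp1
  refine le_trans (hm _ _ fun w hw => ?_) (claim hB hEd p hp hp1 E f g hf hg hfm hgm)
  obtain ⟨I, J, hI, hJ, hIJ, h⟩ := hF w hw
  refine h.trans (le_trans ?_ (le_M f g hI))
  refine mul_le_mul_of_nonneg_left (hgm _ _ ?_) (hf I)
  intro x hx
  refine Finset.mem_sdiff.2 ⟨hJ hx, fun h1 => ?_⟩
  exact (Finset.disjoint_left.1 hIJ) h1 hx

open FBK in
theorem hFBK3 (hB : StBasic) (hF : StFBK) : StFBK3 := by
  intro V _ E p hp hp1 f g h F hf hg hh hfm hgm hhm hFF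
  obtain ⟨hm, hc, -⟩ := hB V E p hp hp1
  have hGn : ∀ w, 0 ≤ FBK.M g h w := M_nonneg hg hh
  have hGm : ∀ w w', w ⊆ w' → FBK.M g h w ≤ FBK.M g h w' := fun w w' hw => M_mono hg hhm hw
  have h1 : ex E p F ≤ ex E p f * ex E p (FBK.M g h) := by
    refine hF V E p hp hp1 f (FBK.M g h) F hf hGn hfm hGm fun w hw => ?_
    obtain ⟨I₁, I₂, I₃, k1, k2, k3, d12, d13, d23, h⟩ := hFF w hw
    refine ⟨I₁, I₂ ∪ I₃, k1, Finset.union_subset k2 k3,
      Finset.disjoint_union_right.2 ⟨d12, d13⟩, h.trans ?_⟩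
    refine mul_le_mul_of_nonneg_left ?_ (hf I₁)
    refine le_trans ?_ (le_M g _ (Finset.subset_union_left : I₂ ⊆ I₂ ∪ I₃))
    refine mul_le_mul_of_nonneg_left (hhm _ _ ?_) (hg I₂)
    intro x hx
    refine Finset.mem_sdiff.2 ⟨Finset.mem_union_right _ hx, fun h1 => ?_⟩
    exact (Finset.disjoint_left.1 d23) h1 hx
  have h2 : ex E p (FBK.M g h) ≤ ex E p g * ex E p h := by
    refine hF V E p hp hp1 g h _ hg hh hgm hhm fun w _ => ?_
    obtain ⟨I, hI, hh⟩ := M_att g h w
    exact ⟨I, w \ I, hI, Finset.sdiff_subset, Finset.disjoint_sdiff, hh.le⟩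
  have h3 : 0 ≤ ex E p f := by
    have := hm (fun _ => 0) f (fun w _ => hf w)
    rwa [hc] at this
  exact h1.trans (mul_le_mul_of_nonneg_left h2 h3)

end Pool.CM
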