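import Pool.Agent.Helper22.CM.St

/-! # Project CM: module FamZ -/

set_option autoImplicit false

open scoped BigOperators ENNReal Topology
open Pool.LE Pool.NL Pool.CL Filter MeasureTheory

namespace Pool.CM

namespace FamZ

private lemma minDeg_mono {V : Type} [DecidableEq V] {E : Finset (Sym2 V)}
    {F : Finset (Finset V)} {k k' : ℕ} (h : minDeg E F k') (hk : k ≤ k') : minDeg E F k :=
  fun A hA => hk.trans (h A hA)

private lemma exists_lb (f : ℕ → ℝ) (hf : ∀ k, 0 < f k) (N : ℕ) :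
    ∃ c : ℝ, 0 < c ∧ ∀ k, k ≤ N → c ≤ f k := by
  induction N with
  | zero => exact ⟨f 0, hf 0, fun k hk => by rw [Nat.le_zero.1 hk]⟩
  | succ N ih =>
    obtain ⟨c, hc, h⟩ := ih
    refine ⟨min c (f (N + 1)), lt_min hc (hf _), fun k hk => ?_⟩
    rcases Nat.lt_or_ge k (N + 1) with h1 | h1
    · exact (min_le_left _ _).trans (h k (Nat.lt_succ_iff.1 h1))
    · rw [le_antisymm hk h1]; exact min_le_right _ _

private lemma exists_ub (g : ℕ → ℕ) (N : ℕ) : ∃ n : ℕ, ∀ k, k ≤ N → g k ≤ n := by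
  refine ⟨(Finset.range (N + 1)).sup g, fun k hk => ?_⟩
  exact Finset.le_sup (f := g) (Finset.mem_range.2 (Nat.lt_succ_iff.2 hk))

/-- the exponent computation -/
private lemma key {R ε e θ cL C K x : ℝ} (he : 24 * e ≤ ε) (hε : 0 < ε)
    (hθ : θ = R - e) (hR : 0 < R) (hcL : 0 < cL) (hC : 0 < C) (hK : 1 ≤ K) (hx : 0 ≤ x)
    (hlog : Real.log (9216 * C ^ 4 * K ^ 11 / cL ^ 6) + 11 * R ≤ ε / 24 * (x + 1)) :
    Real.exp (-((R + ε) * (x + 1))) ≤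
      cL ^ 6 * Real.exp (-(2 * (R + e) * (x + 1))) ^ 6 /
        (9216 * C ^ 4 * (K * Real.exp (-(θ * x))) ^ 11) := by
  have hK0 : 0 < K := by linarith
  obtain ⟨A, hA⟩ : ∃ A : ℝ, A = 9216 * C ^ 4 * K ^ 11 / cL ^ 6 := ⟨_, rfl⟩
  have hA0 : 0 < A := by rw [hA]; positivity
  rw [← hA] at hlog
  rw [le_div_iff₀ (by positivity), mul_pow, ← Real.exp_nat_mul, ← Real.exp_nat_mul]
  have h1 : 9216 * C ^ 4 * K ^ 11 = cL ^ 6 * A := by
    rw [hA]; field_simp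
  have h2 : Real.exp (-((R + ε) * (x + 1))) *
      (9216 * C ^ 4 * (K ^ 11 * Real.exp (((11 : ℕ) : ℝ) * -(θ * x)))) =
      cL ^ 6 * Real.exp (-((R + ε) * (x + 1)) + ((11 : ℕ) : ℝ) * -(θ * x) + Real.log A) := by
    rw [Real.exp_add, Real.exp_add, Real.exp_log hA0]
    calc _ = (9216 * C ^ 4 * K ^ 11) * (Real.exp (-((R + ε) * (x + 1))) *
          Real.exp (((11 : ℕ) : ℝ) * -(θ * x))) := by ring
      _ = _ := by rw [h1]; ring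
  rw [h2]
  refine mul_le_mul_of_nonneg_left (Real.exp_le_exp.2 ?_) (by positivity)
  push_cast
  rw [hθ]
  nlinarith [mul_nonneg hx (by linarith : (0 : ℝ) ≤ ε - 24 * e)]

end FamZ

open FamZ

theorem hFamZ (hF1 : StF1) (hLow : StLowJz) (hUp : StUpJz) (hUk : StUk) (hPZ : Pool.NL.StPZ)
    (hGr : Pool.NL.StGraph) (hBn : StBn) (hB : StBasic) : StFamZ := by
  intro d C₁ B c₀ CL hE c R hRad ε k₀ hε
  have hR := hRad.pos
  have hd := hE.env.hd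
  have hp0 : 0 ≤ pH d := hE.env.p0.le
  have hp1 : pH d ≤ 1 := hE.env.p1.trans (by norm_num)
  obtain ⟨e, he⟩ : ∃ e : ℝ, e = min (ε / 24) (R / 2) := ⟨_, rfl⟩
  have he0 : 0 < e := by rw [he]; exact lt_min (by positivity) (by positivity)
  have he1 : 24 * e ≤ ε := by
    have := min_le_left (ε / 24) (R / 2); rw [← he] at this; linarith
  have he2 : e ≤ R / 2 := by rw [he]; exact min_le_right _ _
  obtain ⟨θ, hθ⟩ : ∃ θ : ℝ, θ = R - e := ⟨_, rfl⟩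
  have hθ0 : 0 ≤ θ := by rw [hθ]; linarith
  have hθ1 : θ < R := by rw [hθ]; linarith
  obtain ⟨K, hK1, hSb⟩ := hRad.sub θ hθ0 hθ1
  have hK0 : 0 < K := by linarith
  obtain ⟨cL, hcL, hlow⟩ := hLow d C₁ B c₀ CL hE (2 * R + 6) (by positivity)
  obtain ⟨C, hC, hup⟩ := hUp d C₁ B c₀ CL hE
  -- the level
  obtain ⟨k₀', hk₀'⟩ := exists_nat_ge
    ((Real.log (9216 * C ^ 4 * K ^ 11 / cL ^ 6) + 11 * R) / (ε / 24))
  obtain ⟨k₂, n₁, hk₂, hn₁, hF⟩ := hF1 d C₁ B c₀ CL hE c R hRad e (k₀ + 1 + k₀') he0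
  obtain ⟨n₂, hn₂, hlow'⟩ := hlow (Real.exp (-(2 * (R + e) * (k₂ + 1)))) (Real.exp_pos _)
  have hQ : ∀ k : ℕ, 0 < K * Real.exp (-(θ * k)) := fun k => by positivity
  choose g hg1 hg2 using fun k : ℕ => hup (K * Real.exp (-(θ * k))) (hQ k)
  obtain ⟨n₃, hn₃⟩ := exists_ub g k₂
  obtain ⟨β, hβ⟩ : ∃ β : ℕ → ℝ, β = fun k : ℕ => Real.exp (-(2 * (R + e) * (k + 1))) := ⟨_, rfl⟩
  obtain ⟨Q, hQd⟩ : ∃ Q : ℕ → ℝ, Q = fun k : ℕ => K * Real.exp (-(θ * k)) := ⟨_, rfl⟩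
  have hβ0 : ∀ k, 0 < β k := fun k => by rw [hβ]; positivity
  have hQ0 : ∀ k, 0 < Q k := fun k => by rw [hQd]; positivity
  obtain ⟨ρ, hρ⟩ : ∃ ρ : ℕ → ℝ, ρ = fun k => 24 * C * Q k ^ 4 / (cL ^ 2 * β k ^ 2) := ⟨_, rfl⟩
  have hρ0 : ∀ k, 0 < ρ k := fun k => by
    have := hβ0 k; have := hQ0 k; rw [hρ]; positivity
  obtain ⟨c₁, hc₁, hc₁'⟩ := exists_lb (fun k => cL ^ 2 * β k ^ 2 / (8 * C * Q k ^ 4))
    (fun k => by have := hβ0 k; have := hQ0 k; positivity) k₂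
  obtain ⟨c₂, hc₂, hc₂'⟩ := exists_lb
    (fun k => (cL ^ 2 * β k ^ 2 / (8 * ρ k * C * Q k ^ 2)) ^ 2 / (ρ k * C))
    (fun k => by have := hβ0 k; have := hQ0 k; have := hρ0 k; positivity) k₂
  refine ⟨k₂ + 1, n₁ + n₂ + n₃, min c₁ c₂, by omega, lt_min hc₁ hc₂, ?_⟩
  intro n hn
  obtain ⟨k, hk1, hk2, hkF, hkG⟩ := hF n (by omega)
  have hk0 : 1 ≤ k := by omega
  have hn1 : 1 ≤ n := by omega
  have hx : (0 : ℝ) < n := by exact_mod_cast hn1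
  refine ⟨k + 1, by omega, by omega, by omega, ?_⟩
  have hβk := hβ0 k
  have hQk := hQ0 k
  have hρk := hρ0 k
  have huk : ∀ x ∈ Bn d n, uk d n k x ≤ Q k := by
    rw [hQd]
    exact (hUk d C₁ B c₀ CL hE n hn1).2.2.2.1 k θ K hk0 hθ0 (hSb n hn1)
  obtain ⟨hup1, hup2, hup3, hup4⟩ := hg2 k n k ((hn₃ k hk2).trans (by omega)) hk0
    (by rw [hQd] at huk; exact huk)
  have hph : β k ≤ ph2 d n (k + 1) := by rw [hβ]; exact hkF
  have hlow2 := hlow' n k (by omega) hk0 (by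
    refine le_trans (Real.exp_le_exp.2 ?_) hkF
    have : (k : ℝ) ≤ k₂ := by exact_mod_cast hk2
    nlinarith) hkG
  have hlow3 : cL * (n : ℝ) ^ (d - 4) * β k ≤
      eb d n (fun ω => ((JJ (Bn d n) (ES (Bn d n)) ((k + 1) * n ^ 4) ω).card : ℝ)) :=
    le_trans (mul_le_mul_of_nonneg_left hph (by positivity)) hlow2
  obtain ⟨hFG, -, -, -, -⟩ := hBn d n
  obtain ⟨P, hP⟩ : ∃ P : ℝ, P = (n : ℝ) ^ (d - 6) := ⟨_, rfl⟩
  have hP0 : 0 < P := by rw [hP]; positivity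
  have e4 : (n : ℝ) ^ (d - 4) = P * (n : ℝ) ^ 2 := by
    rw [hP, ← pow_add]; congr 1; omega
  have e2 : (n : ℝ) ^ (d - 2) = P * (n : ℝ) ^ 4 := by
    rw [hP, ← pow_add]; congr 1; omega
  have e8 : (n : ℝ) ^ (2 * d - 8) = P ^ 2 * (n : ℝ) ^ 4 := by
    rw [hP, ← pow_mul, ← pow_add]; congr 1; omega
  have hQk' : K * Real.exp (-(θ * k)) = Q k := by rw [hQd]
  rw [hQk', e8] at hup1
  rw [e2] at hup2
  rw [hQk', e4] at hup3
  rw [e4] at hlow3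
  rw [hQk', ← hP] at hup4
  unfold eb at hup1 hup2 hup3 hup4 hlow3
  set m := (k + 1) * n ^ 4 with hm
  have hm1 : 1 ≤ m := Nat.mul_pos (by omega) (by positivity)
  have hPZ' := hPZ (Zd d) (ES (Bn d n)) (pH d) hp0 hp1
    (fun ω => ((JJ (Bn d n) (ES (Bn d n)) m ω).card : ℝ))
    (fun ω => (SS1 (Bn d n) (ES (Bn d n)) m ω : ℝ))
    (fun ω => (SS2 (Bn d n) (ES (Bn d n)) m ω : ℝ))
    (fun ω => ((big (Bn d n) m ω).card : ℝ))
    (cL * (P * (n : ℝ) ^ 2) * β k) (C * Q k ^ 4 * (P ^ 2 * (n : ℝ) ^ 4)) (C * (P * (n : ℝ) ^ 4))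
    (C * Q k ^ 2 * (P * (n : ℝ) ^ 2)) (C * Q k * P)
    (fun ω _ => ⟨Nat.cast_nonneg _, Nat.cast_nonneg _, Nat.cast_nonneg _, Nat.cast_nonneg _⟩)
    (by positivity) (by positivity) hlow3 hup1 (by positivity) (by positivity) (by positivity)
    hup2 hup3 hup4
  have hKeq : 24 * (C * Q k ^ 4 * (P ^ 2 * (n : ℝ) ^ 4)) / (cL * (P * (n : ℝ) ^ 2) * β k) ^ 2 =
      ρ k := by
    rw [hρ]
    field_simp
  rw [hKeq] at hPZ'
  have heq : (cL * (P * (n : ℝ) ^ 2) * β k) ^ 2 / (8 * (C * Q k ^ 4 * (P ^ 2 * (n : ℝ) ^ 4))) =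
      cL ^ 2 * β k ^ 2 / (8 * C * Q k ^ 4) := by
    field_simp
  rw [heq] at hPZ'
  refine (min_le_left _ _).trans ((hc₁' k hk2).trans (hPZ'.trans ?_))
  obtain ⟨-, -, -, -, -, -, -, hmono, -, -⟩ := hB (Zd d) (ES (Bn d n)) (pH d) hp0 hp1
  refine hmono _ _ ?_
  rintro ω hω ⟨h1, h2, h3, h4⟩
  obtain ⟨F, hF1, hF2, hF3⟩ := hGr (Zd d) (Bn d n) (ES (Bn d n)) ω (2 * d) m
    (cL * (P * (n : ℝ) ^ 2) * β k / 2) (ρ k * (C * (P * (n : ℝ) ^ 4)))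
    (ρ k * (C * Q k ^ 2 * (P * (n : ℝ) ^ 2)))
    (ρ k * (C * Q k * P)) hFG hω hm1 (by positivity) (by positivity) (by positivity)
    (by positivity) h1 h2 h3 h4
  have g1 : ((cL * (P * (n : ℝ) ^ 2) * β k / 2) ^ 2 /
      (2 * (ρ k * (C * Q k ^ 2 * (P * (n : ℝ) ^ 2))))) ^ 2 / (ρ k * (C * (P * (n : ℝ) ^ 4))) =
      (cL ^ 2 * β k ^ 2 / (8 * ρ k * C * Q k ^ 2)) ^ 2 / (ρ k * C) * P := by
    field_simp
    ring
  have g2 : (cL * (P * (n : ℝ) ^ 2) * β k / 2) ^ 2 / (4 * (ρ k * (C * Q k * P)) *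
      (ρ k * (C * Q k ^ 2 * (P * (n : ℝ) ^ 2)))) =
      cL ^ 6 * β k ^ 6 / (9216 * C ^ 4 * Q k ^ 11) * (n : ℝ) ^ 2 := by
    rw [hρ]
    field_simp
    ring
  rw [g1] at hF2
  rw [g2] at hF3
  refine ⟨F, hF1, ?_, minDeg_mono hF3 (Nat.floor_le_floor ?_)⟩
  · rw [← hP]
    refine le_trans ?_ hF2
    exact mul_le_mul_of_nonneg_right ((min_le_right _ _).trans (hc₂' k hk2)) hP0.le
  · refine mul_le_mul_of_nonneg_right ?_ (by positivity)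
    have := key (x := (k : ℝ)) he1 hε hθ hR hcL hC hK1 (Nat.cast_nonneg k) (by
      have h5 : (Real.log (9216 * C ^ 4 * K ^ 11 / cL ^ 6) + 11 * R) / (ε / 24) ≤ k + 1 := by
        refine hk₀'.trans ?_
        have : (k₀' : ℝ) ≤ k := by exact_mod_cast (by omega : k₀' ≤ k)
        linarith
      rw [div_le_iff₀ (by positivity)] at h5
      linarith)
    rw [hβ, hQd]
    push_cast
    exact this

end Pool.CM
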