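import Pool.Agent.Helper22.CM.St
import Pool.Agent.Helper84.LE.BGR

/-! # Project CM (MP_65faa7): module Hang (a path with hanging clusters) -/

set_option autoImplicit false
set_option linter.unusedSectionVars false

open scoped BigOperators ENNReal Topology
open Pool.LE Pool.NL Pool.CL Filter MeasureTheory

namespace Pool.CM

namespace Hang

variable {V : Type} [DecidableEq V]

/-- `z` is a neighbour in `S` of the component of `v` off `S` -/
def P (ω : Finset (Sym2 V)) (S : Set V) (v z : V) : Prop :=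
  z ∈ S ∧ ∃ x, x ∉ S ∧ con (rst ω S) v x ∧ s(x, z) ∈ ω

open Classical in
/-- the point of `S` where the cluster of `v` hangs -/
noncomputable def gg (ω : Finset (Sym2 V)) (S : Set V) (a v : V) : V :=
  if v ∈ S then v else @Classical.epsilon V ⟨a⟩ (P ω S v)

open Classical in
/-- the edges of the clusters which hang at `z` -/
noncomputable def II (ω : Finset (Sym2 V)) (S : Set V) (a z : V) : Finset (Sym2 V) :=
  ω.filter (fun e => ∃ x ∈ e, x ∉ S ∧ gg ω S a x = z)

theorem mem_II {ω : Finset (Sym2 V)} {S : Set V} {a z : V} {e : Sym2 V} :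
    e ∈ II ω S a z ↔ e ∈ ω ∧ ∃ x ∈ e, x ∉ S ∧ gg ω S a x = z := by
  classical
  unfold II
  exact Finset.mem_filter

theorem P_congr {ω : Finset (Sym2 V)} {S : Set V} {v v' : V} (h : con (rst ω S) v v') :
    P ω S v = P ω S v' := by
  funext z
  apply propext
  constructor
  · rintro ⟨hz, x, hx, h1, h2⟩
    exact ⟨hz, x, hx, con_trans (con_symm h) h1, h2⟩
  · rintro ⟨hz, x, hx, h1, h2⟩
    exact ⟨hz, x, hx, con_trans h h1, h2⟩

theorem gg_congr {ω : Finset (Sym2 V)} {S : Set V} {a v v' : V} (hv : v ∉ S) (hv' : v' ∉ S)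
    (h : con (rst ω S) v v') : gg ω S a v = gg ω S a v' := by
  unfold gg
  rw [if_neg hv, if_neg hv', P_congr h]

theorem exists_P {ω : Finset (Sym2 V)} {S : Set V} {v y : V} (q : (gr ω).Walk v y) (hv : v ∉ S)
    (hy : y ∈ S) : ∃ z, P ω S v z := by
  induction q with
  | nil => exact absurd hy hv
  | @cons v u y hadj q ih =>
    have h1 := (gr_adj.1 hadj).1
    by_cases hu : u ∈ S
    · exact ⟨u, hu, v, hv, con_refl _ _, h1⟩
    · obtain ⟨z, hz⟩ := ih hu hy
      refine ⟨z, ?_⟩
      have h2 : s(v, u) ∈ rst ω S := by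
        rw [mem_rst]
        refine ⟨h1, ?_⟩
        intro x hx
        rcases Sym2.mem_iff.1 hx with rfl | rfl
        · exact hv
        · exact hu
      rw [P_congr (con_of_mem h2)]
      exact hz

theorem con_II {ω : Finset (Sym2 V)} {S : Set V} {a z c d : V} (q : (gr (rst ω S)).Walk c d)
    (hc : c ∉ S) (hz : gg ω S a c = z) : con (II ω S a z) c d := by
  induction q with
  | nil => exact con_refl _ _
  | @cons c u d hadj q ih =>
    have h1 := (gr_adj.1 hadj).1
    obtain ⟨h2, h3⟩ := mem_rst.1 h1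
    have hu : u ∉ S := h3 u (Sym2.mem_mk_right c u)
    have h4 : gg ω S a u = z := by
      rw [← hz]
      exact (gg_congr hc hu (con_of_mem h1)).symm
    have h5 : s(c, u) ∈ II ω S a z := mem_II.2 ⟨h2, c, Sym2.mem_mk_left c u, hc, hz⟩
    exact con_trans (con_of_mem h5) (ih hu h4)

end Hang

open Hang in
theorem hHang : StHang := by
  classical
  intro V _ ω a w haw
  obtain ⟨γ, hγ⟩ := SimpleGraph.Reachable.exists_isPath haw
  set S : Set V := {v | v ∈ γ.support} with hS
  refine ⟨γ, gg ω S a, II ω S a, hγ, fun z e he => (mem_II.1 he).1, ?_, ?_, ?_, ?_⟩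
  · intro z z' hzz'
    rw [Finset.disjoint_left]
    intro e he he'
    obtain ⟨he1, x, hx, hxS, hgx⟩ := mem_II.1 he
    obtain ⟨-, x', hx', hxS', hgx'⟩ := mem_II.1 he'
    apply hzz'
    by_cases hxx : x = x'
    · rw [← hgx, ← hgx', hxx]
    · have h1 : e = s(x, x') := (Sym2.mem_and_mem_iff hxx).1 ⟨hx, hx'⟩
      have h2 : s(x, x') ∈ rst ω S := by
        rw [mem_rst]
        refine ⟨h1 ▸ he1, ?_⟩
        intro y hy
        rcases Sym2.mem_iff.1 hy with rfl | rfl
        · exact hxS
        · exact hxS'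
      rw [← hgx, ← hgx']
      exact gg_congr hxS hxS' (con_of_mem h2)
  · intro z e he he'
    obtain ⟨-, x, hx, hxS, -⟩ := mem_II.1 he'
    apply hxS
    induction e using Sym2.ind with
    | _ c d =>
      rcases Sym2.mem_iff.1 hx with rfl | rfl
      · exact γ.fst_mem_support_of_mem_edges he
      · exact γ.snd_mem_support_of_mem_edges he
  · intro v hv
    unfold gg
    rw [if_pos (show v ∈ S from hv)]
  · intro v hv
    by_cases hvS : v ∈ S
    · have h1 : gg ω S a v = v := by
        unfold gg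
        rw [if_pos hvS]
      rw [h1]
      exact ⟨hvS, con_refl _ _⟩
    · obtain ⟨q⟩ := con_symm hv
      have haS : a ∈ S := γ.start_mem_support
      have h1 : P ω S v (gg ω S a v) := by
        have h2 : gg ω S a v = @Classical.epsilon V ⟨a⟩ (P ω S v) := by
          unfold gg
          rw [if_neg hvS]
        rw [h2]
        exact @Classical.epsilon_spec V (P ω S v) (exists_P q hvS haS)
      obtain ⟨h3, x, hxS, hvx, hxz⟩ := h1
      refine ⟨h3, ?_⟩
      have h4 : gg ω S a x = gg ω S a v := (gg_congr hvS hxS hvx).symm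
      have h5 : s(x, gg ω S a v) ∈ II ω S a (gg ω S a v) :=
        mem_II.2 ⟨hxz, x, Sym2.mem_mk_left _ _, hxS, h4⟩
      obtain ⟨q'⟩ := hvx
      have h6 := con_II (a := a) q' hvS rfl
      exact con_symm (con_trans h6 (con_of_mem h5))

end Pool.CM
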