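import Pool.Agent.Helper22.CM.St
import Pool.Agent.Helper84.LE.BKP

/-! # Project CM: module KpC (sums of kernels) -/

set_option autoImplicit false

open scoped BigOperators ENNReal Topology
open Pool.LE Pool.NL Pool.CL Filter MeasureTheory

namespace Pool.CM

namespace KpC

theorem neg_eq {d : ℕ} {f : Zd d → ℝ} (hf : SymF f) (x : Zd d) : f (-x) = f x := by
  have h := hf (Equiv.refl _) (fun _ => -1) x
  have h2 : sgp (Equiv.refl (Fin d)) (fun _ => (-1 : ℤˣ)) x = -x := by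
    funext i
    simp [sgp]
  rw [h2] at h
  exact h

section

variable {V : Type} [DecidableEq V]

/-- three steps -/
theorem sum3 (K : V → V → ENNReal) (s : Finset V) (x b : V) :
    ∑ w ∈ s, ∑ u ∈ s, K x w * (K w u * K u b) ≤ kp K 3 x b := by
  have h1 : ∑ w ∈ s, ∑ u ∈ s, K x w * (K w u * K u b) ≤ ∑ w ∈ s, K x w * kp K 2 w b := by
    refine Finset.sum_le_sum fun w _ => ?_
    rw [← Finset.mul_sum, kp_two]
    exact mul_le_mul' le_rfl (ENNReal.sum_le_tsum _)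
  exact h1.trans (ENNReal.sum_le_tsum _)

/-- four steps -/
theorem four (K : V → V → ENNReal) (x y : V) (f : V ≃ V) (q B : ℝ) (hq : 0 < q) (hB : 0 ≤ B)
    (hK : kp K 4 x y ≤ ENNReal.ofReal B) (t : V → V → V → ℝ) (ht0 : ∀ a w u, 0 ≤ t a w u)
    (ht : ∀ a w u, ENNReal.ofReal (q * t a w u) ≤ K x w * (K w u * K u (f a)) * K (f a) y)
    (s : Finset V) : ∑ a ∈ s, ∑ w ∈ s, ∑ u ∈ s, t a w u ≤ B / q := by
  rw [le_div_iff₀ hq, mul_comm, Finset.mul_sum]
  refine (ENNReal.ofReal_le_ofReal_iff hB).1 ?_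
  have e0 : ∀ a, q * ∑ w ∈ s, ∑ u ∈ s, t a w u = ∑ w ∈ s, ∑ u ∈ s, q * t a w u := by
    intro a
    rw [Finset.mul_sum]
    exact Finset.sum_congr rfl fun w _ => Finset.mul_sum _ _ _
  have hn : ∀ a w u, 0 ≤ q * t a w u := fun a w u => mul_nonneg hq.le (ht0 a w u)
  rw [Finset.sum_congr rfl fun a _ => e0 a, ENNReal.ofReal_sum_of_nonneg (fun a _ =>
    Finset.sum_nonneg fun w _ => Finset.sum_nonneg fun u _ => hn a w u)]
  have e1 : ∀ a, ENNReal.ofReal (∑ w ∈ s, ∑ u ∈ s, q * t a w u) ≤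
      kp K 3 x (f a) * K (f a) y := by
    intro a
    rw [ENNReal.ofReal_sum_of_nonneg (fun w _ => Finset.sum_nonneg fun u _ => hn a w u)]
    have e2 : ∑ w ∈ s, ENNReal.ofReal (∑ u ∈ s, q * t a w u) ≤
        ∑ w ∈ s, ∑ u ∈ s, K x w * (K w u * K u (f a)) * K (f a) y := by
      refine Finset.sum_le_sum fun w _ => ?_
      rw [ENNReal.ofReal_sum_of_nonneg (fun u _ => hn a w u)]
      exact Finset.sum_le_sum fun u _ => ht a w u
    refine e2.trans ?_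
    have e3 : ∑ w ∈ s, ∑ u ∈ s, K x w * (K w u * K u (f a)) * K (f a) y =
        (∑ w ∈ s, ∑ u ∈ s, K x w * (K w u * K u (f a))) * K (f a) y := by
      rw [Finset.sum_mul]
      exact Finset.sum_congr rfl fun w _ => (Finset.sum_mul _ _ _).symm
    rw [e3]
    exact mul_le_mul' (sum3 K s x (f a)) le_rfl
  refine (Finset.sum_le_sum fun a _ => e1 a).trans ((ENNReal.sum_le_tsum _).trans ?_)
  have e4 : ∑' a, kp K 3 x (f a) * K (f a) y = ∑' b, kp K 3 x b * K b y :=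
    f.tsum_eq (fun b => kp K 3 x b * K b y)
  rw [e4]
  have e5 : ∑' b, kp K 3 x b * K b y = kp K 4 x y := by
    rw [show (4 : ℕ) = 3 + 1 from rfl, kp_add, kp_one]
    rfl
  rw [e5]
  exact hK

/-- products of powers -/
theorem prod (T : V → V → ENNReal) (hs : ∀ x y, T x y = T y x) (h1 : ∀ x, 1 ≤ T x x) (B : ℝ)
    (hB : 0 ≤ B) (hT : ∀ x y, kp T 8 x y ≤ ENNReal.ofReal B) (s : Finset V) (i j : ℕ)
    (hij : i + j ≤ 8) (a b : V) (f g : V → ℝ) (hf : ∀ w, 0 ≤ f w) (hg : ∀ w, 0 ≤ g w)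
    (hfi : ∀ w, ENNReal.ofReal (f w) ≤ kp T i a w) (hgj : ∀ w, ENNReal.ofReal (g w) ≤ kp T j b w) :
    ∑ w ∈ s, f w * g w ≤ B := by
  refine (ENNReal.ofReal_le_ofReal_iff hB).1 ?_
  rw [ENNReal.ofReal_sum_of_nonneg (fun w _ => mul_nonneg (hf w) (hg w))]
  have e1 : ∑ w ∈ s, ENNReal.ofReal (f w * g w) ≤ ∑ w ∈ s, kp T i a w * kp T j w b := by
    refine Finset.sum_le_sum fun w _ => ?_
    rw [ENNReal.ofReal_mul (hf w), kp_symm hs j w b]
    exact mul_le_mul' (hfi w) (hgj w)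
  refine e1.trans ((ENNReal.sum_le_tsum _).trans ?_)
  have e2 : ∑' w, kp T i a w * kp T j w b = kp T (i + j) a b := by
    rw [kp_add]
    rfl
  rw [e2]
  exact (kp_le_kp h1 hij a b).trans (hT a b)

end

end KpC

open KpC in
theorem hKpC (hCT : StCpTau) (hTB : Pool.LE.StTauBasic) (hQ : Pool.LE.StQw) (hBn : StBn) :
    StKpC := by
  classical
  intro d C₁ B c₀ CL hE n hn
  have hV := hE.env
  have hp0 : 0 ≤ pH d := hV.p0.le
  have hp1 : pH d ≤ 1 := by linarith [hV.p1]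
  obtain ⟨ht1, ht0, hts, hto, htr⟩ := hTB d (pH d) hp0 hp1
  obtain ⟨hq2, hqm, hqn, -⟩ := hQ d
  have hB0 : 0 ≤ B := by linarith [hV.hB]
  obtain ⟨c, hc⟩ : ∃ c, c = G0 d n := ⟨_, rfl⟩
  rw [← hc]
  have hcp : ∀ x y, c x y = cp (ES (Bn d n)) (pH d) x y := fun x y => by rw [hc]; rfl
  have hc0 : ∀ x y, 0 ≤ c x y := by
    intro x y
    rw [hcp]
    show 0 ≤ Ex _ _ _
    unfold Ex
    refine Finset.sum_nonneg fun ω _ => ?_
    rw [smul_eq_mul]
    refine mul_nonneg ?_ ?_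
    · unfold wt
      exact mul_nonneg (pow_nonneg hp0 _) (pow_nonneg (by linarith) _)
    · show 0 ≤ ind (con ω x y)
      unfold ind
      split_ifs <;> norm_num
  have hi0 : ∀ A : Prop, 0 ≤ ind A := by
    intro A
    unfold ind
    split_ifs <;> norm_num
  have hi1 : ∀ A : Prop, ind A ≤ 1 := by
    intro A
    unfold ind
    split_ifs <;> norm_num
  -- the kernels
  have hts' : ∀ x, tauE d (pH d) (-x) = tauE d (pH d) x := by
    intro x
    rw [← hto, ← hto, neg_eq hts]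
  have hcT : ∀ x y, ENNReal.ofReal (c x y) ≤ tauE d (pH d) (y - x) := by
    intro x y
    rw [← hto, hcp]
    exact ENNReal.ofReal_le_ofReal (hCT d n (pH d) x y hp0 hp1)
  have hcT' : ∀ x y, ENNReal.ofReal (c x y) ≤ tauE d (pH d) (x - y) := by
    intro x y
    rw [← neg_sub y x, hts']
    exact hcT x y
  -- the general estimate of one term
  have hterm : ∀ (v m₁ m₂ m₃ m₄ : Zd d) (i g₁ g₂ g₃ g₄ : ℝ), 0 ≤ i → i ≤ 1 → 0 ≤ g₁ → 0 ≤ g₂ →
      0 ≤ g₃ → 0 ≤ g₄ → Qw v = Qw (m₁ + (m₂ + (m₃ + m₄))) →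
      ENNReal.ofReal g₁ ≤ tauE d (pH d) m₁ → ENNReal.ofReal g₂ ≤ tauE d (pH d) m₂ →
      ENNReal.ofReal g₃ ≤ tauE d (pH d) m₃ → ENNReal.ofReal g₄ ≤ tauE d (pH d) m₄ →
      ENNReal.ofReal (Qw v * (i * (g₁ * (g₂ * (g₃ * g₄))))) ≤
        (ENNReal.ofReal (Qw m₁) * tauE d (pH d) m₁) * ((ENNReal.ofReal (Qw m₂) * tauE d (pH d) m₂) *
          (ENNReal.ofReal (Qw m₃) * tauE d (pH d) m₃)) * (ENNReal.ofReal (Qw m₄) * tauE d (pH d) m₄) := by
    intro v m₁ m₂ m₃ m₄ i g₁ g₂ g₃ g₄ hi hi' h1 h2 h3 h4 hv k1 k2 k3 k4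
    have q1 : 0 ≤ Qw m₁ := by linarith [hq2 m₁]
    have q2 : 0 ≤ Qw m₂ := by linarith [hq2 m₂]
    have q3 : 0 ≤ Qw m₃ := by linarith [hq2 m₃]
    have q4 : 0 ≤ Qw m₄ := by linarith [hq2 m₄]
    have hg : 0 ≤ g₁ * (g₂ * (g₃ * g₄)) := mul_nonneg h1 (mul_nonneg h2 (mul_nonneg h3 h4))
    have e1 : Qw v ≤ Qw m₁ * (Qw m₂ * (Qw m₃ * Qw m₄)) := by
      rw [hv]
      exact (hqm _ _).trans (mul_le_mul_of_nonneg_left ((hqm _ _).trans
        (mul_le_mul_of_nonneg_left (hqm _ _) q2)) q1)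
    have e2 : Qw v * (i * (g₁ * (g₂ * (g₃ * g₄)))) ≤
        (Qw m₁ * g₁) * ((Qw m₂ * g₂) * (Qw m₃ * g₃)) * (Qw m₄ * g₄) := by
      calc Qw v * (i * (g₁ * (g₂ * (g₃ * g₄))))
          ≤ Qw v * (1 * (g₁ * (g₂ * (g₃ * g₄)))) :=
            mul_le_mul_of_nonneg_left (mul_le_mul_of_nonneg_right hi' hg) (by linarith [hq2 v])
        _ ≤ (Qw m₁ * (Qw m₂ * (Qw m₃ * Qw m₄))) * (1 * (g₁ * (g₂ * (g₃ * g₄)))) :=
            mul_le_mul_of_nonneg_right e1 (by rw [one_mul]; exact hg)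
        _ = _ := by ring
    refine (ENNReal.ofReal_le_ofReal e2).trans ?_
    rw [ENNReal.ofReal_mul (mul_nonneg (mul_nonneg q1 h1)
      (mul_nonneg (mul_nonneg q2 h2) (mul_nonneg q3 h3))), ENNReal.ofReal_mul (mul_nonneg q1 h1),
      ENNReal.ofReal_mul (mul_nonneg q2 h2), ENNReal.ofReal_mul q1, ENNReal.ofReal_mul q2,
      ENNReal.ofReal_mul q3, ENNReal.ofReal_mul q4]
    exact mul_le_mul' (mul_le_mul' (mul_le_mul' le_rfl k1) (mul_le_mul' (mul_le_mul' le_rfl k2)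
      (mul_le_mul' le_rfl k3))) (mul_le_mul' le_rfl k4)
  refine ⟨?_, ?_, ?_⟩
  · intro v z _
    refine four (Kd d (pH d)) z (z + v) (Equiv.addRight v) (Qw v) B (by linarith [hq2 v]) hB0
      (hV.A2 _ _) (fun a w u => ind (a + v ∈ Bn d n) *
        (c a z * c z w * (c (a + v) u * c u w))) ?_ ?_ (Bn d n)
    · intro a w u
      exact mul_nonneg (hi0 _) (mul_nonneg (mul_nonneg (hc0 _ _) (hc0 _ _))
        (mul_nonneg (hc0 _ _) (hc0 _ _)))
    · intro a w u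
      have h := hterm v (w - z) (u - w) (a + v - u) (z + v - (a + v)) (ind (a + v ∈ Bn d n))
        (c z w) (c u w) (c (a + v) u) (c a z) (hi0 _) (hi1 _) (hc0 _ _) (hc0 _ _) (hc0 _ _)
        (hc0 _ _) (by congr 1; abel) (hcT _ _) (hcT' _ _) (hcT' _ _)
        (by rw [show z + v - (a + v) = z - a by abel]; exact hcT _ _)
      refine le_trans (le_of_eq ?_) h
      congr 1
      ring
  · intro v z' _
    refine four (Kd d (pH d)) z' (z' - v) (Equiv.refl _) (Qw v) B (by linarith [hq2 v]) hB0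
      (hV.A2 _ _) (fun a w u => ind (a + v ∈ Bn d n) *
        (c a u * c u w * (c (a + v) z' * c z' w))) ?_ ?_ (Bn d n)
    · intro a w u
      exact mul_nonneg (hi0 _) (mul_nonneg (mul_nonneg (hc0 _ _) (hc0 _ _))
        (mul_nonneg (hc0 _ _) (hc0 _ _)))
    · intro a w u
      have h := hterm v (w - z') (u - w) (a - u) (z' - v - a) (ind (a + v ∈ Bn d n))
        (c z' w) (c u w) (c a u) (c (a + v) z') (hi0 _) (hi1 _) (hc0 _ _) (hc0 _ _) (hc0 _ _)
        (hc0 _ _) (by rw [← hqn v]; congr 1; abel) (hcT _ _) (hcT' _ _) (hcT' _ _)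
        (by rw [show z' - v - a = z' - (a + v) by abel]; exact hcT _ _)
      refine le_trans (le_of_eq ?_) h
      congr 1
      ring
  · intro a _ b _
    have hTs : ∀ x y, tk d (pH d) x y = tk d (pH d) y x := by
      intro x y
      show tauE d (pH d) (y - x) = tauE d (pH d) (x - y)
      rw [← neg_sub x y, hts']
    have hT1 : ∀ x : Zd d, 1 ≤ tk d (pH d) x x := by
      intro x
      show 1 ≤ tauE d (pH d) (x - x)
      rw [sub_self, ht0]
    have h2 : ∀ x w, ENNReal.ofReal (c2 d n x w) ≤ kp (tk d (pH d)) 2 x w := by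
      intro x w
      unfold c2
      rw [← hc, ENNReal.ofReal_sum_of_nonneg (fun z _ => mul_nonneg (hc0 _ _) (hc0 _ _)), kp_two]
      refine le_trans (Finset.sum_le_sum fun z _ => ?_) (ENNReal.sum_le_tsum (Bn d n))
      rw [ENNReal.ofReal_mul (hc0 _ _)]
      exact mul_le_mul' (hcT x z) (hcT z w)
    have h3 : ∀ x w, ENNReal.ofReal (c3 d n x w) ≤ kp (tk d (pH d)) 3 x w := by
      intro x w
      unfold c3
      rw [← hc, ENNReal.ofReal_sum_of_nonneg (fun z _ => Finset.sum_nonneg fun z' _ =>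
        mul_nonneg (mul_nonneg (hc0 _ _) (hc0 _ _)) (hc0 _ _))]
      refine le_trans (Finset.sum_le_sum fun z _ => ?_) (sum3 _ (Bn d n) x w)
      rw [ENNReal.ofReal_sum_of_nonneg (fun z' _ =>
        mul_nonneg (mul_nonneg (hc0 _ _) (hc0 _ _)) (hc0 _ _))]
      refine Finset.sum_le_sum fun z' _ => ?_
      rw [mul_assoc, ENNReal.ofReal_mul (hc0 _ _), ENNReal.ofReal_mul (hc0 _ _)]
      exact mul_le_mul' (hcT x z) (mul_le_mul' (hcT z z') (hcT z' w))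
    have n2 : ∀ x w, 0 ≤ c2 d n x w := by
      intro x w
      unfold c2
      rw [← hc]
      exact Finset.sum_nonneg fun z _ => mul_nonneg (hc0 _ _) (hc0 _ _)
    have n3 : ∀ x w, 0 ≤ c3 d n x w := by
      intro x w
      unfold c3
      rw [← hc]
      exact Finset.sum_nonneg fun z _ => Finset.sum_nonneg fun z' _ =>
        mul_nonneg (mul_nonneg (hc0 _ _) (hc0 _ _)) (hc0 _ _)
    refine ⟨?_, ?_, ?_⟩
    · exact prod _ hTs hT1 B hB0 hE.kp8 (Bn d n) 2 2 (by norm_num) a b _ _ (n2 a) (n2 b)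
        (h2 a) (h2 b)
    · exact prod _ hTs hT1 B hB0 hE.kp8 (Bn d n) 2 3 (by norm_num) a b _ _ (n2 a) (n3 b)
        (h2 a) (h3 b)
    · exact prod _ hTs hT1 B hB0 hE.kp8 (Bn d n) 3 3 (by norm_num) a b _ _ (n3 a) (n3 b)
        (h3 a) (h3 b)

end Pool.CM
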