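import Pool.Agent.Helper22.CM.XA
import Pool.Agent.Helper84.LE.BKP

/-! # Project CM: module LocCS (local comparison) -/

set_option autoImplicit false

open scoped BigOperators ENNReal Topology
open Pool.LE Pool.NL Pool.CL Filter MeasureTheory

namespace Pool.CM
namespace LocCS

variable {V : Type} [DecidableEq V]

/-- three disjoint pieces, the last one is large -/
def Az (A : Finset V) (M : ℕ) (a w z : V) (ω : Finset (Sym2 V)) : Prop :=
  ∃ I₁ I₂ I₃ : Finset (Sym2 V), I₁ ⊆ ω ∧ I₂ ⊆ ω ∧ I₃ ⊆ ω ∧ Disjoint I₁ I₂ ∧ Disjoint I₁ I₃ ∧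
    Disjoint I₂ I₃ ∧ con I₁ a z ∧ con I₂ z w ∧ M ≤ Xc A I₃ z

/-- two hanging connections -/
def D5 (a w z z' y y' : V) (ω : Finset (Sym2 V)) : Prop :=
  DR [(a, [], z), (z, [], z'), (z', [], w), (z, [], y), (z', [], y')] ω

theorem ind_mono {P Q : Prop} (h : P → Q) : ind P ≤ ind Q := by
  by_cases hp : P
  · have hq := h hp
    simp [ind, hp, hq]
  · have : ind P = 0 := by simp [ind, hp]
    rw [this]
    exact Basic.ind_nonneg _

theorem ind_t {P : Prop} (h : P) : ind P = 1 := by simp [ind, h]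

theorem ind_f {P : Prop} (h : ¬ P) : ind P = 0 := by simp [ind, h]

theorem ex_Az (hF : StFBK3) (A : Finset V) (E : Finset (Sym2 V)) {p : ℝ} (h0 : 0 ≤ p) (h1 : p ≤ 1)
    (M : ℕ) (a w z : V) : ex E p (fun ω => ind (Az A M a w z ω)) ≤
      cp E p a z * (cp E p z w * pr E p (fun ω => M ≤ Xc A ω z)) := by
  refine hF V E p h0 h1 (fun I => ind (con I a z)) (fun I => ind (con I z w))
    (fun I => ind (M ≤ Xc A I z)) _ (fun _ => Basic.ind_nonneg _) (fun _ => Basic.ind_nonneg _)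
    (fun _ => Basic.ind_nonneg _) (fun ω ω' h => ind_mono fun hc => con_mono h hc)
    (fun ω ω' h => ind_mono fun hc => con_mono h hc)
    (fun ω ω' h => ind_mono fun hc => le_trans hc (XA.xc_mono A h z)) fun ω _ => ?_
  by_cases hA : Az A M a w z ω
  · obtain ⟨I₁, I₂, I₃, b1, b2, b3, b4, b5, b6, b7, b8, b9⟩ := hA
    refine ⟨I₁, I₂, I₃, b1, b2, b3, b4, b5, b6, ?_⟩
    rw [ind_t b7, ind_t b8, ind_t b9]
    have := Basic.ind_le_one (Az A M a w z ω)
    linarith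
  · refine ⟨∅, ∅, ∅, Finset.empty_subset _, Finset.empty_subset _, Finset.empty_subset _,
      Finset.disjoint_empty_left _, Finset.disjoint_empty_left _, Finset.disjoint_empty_left _, ?_⟩
    rw [ind_f hA]
    exact mul_nonneg (Basic.ind_nonneg _) (mul_nonneg (Basic.ind_nonneg _) (Basic.ind_nonneg _))

theorem pr_D5 (hB : StBasic) (hDR : Pool.LE.StDRBK) (E : Finset (Sym2 V)) {p : ℝ} (h0 : 0 ≤ p)
    (h1 : p ≤ 1 / 2) (a w z z' y y' : V) : ex E p (fun ω => ind (D5 a w z z' y y' ω)) ≤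
      cp E p a z * cp E p z z' * cp E p z' w * (cp E p z y * cp E p z' y') := by
  have hp1 : p ≤ 1 := by linarith
  obtain ⟨-, -, -, -, -, -, hpr, -, -, -⟩ := hB V E p h0 hp1
  have hcp0 : ∀ x y, 0 ≤ cp E p x y := fun x y => (hpr _).1
  have hT : ∀ x y, Pr E p (fun ω => con ω x y) = ENNReal.ofReal (cp E p x y) :=
    fun x y => (hpr _).2.2.1
  have h2 := hDR V E p (fun x y => Pr E p (fun ω => con ω x y)) h0 h1 (fun x y => le_rfl)
    [(a, [], z), (z, [], z'), (z', [], w), (z, [], y), (z', [], y')]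
  have h3 : cmL (fun x y => Pr E p (fun ω => con ω x y))
      [(a, [], z), (z, [], z'), (z', [], w), (z, [], y), (z', [], y')] =
      ENNReal.ofReal (cp E p a z * cp E p z z' * cp E p z' w * (cp E p z y * cp E p z' y')) := by
    simp only [cmL, List.map_cons, List.map_nil, List.prod_cons, List.prod_nil, cm_nil,
      hT, mul_one]
    rw [← ENNReal.ofReal_mul (hcp0 _ _), ← ENNReal.ofReal_mul (hcp0 _ _),
      ← ENNReal.ofReal_mul (hcp0 _ _), ← ENNReal.ofReal_mul (hcp0 _ _)]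
    congr 1
    ring
  rw [h3, (hpr _).2.2.1] at h2
  exact (ENNReal.ofReal_le_ofReal_iff (mul_nonneg (mul_nonneg (mul_nonneg (hcp0 _ _) (hcp0 _ _))
    (hcp0 _ _)) (mul_nonneg (hcp0 _ _) (hcp0 _ _)))).1 h2

/-- the pointwise bound -/
theorem point (hP : StPath) (L A : Finset V) (hA : A ⊆ L) (ω : Finset (Sym2 V)) (a w : V)
    (hin : ∀ y, con ω a y → y ∈ L) (M m : ℕ) (hm : 1 ≤ m) (hM : m ≤ M) :
    ind (M ≤ Xc A ω a ∧ con ω a w) ≤ ∑ z ∈ L, ind (Az A (M - m) a w z ω) +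
      2 / ((M : ℝ) * m) * ∑ z ∈ L, ∑ z' ∈ L, ∑ y ∈ A, ∑ y' ∈ A, ind (D5 a w z z' y y' ω) := by
  classical
  have hm0 : (0 : ℝ) < m := by exact_mod_cast hm
  have hM0 : (0 : ℝ) < M := by exact_mod_cast (lt_of_lt_of_le hm hM)
  have n1 : 0 ≤ ∑ z ∈ L, ind (Az A (M - m) a w z ω) :=
    Finset.sum_nonneg fun _ _ => Basic.ind_nonneg _
  have n2 : 0 ≤ ∑ z ∈ L, ∑ z' ∈ L, ∑ y ∈ A, ∑ y' ∈ A, ind (D5 a w z z' y y' ω) :=
    Finset.sum_nonneg fun _ _ => Finset.sum_nonneg fun _ _ => Finset.sum_nonneg fun _ _ =>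
      Finset.sum_nonneg fun _ _ => Basic.ind_nonneg _
  have n3 : 0 ≤ 2 / ((M : ℝ) * m) * ∑ z ∈ L, ∑ z' ∈ L, ∑ y ∈ A, ∑ y' ∈ A,
      ind (D5 a w z z' y y' ω) := mul_nonneg (by positivity) n2
  by_cases hc : M ≤ Xc A ω a ∧ con ω a w
  swap
  · rw [ind_f hc]
    linarith
  obtain ⟨hX, hcon⟩ := hc
  obtain ⟨g, g1, g2, g3⟩ := hP V A ω a w hcon
  rw [ind_t ⟨hX, hcon⟩]
  by_cases hcase : ∃ y ∈ clu A ω a, M - m ≤ ((clu A ω a).filter (fun y' => g y' = g y)).card
  · obtain ⟨y, hy, hT⟩ := hcase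
    have hy2 := (mem_Clu.1 hy).2
    obtain ⟨I₁, I₂, I₃, b1, b2, b3, b4, b5, b6, b7, b8, b9⟩ := g2 y hy2
    have hAz : Az A (M - m) a w (g y) ω :=
      ⟨I₁, I₂, I₃, b1, b2, b3, b4, b5, b6, b7, b8, hT.trans b9⟩
    have h1 := Finset.single_le_sum (f := fun z => ind (Az A (M - m) a w z ω))
      (fun _ _ => Basic.ind_nonneg _) (hin _ (g1 y hy2))
    have h2 : ind (Az A (M - m) a w (g y) ω) = 1 := ind_t hAz
    linarith
  · push_neg at hcase
    set C := clu A ω a with hC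
    have hCA : ∀ y ∈ C, y ∈ A ∧ con ω a y := fun y hy => mem_Clu.1 hy
    have hXC : C.card = Xc A ω a := rfl
    -- many pairs
    have e1 : ∀ y ∈ C, (m : ℝ) ≤ ∑ y' ∈ C, ind (g y ≠ g y') := by
      intro y hy
      have h1 := hcase y hy
      have h2 := Finset.card_filter_add_card_filter_not (s := C) (fun y' => g y' = g y)
      have h3 : m ≤ (C.filter (fun y' => ¬ g y' = g y)).card := by omega
      have h4 : ∑ y' ∈ C, ind (g y ≠ g y') = ((C.filter (fun y' => ¬ g y' = g y)).card : ℝ) := by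
        rw [Finset.card_filter, Nat.cast_sum]
        refine Finset.sum_congr rfl fun y' _ => ?_
        by_cases h : g y' = g y
        · simp [ind, h]
        · have h' : g y ≠ g y' := fun e => h e.symm
          simp [ind, h, h']
      rw [h4]
      exact_mod_cast h3
    have e2 : (M : ℝ) * m ≤ ∑ y ∈ C, ∑ y' ∈ C, ind (g y ≠ g y') := by
      have h1 := Finset.sum_le_sum e1
      rw [Finset.sum_const, nsmul_eq_mul] at h1
      refine le_trans ?_ h1
      refine mul_le_mul_of_nonneg_right ?_ hm0.le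
      rw [hXC]
      exact_mod_cast hX
    have e3 : ∑ y ∈ C, ∑ y' ∈ C, ind (g y ≠ g y') ≤
        ∑ y ∈ C, ∑ y' ∈ C, (ind (D5 a w (g y) (g y') y y' ω) +
          ind (D5 a w (g y') (g y) y' y ω)) := by
      refine Finset.sum_le_sum fun y hy => Finset.sum_le_sum fun y' hy' => ?_
      have k1 := Basic.ind_nonneg (D5 a w (g y) (g y') y y' ω)
      have k2 := Basic.ind_nonneg (D5 a w (g y') (g y) y' y ω)
      by_cases h : g y ≠ g y'
      · rcases g3 y y' (hCA y hy).2 (hCA y' hy').2 h with h5 | h5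
        · have h6 : ind (D5 a w (g y) (g y') y y' ω) = 1 := ind_t h5
          rw [ind_t h]
          linarith
        · have h6 : ind (D5 a w (g y') (g y) y' y ω) = 1 := ind_t h5
          rw [ind_t h]
          linarith
      · rw [ind_f h]
        linarith
    have e4 : ∑ y ∈ C, ∑ y' ∈ C, (ind (D5 a w (g y) (g y') y y' ω) +
          ind (D5 a w (g y') (g y) y' y ω)) =
        2 * ∑ y ∈ C, ∑ y' ∈ C, ind (D5 a w (g y) (g y') y y' ω) := by
      have h1 : ∑ y ∈ C, ∑ y' ∈ C, ind (D5 a w (g y') (g y) y' y ω) =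
          ∑ y ∈ C, ∑ y' ∈ C, ind (D5 a w (g y) (g y') y y' ω) := Finset.sum_comm
      simp only [Finset.sum_add_distrib]
      rw [h1]
      ring
    have e5 : ∑ y ∈ C, ∑ y' ∈ C, ind (D5 a w (g y) (g y') y y' ω) ≤
        ∑ y ∈ C, ∑ y' ∈ C, ∑ z ∈ L, ∑ z' ∈ L, ind (D5 a w z z' y y' ω) := by
      refine Finset.sum_le_sum fun y hy => Finset.sum_le_sum fun y' hy' => ?_
      have hz : g y ∈ L := hin _ (g1 y (hCA y hy).2)
      have hz' : g y' ∈ L := hin _ (g1 y' (hCA y' hy').2)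
      refine le_trans ?_ (Finset.single_le_sum
        (f := fun z => ∑ z' ∈ L, ind (D5 a w z z' y y' ω))
        (fun _ _ => Finset.sum_nonneg fun _ _ => Basic.ind_nonneg _) hz)
      exact Finset.single_le_sum (f := fun z' => ind (D5 a w (g y) z' y y' ω))
        (fun _ _ => Basic.ind_nonneg _) hz'
    have hCsub : C ⊆ A := fun y hy => (hCA y hy).1
    have e6 : ∑ y ∈ C, ∑ y' ∈ C, ∑ z ∈ L, ∑ z' ∈ L, ind (D5 a w z z' y y' ω) ≤
        ∑ y ∈ A, ∑ y' ∈ A, ∑ z ∈ L, ∑ z' ∈ L, ind (D5 a w z z' y y' ω) := by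
      refine le_trans (Finset.sum_le_sum fun y _ => Finset.sum_le_sum_of_subset_of_nonneg hCsub
        fun _ _ _ => Finset.sum_nonneg fun _ _ => Finset.sum_nonneg fun _ _ =>
          Basic.ind_nonneg _) ?_
      exact Finset.sum_le_sum_of_subset_of_nonneg hCsub
        fun _ _ _ => Finset.sum_nonneg fun _ _ => Finset.sum_nonneg fun _ _ =>
          Finset.sum_nonneg fun _ _ => Basic.ind_nonneg _
    have e7 : ∑ y ∈ A, ∑ y' ∈ A, ∑ z ∈ L, ∑ z' ∈ L, ind (D5 a w z z' y y' ω) =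
        ∑ z ∈ L, ∑ z' ∈ L, ∑ y ∈ A, ∑ y' ∈ A, ind (D5 a w z z' y y' ω) := by
      have h1 : ∀ y : V, ∑ y' ∈ A, ∑ z ∈ L, ∑ z' ∈ L, ind (D5 a w z z' y y' ω) =
          ∑ z ∈ L, ∑ z' ∈ L, ∑ y' ∈ A, ind (D5 a w z z' y y' ω) := by
        intro y
        rw [Finset.sum_comm]
        refine Finset.sum_congr rfl fun z _ => ?_
        rw [Finset.sum_comm]
      simp only [h1]
      rw [Finset.sum_comm]
      refine Finset.sum_congr rfl fun z _ => ?_
      rw [Finset.sum_comm]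
    have e8 : (M : ℝ) * m ≤ 2 * ∑ z ∈ L, ∑ z' ∈ L, ∑ y ∈ A, ∑ y' ∈ A,
        ind (D5 a w z z' y y' ω) := by
      rw [← e7]
      linarith
    have e9 : 1 ≤ 2 / ((M : ℝ) * m) * ∑ z ∈ L, ∑ z' ∈ L, ∑ y ∈ A, ∑ y' ∈ A,
        ind (D5 a w z z' y y' ω) := by
      rw [div_mul_eq_mul_div, le_div_iff₀ (mul_pos hM0 hm0), one_mul]
      exact e8
    linarith

end LocCS

open LocCS in
theorem hLocCS (hB : StBasic) (hF : StFBK3) (hP : StPath) (hDR : Pool.LE.StDRBK) (hC : StClu) :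
    StLocCS := by
  classical
  intro V _ L A E D p hG hA h0 h1 M m hm hM a ha w hw
  have hp1 : p ≤ 1 := by linarith
  have hM0 : (0 : ℝ) ≤ 2 / ((M : ℝ) * m) := by positivity
  have e1 : GG2 A E p M a w ≤ ex E p (fun ω => ∑ z ∈ L, ind (Az A (M - m) a w z ω) +
      2 / ((M : ℝ) * m) * ∑ z ∈ L, ∑ z' ∈ L, ∑ y ∈ A, ∑ y' ∈ A,
        ind (D5 a w z z' y y' ω)) := by
    refine Basic.ex_mono h0 hp1 fun ω hω => ?_
    exact point hP L A hA ω a w (fun y hy => (hC V L E ω D hG hω).2.2.2.1 a y ha hy) M m hm hM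
  refine e1.trans ?_
  rw [Basic.ex_add, Basic.ex_mul]
  refine add_le_add ?_ (mul_le_mul_of_nonneg_left ?_ hM0)
  · rw [Basic.ex_sum]
    exact Finset.sum_le_sum fun z _ => ex_Az hF A E h0 hp1 (M - m) a w z
  · rw [Basic.ex_sum]
    refine Finset.sum_le_sum fun z _ => ?_
    rw [Basic.ex_sum]
    refine Finset.sum_le_sum fun z' _ => ?_
    rw [Basic.ex_sum]
    have e2 : ∀ y ∈ A, ex E p (fun ω => ∑ y' ∈ A, ind (D5 a w z z' y y' ω)) ≤
        ∑ y' ∈ A, cp E p a z * cp E p z z' * cp E p z' w * (cp E p z y * cp E p z' y') := by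
      intro y _
      rw [Basic.ex_sum]
      exact Finset.sum_le_sum fun y' _ => pr_D5 hB hDR E h0 h1 a w z z' y y'
    refine (Finset.sum_le_sum e2).trans (le_of_eq ?_)
    unfold hh
    rw [Finset.sum_mul_sum, Finset.mul_sum]
    refine Finset.sum_congr rfl fun y _ => ?_
    rw [Finset.mul_sum]

/-- the source set is the box -/
theorem hLocC_of (h : StLocCS) : StLocC := by
  intro V _ L E D p hG h0 h1 M m hm hM a ha w hw
  exact h V L L E D p hG (Finset.Subset.refl L) h0 h1 M m hm hM a ha w hw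

end Pool.CM
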