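import Pool.Agent.Helper22.CM.St

/-! # Project CM: lower bound for the bridges (module LowJz) -/

set_option autoImplicit false

open scoped BigOperators ENNReal Topology
open Pool.LE Pool.NL Pool.CL Filter MeasureTheory

namespace Pool.CM

namespace LowJz

private theorem sq_e0 {d : ℕ} (hd : 1 ≤ d) (m : ℕ) : LE.sq (e0 m : Zd d) = (m : ℝ) ^ 2 := by
  have h0 : 0 < d := hd
  unfold LE.sq e0
  rw [Finset.sum_eq_single (⟨0, h0⟩ : Fin d)]
  · simp
  · intro i _ hi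
    have : (i : ℕ) ≠ 0 := fun h => hi (Fin.ext h)
    simp [this]
  · intro h
    exact absurd (Finset.mem_univ _) h

private theorem ind_nonneg (A : Prop) : 0 ≤ ind A := by
  classical
  unfold ind
  split_ifs <;> norm_num

private theorem le_Qw {d : ℕ} (hd : 1 ≤ d) (l : ℕ) : 2 * (l : ℝ) ^ 2 ≤ Qw (e0 l : Zd d) := by
  unfold Qw
  rw [sq_e0 hd]
  nlinarith [sq_nonneg (l : ℝ)]

/-- the final arithmetic -/
private theorem arith {N P Q P' J S lr W Cs' Csh Clo B q β : ℝ} {n : ℝ}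
    (_hn : 1 ≤ n) (hN : 0 < N) (hW : 0 < W)
    (hmain : N * (P - Csh * lr / S) - N * (B / q) * Q - Clo * P' ≤ W * J)
    (hP' : P' = N / n ^ 2) (hQ : Q ≤ Cs' * P) (hq : B * Cs' / q ≤ 1 / 2)
    (hBq : 0 ≤ B / q) (hP0 : 0 ≤ P) (hβ : β ≤ P)
    (h1 : Csh * lr / S ≤ β / 8) (h2 : Clo / n ^ 2 ≤ β / 8) :
    1 / (4 * W) * N * P ≤ J := by
  have e1 : (B / q) * Q ≤ 1 / 2 * P := by
    calc (B / q) * Q ≤ (B / q) * (Cs' * P) := mul_le_mul_of_nonneg_left hQ hBq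
      _ = (B * Cs' / q) * P := by ring
      _ ≤ 1 / 2 * P := mul_le_mul_of_nonneg_right hq hP0
  have e2 : Clo * P' = N * (Clo / n ^ 2) := by rw [hP']; ring
  have e3 : N * (P / 4) ≤ W * J := by
    have e4 : P / 4 ≤ (P - Csh * lr / S) - (B / q) * Q - Clo / n ^ 2 := by linarith
    calc N * (P / 4) ≤ N * ((P - Csh * lr / S) - (B / q) * Q - Clo / n ^ 2) :=
          mul_le_mul_of_nonneg_left e4 hN.le
      _ = N * (P - Csh * lr / S) - N * (B / q) * Q - Clo * P' := by rw [e2]; ring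
      _ ≤ W * J := hmain
  have e5 : 1 / (4 * W) * N * P = (N * (P / 4)) / W := by
    field_simp
  rw [e5, div_le_iff₀ hW]
  linarith

end LowJz

open LowJz

theorem hLowJz (hP : StPair3) (hL : StLoss) (hSh : StShiftU) (hSu : StSurgS) (hUk : StUk)
    (hBn : StBn) (hB : StBasic) : StLowJz := by
  intro d C₁ B c₀ CL hE Cs hCs
  obtain ⟨Clo, hClo, hLo⟩ := hL d C₁ B c₀ CL hE
  obtain ⟨Csh, hCsh, hS⟩ := hSh d C₁ B c₀ CL hE
  have hd : 21 ≤ d := hE.env.hd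
  have hd1 : 1 ≤ d := by omega
  have hBB := hE.env.hB
  have hp0 := hE.env.p0
  have hp1 := hE.env.p1
  obtain ⟨l₀, hl₀⟩ := exists_nat_gt (B * Real.exp Cs)
  have hBe : 0 < B * Real.exp Cs := by
    have : 0 < B := by linarith
    positivity
  have hl₀p : (0 : ℝ) < l₀ := hBe.trans hl₀
  have hl1 : 1 ≤ l₀ := by exact_mod_cast hl₀p
  set l : ℕ := l₀ with hl
  have hlr : (1 : ℝ) ≤ l := by exact_mod_cast hl1
  have hQ1 : 2 * (l : ℝ) ^ 2 ≤ Qw (e0 l : Zd d) := le_Qw hd1 l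
  have hQpos : 0 < Qw (e0 l : Zd d) := lt_of_lt_of_le (by positivity) hQ1
  have hq : B * Real.exp Cs / Qw (e0 l : Zd d) ≤ 1 / 2 := by
    rw [div_le_iff₀ hQpos]
    nlinarith
  have hW : 0 < (l : ℝ) * (1 / pH d) ^ l := by positivity
  refine ⟨1 / (4 * ((l : ℝ) * (1 / pH d) ^ l)), by positivity, ?_⟩
  intro β hβ
  -- the choice of `n₀`
  obtain ⟨n₁, hn₁⟩ := exists_nat_gt ((8 * (Csh * (1 + l)) / β) ^ 2)
  obtain ⟨n₂, hn₂⟩ := exists_nat_gt (8 * Clo / β)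
  refine ⟨max 1 (max n₁ n₂), le_max_left _ _, ?_⟩
  intro n k hn hk hβk hQk
  have hn1 : 1 ≤ n := (le_max_left _ _).trans hn
  have hnn₁ : n₁ ≤ n := (le_max_left _ _).trans ((le_max_right _ _).trans hn)
  have hnn₂ : n₂ ≤ n := (le_max_right _ _).trans ((le_max_right _ _).trans hn)
  have hnr : (1 : ℝ) ≤ n := by exact_mod_cast hn1
  have hn0 : (0 : ℝ) < n := by linarith
  have hnr₁ : (n₁ : ℝ) ≤ n := by exact_mod_cast hnn₁
  have hnr₂ : (n₂ : ℝ) ≤ n := by exact_mod_cast hnn₂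
  obtain ⟨hFG, -, -, -, -⟩ := hBn d n
  have hsur := hSu d C₁ B c₀ CL hE n ((k + 1) * n ^ 4) l hn1
  have hlo := hLo n k hn1 hk (e0 l)
  have hsh := hS n (k + 1) l hn1 (by omega)
  -- the pairs
  have hpair : ∀ a ∈ Bn d n, ind (a + e0 l ∈ Bn d n) * (uk d n (k + 1) a * uk d n (k + 1) (a + e0 l)) /
        (n : ℝ) ^ 4 - ind (a + e0 l ∈ Bn d n) *
        ∑ w ∈ Bn d n, gk d n (k + 1) a w * gk d n (k + 1) (a + e0 l) w ≤
      ind (a + e0 l ∈ Bn d n) * pB d n (pH d) (fun ω => (k + 1) * n ^ 4 ≤ XB d n ω a ∧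
        (k + 1) * n ^ 4 ≤ XB d n ω (a + e0 l) ∧ ¬ con ω a (a + e0 l)) := by
    intro a ha
    by_cases hb : a + e0 l ∈ Bn d n
    · have h1 := hP (Zd d) (Bn d n) (ES (Bn d n)) (2 * d) (pH d) hFG hp0.le
        (hp1.trans (by norm_num)) a ha (a + e0 l) hb ((k + 1) * n ^ 4)
      have h2 : ind (a + e0 l ∈ Bn d n) = 1 := by
        unfold ind
        simp [hb]
      rw [h2, one_mul, one_mul, one_mul]
      have h3 : uk d n (k + 1) a * uk d n (k + 1) (a + e0 l) / (n : ℝ) ^ 4 =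
          pr (ES (Bn d n)) (pH d) (fun ω => (k + 1) * n ^ 4 ≤ Xc (Bn d n) ω a) *
          pr (ES (Bn d n)) (pH d) (fun ω => (k + 1) * n ^ 4 ≤ Xc (Bn d n) ω (a + e0 l)) := by
        unfold uk pB XB
        field_simp
      rw [h3]
      exact h1
    · have h2 : ind (a + e0 l ∈ Bn d n) = 0 := by
        unfold ind
        simp [hb]
      rw [h2]
      simp
  have hsum := Finset.sum_le_sum hpair
  rw [Finset.sum_sub_distrib, ← Finset.sum_div] at hsum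
  have hmain : (n : ℝ) ^ (d - 4) * (ph2 d n (k + 1) - Csh * (1 + l) / Real.sqrt n) -
      (n : ℝ) ^ (d - 4) * (B / Qw (e0 l : Zd d)) * ph2 d n k - Clo * (n : ℝ) ^ (d - 6) ≤
      (l : ℝ) * (1 / pH d) ^ l *
        eb d n (fun ω => ((JJ (Bn d n) (ES (Bn d n)) ((k + 1) * n ^ 4) ω).card : ℝ)) := by
    have h1 : (n : ℝ) ^ (d - 4) * (ph2 d n (k + 1) - Csh * (1 + l) / Real.sqrt n) ≤
        (∑ a ∈ Bn d n, ind (a + e0 l ∈ Bn d n) *
          (uk d n (k + 1) a * uk d n (k + 1) (a + e0 l))) / (n : ℝ) ^ 4 := by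
      rw [le_div_iff₀ (by positivity)]
      refine le_trans (le_of_eq ?_) hsh
      have hpow : (n : ℝ) ^ d = (n : ℝ) ^ (d - 4) * (n : ℝ) ^ 4 := by
        rw [← pow_add]
        congr 1
        omega
      rw [hpow]
      ring
    linarith
  refine arith (n := (n : ℝ)) (Q := ph2 d n k) (S := Real.sqrt n) (lr := 1 + l) (Csh := Csh)
    (Clo := Clo) (B := B) (q := Qw (e0 l : Zd d)) (β := β) (Cs' := Real.exp Cs)
    (P' := (n : ℝ) ^ (d - 6)) hnr (by positivity) hW hmain ?_ hQk hq (by positivity)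
    (hβ.le.trans hβk) hβk ?_ ?_
  · rw [eq_div_iff (by positivity), ← pow_add]
    congr 1
    omega
  · have hs0 : 0 < Real.sqrt n := Real.sqrt_pos.2 hn0
    rw [div_le_iff₀ hs0]
    have h3 : 8 * (Csh * (1 + l)) / β ≤ Real.sqrt n := by
      apply Real.le_sqrt_of_sq_le
      exact (hn₁.le.trans hnr₁)
    rw [div_le_iff₀ hβ] at h3
    linarith
  · rw [div_le_iff₀ (by positivity)]
    have h3 : 8 * Clo / β ≤ n := hn₂.le.trans hnr₂
    rw [div_le_iff₀ hβ] at h3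
    have h4 : (n : ℝ) ≤ (n : ℝ) ^ 2 := by nlinarith
    nlinarith

end Pool.CM
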