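import Pool.Agent.Helper22.CM.St

/-!
# Project CM, module LowZ: lower bound for the largest cluster
-/

set_option autoImplicit false

open scoped BigOperators ENNReal Topology
open Pool.LE Pool.NL Pool.CL Filter MeasureTheory

namespace Pool.CM

/-- F32: lower bound for the largest cluster -/
theorem hLowZ (hTra : StTraZ) (hSec : StSec3) (hTail : StTail) (hBn : StBn) (hB : StBasic) :
    StLowZ := by
  intro d C₁ B c₀ CL hE c R hR A hA hAR
  have hp0 : 0 ≤ pH d := hE.env.p0.le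
  have hp1 : pH d ≤ 1 := hE.env.p1.trans (by norm_num)
  set g : ℝ := (d : ℝ) - 6 - A * R with hg
  have hg0 : 0 < g := by rw [hg]; linarith
  have hR0 := hR.pos
  set e1 : ℝ := min (R / 2) (g / (4 * A)) with he1
  have he0 : 0 < e1 := lt_min (by positivity) (by positivity)
  have heR : e1 ≤ R / 2 := min_le_left _ _
  have heA : A * e1 ≤ g / 4 := by
    have h1 : e1 ≤ g / (4 * A) := min_le_right _ _
    calc A * e1 ≤ A * (g / (4 * A)) := mul_le_mul_of_nonneg_left h1 hA.le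
      _ = g / 4 := by field_simp
  set θ : ℝ := R - e1 with hθ
  have hθ0 : 0 ≤ θ := by rw [hθ]; linarith
  obtain ⟨K, hK1, hS⟩ := hR.sub θ hθ0 (by rw [hθ]; linarith)
  have hK0 : 0 < K := by linarith
  obtain ⟨n₀, hn₀, hn⟩ := hTra d C₁ B c₀ CL hE c R hR A (g / 8) hA (by positivity)
  -- the key estimate
  have key : ∀ n : ℕ, n₀ ≤ n → 1 - K * (n : ℝ) ^ (-(g / 2)) ≤
      pB d n (pH d) (fun ω => ∃ x ∈ Bn d n,
        A * (n : ℝ) ^ 4 * Real.log n ≤ XB d n ω x) := by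
    intro n hnn
    obtain ⟨s, hs1, hs2, hs3⟩ := hn n hnn
    have hn1 : 1 ≤ n := hn₀.trans hnn
    have hnR : (0 : ℝ) < n := by exact_mod_cast hn1
    have hn1R : (1 : ℝ) ≤ n := by exact_mod_cast hn1
    obtain ⟨hFG, hcard, -, -, -⟩ := hBn d n
    obtain ⟨-, -, -, -, -, -, hpr, hmono, -, -⟩ := hB (Zd d) (ES (Bn d n)) (pH d) hp0 hp1
    have h1 := hSec (Zd d) (Bn d n) (ES (Bn d n)) (2 * d) (pH d) hFG hp0 hp1 s hs1
    set q := pr (ES (Bn d n)) (pH d) (fun ω => ∀ x ∈ Bn d n, Xc (Bn d n) ω x < s) with hq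
    have hq0 : 0 ≤ q := (hpr _).1
    have hs0 : (0 : ℝ) < s := by exact_mod_cast hs1
    have h2 : ∀ x ∈ Bn d n, ex (ES (Bn d n)) (pH d)
        (fun ω => (Xc (Bn d n) ω x : ℝ) * ind (s ≤ Xc (Bn d n) ω x)) ≤
        K * (n : ℝ) ^ 2 * (n : ℝ) ^ (-(θ * A)) := by
      intro x hx
      have h3 := (hTail d C₁ B c₀ CL hE n θ K hn1 hθ0 (hS n hn1) x hx s hs0).1
      have h4 : eb d n (fun ω => (XB d n ω x : ℝ) * ind ((s : ℝ) ≤ XB d n ω x)) =
          ex (ES (Bn d n)) (pH d)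
            (fun ω => (Xc (Bn d n) ω x : ℝ) * ind (s ≤ Xc (Bn d n) ω x)) := by
        unfold eb XB
        simp only [Nat.cast_le]
      rw [h4] at h3
      refine h3.trans ?_
      refine mul_le_mul_of_nonneg_left ?_ (by positivity)
      rw [Real.rpow_def_of_pos hnR, Real.exp_le_exp]
      have h5 : A * Real.log n ≤ s / (n : ℝ) ^ 4 := by
        rw [le_div_iff₀ (by positivity)]
        linarith
      have h6 := mul_le_mul_of_nonneg_left h5 hθ0
      have e2 : θ * s / (n : ℝ) ^ 4 = θ * (s / (n : ℝ) ^ 4) := by ring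
      rw [e2]
      linarith
    have h3 : ∑ x ∈ Bn d n, ex (ES (Bn d n)) (pH d)
        (fun ω => (Xc (Bn d n) ω x : ℝ) * ind (s ≤ Xc (Bn d n) ω x)) ≤
        K * (n : ℝ) ^ ((d : ℝ) + 2 - θ * A) := by
      refine (Finset.sum_le_sum h2).trans (le_of_eq ?_)
      rw [Finset.sum_const, hcard, nsmul_eq_mul]
      have e3 : ((n ^ d : ℕ) : ℝ) = (n : ℝ) ^ (d : ℝ) := by
        rw [Real.rpow_natCast]; push_cast; ring
      have e4 : (n : ℝ) ^ 2 = (n : ℝ) ^ (2 : ℝ) := by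
        rw [← Real.rpow_natCast]; norm_num
      rw [e3, e4]
      have e5 : (n : ℝ) ^ ((d : ℝ) + 2 - θ * A) =
          (n : ℝ) ^ (d : ℝ) * (n : ℝ) ^ (2 : ℝ) * (n : ℝ) ^ (-(θ * A)) := by
        rw [← Real.rpow_add hnR, ← Real.rpow_add hnR]
        congr 1
      rw [e5]
      ring
    set a : ℝ := (d : ℝ) - 2 - A * R - g / 8 with ha
    have h4 : q * ((n : ℝ) ^ a) ^ 2 ≤ K * (n : ℝ) ^ ((d : ℝ) + 2 - θ * A) := by
      refine le_trans ?_ (h1.trans h3)
      refine mul_le_mul_of_nonneg_left ?_ hq0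
      exact pow_le_pow_left₀ (by positivity) hs3 2
    have h5 : q ≤ K * (n : ℝ) ^ (-(g / 2)) := by
      have e6 : ((n : ℝ) ^ a) ^ 2 * (n : ℝ) ^ (-(2 * a)) = 1 := by
        rw [← Real.rpow_natCast, ← Real.rpow_mul hnR.le, ← Real.rpow_add hnR]
        have : a * ((2 : ℕ) : ℝ) + -(2 * a) = 0 := by push_cast; ring
        rw [this, Real.rpow_zero]
      have h6 : q ≤ K * (n : ℝ) ^ ((d : ℝ) + 2 - θ * A) * (n : ℝ) ^ (-(2 * a)) := by
        calc q = q * ((n : ℝ) ^ a) ^ 2 * (n : ℝ) ^ (-(2 * a)) := by rw [mul_assoc, e6, mul_one]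
          _ ≤ _ := mul_le_mul_of_nonneg_right h4 (by positivity)
      refine h6.trans ?_
      rw [mul_assoc, ← Real.rpow_add hnR]
      refine mul_le_mul_of_nonneg_left ?_ hK0.le
      apply Real.rpow_le_rpow_of_exponent_le hn1R
      rw [ha, hθ]
      have h7 : A * R = (d : ℝ) - 6 - g := by rw [hg]; ring
      have h8 : (R - e1) * A = A * R - A * e1 := by ring
      rw [h8, h7]
      linarith
    have h6 := (hpr (fun ω => ∀ x ∈ Bn d n, Xc (Bn d n) ω x < s)).2.2.2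
    have h7 : pr (ES (Bn d n)) (pH d) (fun ω => ¬ ∀ x ∈ Bn d n, Xc (Bn d n) ω x < s) ≤
        pB d n (pH d) (fun ω => ∃ x ∈ Bn d n, A * (n : ℝ) ^ 4 * Real.log n ≤ XB d n ω x) := by
      refine hmono _ _ fun ω _ h => ?_
      push Not at h
      obtain ⟨x, hx, hxs⟩ := h
      refine ⟨x, hx, hs2.trans ?_⟩
      exact_mod_cast hxs
    rw [h6, ← hq] at h7
    linarith
  refine tendsto_of_tendsto_of_tendsto_of_le_of_le' (g := fun n : ℕ => 1 - K * (n : ℝ) ^ (-(g / 2)))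
    (h := fun _ => 1) ?_ tendsto_const_nhds ?_ ?_
  · have h1 : Tendsto (fun n : ℕ => K * (n : ℝ) ^ (-(g / 2))) atTop (𝓝 (K * 0)) :=
      ((tendsto_rpow_neg_atTop (by positivity)).comp tendsto_natCast_atTop_atTop).const_mul K
    simpa using (tendsto_const_nhds (x := (1 : ℝ))).sub h1
  · filter_upwards [eventually_ge_atTop n₀] with n hnn
    exact key n hnn
  · refine Eventually.of_forall fun n => ?_
    obtain ⟨-, -, -, -, -, -, hpr, -, -, -⟩ := hB (Zd d) (ES (Bn d n)) (pH d) hp0 hp1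
    exact (hpr _).2.1

end Pool.CM
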