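import Pool.Agent.Helper22.CM.St

/-! # Project CM: module ODE (differential inequality) -/

set_option autoImplicit false

open scoped BigOperators ENNReal Topology
open Pool.LE Pool.NL Pool.CL Filter MeasureTheory

namespace Pool.CM

theorem hODE : StODE := by
  intro ι s F F' K t₀ hK hder hpos hbd h0
  have hcont : ∀ i ∈ s, Continuous (F i) := fun i hi =>
    continuous_iff_continuousAt.2 fun t => (hder i hi t).continuousAt
  have hmono : ∀ i ∈ s, Monotone (F i) := fun i hi =>
    monotone_of_deriv_nonneg (fun t => (hder i hi t).differentiableAt)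
      fun t => by rw [(hder i hi t).deriv]; exact hpos i hi t
  set b : ℝ := t₀ + 1 / (8 * K ^ 2) with hb
  have hK2 : (0 : ℝ) < 8 * K ^ 2 := by positivity
  have key : Set.Icc t₀ b ⊆ {t | ∀ i ∈ s, F i t ≤ 2 * K} := by
    refine IsClosed.Icc_subset_of_forall_exists_gt ?_ ?_ ?_
    · refine IsClosed.inter ?_ isClosed_Icc
      have e : {t | ∀ i ∈ s, F i t ≤ 2 * K} = ⋂ i ∈ s, {t | F i t ≤ 2 * K} := by
        ext t
        simp
      rw [e]
      exact isClosed_biInter fun i hi => isClosed_le (hcont i hi) continuous_const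
    · intro i hi
      linarith [h0 i hi]
    · rintro x ⟨hx, hx1⟩ y hy
      have hx2 : ∀ i ∈ s, F i x ≤ 2 * K := hx
      -- strict inequality at `x`
      have h1 : ∀ i ∈ s, F i x < 2 * K := by
        intro i hi
        have h2 : ∀ t ∈ Set.Icc t₀ x, F' i t ≤ (2 * K) ^ 3 := fun t ht =>
          hbd t (2 * K) ht.1 (fun j hj => (hmono j hj ht.2).trans (hx2 j hj)) i hi
        have h3 := Convex.image_sub_le_mul_sub_of_deriv_le (convex_Icc t₀ x)
          (hcont i hi).continuousOn
          (fun t _ => (hder i hi t).differentiableAt.differentiableWithinAt)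
          (C := (2 * K) ^ 3) (fun t ht => by
            rw [(hder i hi t).deriv]
            exact h2 t (interior_subset ht)) t₀ (Set.left_mem_Icc.2 hx1.1) x
          (Set.right_mem_Icc.2 hx1.1) hx1.1
        have h4 : x - t₀ < 1 / (8 * K ^ 2) := by
          have := hx1.2
          rw [hb] at this
          linarith
        have h5 : (2 * K) ^ 3 * (x - t₀) < K := by
          have h6 : (2 * K) ^ 3 * (x - t₀) < (2 * K) ^ 3 * (1 / (8 * K ^ 2)) :=
            mul_lt_mul_of_pos_left h4 (by positivity)
          have h7 : (2 * K) ^ 3 * (1 / (8 * K ^ 2)) = K := by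
            field_simp
            ring
          linarith
        linarith [h0 i hi]
      -- a neighbourhood
      have h8 : ∀ᶠ t in 𝓝 x, ∀ i ∈ s, F i t < 2 * K := by
        rw [eventually_all_finset]
        intro i hi
        exact (hcont i hi).continuousAt.eventually (gt_mem_nhds (h1 i hi))
      have h9 : ∀ᶠ t in 𝓝[>] x, ∀ i ∈ s, F i t < 2 * K := h8.filter_mono nhdsWithin_le_nhds
      have h10 : ∀ᶠ t in 𝓝[>] x, t ∈ Set.Ioc x y := Ioc_mem_nhdsGT hy
      obtain ⟨t, ht1, ht2⟩ := (h9.and h10).exists
      exact ⟨t, fun i hi => (ht1 i hi).le, ht2⟩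
  intro i hi t ht1 ht2
  exact key ⟨ht1, ht2⟩ i hi

end Pool.CM
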