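import Pool.Agent.Helper22.CM.St

/-! # Project CM, module Path: the hanging clusters of a path -/

set_option autoImplicit false
set_option linter.unusedSectionVars false

open scoped BigOperators ENNReal Topology
open Pool.LE Pool.NL Pool.CL Filter MeasureTheory

namespace Pool.CM

namespace Path

variable {V : Type} [DecidableEq V]

lemma mem_of_edge {ω : Finset (Sym2 V)} {x y : V} (p : (gr ω).Walk x y) {e : Sym2 V}
    (he : e ∈ p.edges) : e ∈ ω := by
  have h := p.edges_subset_edgeSet he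
  rw [gr, SimpleGraph.edgeSet_fromEdgeSet] at h
  exact h.1

lemma con_of_walk {ω η : Finset (Sym2 V)} {x y : V} (p : (gr ω).Walk x y)
    (h : ∀ e ∈ p.edges, e ∈ η) : con η x y := by
  have h2 : ∀ e ∈ p.edges, e ∈ (gr η).edgeSet := by
    intro e he
    have h3 := p.edges_subset_edgeSet he
    rw [gr, SimpleGraph.edgeSet_fromEdgeSet] at h3 ⊢
    exact ⟨h e he, h3.2⟩
  exact ⟨p.transfer (gr η) h2⟩

lemma tr_of_con {η : Finset (Sym2 V)} {x y : V} (h : con η x y) : TR η (x, [], y) := by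
  obtain ⟨p, hp⟩ := SimpleGraph.Reachable.exists_isPath h
  exact ⟨p, hp.isTrail, by simp⟩

lemma dr5 {ω η₁ η₂ η₃ η₄ η₅ : Finset (Sym2 V)} {x₁ y₁ x₂ y₂ x₃ y₃ x₄ y₄ x₅ y₅ : V}
    (s₁ : η₁ ⊆ ω) (s₂ : η₂ ⊆ ω) (s₃ : η₃ ⊆ ω) (s₄ : η₄ ⊆ ω) (s₅ : η₅ ⊆ ω)
    (d₂₁ : Disjoint η₂ η₁) (d₃₁ : Disjoint η₃ η₁) (d₄₁ : Disjoint η₄ η₁) (d₅₁ : Disjoint η₅ η₁)
    (d₃₂ : Disjoint η₃ η₂) (d₄₂ : Disjoint η₄ η₂) (d₅₂ : Disjoint η₅ η₂)
    (d₄₃ : Disjoint η₄ η₃) (d₅₃ : Disjoint η₅ η₃) (d₅₄ : Disjoint η₅ η₄)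
    (c₁ : con η₁ x₁ y₁) (c₂ : con η₂ x₂ y₂) (c₃ : con η₃ x₃ y₃) (c₄ : con η₄ x₄ y₄)
    (c₅ : con η₅ x₅ y₅) :
    DR [(x₁, [], y₁), (x₂, [], y₂), (x₃, [], y₃), (x₄, [], y₄), (x₅, [], y₅)] ω := by
  refine ⟨η₁, s₁, tr_of_con c₁, η₂, ?_, tr_of_con c₂, η₃, ?_, tr_of_con c₃, η₄, ?_, tr_of_con c₄,
    η₅, ?_, tr_of_con c₅, trivial⟩
  · exact Finset.subset_sdiff.mpr ⟨s₂, d₂₁⟩
  · exact Finset.subset_sdiff.mpr ⟨Finset.subset_sdiff.mpr ⟨s₃, d₃₁⟩, d₃₂⟩
  · exact Finset.subset_sdiff.mpr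
      ⟨Finset.subset_sdiff.mpr ⟨Finset.subset_sdiff.mpr ⟨s₄, d₄₁⟩, d₄₂⟩, d₄₃⟩
  · exact Finset.subset_sdiff.mpr ⟨Finset.subset_sdiff.mpr
      ⟨Finset.subset_sdiff.mpr ⟨Finset.subset_sdiff.mpr ⟨s₅, d₅₁⟩, d₅₂⟩, d₅₃⟩, d₅₄⟩

/-- a path in three pieces with two hanging clusters -/
lemma dr_path {ω : Finset (Sym2 V)} {a z z' w y y' : V} (g₁ : (gr ω).Walk a z)
    (g₂ : (gr ω).Walk z z') (g₃ : (gr ω).Walk z' w)
    (hn : (g₁.edges ++ (g₂.edges ++ g₃.edges)).Nodup) {J J' : Finset (Sym2 V)} (hJ : J ⊆ ω)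
    (hJ' : J' ⊆ ω) (hd : Disjoint J' J)
    (h1 : ∀ e ∈ g₁.edges ++ (g₂.edges ++ g₃.edges), e ∉ J)
    (h2 : ∀ e ∈ g₁.edges ++ (g₂.edges ++ g₃.edges), e ∉ J')
    (hc : con J z y) (hc' : con J' z' y') :
    DR [(a, [], z), (z, [], z'), (z', [], w), (z, [], y), (z', [], y')] ω := by
  rw [List.nodup_append, List.nodup_append] at hn
  obtain ⟨-, ⟨-, -, hn23⟩, hn1⟩ := hn
  refine dr5 (η₁ := g₁.edges.toFinset) (η₂ := g₂.edges.toFinset) (η₃ := g₃.edges.toFinset)
    (η₄ := J) (η₅ := J') ?_ ?_ ?_ hJ hJ' ?_ ?_ ?_ ?_ ?_ ?_ ?_ ?_ ?_ hd ?_ ?_ ?_ hc hc'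
  · intro e he; exact mem_of_edge g₁ (List.mem_toFinset.mp he)
  · intro e he; exact mem_of_edge g₂ (List.mem_toFinset.mp he)
  · intro e he; exact mem_of_edge g₃ (List.mem_toFinset.mp he)
  · rw [Finset.disjoint_left]; intro e he he'
    exact hn1 e (List.mem_toFinset.mp he') e
      (List.mem_append.mpr (Or.inl (List.mem_toFinset.mp he))) rfl
  · rw [Finset.disjoint_left]; intro e he he'
    exact hn1 e (List.mem_toFinset.mp he') e
      (List.mem_append.mpr (Or.inr (List.mem_toFinset.mp he))) rfl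
  · rw [Finset.disjoint_left]; intro e he he'
    exact h1 e (List.mem_append.mpr (Or.inl (List.mem_toFinset.mp he'))) he
  · rw [Finset.disjoint_left]; intro e he he'
    exact h2 e (List.mem_append.mpr (Or.inl (List.mem_toFinset.mp he'))) he
  · rw [Finset.disjoint_left]; intro e he he'
    exact hn23 e (List.mem_toFinset.mp he') e (List.mem_toFinset.mp he) rfl
  · rw [Finset.disjoint_left]; intro e he he'
    exact h1 e (List.mem_append.mpr (Or.inr (List.mem_append.mpr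
      (Or.inl (List.mem_toFinset.mp he'))))) he
  · rw [Finset.disjoint_left]; intro e he he'
    exact h2 e (List.mem_append.mpr (Or.inr (List.mem_append.mpr
      (Or.inl (List.mem_toFinset.mp he'))))) he
  · rw [Finset.disjoint_left]; intro e he he'
    exact h1 e (List.mem_append.mpr (Or.inr (List.mem_append.mpr
      (Or.inr (List.mem_toFinset.mp he'))))) he
  · rw [Finset.disjoint_left]; intro e he he'
    exact h2 e (List.mem_append.mpr (Or.inr (List.mem_append.mpr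
      (Or.inr (List.mem_toFinset.mp he'))))) he
  · exact con_of_walk g₁ fun e he => List.mem_toFinset.mpr he
  · exact con_of_walk g₂ fun e he => List.mem_toFinset.mpr he
  · exact con_of_walk g₃ fun e he => List.mem_toFinset.mpr he

end Path

open Pool.CM.Path in
theorem hPath (hH : StHang) : StPath := by
  classical
  intro V _ L ω a w haw
  obtain ⟨γ, g, I, hγ, hIω, hId, hIγ, hg, hgI⟩ := hH V ω a w haw
  have hsplit : ∀ z (hz : z ∈ γ.support),
      γ.edges = (γ.takeUntil z hz).edges ++ (γ.dropUntil z hz).edges := by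
    intro z hz
    rw [← SimpleGraph.Walk.edges_append, SimpleGraph.Walk.take_spec]
  have hnd : γ.edges.Nodup := hγ.isTrail.edges_nodup
  refine ⟨g, ?_, ?_, ?_⟩
  · intro y hy
    exact ⟨γ.takeUntil (g y) (hgI y hy).1⟩
  · intro y hy
    have hz := (hgI y hy).1
    have hs := hsplit (g y) hz
    refine ⟨(γ.takeUntil (g y) hz).edges.toFinset, (γ.dropUntil (g y) hz).edges.toFinset,
      I (g y), ?_, ?_, hIω _, ?_, ?_, ?_, ?_, ?_, ?_⟩
    · intro e he; exact mem_of_edge _ (List.mem_toFinset.mp he)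
    · intro e he; exact mem_of_edge _ (List.mem_toFinset.mp he)
    · rw [Finset.disjoint_left]
      intro e he he'
      rw [hs, List.nodup_append] at hnd
      exact hnd.2.2 e (List.mem_toFinset.mp he) e (List.mem_toFinset.mp he') rfl
    · rw [Finset.disjoint_left]
      intro e he he'
      refine hIγ (g y) e ?_ he'
      rw [hs]
      exact List.mem_append.mpr (Or.inl (List.mem_toFinset.mp he))
    · rw [Finset.disjoint_left]
      intro e he he'
      refine hIγ (g y) e ?_ he'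
      rw [hs]
      exact List.mem_append.mpr (Or.inr (List.mem_toFinset.mp he))
    · exact con_of_walk _ fun e he => List.mem_toFinset.mpr he
    · exact con_of_walk _ fun e he => List.mem_toFinset.mpr he
    · refine Finset.card_le_card ?_
      intro y' hy'
      rw [Finset.mem_filter, clu, Finset.mem_filter] at hy'
      rw [clu, Finset.mem_filter]
      refine ⟨hy'.1.1, ?_⟩
      have h := (hgI y' hy'.1.2).2
      rw [hy'.2] at h
      exact h
  · intro y y' hy hy' hne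
    obtain ⟨hz, hc⟩ := hgI y hy
    obtain ⟨hz', hc'⟩ := hgI y' hy'
    have hs := hsplit (g y) hz
    have hmem : g y' ∈ (γ.takeUntil (g y) hz).support ∨ g y' ∈ (γ.dropUntil (g y) hz).support := by
      rw [← SimpleGraph.Walk.mem_support_append_iff, SimpleGraph.Walk.take_spec]
      exact hz'
    rcases hmem with h | h
    · right
      have hs2 : (γ.takeUntil (g y) hz).edges =
          ((γ.takeUntil (g y) hz).takeUntil (g y') h).edges ++
          ((γ.takeUntil (g y) hz).dropUntil (g y') h).edges := by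
        rw [← SimpleGraph.Walk.edges_append, SimpleGraph.Walk.take_spec]
      rw [hs2, List.append_assoc] at hs
      refine dr_path ((γ.takeUntil (g y) hz).takeUntil (g y') h)
        ((γ.takeUntil (g y) hz).dropUntil (g y') h) (γ.dropUntil (g y) hz) ?_ (hIω (g y'))
        (hIω (g y)) (hId _ _ hne) ?_ ?_ hc' hc
      · rw [← hs]; exact hnd
      · rw [← hs]; exact hIγ _
      · rw [← hs]; exact hIγ _
    · left
      have hs2 : (γ.dropUntil (g y) hz).edges =
          ((γ.dropUntil (g y) hz).takeUntil (g y') h).edges ++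
          ((γ.dropUntil (g y) hz).dropUntil (g y') h).edges := by
        rw [← SimpleGraph.Walk.edges_append, SimpleGraph.Walk.take_spec]
      rw [hs2] at hs
      refine dr_path (γ.takeUntil (g y) hz) ((γ.dropUntil (g y) hz).takeUntil (g y') h)
        ((γ.dropUntil (g y) hz).dropUntil (g y') h) ?_ (hIω (g y))
        (hIω (g y')) (hId _ _ (Ne.symm hne)) ?_ ?_ hc hc'
      · rw [← hs]; exact hnd
      · rw [← hs]; exact hIγ _
      · rw [← hs]; exact hIγ _

end Pool.CM
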