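import Pool.Agent.Helper22.CM.St

/-!
# CM Phq: the cost of the change of parameter is quadratic
-/

set_option autoImplicit false

open scoped BigOperators ENNReal Topology
open Pool.LE Pool.NL Pool.CL Filter MeasureTheory

namespace Pool.CM

namespace Phq

/-- second order bound for powers -/
theorem pow_le_quad (B : ℝ) (hB : 0 ≤ B) (q : ℕ) : ∃ K : ℝ, 0 ≤ K ∧ ∀ x : ℝ, -1 ≤ x → x ≤ B →
    (1 + x) ^ q ≤ 1 + q * x + K * x ^ 2 := by
  induction q with
  | zero => exact ⟨0, le_refl 0, fun x _ _ => by simp⟩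
  | succ q ih =>
    obtain ⟨K, hK, h⟩ := ih
    refine ⟨q + K + K * B, by positivity, fun x h1 h2 => ?_⟩
    have h3 := h x h1 h2
    have h4 : (0 : ℝ) ≤ 1 + x := by linarith
    have h5 := mul_le_mul_of_nonneg_right h3 h4
    have h6 : K * x ^ 2 * x ≤ K * x ^ 2 * B := mul_le_mul_of_nonneg_left h2 (by positivity)
    rw [pow_succ]
    push_cast
    nlinarith [h5, h6]

/-- the cost in terms of `δ` -/
theorem phq_eq (q : ℕ) (p δ : ℝ) (hq : 1 ≤ q) (hp : 0 < p) (hp1 : p < 1) :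
    Phq q p (1 - (1 - p) * (1 - δ)) =
      p * (1 + (1 - p) / p * δ) ^ q + (1 - p) * (1 - δ) ^ q := by
  obtain ⟨n, rfl⟩ : ∃ n, q = n + 1 := ⟨q - 1, by omega⟩
  have h1 : (1 : ℝ) - (1 - p) * (1 - δ) = p * (1 + (1 - p) / p * δ) := by
    field_simp
    ring
  have h2 : (1 : ℝ) - (1 - (1 - p) * (1 - δ)) = (1 - p) * (1 - δ) := by ring
  have hp' : (1 : ℝ) - p ≠ 0 := by
    have : (0 : ℝ) < 1 - p := by linarith
    exact this.ne'
  unfold Phq
  rw [h2, h1, mul_pow, mul_pow, Nat.add_sub_cancel, pow_succ p n, pow_succ (1 - p) n]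
  field_simp

end Phq

open Phq in
theorem hPhq : StPhq := by
  intro q p hq hp hp1
  have hp' : (0 : ℝ) < 1 - p := by linarith
  set t : ℝ := (1 - p) / p with ht
  have ht0 : 0 < t := div_pos hp' hp
  have hpt : p * t = 1 - p := by
    rw [ht]
    field_simp
  obtain ⟨K, hK, h⟩ := pow_le_quad (max t 1) (le_max_of_le_right zero_le_one) q
  refine ⟨p * K * t ^ 2 + (1 - p) * K + 1, by positivity, fun δ h0 h1 => ?_⟩
  rw [phq_eq q p δ (by omega) hp hp1, ← ht]
  have htδ : 0 ≤ t * δ := mul_nonneg ht0.le h0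
  have htδ' : t * δ ≤ t := mul_le_of_le_one_right ht0.le h1
  constructor
  · have e1 : 1 + (q : ℝ) * (t * δ) ≤ (1 + t * δ) ^ q := one_add_mul_le_pow (by linarith) q
    have e2 : 1 + (q : ℝ) * (-δ) ≤ (1 + -δ) ^ q := one_add_mul_le_pow (by linarith) q
    have e3 := mul_le_mul_of_nonneg_left e1 hp.le
    have e4 := mul_le_mul_of_nonneg_left e2 hp'.le
    rw [← sub_eq_add_neg 1 δ] at e4
    have e5 : p * (1 + (q : ℝ) * (t * δ)) + (1 - p) * (1 + (q : ℝ) * (-δ)) = 1 := by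
      linear_combination (q : ℝ) * δ * hpt
    linarith
  · have e1 := h (t * δ) (by linarith) (htδ'.trans (le_max_left _ _))
    have e2 := h (-δ) (by linarith) (by linarith [le_max_right t 1])
    have e3 := mul_le_mul_of_nonneg_left e1 hp.le
    have e4 := mul_le_mul_of_nonneg_left e2 hp'.le
    rw [← sub_eq_add_neg 1 δ] at e4
    have e5 : p * (1 + (q : ℝ) * (t * δ) + K * (t * δ) ^ 2) +
        (1 - p) * (1 + (q : ℝ) * (-δ) + K * (-δ) ^ 2) =
        1 + (p * K * t ^ 2 + (1 - p) * K) * δ ^ 2 := by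
      linear_combination (q : ℝ) * δ * hpt
    have e6 := Real.add_one_le_exp ((p * K * t ^ 2 + (1 - p) * K + 1) * δ ^ 2)
    nlinarith [sq_nonneg δ]

end Pool.CM
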