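import Pool.Agent.Helper22.CM.St

/-!
# Project CM, module Rad: the radius of convergence
-/

set_option autoImplicit false

open scoped BigOperators ENNReal Topology
open Pool.LE Pool.NL Pool.CL Filter MeasureTheory

namespace Pool.CM

namespace Rad

/-- the exponent is not too large -/
theorem bound (hUp : StUpZ) (hB : StBasic) {d : ℕ} {C₁ B c₀ CL : ℝ} (hE : EnvC d C₁ B c₀ CL)
    {ε : ℝ} (hε : 0 < ε)
    (hL : Tendsto (fun n : ℕ => pB d n (pH d) (fun ω => ∃ x ∈ Bn d n,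
      ε * (n : ℝ) ^ 4 * Real.log n ≤ XB d n ω x)) atTop (𝓝 1))
    {θ K : ℝ} (hθ : 0 < θ) (hS : Sb d θ K) : θ ≤ ((d : ℝ) - 6) / ε := by
  by_contra hcon
  rw [not_le, div_lt_iff₀ hε] at hcon
  have hd : (21 : ℝ) ≤ d := by exact_mod_cast hE.env.hd
  have hA : 0 < ((d : ℝ) - 6) / θ := div_pos (by linarith) hθ
  have hlt : ((d : ℝ) - 6) / θ < ε := by
    rw [div_lt_iff₀ hθ]
    linarith
  have h1 := hUp d C₁ B c₀ CL hE θ K (((d : ℝ) - 6) / θ) hθ hA hS (by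
    rw [mul_div_cancel₀ _ hθ.ne'])
  have h2 := h1.add hL
  have h3 : ∀ᶠ n : ℕ in atTop,
      pB d n (pH d) (fun ω => ∀ x ∈ Bn d n,
        (XB d n ω x : ℝ) ≤ ((d : ℝ) - 6) / θ * (n : ℝ) ^ 4 * Real.log n) +
      pB d n (pH d) (fun ω => ∃ x ∈ Bn d n,
        ε * (n : ℝ) ^ 4 * Real.log n ≤ XB d n ω x) ≤ 1 := by
    filter_upwards [eventually_ge_atTop 3] with n hn
    have hn' : (3 : ℝ) ≤ n := by exact_mod_cast hn
    have hlog : 0 < Real.log n := Real.log_pos (by linarith)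
    have hpos : 0 < (n : ℝ) ^ 4 * Real.log n := mul_pos (by positivity) hlog
    obtain ⟨-, -, -, -, -, -, hpr, hmono, -⟩ :=
      hB (Zd d) (ES (Bn d n)) (pH d) hE.env.p0.le (by linarith [hE.env.p1])
    have h4 := (hpr (fun ω => ∀ x ∈ Bn d n,
      (XB d n ω x : ℝ) ≤ ((d : ℝ) - 6) / θ * (n : ℝ) ^ 4 * Real.log n)).2.2.2
    have h5 := hmono (fun ω => ∃ x ∈ Bn d n, ε * (n : ℝ) ^ 4 * Real.log n ≤ XB d n ω x)
      (fun ω => ¬ ∀ x ∈ Bn d n,
        (XB d n ω x : ℝ) ≤ ((d : ℝ) - 6) / θ * (n : ℝ) ^ 4 * Real.log n) (by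
        rintro ω - ⟨x, hx, h6⟩ h7
        have h8 := h7 x hx
        have h9 : ((d : ℝ) - 6) / θ * ((n : ℝ) ^ 4 * Real.log n) < ε * ((n : ℝ) ^ 4 * Real.log n) :=
          mul_lt_mul_of_pos_right hlt hpos
        have e1 : ((d : ℝ) - 6) / θ * (n : ℝ) ^ 4 * Real.log n =
          ((d : ℝ) - 6) / θ * ((n : ℝ) ^ 4 * Real.log n) := by ring
        have e2 : ε * (n : ℝ) ^ 4 * Real.log n = ε * ((n : ℝ) ^ 4 * Real.log n) := by ring
        rw [e1] at h8
        rw [e2] at h6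
        linarith)
    rw [h4] at h5
    show pr (ES (Bn d n)) (pH d) _ + pr (ES (Bn d n)) (pH d) _ ≤ 1
    linarith
  have h4 := le_of_tendsto h2 h3
  norm_num at h4

end Rad

/-- E07: the radius of convergence -/
theorem hRad (hE3 : StE3) (hUp : StUpZ) (hLow : Pool.NL.StLow) (hM : StMom) (hB : StBasic) :
    StRad := by
  intro d C₁ B c₀ CL hE c hc
  obtain ⟨K, hK1, hK⟩ := hM d C₁ B c₀ CL hE
  have hK0 : 0 < K := by linarith
  have hU : U01 (fun _ : Zd d => (1 : ℝ)) := fun y => ⟨zero_le_one, le_refl _⟩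
  have hcb : ∀ r : ℕ, 0 ≤ c r ∧ c r ≤ K ^ (r + 1) := by
    intro r
    constructor
    · apply ge_of_tendsto (hc r)
      filter_upwards [eventually_ge_atTop 1] with n hn
      exact ((hK n _ hn hU).1 r).1
    · apply le_of_tendsto (hc r)
      filter_upwards [eventually_ge_atTop 1] with n hn
      exact ((hK n _ hn hU).1 r).2
  obtain ⟨ε, hε, hL⟩ := hLow d C₁ B c₀ hE.env
  set A : Set ℝ := {θ | 0 ≤ θ ∧ Summable (fun r : ℕ => c r * θ ^ r)} with hAdef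
  have hmem : 1 / (2 * K) ∈ A := by
    refine ⟨by positivity, ?_⟩
    have hs : Summable (fun r : ℕ => K * (1 / 2 : ℝ) ^ r) :=
      (summable_geometric_of_lt_one (by norm_num) (by norm_num)).mul_left K
    refine Summable.of_nonneg_of_le (fun r => ?_) (fun r => ?_) hs
    · exact mul_nonneg (hcb r).1 (by positivity)
    · have h1 : c r * (1 / (2 * K)) ^ r ≤ K ^ (r + 1) * (1 / (2 * K)) ^ r :=
        mul_le_mul_of_nonneg_right (hcb r).2 (by positivity)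
      refine h1.trans (le_of_eq ?_)
      rw [pow_succ, mul_comm (K ^ r) K, mul_assoc, ← mul_pow]
      congr 2
      field_simp
  have hbdd : ∀ θ ∈ A, θ ≤ ((d : ℝ) - 6) / ε := by
    rintro θ ⟨h0, hs⟩
    refine le_of_forall_lt_imp_le_of_dense ?_
    intro θ' hθ'
    by_cases h1 : 0 < θ'
    · obtain ⟨K', -, hS⟩ := hE3 d C₁ B c₀ CL hE c hc θ' θ h1.le hθ' hs
      exact Rad.bound hUp hB hE hε hL h1 hS
    · have hd : (21 : ℝ) ≤ d := by exact_mod_cast hE.env.hd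
      have h2 : 0 < ((d : ℝ) - 6) / ε := div_pos (by linarith) hε
      linarith
  have hBA : BddAbove A := ⟨_, hbdd⟩
  have hR0 : 0 < sSup A := lt_of_lt_of_le (by positivity) (le_csSup hBA hmem)
  refine ⟨sSup A, hR0, hc, ?_, ?_⟩
  · intro θ h0 hlt
    obtain ⟨θ₂, h2, h3⟩ := exists_lt_of_lt_csSup ⟨_, hmem⟩ hlt
    exact hE3 d C₁ B c₀ CL hE c hc θ θ₂ h0 h3 h2.2
  · intro θ hlt hs
    exact absurd (le_csSup hBA (show θ ∈ A from ⟨(hR0.trans hlt).le, hs⟩)) (not_le.2 hlt)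

end Pool.CM
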