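import Pool.Agent.Helper22.CM.St

set_option autoImplicit false

open scoped BigOperators ENNReal Topology
open Pool.LE Pool.NL Pool.CL Filter MeasureTheory

namespace Pool.CM

namespace Ser

lemma ms_one {V : Type} (C : Finset V) : ms (fun _ => (1 : ℝ)) C = (C.card : ℝ) := by
  simp [ms]

lemma real_hasSum (X θ : ℝ) (n : ℕ) (hn : 1 ≤ n) :
    HasSum (fun r : ℕ => θ ^ r * (X ^ (r + 1) / ((n : ℝ) ^ (2 + 4 * r) * (r.factorial : ℝ))))
      (X * Real.exp (θ * X / (n : ℝ) ^ 4) / (n : ℝ) ^ 2) := by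
  have hn0 : (n : ℝ) ≠ 0 := by positivity
  have h1 : HasSum (fun r : ℕ => (θ * X / (n : ℝ) ^ 4) ^ r / (r.factorial : ℝ))
      (Real.exp (θ * X / (n : ℝ) ^ 4)) := by
    rw [Real.exp_eq_exp_ℝ]
    exact NormedSpace.expSeries_div_hasSum_exp (θ * X / (n : ℝ) ^ 4)
  have h2 := h1.mul_left (X / (n : ℝ) ^ 2)
  have e1 : X / (n : ℝ) ^ 2 * Real.exp (θ * X / (n : ℝ) ^ 4) =
      X * Real.exp (θ * X / (n : ℝ) ^ 4) / (n : ℝ) ^ 2 := by ring
  rw [e1] at h2
  refine h2.congr_fun ?_ |> fun h => h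
  intro r
  have hf : (r.factorial : ℝ) ≠ 0 := by positivity
  rw [div_pow, mul_pow]
  field_simp
  ring

/-- the expectation of a convergent series -/
lemma ex_hasSum {V : Type} [DecidableEq V] (E : Finset (Sym2 V)) (p : ℝ)
    (f : ℕ → Finset (Sym2 V) → ℝ) (g : Finset (Sym2 V) → ℝ)
    (h : ∀ ω, HasSum (fun r => f r ω) (g ω)) : HasSum (fun r => ex E p (f r)) (ex E p g) := by
  unfold ex Ex
  apply hasSum_sum
  intro ω _
  simp only [smul_eq_mul]
  exact (h ω).mul_left _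

lemma ex_div {V : Type} [DecidableEq V] (E : Finset (Sym2 V)) (p c : ℝ)
    (f : Finset (Sym2 V) → ℝ) : ex E p f / c = ex E p (fun ω => f ω / c) := by
  unfold ex Ex
  rw [Finset.sum_div]
  refine Finset.sum_congr rfl fun ω _ => ?_
  simp only [smul_eq_mul]
  ring

lemma ex_mul {V : Type} [DecidableEq V] (E : Finset (Sym2 V)) (p c : ℝ)
    (f : Finset (Sym2 V) → ℝ) : c * ex E p f = ex E p (fun ω => c * f ω) := by
  unfold ex Ex
  rw [Finset.mul_sum]
  refine Finset.sum_congr rfl fun ω _ => ?_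
  simp only [smul_eq_mul]
  ring

lemma tail_le (a : ℕ → ℝ) (S S' θ θ' : ℝ) (N : ℕ) (ha : ∀ r, 0 ≤ a r) (h0 : 0 ≤ θ) (h1 : θ < θ')
    (h : HasSum (fun r => θ ^ r * a r) S) (h' : HasSum (fun r => θ' ^ r * a r) S') :
    S ≤ ∑ r ∈ Finset.range N, θ ^ r * a r + (θ / θ') ^ N * S' := by
  have hθ' : 0 < θ' := lt_of_le_of_lt h0 h1
  have hq0 : 0 ≤ θ / θ' := div_nonneg h0 hθ'.le
  have hq1 : θ / θ' ≤ 1 := (div_le_one hθ').2 h1.le
  have e1 := h.summable.sum_add_tsum_nat_add N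
  rw [h.tsum_eq] at e1
  have e2 := h'.summable.sum_add_tsum_nat_add N
  rw [h'.tsum_eq] at e2
  have s1 : Summable (fun r => θ ^ (r + N) * a (r + N)) := (summable_nat_add_iff N).2 h.summable
  have s2 : Summable (fun r => θ' ^ (r + N) * a (r + N)) := (summable_nat_add_iff N).2 h'.summable
  have k1 : ∑' r, θ ^ (r + N) * a (r + N) ≤ (θ / θ') ^ N * ∑' r, θ' ^ (r + N) * a (r + N) := by
    rw [← tsum_mul_left]
    refine s1.tsum_le_tsum (fun r => ?_) (s2.mul_left _)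
    have : θ ^ (r + N) = (θ / θ') ^ (r + N) * θ' ^ (r + N) := by
      rw [← mul_pow, div_mul_cancel₀ _ hθ'.ne']
    rw [this]
    have k2 : (θ / θ') ^ (r + N) ≤ (θ / θ') ^ N :=
      pow_le_pow_of_le_one hq0 hq1 (Nat.le_add_left N r)
    have k3 : 0 ≤ θ' ^ (r + N) * a (r + N) := mul_nonneg (pow_nonneg hθ'.le _) (ha _)
    calc (θ / θ') ^ (r + N) * θ' ^ (r + N) * a (r + N)
        = (θ / θ') ^ (r + N) * (θ' ^ (r + N) * a (r + N)) := by ring
      _ ≤ _ := mul_le_mul_of_nonneg_right k2 k3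
  have k4 : 0 ≤ ∑ r ∈ Finset.range N, θ' ^ r * a r :=
    Finset.sum_nonneg fun r _ => mul_nonneg (pow_nonneg hθ'.le _) (ha _)
  have k5 : ∑' r, θ' ^ (r + N) * a (r + N) ≤ S' := by linarith
  have k6 := mul_le_mul_of_nonneg_left k5 (pow_nonneg hq0 N)
  linarith

end Ser

theorem hSer (hB : StBasic) (hC : StClu) (hBn : StBn) : StSer := by
  intro d C₁ B c₀ CL hE
  have hp0 : (0 : ℝ) ≤ pH d := hE.env.p0.le
  have hp1 : pH d ≤ 1 := by linarith [hE.half]
  have hmono : ∀ n : ℕ, ∀ f g : Finset (Sym2 (Zd d)) → ℝ,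
      (∀ ω, ω ⊆ ES (Bn d n) → f ω ≤ g ω) → eb d n f ≤ eb d n g := fun n f g h =>
    (hB (Zd d) (ES (Bn d n)) (pH d) hp0 hp1).1 f g h
  have hconst : ∀ n : ℕ, ∀ c : ℝ, eb d n (fun _ => c) = c := fun n c =>
    (hB (Zd d) (ES (Bn d n)) (pH d) hp0 hp1).2.1 c
  have hnn : ∀ n : ℕ, ∀ f : Finset (Sym2 (Zd d)) → ℝ, (∀ ω, 0 ≤ f ω) → 0 ≤ eb d n f := by
    intro n f h
    have := hmono n (fun _ => 0) f (fun ω _ => h ω)
    rwa [hconst] at this
  have h3 : ∀ (n r : ℕ) (x : Zd d), 0 ≤ mr d n r x := by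
    intro n r x
    unfold mr
    exact div_nonneg (hnn n _ fun ω => by positivity) (by positivity)
  have h4 : ∀ (n : ℕ) (θ : ℝ) (x : Zd d), 1 ≤ n →
      HasSum (fun r : ℕ => θ ^ r * mr d n r x) (sn d n θ x) := by
    intro n θ x hn
    have h := Ser.ex_hasSum (ES (Bn d n)) (pH d)
      (fun r ω => θ ^ r * ((XB d n ω x : ℝ) ^ (r + 1) /
        ((n : ℝ) ^ (2 + 4 * r) * (r.factorial : ℝ))))
      (fun ω => (XB d n ω x : ℝ) * Real.exp (θ * XB d n ω x / (n : ℝ) ^ 4) / (n : ℝ) ^ 2)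
      (fun ω => Ser.real_hasSum (XB d n ω x : ℝ) θ n hn)
    have e1 : sn d n θ x = ex (ES (Bn d n)) (pH d) (fun ω => (XB d n ω x : ℝ) *
        Real.exp (θ * XB d n ω x / (n : ℝ) ^ 4) / (n : ℝ) ^ 2) := by
      unfold sn eb
      rw [Ser.ex_div]
    rw [e1]
    refine h.congr_fun fun r => ?_
    unfold mr eb
    rw [Ser.ex_div, Ser.ex_mul]
  have h6 : ∀ (n : ℕ) (θ θ' : ℝ) (x : Zd d), θ ≤ θ' → sn d n θ x ≤ sn d n θ' x := by
    intro n θ θ' x h
    unfold sn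
    refine div_le_div_of_nonneg_right (hmono n _ _ fun ω _ => ?_) (by positivity)
    refine mul_le_mul_of_nonneg_left (Real.exp_le_exp.2 ?_) (by positivity)
    exact div_le_div_of_nonneg_right (mul_le_mul_of_nonneg_right h (by positivity)) (by positivity)
  refine ⟨?_, ?_, h3, h4, ?_, h6, ?_⟩
  · intro n θ x
    unfold snw sn
    simp only [Ser.ms_one]
    rfl
  · intro n r
    unfold cr av mr
    simp only [Ser.ms_one, one_mul]
    rw [← Finset.sum_div]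
    have : ∀ x, eb d n (fun ω => ((cb d n ω x).card : ℝ) ^ (r + 1)) =
        eb d n (fun ω => (XB d n ω x : ℝ) ^ (r + 1)) := fun x => rfl
    simp only [this]
    rw [div_right_comm]
  · intro n N θ θ' x hn h0 h1
    exact Ser.tail_le (fun r => mr d n r x) _ _ θ θ' N (fun r => h3 n r x) h0 h1
      (h4 n θ x hn) (h4 n θ' x hn)
  · intro n θ hn h0 x hx
    obtain ⟨hFG, hcard, -⟩ := hBn d n
    have hX : ∀ ω, ω ⊆ ES (Bn d n) → (XB d n ω x : ℝ) ≤ (n : ℝ) ^ d := by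
      intro ω hω
      have h := ((hC (Zd d) (Bn d n) (ES (Bn d n)) ω (2 * d) hFG hω).1 x hx).2.2
      rw [hcard] at h
      exact_mod_cast h
    have hn1 : (1 : ℝ) ≤ n := by exact_mod_cast hn
    unfold sn
    rw [div_le_iff₀ (by positivity)]
    have hb : eb d n (fun ω => (XB d n ω x : ℝ) * Real.exp (θ * XB d n ω x / (n : ℝ) ^ 4)) ≤
        eb d n (fun _ => (n : ℝ) ^ d * Real.exp (θ * (n : ℝ) ^ d)) := by
      refine hmono n _ _ fun ω hω => ?_
      have hx0 : (0 : ℝ) ≤ XB d n ω x := by positivity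
      refine mul_le_mul (hX ω hω) (Real.exp_le_exp.2 ?_) (Real.exp_pos _).le (by positivity)
      have hn4 : (1 : ℝ) ≤ (n : ℝ) ^ 4 := one_le_pow₀ hn1
      refine (div_le_self (mul_nonneg h0 hx0) hn4).trans ?_
      exact mul_le_mul_of_nonneg_left (hX ω hω) h0
    rw [hconst] at hb
    refine hb.trans ?_
    have hn2 : (1 : ℝ) ≤ (n : ℝ) ^ 2 := one_le_pow₀ hn1
    have hpos : (0 : ℝ) ≤ (n : ℝ) ^ d * Real.exp (θ * (n : ℝ) ^ d) := by positivity
    exact le_mul_of_one_le_right hpos hn2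

end Pool.CM
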