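import Pool.Agent.Helper22.CM.St
import Pool.Agent.Helper22.NL.M_Basic
import Pool.Agent.Helper22.NL.M_Clu

/-! MP_65faa7, project CM: module TGh (tree graph inequality with exponential weights). -/

set_option autoImplicit false
set_option linter.unusedSectionVars false

open scoped BigOperators ENNReal Topology
open Pool.LE Pool.NL Pool.CL Filter MeasureTheory

namespace Pool.CM

namespace TGh

variable {V : Type} [DecidableEq V]

theorem ms_eq (L : Finset V) (ψ : V → ℝ) (ω : Finset (Sym2 V)) (x : V) :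
    ms ψ (clu L ω x) = ∑ w ∈ L, ψ w * ind (con ω x w) := by
  unfold ms clu
  rw [Finset.sum_filter]
  refine Finset.sum_congr rfl fun w _ => ?_
  unfold ind
  split_ifs <;> simp

theorem ms_nonneg {ψ : V → ℝ} (hψ : ∀ y, 0 ≤ ψ y) (C : Finset V) : 0 ≤ ms ψ C :=
  Finset.sum_nonneg fun y _ => hψ y

theorem ms_mono {ψ : V → ℝ} (hψ : ∀ y, 0 ≤ ψ y) {A B : Finset V} (h : A ⊆ B) :
    ms ψ A ≤ ms ψ B :=
  Finset.sum_le_sum_of_subset_of_nonneg h fun y _ _ => hψ y

theorem ms_union {ψ : V → ℝ} (hψ : ∀ y, 0 ≤ ψ y) (A B : Finset V) :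
    ms ψ (A ∪ B) ≤ ms ψ A + ms ψ B := by
  unfold ms
  have h := Finset.sum_union_inter (s₁ := A) (s₂ := B) (f := ψ)
  have h2 : 0 ≤ ∑ y ∈ A ∩ B, ψ y := Finset.sum_nonneg fun y _ => hψ y
  linarith

/-- the weight of one piece -/
noncomputable def fw (L : Finset V) (ψ : V → ℝ) (h : ℝ) (x z : V) (ω : Finset (Sym2 V)) : ℝ :=
  ind (con ω x z) * Real.exp (h * ms ψ (clu L ω x))

theorem fw_nonneg (L : Finset V) (ψ : V → ℝ) (h : ℝ) (x z : V) (ω : Finset (Sym2 V)) :
    0 ≤ fw L ψ h x z ω :=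
  mul_nonneg (Basic.ind_nonneg _) (Real.exp_pos _).le

theorem fw_mono (L : Finset V) {ψ : V → ℝ} {h : ℝ} (hh : 0 ≤ h) (hψ : ∀ y, 0 ≤ ψ y) (x z : V)
    (ω ω' : Finset (Sym2 V)) (hω : ω ⊆ ω') : fw L ψ h x z ω ≤ fw L ψ h x z ω' := by
  have h1 : ind (con ω x z) ≤ ind (con ω' x z) := by
    by_cases hc : con ω x z
    · have hc' : con ω' x z := con_mono hω hc
      simp [ind, hc, hc']
    · have : ind (con ω x z) = 0 := by simp [ind, hc]
      rw [this]
      exact Basic.ind_nonneg _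
  have h2 : ms ψ (clu L ω x) ≤ ms ψ (clu L ω' x) := by
    refine ms_mono hψ fun v hv => ?_
    rw [mem_Clu] at hv ⊢
    exact ⟨hv.1, con_mono hω hv.2⟩
  exact mul_le_mul h1 (Real.exp_le_exp.2 (mul_le_mul_of_nonneg_left h2 hh)) (Real.exp_pos _).le
    (Basic.ind_nonneg _)

/-- three disjoint pieces with the middle point `z` -/
def Sp (x y w z : V) (ω : Finset (Sym2 V)) : Prop :=
  ∃ I₁ I₂ I₃ : Finset (Sym2 V), I₁ ⊆ ω ∧ I₂ ⊆ ω ∧ I₃ ⊆ ω ∧
    Disjoint I₁ I₂ ∧ Disjoint I₁ I₃ ∧ Disjoint I₂ I₃ ∧ con I₁ x z ∧ con I₂ z y ∧ con I₃ z w ∧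
    ∀ v, con ω x v → con I₁ x v ∨ con I₂ z v ∨ con I₃ z v

theorem bound (hF : StFBK3) (L : Finset V) (E : Finset (Sym2 V)) {p h : ℝ} {ψ : V → ℝ}
    (h0 : 0 ≤ p) (h1 : p ≤ 1) (hh : 0 ≤ h) (hψ : ∀ y, 0 ≤ ψ y) (x y w z : V) :
    ex E p (fun ω => ind (Sp x y w z ω) * Real.exp (h * ms ψ (clu L ω x))) ≤
      tH L E p h ψ x z * (tH L E p h ψ z y * tH L E p h ψ z w) := by
  refine hF V E p h0 h1 (fw L ψ h x z) (fw L ψ h z y) (fw L ψ h z w) _
    (fw_nonneg L ψ h x z) (fw_nonneg L ψ h z y) (fw_nonneg L ψ h z w)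
    (fw_mono L hh hψ x z) (fw_mono L hh hψ z y) (fw_mono L hh hψ z w) fun ω _ => ?_
  by_cases hs : Sp x y w z ω
  · have hs' := hs
    obtain ⟨I₁, I₂, I₃, a1, a2, a3, a4, a5, a6, a7, a8, a9, a10⟩ := hs'
    refine ⟨I₁, I₂, I₃, a1, a2, a3, a4, a5, a6, ?_⟩
    have e0 : ind (Sp x y w z ω) = 1 := by simp [ind, hs]
    have e1 : ind (con I₁ x z) = 1 := by simp [ind, a7]
    have e2 : ind (con I₂ z y) = 1 := by simp [ind, a8]
    have e3 : ind (con I₃ z w) = 1 := by simp [ind, a9]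
    unfold fw
    rw [e0, e1, e2, e3, one_mul, one_mul, one_mul, one_mul, ← Real.exp_add, ← Real.exp_add,
      Real.exp_le_exp, ← mul_add, ← mul_add]
    refine mul_le_mul_of_nonneg_left ?_ hh
    have hsub : clu L ω x ⊆ clu L I₁ x ∪ (clu L I₂ z ∪ clu L I₃ z) := by
      intro v hv
      rw [mem_Clu] at hv
      rw [Finset.mem_union, Finset.mem_union, mem_Clu, mem_Clu, mem_Clu]
      rcases a10 v hv.2 with c | c | c
      · exact Or.inl ⟨hv.1, c⟩
      · exact Or.inr (Or.inl ⟨hv.1, c⟩)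
      · exact Or.inr (Or.inr ⟨hv.1, c⟩)
    have b1 := ms_mono hψ hsub
    have b2 := ms_union hψ (clu L I₁ x) (clu L I₂ z ∪ clu L I₃ z)
    have b3 := ms_union hψ (clu L I₂ z) (clu L I₃ z)
    linarith
  · refine ⟨∅, ∅, ∅, Finset.empty_subset _, Finset.empty_subset _, Finset.empty_subset _,
      Finset.disjoint_empty_left _, Finset.disjoint_empty_left _, Finset.disjoint_empty_left _, ?_⟩
    have e0 : ind (Sp x y w z ω) = 0 := by simp [ind, hs]
    rw [e0, zero_mul]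
    exact mul_nonneg (fw_nonneg _ _ _ _ _ _) (mul_nonneg (fw_nonneg _ _ _ _ _ _)
      (fw_nonneg _ _ _ _ _ _))

end TGh

open TGh in
theorem hTGh (_hB : StBasic) (hF : StFBK3) (hX : StExt3) (hC : StClu) : StTGh := by
  intro V _ L E D p h ψ hG h0 h1 hh hψ x hx y hy
  -- expand the mass
  have e1 : ex E p (fun ω => ind (con ω x y) * (ms ψ (clu L ω x) *
      Real.exp (h * ms ψ (clu L ω x)))) = ∑ w ∈ L, ψ w * ex E p (fun ω => ind (con ω x y) *
        (ind (con ω x w) * Real.exp (h * ms ψ (clu L ω x)))) := by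
    have e2 : (fun ω => ind (con ω x y) * (ms ψ (clu L ω x) *
        Real.exp (h * ms ψ (clu L ω x)))) = fun ω => ∑ w ∈ L, ψ w * (ind (con ω x y) *
          (ind (con ω x w) * Real.exp (h * ms ψ (clu L ω x)))) := by
      funext ω
      have e3 : ms ψ (clu L ω x) * Real.exp (h * ms ψ (clu L ω x)) =
          (∑ w ∈ L, ψ w * ind (con ω x w)) * Real.exp (h * ms ψ (clu L ω x)) := by
        rw [← ms_eq]
      rw [e3, Finset.sum_mul, Finset.mul_sum]
      exact Finset.sum_congr rfl fun w _ => by ring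
    rw [e2, Basic.ex_sum]
    exact Finset.sum_congr rfl fun w _ => Basic.ex_mul E p (ψ w) _
  -- one point `w`
  have key : ∀ w ∈ L, ex E p (fun ω => ind (con ω x y) *
      (ind (con ω x w) * Real.exp (h * ms ψ (clu L ω x)))) ≤
      ∑ z ∈ L, tH L E p h ψ x z * (tH L E p h ψ z y * tH L E p h ψ z w) := by
    intro w _
    refine le_trans ?_ (Finset.sum_le_sum fun z _ => bound hF L E h0 h1 hh hψ x y w z)
    rw [← Basic.ex_sum]
    refine Basic.ex_mono h0 h1 fun ω hω => ?_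
    have hn : ∀ z ∈ L, 0 ≤ ind (Sp x y w z ω) * Real.exp (h * ms ψ (clu L ω x)) := fun z _ =>
      mul_nonneg (Basic.ind_nonneg _) (Real.exp_pos _).le
    by_cases c1 : con ω x y
    · by_cases c2 : con ω x w
      · obtain ⟨z, I₁, I₂, I₃, a1, a2, a3, a4, a5, a6, a7, a8, a9, a10⟩ := hX V ω x y w c1 c2
        have hz : z ∈ L := (hC V L E ω D hG hω).2.2.2.1 x z hx (con_mono a1 a7)
        have hs : Sp x y w z ω := ⟨I₁, I₂, I₃, a1, a2, a3, a4, a5, a6, a7, a8, a9, a10⟩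
        refine le_trans (le_of_eq ?_) (Finset.single_le_sum hn hz)
        simp [ind, c1, c2, hs]
      · have e0 : ind (con ω x w) = 0 := by simp [ind, c2]
        rw [e0, zero_mul, mul_zero]
        exact Finset.sum_nonneg hn
    · have e0 : ind (con ω x y) = 0 := by simp [ind, c1]
      rw [e0, zero_mul]
      exact Finset.sum_nonneg hn
  -- the mean mass
  have hcH : ∀ z, cH L E p h ψ z = ∑ w ∈ L, ψ w * tH L E p h ψ z w := by
    intro z
    unfold cH tH
    have e2 : (fun ω => ms ψ (clu L ω z) * Real.exp (h * ms ψ (clu L ω z))) =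
        fun ω => ∑ w ∈ L, ψ w * (ind (con ω z w) * Real.exp (h * ms ψ (clu L ω z))) := by
      funext ω
      have e3 : ms ψ (clu L ω z) * Real.exp (h * ms ψ (clu L ω z)) =
          (∑ w ∈ L, ψ w * ind (con ω z w)) * Real.exp (h * ms ψ (clu L ω z)) := by
        rw [← ms_eq]
      rw [e3, Finset.sum_mul]
      exact Finset.sum_congr rfl fun w _ => by ring
    rw [e2, Basic.ex_sum]
    exact Finset.sum_congr rfl fun w _ => Basic.ex_mul E p (ψ w) _
  rw [e1]
  refine (Finset.sum_le_sum fun w hw => mul_le_mul_of_nonneg_left (key w hw) (hψ w)).trans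
    (le_of_eq ?_)
  simp_rw [hcH, Finset.mul_sum]
  rw [Finset.sum_comm]
  refine Finset.sum_congr rfl fun z _ => Finset.sum_congr rfl fun w _ => ?_
  ring

end Pool.CM
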