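import Pool.Agent.Helper22.CM.St

/-! # Project CM, module Uk: the rescaled tail -/

set_option autoImplicit false

open scoped BigOperators ENNReal Topology
open Pool.LE Pool.NL Pool.CL Filter MeasureTheory

namespace Pool.CM

namespace Uk

theorem ind_nonneg (A : Prop) : 0 ≤ ind A := by
  unfold ind
  split_ifs <;> norm_num

/-- averages -/
theorem av_mono {d n : ℕ} {f g : Zd d → ℝ} (h : ∀ x ∈ Bn d n, f x ≤ g x) :
    av d n f ≤ av d n g := by
  unfold av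
  exact div_le_div_of_nonneg_right (Finset.sum_le_sum h) (by positivity)

theorem av_const {d n : ℕ} (hBn : StBn) (hn : 1 ≤ n) (c : ℝ) : av d n (fun _ => c) = c := by
  unfold av
  have hn0 : (0 : ℝ) < n := by exact_mod_cast hn
  rw [Finset.sum_const, (hBn d n).2.1, nsmul_eq_mul]
  push_cast
  field_simp

end Uk

theorem hUk (hT : StTail) (hB : StBasic) (hHub : StHub) (hHh : StHh) (hBn : StBn) : StUk := by
  classical
  intro d C₁ B c₀ CL hE n hn
  have hp0 : 0 ≤ pH d := hE.env.p0.le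
  have hp1 : pH d ≤ 1 := by linarith [hE.env.p1]
  have hC1 : 1 ≤ C₁ := hE.env.hC
  have hn0 : (0 : ℝ) < n := by exact_mod_cast hn
  obtain ⟨hmono, hconst, hadd, hsub, hmul, hsum, hpr, hprm, hcs, hmk⟩ :=
    hB (Zd d) (ES (Bn d n)) (pH d) hp0 hp1
  have h1 : ∀ k x, 0 ≤ uk d n k x := by
    intro k x
    exact mul_nonneg (by positivity) (hpr _).1
  have h2 : ∀ k k' x, k ≤ k' → uk d n k' x ≤ uk d n k x := by
    intro k k' x hk
    refine mul_le_mul_of_nonneg_left (hprm _ _ ?_) (by positivity)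
    intro ω _ h
    exact le_trans (Nat.mul_le_mul_right _ hk) h
  have hcast : ∀ (k : ℕ) (x : Zd d), pB d n (pH d) (fun ω => k * n ^ 4 ≤ XB d n ω x) ≤
      pB d n (pH d) (fun ω => (k : ℝ) * (n : ℝ) ^ 4 ≤ (XB d n ω x : ℝ)) := by
    intro k x
    refine hprm _ _ ?_
    intro ω _ h
    exact_mod_cast h
  have h3 : ∀ k, 1 ≤ k → ∀ x ∈ Bn d n, uk d n k x ≤ C₁ := by
    intro k hk x hx
    have hk1 : (1 : ℝ) ≤ k := by exact_mod_cast hk
    have hc : (0 : ℝ) < (k : ℝ) * (n : ℝ) ^ 4 := by positivity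
    have h4 := hmk (fun ω => (XB d n ω x : ℝ)) ((k : ℝ) * (n : ℝ) ^ 4)
      (fun ω _ => Nat.cast_nonneg _) hc
    have h5 : ex (ES (Bn d n)) (pH d) (fun ω => (XB d n ω x : ℝ)) ≤ C₁ * (n : ℝ) ^ 2 := by
      have h6 := hHub d C₁ B c₀ hE.env n hn x hx
      rw [(hHh (Zd d) (Bn d n) (ES (Bn d n)) (2 * d) (pH d) (hBn d n).1 hp0 hp1).1 x] at h6
      exact h6
    have h7 : pB d n (pH d) (fun ω => k * n ^ 4 ≤ XB d n ω x) ≤
        C₁ * (n : ℝ) ^ 2 / ((k : ℝ) * (n : ℝ) ^ 4) :=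
      (hcast k x).trans (h4.trans (div_le_div_of_nonneg_right h5 hc.le))
    unfold uk
    calc (n : ℝ) ^ 2 * pB d n (pH d) (fun ω => k * n ^ 4 ≤ XB d n ω x)
        ≤ (n : ℝ) ^ 2 * (C₁ * (n : ℝ) ^ 2 / ((k : ℝ) * (n : ℝ) ^ 4)) :=
          mul_le_mul_of_nonneg_left h7 (by positivity)
      _ = C₁ / k := by
          field_simp
      _ ≤ C₁ := div_le_self (by linarith) hk1
  have h4 : ∀ (k : ℕ) (θ K : ℝ), 1 ≤ k → 0 ≤ θ → (∀ x ∈ Bn d n, sn d n θ x ≤ K) →
      ∀ x ∈ Bn d n, uk d n k x ≤ K * Real.exp (-(θ * k)) := by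
    intro k θ K hk hθ hK x hx
    have hk1 : (1 : ℝ) ≤ k := by exact_mod_cast hk
    have hc : (0 : ℝ) < (k : ℝ) * (n : ℝ) ^ 4 := by positivity
    have hK0 : 0 ≤ K := by
      refine le_trans ?_ (hK x hx)
      unfold sn eb
      refine div_nonneg ?_ (by positivity)
      have h5 := hmono (fun _ => (0 : ℝ)) (fun ω => (XB d n ω x : ℝ) *
        Real.exp (θ * XB d n ω x / (n : ℝ) ^ 4)) (fun ω _ => by positivity)
      rw [hconst] at h5
      exact h5
    have h5 := (hT d C₁ B c₀ CL hE n θ K hn hθ hK x hx ((k : ℝ) * (n : ℝ) ^ 4) hc).2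
    have e1 : θ * ((k : ℝ) * (n : ℝ) ^ 4) / (n : ℝ) ^ 4 = θ * k := by
      field_simp
    rw [e1] at h5
    unfold uk
    calc (n : ℝ) ^ 2 * pB d n (pH d) (fun ω => k * n ^ 4 ≤ XB d n ω x)
        ≤ (n : ℝ) ^ 2 * (K * (n : ℝ) ^ 2 * Real.exp (-(θ * k)) / ((k : ℝ) * (n : ℝ) ^ 4)) :=
          mul_le_mul_of_nonneg_left ((hcast k x).trans h5) (by positivity)
      _ = K * Real.exp (-(θ * k)) / k := by
          field_simp
      _ ≤ K * Real.exp (-(θ * k)) :=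
          div_le_self (mul_nonneg hK0 (Real.exp_pos _).le) hk1
  refine ⟨h1, h2, h3, h4, ?_, ?_, ?_⟩
  · intro k k' hk
    unfold ph2
    apply Uk.av_mono
    intro x _
    exact pow_le_pow_left₀ (h1 k' x) (h2 k k' x hk) 2
  · intro k
    unfold ph2 av
    have hcard : ((Bn d n).card : ℝ) = (n : ℝ) ^ d := by
      rw [(hBn d n).2.1]
      push_cast
      rfl
    have h5 := sq_sum_le_card_mul_sum_sq (s := Bn d n) (f := fun x => uk d n k x)
    rw [hcard] at h5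
    have hnd : (0 : ℝ) < (n : ℝ) ^ d := by positivity
    rw [div_pow, div_le_div_iff₀ (by positivity) hnd]
    calc (∑ x ∈ Bn d n, uk d n k x) ^ 2 * (n : ℝ) ^ d
        ≤ ((n : ℝ) ^ d * ∑ x ∈ Bn d n, uk d n k x ^ 2) * (n : ℝ) ^ d :=
          mul_le_mul_of_nonneg_right h5 hnd.le
      _ = (∑ x ∈ Bn d n, uk d n k x ^ 2) * ((n : ℝ) ^ d) ^ 2 := by ring
  · intro k Q hQ
    unfold ph2
    calc av d n (fun x => uk d n k x ^ 2) ≤ av d n (fun _ => Q ^ 2) := by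
          apply Uk.av_mono
          intro x hx
          exact pow_le_pow_left₀ (h1 k x) (hQ x hx) 2
      _ = Q ^ 2 := Uk.av_const hBn hn _

end Pool.CM
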