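import Pool.Agent.Helper22.CM.St
import Pool.Agent.Helper84.LE.BGR

/-! # Project CM: upper bounds for the bridges (module UpJz) -/

set_option autoImplicit false

open scoped BigOperators ENNReal Topology
open Pool.LE Pool.NL Pool.CL Filter MeasureTheory

namespace Pool.CM

namespace UpJz

private theorem pr_nonneg {V : Type} [DecidableEq V] (E : Finset (Sym2 V)) {p : ℝ} (h0 : 0 ≤ p)
    (h1 : p ≤ 1) (A : Finset (Sym2 V) → Prop) : 0 ≤ pr E p A := by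
  classical
  unfold pr Ex
  refine Finset.sum_nonneg fun ω _ => ?_
  rw [smul_eq_mul]
  refine mul_nonneg ?_ ?_
  · unfold wt
    exact mul_nonneg (pow_nonneg h0 _) (pow_nonneg (by linarith) _)
  · change (0 : ℝ) ≤ ind (A ω)
    unfold ind
    split_ifs <;> norm_num

/-- sum over the directed edges of a function of the first end -/
private theorem sfst {V : Type} [DecidableEq V] (L : Finset V) (E : Finset (Sym2 V)) (D : ℕ)
    (hin : ∀ q ∈ drt E, q.1 ∈ L) (hdeg : ∀ u, ((drt E).filter (fun q => q.1 = u)).card ≤ D)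
    (f : V → ℝ) (hf : ∀ u ∈ L, 0 ≤ f u) :
    ∑ q ∈ drt E, f q.1 ≤ D * ∑ u ∈ L, f u := by
  classical
  rw [← Finset.sum_fiberwise_of_maps_to hin (fun q => f q.1), Finset.mul_sum]
  refine Finset.sum_le_sum fun u hu => ?_
  have h1 : ∑ q ∈ (drt E).filter (fun q => q.1 = u), f q.1 =
      ∑ q ∈ (drt E).filter (fun q => q.1 = u), f u :=
    Finset.sum_congr rfl fun q hq => by rw [(Finset.mem_filter.1 hq).2]
  rw [h1, Finset.sum_const, nsmul_eq_mul]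
  exact mul_le_mul_of_nonneg_right (by exact_mod_cast hdeg u) (hf u hu)

/-- sum over the directed edges of a function of the second end -/
private theorem ssnd {V : Type} [DecidableEq V] (L : Finset V) (E : Finset (Sym2 V)) (D : ℕ)
    (hin : ∀ q ∈ drt E, q.2 ∈ L) (hdeg : ∀ u, ((drt E).filter (fun q => q.2 = u)).card ≤ D)
    (f : V → ℝ) (hf : ∀ u ∈ L, 0 ≤ f u) :
    ∑ q ∈ drt E, f q.2 ≤ D * ∑ u ∈ L, f u := by
  classical
  rw [← Finset.sum_fiberwise_of_maps_to hin (fun q => f q.2), Finset.mul_sum]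
  refine Finset.sum_le_sum fun u hu => ?_
  have h1 : ∑ q ∈ (drt E).filter (fun q => q.2 = u), f q.2 =
      ∑ q ∈ (drt E).filter (fun q => q.2 = u), f u :=
    Finset.sum_congr rfl fun q hq => by rw [(Finset.mem_filter.1 hq).2]
  rw [h1, Finset.sum_const, nsmul_eq_mul]
  exact mul_le_mul_of_nonneg_right (by exact_mod_cast hdeg u) (hf u hu)

/-- double sums -/
private theorem dbl {V : Type} [DecidableEq V] (L : Finset V) (E : Finset (Sym2 V)) (D : ℕ)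
    (hin1 : ∀ q ∈ drt E, q.1 ∈ L) (hin2 : ∀ q ∈ drt E, q.2 ∈ L)
    (hd1 : ∀ u, ((drt E).filter (fun q => q.1 = u)).card ≤ D)
    (hd2 : ∀ u, ((drt E).filter (fun q => q.2 = u)).card ≤ D)
    (G : V → V → ℝ) (hG : ∀ u v, 0 ≤ G u v) :
    ∑ a ∈ drt E, ∑ b ∈ drt E, G a.1 b.1 ≤ (D : ℝ) ^ 2 * ∑ u ∈ L, ∑ v ∈ L, G u v ∧
    ∑ a ∈ drt E, ∑ b ∈ drt E, G a.2 b.2 ≤ (D : ℝ) ^ 2 * ∑ u ∈ L, ∑ v ∈ L, G u v := by
  have hD : (0 : ℝ) ≤ D := Nat.cast_nonneg _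
  constructor
  · calc ∑ a ∈ drt E, ∑ b ∈ drt E, G a.1 b.1 ≤ ∑ a ∈ drt E, (D : ℝ) * ∑ v ∈ L, G a.1 v :=
          Finset.sum_le_sum fun a _ => sfst L E D hin1 hd1 (fun v => G a.1 v) fun v _ => hG _ _
      _ = D * ∑ a ∈ drt E, ∑ v ∈ L, G a.1 v := by rw [Finset.mul_sum]
      _ ≤ D * (D * ∑ u ∈ L, ∑ v ∈ L, G u v) := by
          refine mul_le_mul_of_nonneg_left ?_ hD
          exact sfst L E D hin1 hd1 (fun u => ∑ v ∈ L, G u v)
            fun u _ => Finset.sum_nonneg fun v _ => hG _ _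
      _ = (D : ℝ) ^ 2 * ∑ u ∈ L, ∑ v ∈ L, G u v := by ring
  · calc ∑ a ∈ drt E, ∑ b ∈ drt E, G a.2 b.2 ≤ ∑ a ∈ drt E, (D : ℝ) * ∑ v ∈ L, G a.2 v :=
          Finset.sum_le_sum fun a _ => ssnd L E D hin2 hd2 (fun v => G a.2 v) fun v _ => hG _ _
      _ = D * ∑ a ∈ drt E, ∑ v ∈ L, G a.2 v := by rw [Finset.mul_sum]
      _ ≤ D * (D * ∑ u ∈ L, ∑ v ∈ L, G u v) := by
          refine mul_le_mul_of_nonneg_left ?_ hD
          exact ssnd L E D hin2 hd2 (fun u => ∑ v ∈ L, G u v)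
            fun u _ => Finset.sum_nonneg fun v _ => hG _ _
      _ = (D : ℝ) ^ 2 * ∑ u ∈ L, ∑ v ∈ L, G u v := by ring

private theorem JJ_anti {V : Type} [DecidableEq V] (L : Finset V) (E : Finset (Sym2 V)) {m m' : ℕ}
    (h : m ≤ m') (ω : Finset (Sym2 V)) : JJ L E m' ω ⊆ JJ L E m ω := by
  classical
  intro q hq
  unfold JJ at hq ⊢
  rw [Finset.mem_filter] at hq ⊢
  exact ⟨hq.1, h.trans hq.2.1, h.trans hq.2.2.1, hq.2.2.2⟩

private theorem SS1_anti {V : Type} [DecidableEq V] (L : Finset V) (E : Finset (Sym2 V)) {m m' : ℕ}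
    (h : m ≤ m') (ω : Finset (Sym2 V)) : SS1 L E m' ω ≤ SS1 L E m ω := by
  classical
  unfold SS1
  refine Finset.card_le_card ?_
  intro q hq
  rw [Finset.mem_filter, Finset.mem_product] at hq ⊢
  exact ⟨⟨JJ_anti L E h ω hq.1.1, JJ_anti L E h ω hq.1.2⟩, hq.2⟩

end UpJz

open UpJz in
theorem hUpJz (hUpJ : Pool.NL.StUpJ) (hSb : Pool.NL.StSb) (hSc : Pool.NL.StSc)
    (hSd : Pool.NL.StSd) (hLB : StLocB) (hK : StKpC) (hUk : StUk) (hBn : StBn) (hB : StBasic)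
    (hC : StClu) : StUpJz := by
  classical
  intro d C₁ B c₀ CL envC
  have env := envC.env
  have hd := env.hd
  have hC₁ : 0 < C₁ := by linarith [env.hC]
  have hBp : 0 < B := by linarith [env.hB]
  have hp0 : 0 ≤ pH d := env.p0.le
  have hp1 : pH d ≤ 1 := by linarith [env.p1]
  obtain ⟨C₀, hC₀, hU⟩ := hUpJ d C₁ B c₀ 1 env one_pos le_rfl
  obtain ⟨D, hD⟩ : ∃ D : ℝ, D = ((2 * d : ℕ) : ℝ) := ⟨_, rfl⟩
  have hDp : 0 < D := by
    rw [hD]
    have : 0 < 2 * d := by omega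
    exact_mod_cast this
  refine ⟨D ^ 2 + 4 + C₀ + 3 * (D ^ 2 * B) + 1, by positivity, ?_⟩
  intro Q hQ
  refine ⟨⌈C₀ / Q ^ 4⌉₊ + ⌈8 * C₁ ^ 4 / Q ^ 2⌉₊ + 1, by omega, ?_⟩
  intro n k hn hk hq0
  have hn1 : 1 ≤ n := by omega
  obtain ⟨hFG, hcard, -, -, -⟩ := hBn d n
  have hUn := (hU n hn1).2.1
  have hLB' := hLB d C₁ B c₀ CL envC n k hn1 hk
  have hK' := (hK d C₁ B c₀ CL envC n hn1).2.2
  have huk0 := (hUk d C₁ B c₀ CL envC n hn1).1
  obtain ⟨N, hN⟩ : ∃ N : ℝ, N = (n : ℝ) := ⟨_, rfl⟩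
  have hN1 : 1 ≤ N := by rw [hN]; exact_mod_cast hn1
  have hN0 : 0 < N := by linarith
  have hNa : C₀ / Q ^ 4 ≤ N := by
    rw [hN]
    refine (Nat.le_ceil _).trans ?_
    exact_mod_cast (by omega : ⌈C₀ / Q ^ 4⌉₊ ≤ n)
  have hNb : 8 * C₁ ^ 4 / Q ^ 2 ≤ N := by
    rw [hN]
    refine (Nat.le_ceil _).trans ?_
    exact_mod_cast (by omega : ⌈8 * C₁ ^ 4 / Q ^ 2⌉₊ ≤ n)
  have hNa' : C₀ ≤ Q ^ 4 * N := by
    rw [div_le_iff₀ (by positivity)] at hNa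
    linarith [mul_comm N (Q ^ 4)]
  have hNb' : 8 * C₁ ^ 4 ≤ Q ^ 2 * N := by
    rw [div_le_iff₀ (by positivity)] at hNb
    linarith [mul_comm N (Q ^ 2)]
  obtain ⟨L, hL⟩ : ∃ L : Finset (Zd d), L = Bn d n := ⟨_, rfl⟩
  obtain ⟨E, hE⟩ : ∃ E : Finset (Sym2 (Zd d)), E = ES (Bn d n) := ⟨_, rfl⟩
  obtain ⟨p, hp⟩ : ∃ p : ℝ, p = pH d := ⟨_, rfl⟩
  obtain ⟨m, hm⟩ : ∃ m : ℕ, m = (k + 1) * n ^ 4 := ⟨_, rfl⟩
  have hgk : ∀ a w, gk d n (k + 1) a w = GG2 L E p m a w := by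
    intro a w
    rw [hL, hE, hp, hm]
    rfl
  have hcardL : L.card = n ^ d := by rw [hL]; exact hcard
  have hcard' : (L.card : ℝ) = N ^ d := by rw [hcardL, hN]; push_cast; ring
  have hm1 : 1 ≤ m := by
    rw [hm]
    exact Nat.one_le_iff_ne_zero.2 (by positivity)
  have hthr : thr 1 n ≤ m := by
    unfold thr
    rw [one_mul]
    have : (n : ℝ) ^ 4 = ((n ^ 4 : ℕ) : ℝ) := by push_cast; ring
    rw [this, Nat.ceil_natCast, hm]
    nlinarith [Nat.zero_le (k * n ^ 4)]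
  have hmN : N ^ 4 ≤ (m : ℝ) := by
    rw [hm, hN]
    push_cast
    have h1 : (0 : ℝ) ≤ (k : ℝ) * (n : ℝ) ^ 4 := by positivity
    nlinarith
  -- the tail
  obtain ⟨q, hq⟩ : ∃ q : ℝ, q = Q / N ^ 2 := ⟨_, rfl⟩
  have hqp : 0 < q := by rw [hq]; positivity
  have hbas := hB (Zd d) E p (by rw [hp]; exact hp0) (by rw [hp]; exact hp1)
  have hmono := hbas.1
  have hprm := hbas.2.2.2.2.2.2.2.1
  have hprq : ∀ x ∈ L, pr E p (fun ω => m ≤ Xc L ω x) ≤ q := by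
    intro x hx
    have h1 : pr E p (fun ω => m ≤ Xc L ω x) ≤ pr E p (fun ω => k * n ^ 4 ≤ Xc L ω x) := by
      refine hprm _ _ fun ω _ h => ?_
      refine le_trans ?_ h
      rw [hm]
      exact Nat.mul_le_mul_right _ (Nat.le_succ k)
    refine h1.trans ?_
    have h2 := hq0 x (by rw [← hL]; exact hx)
    unfold uk pB XB at h2
    rw [← hE, ← hp, ← hL, ← hN] at h2
    rw [hq, le_div_iff₀ (by positivity)]
    linarith [mul_comm (pr E p (fun ω => k * n ^ 4 ≤ Xc L ω x)) (N ^ 2)]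
  rw [← hE, ← hL] at hFG
  have hp0' : 0 ≤ p := by rw [hp]; exact hp0
  have hp1' : p ≤ 1 := by rw [hp]; exact hp1
  -- degrees
  have hmem : ∀ r ∈ drt E, r.1 ∈ L ∧ r.2 ∈ L := by
    intro r hr
    have h1 : s(r.1, r.2) ∈ E := mem_drt'.1 hr
    exact ⟨hFG.inside _ h1 _ (Sym2.mem_mk_left _ _), hFG.inside _ h1 _ (Sym2.mem_mk_right _ _)⟩
  obtain ⟨hdrt, hdeg⟩ := (hC (Zd d) L E ∅ (2 * d) hFG (Finset.empty_subset _)).2.2.2.2.2.2
  have hin1 : ∀ r ∈ drt E, r.1 ∈ L := fun r hr => (hmem r hr).1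
  have hin2 : ∀ r ∈ drt E, r.2 ∈ L := fun r hr => (hmem r hr).2
  -- the kernels
  have hG0 : ∀ x y, 0 ≤ G0 d n x y := fun x y => pr_nonneg _ hp0 hp1 _
  have hc2 : ∀ x y, 0 ≤ c2 d n x y := fun x y =>
    Finset.sum_nonneg fun z _ => mul_nonneg (hG0 _ _) (hG0 _ _)
  have hc3 : ∀ x y, 0 ≤ c3 d n x y := fun x y =>
    Finset.sum_nonneg fun z _ => Finset.sum_nonneg fun z' _ =>
      mul_nonneg (mul_nonneg (hG0 _ _) (hG0 _ _)) (hG0 _ _)
  have hGn : ∀ u v, 0 ≤ GG2 L E p m u v := fun u v => pr_nonneg E hp0' hp1' _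
  have hG : ∀ u ∈ L, ∀ v ∈ L, GG2 L E p m u v ≤
      Q / N ^ 2 * c2 d n u v + 2 * C₁ ^ 2 / N ^ 4 * c3 d n u v := by
    intro u hu v hv
    rw [← hgk]
    refine (hLB' u (by rw [← hL]; exact hu) v (by rw [← hL]; exact hv)).trans ?_
    rw [← hN]
    have h1 : c2f d n (uk d n k) u v ≤ Q * c2 d n u v := by
      unfold c2f c2
      rw [Finset.mul_sum]
      refine Finset.sum_le_sum fun z hz => ?_
      have h2 : G0 d n u z * (G0 d n z v * uk d n k z) ≤ G0 d n u z * (G0 d n z v * Q) :=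
        mul_le_mul_of_nonneg_left (mul_le_mul_of_nonneg_left (hq0 z hz) (hG0 _ _)) (hG0 _ _)
      linarith
    have h3 : c2f d n (uk d n k) u v / N ^ 2 ≤ Q / N ^ 2 * c2 d n u v := by
      rw [div_mul_eq_mul_div]
      exact div_le_div_of_nonneg_right h1 (by positivity)
    linarith
  have hS : ∑ u ∈ L, ∑ v ∈ L, GG2 L E p m u v ^ 2 ≤
      N ^ d * (2 * Q ^ 2 / N ^ 4 * B + 8 * C₁ ^ 4 / N ^ 8 * B) := by
    calc ∑ u ∈ L, ∑ v ∈ L, GG2 L E p m u v ^ 2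
        ≤ ∑ u ∈ L, ∑ v ∈ L, (2 * Q ^ 2 / N ^ 4 * (c2 d n u v * c2 d n u v) +
            8 * C₁ ^ 4 / N ^ 8 * (c3 d n u v * c3 d n u v)) := by
          refine Finset.sum_le_sum fun u hu => Finset.sum_le_sum fun v hv => ?_
          refine (pow_le_pow_left₀ (hGn _ _) (hG u hu v hv) 2).trans ?_
          have e1 : 2 * Q ^ 2 / N ^ 4 * (c2 d n u v * c2 d n u v) =
              2 * (Q / N ^ 2 * c2 d n u v) ^ 2 := by
            field_simp
          have e2 : 8 * C₁ ^ 4 / N ^ 8 * (c3 d n u v * c3 d n u v) =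
              2 * (2 * C₁ ^ 2 / N ^ 4 * c3 d n u v) ^ 2 := by
            field_simp
            ring
          rw [e1, e2]
          nlinarith [sq_nonneg (Q / N ^ 2 * c2 d n u v - 2 * C₁ ^ 2 / N ^ 4 * c3 d n u v)]
      _ = ∑ u ∈ L, (2 * Q ^ 2 / N ^ 4 * (∑ v ∈ L, c2 d n u v * c2 d n u v) +
            8 * C₁ ^ 4 / N ^ 8 * (∑ v ∈ L, c3 d n u v * c3 d n u v)) := by
          refine Finset.sum_congr rfl fun u _ => ?_
          rw [Finset.sum_add_distrib, Finset.mul_sum, Finset.mul_sum]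
      _ ≤ ∑ u ∈ L, (2 * Q ^ 2 / N ^ 4 * B + 8 * C₁ ^ 4 / N ^ 8 * B) := by
          refine Finset.sum_le_sum fun u hu => ?_
          have h1 := hK' u (by rw [← hL]; exact hu) u (by rw [← hL]; exact hu)
          rw [← hL] at h1
          exact add_le_add (mul_le_mul_of_nonneg_left h1.1 (by positivity))
            (mul_le_mul_of_nonneg_left h1.2.2 (by positivity))
      _ = N ^ d * (2 * Q ^ 2 / N ^ 4 * B + 8 * C₁ ^ 4 / N ^ 8 * B) := by
          rw [Finset.sum_const, nsmul_eq_mul, hcard']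
  have hS' : ∑ u ∈ L, ∑ v ∈ L, GG2 L E p m u v ^ 2 ≤ 3 * B * Q ^ 2 * N ^ (d - 4) := by
    refine hS.trans ?_
    have e1 : N ^ d = N ^ (d - 4) * N ^ 4 := by rw [← pow_add]; congr 1; omega
    have h1 : 8 * C₁ ^ 4 / N ^ 8 ≤ Q ^ 2 / N ^ 4 := by
      rw [div_le_div_iff₀ (by positivity) (by positivity)]
      have h2 : N ≤ N ^ 4 := le_self_pow₀ hN1 (by norm_num)
      calc 8 * C₁ ^ 4 * N ^ 4 ≤ Q ^ 2 * N * N ^ 4 :=
            mul_le_mul_of_nonneg_right hNb' (by positivity)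
        _ ≤ Q ^ 2 * N ^ 4 * N ^ 4 :=
            mul_le_mul_of_nonneg_right (mul_le_mul_of_nonneg_left h2 (by positivity)) (by positivity)
        _ = Q ^ 2 * N ^ 8 := by ring
    have h3 : 8 * C₁ ^ 4 / N ^ 8 * B ≤ Q ^ 2 / N ^ 4 * B := mul_le_mul_of_nonneg_right h1 hBp.le
    calc N ^ d * (2 * Q ^ 2 / N ^ 4 * B + 8 * C₁ ^ 4 / N ^ 8 * B)
        ≤ N ^ d * (2 * Q ^ 2 / N ^ 4 * B + Q ^ 2 / N ^ 4 * B) :=
          mul_le_mul_of_nonneg_left (by linarith) (by positivity)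
      _ = 3 * B * Q ^ 2 * N ^ (d - 4) := by
          rw [e1]
          field_simp
          ring
  have hSS2 : ∑ a ∈ drt E, ∑ b ∈ drt E, GG2 L E p m a.1 b.1 * GG2 L E p m a.2 b.2 ≤
      3 * (D ^ 2 * B) * Q ^ 2 * N ^ (d - 4) := by
    have h1 := dbl L E (2 * d) hin1 hin2 (fun u => (hdeg u).1) (fun u => (hdeg u).2)
      (fun u v => GG2 L E p m u v ^ 2) (fun u v => sq_nonneg _)
    rw [← hD] at h1
    calc ∑ a ∈ drt E, ∑ b ∈ drt E, GG2 L E p m a.1 b.1 * GG2 L E p m a.2 b.2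
        ≤ ∑ a ∈ drt E, ∑ b ∈ drt E, ((1 / 2) * GG2 L E p m a.1 b.1 ^ 2 +
            (1 / 2) * GG2 L E p m a.2 b.2 ^ 2) := by
          refine Finset.sum_le_sum fun a _ => Finset.sum_le_sum fun b _ => ?_
          nlinarith [sq_nonneg (GG2 L E p m a.1 b.1 - GG2 L E p m a.2 b.2)]
      _ = (1 / 2) * (∑ a ∈ drt E, ∑ b ∈ drt E, GG2 L E p m a.1 b.1 ^ 2) +
            (1 / 2) * (∑ a ∈ drt E, ∑ b ∈ drt E, GG2 L E p m a.2 b.2 ^ 2) := by
          simp only [Finset.sum_add_distrib, Finset.mul_sum]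
      _ ≤ (1 / 2) * (D ^ 2 * (3 * B * Q ^ 2 * N ^ (d - 4))) +
            (1 / 2) * (D ^ 2 * (3 * B * Q ^ 2 * N ^ (d - 4))) := by
          refine add_le_add ?_ ?_
          · refine mul_le_mul_of_nonneg_left (h1.1.trans ?_) (by norm_num)
            exact mul_le_mul_of_nonneg_left hS' (by positivity)
          · refine mul_le_mul_of_nonneg_left (h1.2.trans ?_) (by norm_num)
            exact mul_le_mul_of_nonneg_left hS' (by positivity)
      _ = 3 * (D ^ 2 * B) * Q ^ 2 * N ^ (d - 4) := by ring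
  have hP0 : ∀ j : ℕ, 0 ≤ N ^ j := fun j => pow_nonneg hN0.le j
  have hE1 : ex E p (fun ω => (SS1 L E m ω : ℝ)) ≤ C₀ * N ^ (d - 2) := by
    have h1 : ex E p (fun ω => (SS1 L E m ω : ℝ)) ≤ ex E p (fun ω => (SS1 L E (thr 1 n) ω : ℝ)) :=
      hmono _ _ fun ω _ => by exact_mod_cast SS1_anti L E hthr ω
    refine h1.trans ?_
    unfold eB at hUn
    rw [← hE, ← hp, ← hL, ← hN] at hUn
    exact hUn
  unfold eb
  rw [← hE, ← hp, ← hL, ← hN, ← hm]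
  refine ⟨?_, ?_, ?_, ?_⟩
  · refine (hSc (Zd d) L E (2 * d) p q m hFG hp0' hp1' hqp.le hprq).trans ?_
    have h1 : ((drt E).card : ℝ) ≤ D * N ^ d := by
      rw [hD, ← hcard']
      exact_mod_cast hdrt
    have h2 : ((drt E).card : ℝ) ^ 2 * q ^ 4 ≤ D ^ 2 * (Q ^ 4 * N ^ (2 * d - 8)) := by
      calc ((drt E).card : ℝ) ^ 2 * q ^ 4 ≤ (D * N ^ d) ^ 2 * q ^ 4 :=
            mul_le_mul_of_nonneg_right (pow_le_pow_left₀ (Nat.cast_nonneg _) h1 2) (by positivity)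
        _ = D ^ 2 * (Q ^ 4 * N ^ (2 * d - 8)) := by
            have e1 : (N ^ d) ^ 2 = N ^ (2 * d - 8) * N ^ 8 := by
              rw [← pow_mul, ← pow_add]; congr 1; omega
            rw [mul_pow, e1, hq]
            field_simp
    have h3 : C₀ * N ^ (d - 2) ≤ Q ^ 4 * N ^ (2 * d - 8) := by
      have e1 : N ^ (2 * d - 8) = N ^ (d - 7) * (N * N ^ (d - 2)) := by
        rw [← pow_succ', ← pow_add]; congr 1; omega
      calc C₀ * N ^ (d - 2) ≤ Q ^ 4 * N * N ^ (d - 2) := mul_le_mul_of_nonneg_right hNa' (hP0 _)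
        _ = 1 * (Q ^ 4 * (N * N ^ (d - 2))) := by ring
        _ ≤ N ^ (d - 7) * (Q ^ 4 * (N * N ^ (d - 2))) :=
            mul_le_mul_of_nonneg_right (one_le_pow₀ hN1) (by positivity)
        _ = Q ^ 4 * N ^ (2 * d - 8) := by rw [e1]; ring
    have h4 : 0 ≤ (C₀ + 3 * (D ^ 2 * B) + 1) * (Q ^ 4 * N ^ (2 * d - 8)) := by positivity
    have e2 : (D ^ 2 + 4 + C₀ + 3 * (D ^ 2 * B) + 1) * Q ^ 4 * N ^ (2 * d - 8) =
        D ^ 2 * (Q ^ 4 * N ^ (2 * d - 8)) + 4 * (Q ^ 4 * N ^ (2 * d - 8)) +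
          (C₀ + 3 * (D ^ 2 * B) + 1) * (Q ^ 4 * N ^ (2 * d - 8)) := by ring
    rw [e2]
    linarith
  · refine hE1.trans (mul_le_mul_of_nonneg_right ?_ (hP0 _))
    have h1 : 0 < D ^ 2 := by positivity
    have h2 : 0 < D ^ 2 * B := by positivity
    linarith
  · refine ((hSb (Zd d) L E (2 * d) p m hFG hp0' hp1').trans hSS2).trans ?_
    have h2 : 0 ≤ (D ^ 2 + 4 + C₀ + 1) * (Q ^ 2 * N ^ (d - 4)) := by positivity
    have e2 : (D ^ 2 + 4 + C₀ + 3 * (D ^ 2 * B) + 1) * Q ^ 2 * N ^ (d - 4) =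
        3 * (D ^ 2 * B) * Q ^ 2 * N ^ (d - 4) +
          (D ^ 2 + 4 + C₀ + 1) * (Q ^ 2 * N ^ (d - 4)) := by ring
    rw [e2]
    linarith
  · refine (hSd (Zd d) L E (2 * d) p q m hFG hp0' hp1' hm1 hprq).trans ?_
    have hm0 : (0 : ℝ) < m := by exact_mod_cast hm1
    have h1 : (L.card : ℝ) * q / m ≤ Q * N ^ (d - 6) := by
      rw [hcard', div_le_iff₀ hm0]
      have e1 : N ^ d = N ^ (d - 6) * N ^ 6 := by rw [← pow_add]; congr 1; omega
      calc N ^ d * q = Q * N ^ (d - 6) * N ^ 4 := by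
            rw [e1, hq]; field_simp
        _ ≤ Q * N ^ (d - 6) * m := mul_le_mul_of_nonneg_left hmN (by positivity)
    refine h1.trans ?_
    have h2 : 0 ≤ (D ^ 2 + 4 + C₀ + 3 * (D ^ 2 * B)) * (Q * N ^ (d - 6)) := by positivity
    have e2 : (D ^ 2 + 4 + C₀ + 3 * (D ^ 2 * B) + 1) * Q * N ^ (d - 6) =
        Q * N ^ (d - 6) + (D ^ 2 + 4 + C₀ + 3 * (D ^ 2 * B)) * (Q * N ^ (d - 6)) := by ring
    rw [e2]
    linarith

end Pool.CM
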