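import Pool.Agent.Helper22.CM.St

/-! # Project CM, module UpZ: upper bound for the largest cluster -/

set_option autoImplicit false

open scoped BigOperators ENNReal Topology
open Pool.LE Pool.NL Pool.CL Filter MeasureTheory

namespace Pool.CM

namespace UpZ

theorem ind01 (A : Prop) : 0 ≤ ind A ∧ ind A ≤ 1 := by
  unfold ind
  split_ifs <;> norm_num

theorem indT {A : Prop} (h : A) : ind A = 1 := by
  unfold ind
  rw [if_pos h]

theorem indF {A : Prop} (h : ¬ A) : ind A = 0 := by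
  unfold ind
  rw [if_neg h]

end UpZ

open UpZ in
theorem hUpZ (hT : StTail) (hB : StBasic) (hBn : StBn) (hC : StClu) : StUpZ := by
  classical
  intro d C₁ B c₀ CL hE θ K A hθ hA hS hdA
  have hp0 : 0 ≤ pH d := hE.env.p0.le
  have hp1 : pH d ≤ 1 := by linarith [hE.env.p1]
  have main : ∀ n : ℕ, 3 ≤ n → 1 - K / (A ^ 2 * Real.log n ^ 2) ≤
      pB d n (pH d) (fun ω => ∀ x ∈ Bn d n, (XB d n ω x : ℝ) ≤ A * (n : ℝ) ^ 4 * Real.log n) := by
    intro n hn
    obtain ⟨hmono, hconst, hadd, hsub, hmul, hsum, hpr, hprm, hcs, hmk⟩ :=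
      hB (Zd d) (ES (Bn d n)) (pH d) hp0 hp1
    have hn3 : (3 : ℝ) ≤ n := by exact_mod_cast hn
    have hn0 : (0 : ℝ) < n := by linarith
    have hlog : 0 < Real.log n := Real.log_pos (by linarith)
    obtain ⟨s, hs⟩ : ∃ s : ℝ, s = A * (n : ℝ) ^ 4 * Real.log n := ⟨_, rfl⟩
    have hs0 : 0 < s := by
      rw [hs]
      positivity
    rw [← hs]
    have hK0 : 0 ≤ K := by
      have h0 : (0 : Zd d) ∈ Bn d n := by
        rw [(hBn d n).2.2.2.1]
        intro i
        constructor
        · exact le_refl _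
        · have h1 : (0 : ℤ) < (n : ℤ) := by omega
          exact h1
      refine le_trans ?_ (hS n (by omega) 0 h0)
      unfold sn eb
      refine div_nonneg ?_ (by positivity)
      have h5 := hmono (fun _ => (0 : ℝ)) (fun ω => (XB d n ω (0 : Zd d) : ℝ) *
        Real.exp (θ * XB d n ω (0 : Zd d) / (n : ℝ) ^ 4)) (fun ω _ => by positivity)
      rw [hconst] at h5
      exact h5
    -- pointwise
    have hpt : ∀ ω, ω ⊆ ES (Bn d n) → (1 : ℝ) ≤
        ind (∀ x ∈ Bn d n, (XB d n ω x : ℝ) ≤ s) +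
          (1 / s) * ∑ x ∈ Bn d n, ind (s ≤ XB d n ω x) := by
      intro ω hω
      have hsn : 0 ≤ ∑ x ∈ Bn d n, ind (s ≤ XB d n ω x) :=
        Finset.sum_nonneg fun x _ => (ind01 _).1
      by_cases hc : ∀ x ∈ Bn d n, (XB d n ω x : ℝ) ≤ s
      · rw [indT hc]
        have : 0 ≤ (1 / s) * ∑ x ∈ Bn d n, ind (s ≤ XB d n ω x) := by positivity
        linarith
      · rw [indF hc, zero_add]
        push Not at hc
        obtain ⟨x, hx, hx2⟩ := hc
        obtain ⟨_, hcl, _⟩ := hC (Zd d) (Bn d n) (ES (Bn d n)) ω (2 * d) (hBn d n).1 hω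
        have h1 : (XB d n ω x : ℝ) ≤ ∑ y ∈ Bn d n, ind (s ≤ XB d n ω y) := by
          calc (XB d n ω x : ℝ) = ∑ _y ∈ clu (Bn d n) ω x, (1 : ℝ) := by
                rw [Finset.sum_const, nsmul_eq_mul, mul_one]
                rfl
            _ ≤ ∑ y ∈ clu (Bn d n) ω x, ind (s ≤ XB d n ω y) := by
                apply Finset.sum_le_sum
                intro y hy
                have hy2 : con ω x y := (Finset.mem_filter.1 hy).2
                have h2 : XB d n ω y = XB d n ω x := ((hcl x y hy2).2).symm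
                rw [h2, indT hx2.le]
            _ ≤ ∑ y ∈ Bn d n, ind (s ≤ XB d n ω y) :=
                Finset.sum_le_sum_of_subset_of_nonneg (Finset.filter_subset _ _)
                  (fun y _ _ => (ind01 _).1)
        have h3 : s ≤ ∑ y ∈ Bn d n, ind (s ≤ XB d n ω y) := by linarith
        calc (1 : ℝ) = (1 / s) * s := by
              field_simp
          _ ≤ (1 / s) * ∑ y ∈ Bn d n, ind (s ≤ XB d n ω y) :=
              mul_le_mul_of_nonneg_left h3 (by positivity)
    have h := hmono (fun _ => (1 : ℝ)) _ hpt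
    rw [hconst, hadd, hmul, hsum] at h
    -- one point
    have key : ∀ x ∈ Bn d n, ex (ES (Bn d n)) (pH d) (fun ω => ind (s ≤ XB d n ω x)) ≤
        K * (n : ℝ) ^ 2 * Real.exp (-(((d : ℝ) - 6) * Real.log n)) / s := by
      intro x hx
      have h1 := (hT d C₁ B c₀ CL hE n θ K (by omega) hθ.le (fun y hy => hS n (by omega) y hy)
        x hx s hs0).2
      refine le_trans h1 ?_
      apply div_le_div_of_nonneg_right _ hs0.le
      apply mul_le_mul_of_nonneg_left _ (by positivity)
      apply Real.exp_le_exp.2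
      have e1 : θ * s / (n : ℝ) ^ 4 = θ * A * Real.log n := by
        rw [hs]
        field_simp
      rw [e1]
      have h2 := mul_le_mul_of_nonneg_right hdA hlog.le
      linarith
    have h2 : ∑ x ∈ Bn d n, ex (ES (Bn d n)) (pH d) (fun ω => ind (s ≤ XB d n ω x)) ≤
        ∑ _x ∈ Bn d n, K * (n : ℝ) ^ 2 * Real.exp (-(((d : ℝ) - 6) * Real.log n)) / s :=
      Finset.sum_le_sum key
    have h3 : (1 / s) * ∑ _x ∈ Bn d n,
        K * (n : ℝ) ^ 2 * Real.exp (-(((d : ℝ) - 6) * Real.log n)) / s =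
        K / (A ^ 2 * Real.log n ^ 2) := by
      have hexp : Real.exp (-(((d : ℝ) - 6) * Real.log n)) = (n : ℝ) ^ 6 / (n : ℝ) ^ d := by
        have e1 : -(((d : ℝ) - 6) * Real.log n) =
            ((6 : ℕ) : ℝ) * Real.log n - (d : ℝ) * Real.log n := by
          push_cast
          ring
        rw [e1, Real.exp_sub, Real.exp_nat_mul, Real.exp_nat_mul, Real.exp_log hn0]
      rw [Finset.sum_const, (hBn d n).2.1, nsmul_eq_mul, hexp, hs]
      push_cast
      field_simp
    have h4 : (1 / s) * ∑ x ∈ Bn d n, ex (ES (Bn d n)) (pH d) (fun ω => ind (s ≤ XB d n ω x)) ≤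
        K / (A ^ 2 * Real.log n ^ 2) := by
      rw [← h3]
      exact mul_le_mul_of_nonneg_left h2 (by positivity)
    have h5 : ex (ES (Bn d n)) (pH d) (fun ω => ind (∀ x ∈ Bn d n, (XB d n ω x : ℝ) ≤ s)) =
      pB d n (pH d) (fun ω => ∀ x ∈ Bn d n, (XB d n ω x : ℝ) ≤ s) := rfl
    rw [h5] at h
    linarith
  refine tendsto_of_tendsto_of_tendsto_of_le_of_le'
    (g := fun n : ℕ => 1 - K / (A ^ 2 * Real.log (n : ℝ) ^ 2))
    (h := fun _ => (1 : ℝ)) ?_ tendsto_const_nhds ?_ ?_
  · have h1 : Tendsto (fun n : ℕ => Real.log (n : ℝ)) atTop atTop :=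
      Real.tendsto_log_atTop.comp tendsto_natCast_atTop_atTop
    have h2 : Tendsto (fun n : ℕ => Real.log (n : ℝ) ^ 2) atTop atTop :=
      (tendsto_pow_atTop two_ne_zero).comp h1
    have h3 : Tendsto (fun n : ℕ => A ^ 2 * Real.log (n : ℝ) ^ 2) atTop atTop :=
      h2.const_mul_atTop (by positivity)
    have h4 : Tendsto (fun n : ℕ => K / (A ^ 2 * Real.log (n : ℝ) ^ 2)) atTop (𝓝 0) :=
      h3.const_div_atTop K
    have h5 := (tendsto_const_nhds (x := (1 : ℝ))).sub h4
    simpa using h5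
  · filter_upwards [eventually_ge_atTop 3] with n hn
    exact main n hn
  · filter_upwards with n
    exact ((hB (Zd d) (ES (Bn d n)) (pH d) hp0 hp1).2.2.2.2.2.2.1 _).2.1

end Pool.CM
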