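import Pool.Agent.Helper22.CM.St

/-! # Project CM: assembly of parts E and F -/

set_option autoImplicit false

open scoped BigOperators ENNReal Topology
open Pool.LE Pool.NL Pool.CL Filter MeasureTheory

namespace Pool.CM

theorem hZbox (hCr : StCrLim) (hRad : StRad) (hUp : StUpZ) (hLow : StLowZ) (hB : StBasic) :
    StZbox := by
  intro d C₁ B c₀ CL hE
  have hp0 : 0 ≤ pH d := hE.env.p0.le
  have hp1 : pH d ≤ 1 := by linarith [hE.env.p1]
  have hd : (21 : ℝ) ≤ (d : ℝ) := by exact_mod_cast hE.env.hd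
  have hCC : CC d (fun _ _ => (1 : ℝ)) := by
    refine ⟨⟨1, fun n x => by simp⟩, fun ε hε => ⟨fun _ => 1, continuous_const, 0, fun n _ => ?_⟩⟩
    simp only [sub_self, abs_zero]
    unfold av
    simp [hε.le]
  have hU : ∀ n : ℕ, U01 ((fun (_ : ℕ) (_ : Zd d) => (1 : ℝ)) n) := fun n y =>
    ⟨zero_le_one, le_rfl⟩
  choose c hc using hCr d C₁ B c₀ CL hE (fun _ _ => 1) hU hCC
  obtain ⟨R, hR⟩ := hRad d C₁ B c₀ CL hE c hc
  have hR0 := hR.pos
  set a : ℝ := ((d : ℝ) - 6) / R with ha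
  have ha0 : 0 < a := div_pos (by linarith) hR0
  have haR : a * R = (d : ℝ) - 6 := by rw [ha]; field_simp
  refine ⟨a, ha0, fun ε hε => ⟨?_, ?_⟩⟩
  · have hA : 0 < a + ε := by linarith
    set θ : ℝ := ((d : ℝ) - 6) / (a + ε) with hθ
    have hθ0 : 0 < θ := div_pos (by linarith) hA
    have hθA : θ * (a + ε) = (d : ℝ) - 6 := by rw [hθ]; field_simp
    have hθR : θ < R := by
      by_contra h
      push_neg at h
      nlinarith [mul_le_mul_of_nonneg_right h hA.le, mul_pos hR0 hε]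
    obtain ⟨K, hK, hS⟩ := hR.sub θ hθ0.le hθR
    exact hUp d C₁ B c₀ CL hE θ K (a + ε) hθ0 hA hS hθA.ge
  · set ε' : ℝ := min ε (a / 2) with hε'
    have h1 : 0 < ε' := lt_min hε (by linarith)
    have h2 : ε' ≤ a / 2 := min_le_right _ _
    have h3 : ε' ≤ ε := min_le_left _ _
    have h4 : (a - ε') * R < (d : ℝ) - 6 := by nlinarith [mul_pos h1 hR0]
    have h5 := hLow d C₁ B c₀ CL hE c R hR (a - ε') (by linarith) h4
    refine tendsto_of_tendsto_of_tendsto_of_le_of_le' h5 tendsto_const_nhds ?_ ?_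
    · refine eventually_atTop.2 ⟨1, fun n hn => ?_⟩
      refine (hB (Zd d) (ES (Bn d n)) (pH d) hp0 hp1).2.2.2.2.2.2.2.1 _ _ ?_
      rintro ω - ⟨x, hx, hX⟩
      refine ⟨x, hx, le_trans ?_ hX⟩
      have h6 : 0 ≤ (n : ℝ) ^ 4 * Real.log n :=
        mul_nonneg (by positivity) (Real.log_nonneg (by exact_mod_cast hn))
      nlinarith [mul_le_mul_of_nonneg_right (show a - ε ≤ a - ε' by linarith) h6]
    · exact Eventually.of_forall fun n =>
        ((hB (Zd d) (ES (Bn d n)) (pH d) hp0 hp1).2.2.2.2.2.2.1 _).2.1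

end Pool.CM
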