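import Pool.Agent.Helper22.CM.Bundle
import Pool.Agent.Helper22.CM.M_E1
import Pool.Agent.Helper22.CM.M_E2
import Pool.Agent.Helper22.CM.M_E3
import Pool.Agent.Helper22.CM.M_Ext3
import Pool.Agent.Helper22.CM.M_F0
import Pool.Agent.Helper22.CM.M_F1
import Pool.Agent.Helper22.CM.M_FBK
import Pool.Agent.Helper22.CM.M_FamZ
import Pool.Agent.Helper22.CM.M_Hang
import Pool.Agent.Helper22.CM.M_KpC
import Pool.Agent.Helper22.CM.M_LocB
import Pool.Agent.Helper22.CM.M_LocCS
import Pool.Agent.Helper22.CM.M_Loss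
import Pool.Agent.Helper22.CM.M_LowJz
import Pool.Agent.Helper22.CM.M_LowZ
import Pool.Agent.Helper22.CM.M_ODE
import Pool.Agent.Helper22.CM.M_Pair3
import Pool.Agent.Helper22.CM.M_Path
import Pool.Agent.Helper22.CM.M_Phq
import Pool.Agent.Helper22.CM.M_Rad
import Pool.Agent.Helper22.CM.M_Sec3
import Pool.Agent.Helper22.CM.M_Ser
import Pool.Agent.Helper22.CM.M_ShiftU
import Pool.Agent.Helper22.CM.M_SprZ
import Pool.Agent.Helper22.CM.M_SurgS
import Pool.Agent.Helper22.CM.M_TGh
import Pool.Agent.Helper22.CM.M_Tail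
import Pool.Agent.Helper22.CM.M_TraZ
import Pool.Agent.Helper22.CM.M_TreeH
import Pool.Agent.Helper22.CM.M_Uk
import Pool.Agent.Helper22.CM.M_UpJz
import Pool.Agent.Helper22.CM.M_UpZ
import Pool.Agent.Helper22.CM.M_Zbox
import Pool.Agent.Helper65.CL.M_Tr
import Pool.Agent.Helper65.CL.M_Bd

/-! # Project CM: the z-case of parts E and F -/

set_option autoImplicit false

open scoped BigOperators ENNReal Topology
open Pool.LE Pool.NL Pool.CL Filter MeasureTheory

namespace Pool.CM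

/-- everything proved in parts E and F, from the convergence of the moments, the moment bound and
the energy regularity -/
theorem allZ (hCr : StCrLim) (hM : StMom) (hReg : StReg) : StZbox := by
  have b := Pool.NL.bundle
  have hB := b.bBasic
  have hC := b.bClu
  have hBn := b.bBn
  have hTr : StTr := Pool.CL.hTr
  have hBd : StBd := Pool.CL.hBd
  have hFBK := hFBK hB b.bEdge
  have hFBK3 := hFBK3 hB hFBK
  have hExt3 := hExt3 hHang
  have hPath := hPath hHang
  have hTGh := hTGh hB hFBK3 hExt3 hC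
  have hE1 := hE1 hTGh hODE hB hC hBn
  have hSer := hSer hB hC hBn
  have hE2 := hE2 hTr hSer hB hBn
  have hE3 := hE3 hE1 hE2 hSer hM hBn
  have hTail := hTail hB
  have hUpZ := hUpZ hTail hB hBn hC
  have hRad := hRad hE3 hUpZ b.bLow hM hB
  have hUk := hUk hTail hB b.bHub b.bHh hBn
  have hF0 := hF0 hSer hB b.bHub b.bHh hBn
  have hF1 := hF1 hF0 hUk
  have hKpC := hKpC b.bCpTau b.bTauBasic b.bQw hBn
  have hLocC := hLocC_of (hLocCS hB hFBK3 hPath b.bDRBK hC)
  have hLocB := hLocB hLocC b.bHub hBn hB b.bHh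
  have hLoss := hLoss hLocB hKpC hUk hBn hB
  have hShiftU := hShiftU hReg hUk hBd hB hBn
  have hSurgS := hSurgS b.bSurg hB hBn
  have hPair3 := hPair3 b.bMK hB hC
  have hLowJz := hLowJz hPair3 hLoss hShiftU hSurgS hUk hBn hB
  have hUpJz := hUpJz b.bUpJ b.bSb b.bSc b.bSd hLocB hKpC hUk hBn hB hC
  have hFamZ := hFamZ hF1 hLowJz hUpJz hUk b.bPZ b.bGraph hBn hB
  have hSprZ := hSprZ hFamZ b.bSpr b.bGrow hBn hB hC
  have hTreeH := hTreeH b.bEdge hB hC
  have hTraZ := hTraZ hSprZ hTreeH hPhq hBn hB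
  have hSec3 := hSec3 b.bDist hB hC
  have hLowZ := hLowZ hTraZ hSec3 hTail hBn hB
  exact hZbox hCr hRad hUpZ hLowZ hB

end Pool.CM
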