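import Pool.Agent.Helper84.LE.All
import Pool.Agent.Helper22.NL.Asm
import Pool.Agent.Helper22.NL.M_NNr
import Pool.Agent.Helper22.NL.M_NwR
import Pool.Agent.Helper22.NL.M_LevG
import Pool.Agent.Helper22.NL.M_LevR
import Pool.Agent.Helper22.NL.M_PsiR
import Pool.Agent.Helper22.NL.M_MassG
import Pool.Agent.Helper22.NL.M_MassR
import Pool.Agent.Helper22.NL.M_RecR
import Pool.Agent.Helper22.NL.M_N0R
import Pool.Agent.Helper22.NL.M_DiagR
import Pool.Agent.Helper22.NL.M_TauLeft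
import Pool.Agent.Helper22.NL.M_KpSup
import Pool.Agent.Helper22.NL.M_KpTau
import Pool.Agent.Helper22.NL.M_KpQ
import Pool.Agent.Helper22.NL.M_DiagH
import Pool.Agent.Helper22.NL.M_Fej1
import Pool.Agent.Helper22.NL.M_FejD
import Pool.Agent.Helper22.NL.M_FejP
import Pool.Agent.Helper22.NL.M_A1
import Pool.Agent.Helper22.NL.M_CoefU
import Pool.Agent.Helper22.NL.M_G3
import Pool.Agent.Helper22.NL.M_Fin
import Pool.Agent.Helper22.NL.M_Heq
import Pool.Agent.Helper22.NL.M_LocE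
import Pool.Agent.Helper22.NL.M_FZ
import Pool.Agent.Helper22.NL.M_Test
import Pool.Agent.Helper22.NL.M_A3
import Pool.Agent.Helper22.NL.M_Basic
import Pool.Agent.Helper22.NL.M_Edge
import Pool.Agent.Helper22.NL.M_Clu
import Pool.Agent.Helper22.NL.M_Hh
import Pool.Agent.Helper22.NL.M_TG2
import Pool.Agent.Helper22.NL.M_InsS
import Pool.Agent.Helper22.NL.M_Ker
import Pool.Agent.Helper22.NL.M_MomS
import Pool.Agent.Helper22.NL.M_MK
import Pool.Agent.Helper22.NL.M_Off
import Pool.Agent.Helper22.NL.M_Pair1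
import Pool.Agent.Helper22.NL.M_Pair2
import Pool.Agent.Helper22.NL.M_Surg
import Pool.Agent.Helper22.NL.M_Dist
import Pool.Agent.Helper22.NL.M_Cov
import Pool.Agent.Helper22.NL.M_N2
import Pool.Agent.Helper22.NL.M_CS
import Pool.Agent.Helper22.NL.M_T4
import Pool.Agent.Helper22.NL.M_G2
import Pool.Agent.Helper22.NL.M_Sa
import Pool.Agent.Helper22.NL.M_Sb
import Pool.Agent.Helper22.NL.M_Sc
import Pool.Agent.Helper22.NL.M_Sd
import Pool.Agent.Helper22.NL.M_PZ
import Pool.Agent.Helper22.NL.M_Graph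
import Pool.Agent.Helper22.NL.M_Spr
import Pool.Agent.Helper22.NL.M_Grow
import Pool.Agent.Helper22.NL.M_Tree
import Pool.Agent.Helper22.NL.M_Sec2
import Pool.Agent.Helper22.NL.M_Bn
import Pool.Agent.Helper22.NL.M_CpTau
import Pool.Agent.Helper22.NL.M_Hub
import Pool.Agent.Helper22.NL.M_Tri
import Pool.Agent.Helper22.NL.M_Err
import Pool.Agent.Helper22.NL.M_Shift
import Pool.Agent.Helper22.NL.M_Many
import Pool.Agent.Helper22.NL.M_Line
import Pool.Agent.Helper22.NL.M_Brg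
import Pool.Agent.Helper22.NL.M_X2
import Pool.Agent.Helper22.NL.M_MomB
import Pool.Agent.Helper22.NL.M_Big
import Pool.Agent.Helper22.NL.M_LowJ
import Pool.Agent.Helper22.NL.M_UpJ
import Pool.Agent.Helper22.NL.M_Fam
import Pool.Agent.Helper22.NL.M_SprB
import Pool.Agent.Helper22.NL.M_Tra
import Pool.Agent.Helper22.NL.M_Low
import Pool.Agent.Helper22.NL.M_Up
import Pool.Agent.Helper22.NL.M_LawE
import Pool.Agent.Helper22.NL.M_ClZ

/-! # All proved statements of the projects LE and NL in one structure (MP_65faa7, project CM) -/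

set_option autoImplicit false

open Pool.LE

namespace Pool.NL

/-- the proved statements of LE and NL -/
structure Bundle : Prop where
  bBasic : StBasic
  bClu : StClu
  bHh : StHh
  bBn : StBn
  bEdge : StEdge
  bMK : StMK
  bDist : StDist
  bHub : StHub
  bCpTau : StCpTau
  bUpJ : StUpJ
  bPZ : StPZ
  bGraph : StGraph
  bSpr : StSpr
  bGrow : StGrow
  bSurg : StSurg
  bLow : StLow
  bUp : StUp
  bTauBasic : StTauBasic
  bQw : StQw
  bDRBK : StDRBK
  bBK : StBK
  bBox : StBox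
  bLawE : StLawE
  bClZ : StClZ
  bPc : StPc
  bTauDom : StTauDom
  bTauMono : StTauMono
  bTri : StTri
  bErr : StErr
  bMomB : StMomB
  bMomS : StMomS
  bEnv : StEnv
  bA1 : StA1
  bKpQ : StKpQ
  bA3 : StA3
  bB8 : StB8
  bB7 : StB7
  bB1 : StB1
  bG3 : StG3
  bHeq : StHeq
  bLocE : StLocE
  bFin : StFin
  bCoefU : StCoefU
  bFZ : StFZ
  bFejD : StFejD
  bFejP : StFejP
  bFej1 : StFej1
  bKpTau : StKpTau
  bKpSup : StKpSup
  bTauLeft : StTauLeft
  bNuProb : StNuProb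
  bDh : StDh
  bAE : StAE
  bKft : StKft
  bKpInt : StKpInt
  bRW : StRW
  bInv : StInv
  bCvA : StCvA
  bGcoef : StGcoef
  bSupp : StSupp
  bTest : StTest
  bLine : StLine
  bShift : StShift
  bMany : StMany
  bBig : StBig
  bLowJ : StLowJ
  bFam : StFam
  bSb : StSb
  bSc : StSc
  bSd : StSd
  bSa : StSa
  bG2 : StG2
  bTG2 : StTG2
  bTree : StTree
  bSec2 : StSec2
  bS6d : StS6d
  bCoef : StCoef
  bPH : StPH
  bTRcm : StTRcm
  bMenger : StMenger
  bBase : StBase
  bATT : StATT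
  bEAR : StEAR
  bTransl : StTransl
  bCv : StCv
  bCvFT : StCvFT
  bFTadd : StFTadd
  bFTb : StFTb
  bJf : StJf
  bSec : StSec
  bIso : StIso
  bSymT : StSymT
  bSymG : StSymG
  bCvB : StCvB
  bTheta : StTheta
  bThetaSub : StThetaSub
  bTauBox : StTauBox
  bSub : StSub

theorem bundle : Bundle := by
  have hPE := LE.hPolyExp
  have hPH : StPH := LE.hPH LE.hPhi
  have hDiag := LE.allFinite
  have hCoef : StCoef := LE.allCoef
  have hBox : StBox := LE.hBox
  have hW := LE.hWalkBox hBox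
  have hT := LE.hTransl
  have hCLc := LE.hCoefLoc (LE.hCoefLoc0 hW) hT
  have hGE := LE.hGmEq
  have hRX := LE.hRenX
  have hSupp : StSupp := LE.hSupp hW hBox
  have hGcoef : StGcoef := LE.hGcoef hCoef hCLc hGE hSupp hBox
  have hSyT := LE.hSymT
  have hSyG := LE.hSymG hSyT
  have hPoly := LE.hPoly hGE
  have hTN := LE.hTnNonneg
  have hTS := LE.hTauSum hCLc hBox hW
  have hTauDom : StTauDom := LE.hTauDom hT hBox
  have hTauMono : StTauMono := LE.hTauMono
  have hTauBasic : StTauBasic := LE.hTauBasic hTS hSyT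
  have hQw : StQw := LE.hQw
  have hDZ := LE.hDiagZ hDiag hGcoef hTauDom hTauBasic hQw hBox
  have hNuProb : StNuProb := LE.hNuProb
  have hCos1 : StCos1 := LE.hCos1
  have hRW : StRW := LE.hRW LE.hRW0 (LE.hRW1 hNuProb) (LE.hDh2 hNuProb) hCos1 hNuProb
  have hDh : StDh := LE.hDh
  have hFTb := LE.hFTb
  have hFTadd := LE.hFTadd
  have hCv := LE.hCv hQw
  have hCvFT := LE.hCvFT hCv hFTb
  have hJf := LE.hJf hBox
  have hInv : StInv := LE.hInv hNuProb
  have hKpInt : StKpInt := LE.hKpInt hInv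
  have hIso := LE.hIso
  have hSec := LE.hSec hIso hDh hFTb
  have hBK : StBK := LE.hBK
  have hEM := LE.hExpMom (LE.hExit hBK hT hBox) hTauBasic hBox
  have hSub := LE.hSub hPH hEM hPE hTauBasic
  have hTBx := LE.hTauBox hBox hTauBasic
  have hTC := LE.hTauCont (LE.hTauCont0 hTBx hSub hTauMono hTauBasic) hSub hTauMono hTauBasic
  have hSp := LE.hSphere hBox hTauDom
  have hCI := LE.hChiInf hSp hPH
  have hChL := LE.hChiLim hCI hPH hTauBasic hSub
  obtain ⟨h6a, h6b, h6c, hS6d⟩ := LE.hS6 hSub hTC hChL hPH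
  have hTh := LE.hTheta LE.hRusso (LE.hPivCount hBox) hPH hBox
  have hThS := LE.hThetaSub hSub hTauDom hTauBasic hBox
  have hAE : StAE := LE.hAE
  have hB1 : StB1 := LE.hB1 h6a hS6d hTauBasic
  have hKft : StKft := LE.hKft hB1 hFTb hDh
  have hEta := LE.hEta hB1 hAE hKft hRW hKpInt hDZ hTauBasic hDh
  have hCvA : StCvA := LE.hCvA hSyG hFTb
  have hCvB := LE.hCvB hTS hTauBasic hRX hSupp hBox hTN hCvA
  have hImpF := LE.hImpF hCv hCvFT hFTadd hJf hFTb
  have hImp := LE.hImp hImpF LE.hImpR hSec hDh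
  have hBoot := LE.hBoot hB1 hEta hCvA hCvB hImp hTauBasic
  have hOCc := LE.hOCc h6b hB1 hFTadd hFTb hDh
  have hB7 : StB7 := LE.hB7 hBoot LE.hOC0 (LE.hOC1 hOCc) LE.hCon01 hS6d
  have hLim := LE.hLim hPoly
  have hGc := LE.hGcont hPoly hSupp
  have hCrit := LE.hCrit h6a h6c hTauBasic hCvA hCvB hImpF hGc hS6d hB1
  have hB8 : StB8 := LE.hB8 hB7 hLim hCrit hS6d
  have hLaw : StLaw := LE.hLaw hBox
  have hPc : StPc := LE.hPc hLaw (LE.hGinf hBox) hTh hThS hPH
  have hBR : StBR := LE.hBR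
  have hLastU : StLastU := LE.hLastU
  have hMenger : StMenger := LE.hMenger
  have hTRcm : StTRcm := LE.hTRcm hBK
  have hDRBK : StDRBK := LE.hDRBK hBK hTRcm
  have hBase : StBase := LE.hBase (LE.hBase0 hMenger) LE.hSD
  have hATT : StATT := LE.hATT LE.hWIT
  have hEAR : StEAR := LE.hEAR LE.hWIT
  have hN0a : StN0a := LE.hN0a
  have hNNr : StNNr := Pool.NL.hNNr
  have hNwR : StNwR := Pool.NL.hNwR hNNr hLastU hBR
  have hLevG : StLevG := Pool.NL.hLevG hEAR hATT hDRBK
  have hLevR : StLevR := Pool.NL.hLevR hNwR hBase hLevG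
  have hPsiR : StPsiR := Pool.NL.hPsiR hNNr hLevR
  have hMassG : StMassG := Pool.NL.hMassG
  have hMassR : StMassR := Pool.NL.hMassR hMassG
  have hRecR : StRecR := Pool.NL.hRecR hMassR
  have hN0R : StN0R := Pool.NL.hN0R hNNr hMenger hBK hTRcm
  have hDiagR : StDiagR := Pool.NL.hDiagR hNNr hPsiR hRecR hN0a hN0R
  have hTauLeft : StTauLeft := Pool.NL.hTauLeft hPH hTauMono
  have hKpSup : StKpSup := Pool.NL.hKpSup
  have hKpTau : StKpTau := Pool.NL.hKpTau hTauLeft hKpSup hB7 hB1 hKpInt hRW hTauBasic hAE hTauMono hS6d hDh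
  have hKpQ : StKpQ := Pool.NL.hKpQ hTauLeft hKpSup hB7 hB1 hKft hKpInt hRW hTauBasic hAE hTauMono hS6d hQw
  have hDiagH : StDiagH := Pool.NL.hDiagH hDiagR hKpTau hTauDom hTauBasic hBox hB8
  have hFej1 : StFej1 := Pool.NL.hFej1 hNuProb
  have hFejD : StFejD := Pool.NL.hFejD hFej1 hNuProb hDh
  have hFejP : StFejP := Pool.NL.hFejP hInv
  have hA1 : StA1 := Pool.NL.hA1 hFejD hFejP hTauLeft hB7 hB1 hTauBasic hAE hDh hFej1 hTauMono hNuProb hS6d
  have hCoefU : StCoefU := Pool.NL.hCoefU hCoef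
  have hG3 : StG3 := Pool.NL.hG3 hDiagH hCoefU hGcoef hBox
  have hFin : StFin := Pool.NL.hFin hCoef hCoefU
  have hBn : StBn := Pool.NL.hBn hBox
  have hBasic : StBasic := Pool.NL.hBasic
  have hClu : StClu := Pool.NL.hClu
  have hHh : StHh := Pool.NL.hHh hBasic hClu
  have hHeq : StHeq := Pool.NL.hHeq hFin hBn hHh hBox
  have hLocE : StLocE := Pool.NL.hLocE hFin hGcoef hCoefU hSupp hBox hBn
  have hFZ : StFZ := Pool.NL.hFZ hB8 hCvA hBox hS6d
  have hTest : StTest := Pool.NL.hTest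
  have hCpTau : StCpTau := Pool.NL.hCpTau hTauDom hTauBasic hBasic hBn
  have hA3 : StA3 := Pool.NL.hA3 hG3 hHeq hLocE hFin hFZ hTest hA1 hCpTau hBn hHh hB8 hS6d
  have hEdge : StEdge := Pool.NL.hEdge
  have hTG2 : StTG2 := Pool.NL.hTG2 hATT hDRBK hBasic hHh
  have hInsS : StInsS := Pool.NL.hInsS
  have hKer : StKer := Pool.NL.hKer
  have hMomS : StMomS := Pool.NL.hMomS hATT hDRBK hInsS hKer hBasic hHh hClu
  have hMK : StMK := Pool.NL.hMK
  have hOff : StOff := Pool.NL.hOff hBK hBasic hHh hClu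
  have hPair1 : StPair1 := Pool.NL.hPair1 hMK hOff hTG2 hBasic hHh hClu
  have hPair2 : StPair2 := Pool.NL.hPair2 hMK hOff hTG2 hBasic hHh hClu
  have hSurg : StSurg := Pool.NL.hSurg hBasic hEdge hClu
  have hDist : StDist := Pool.NL.hDist hMK hBasic
  have hCov : StCov := Pool.NL.hCov hEdge hBasic hClu
  have hN2 : StN2 := Pool.NL.hN2 hEdge hBasic hClu hHh
  have hCS : StCS := Pool.NL.hCS hCov hN2 hBasic
  have hT4 : StT4 := Pool.NL.hT4 hBasic
  have hG2 : StG2 := Pool.NL.hG2 hTG2 hBasic hHh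
  have hSa : StSa := Pool.NL.hSa hDist hBasic hClu
  have hSb : StSb := Pool.NL.hSb hDist hBasic hClu
  have hSc : StSc := Pool.NL.hSc hDist hBasic hClu
  have hSd : StSd := Pool.NL.hSd hBasic hClu
  have hPZ : StPZ := Pool.NL.hPZ hBasic
  have hGraph : StGraph := Pool.NL.hGraph hClu
  have hSpr : StSpr := Pool.NL.hSpr
  have hGrow : StGrow := Pool.NL.hGrow hEdge hBasic hClu
  have hTree : StTree := Pool.NL.hTree hEdge hBasic hClu
  have hSec2 : StSec2 := Pool.NL.hSec2 hDist hBasic hClu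
  have hHub : StHub := Pool.NL.hHub hCpTau hBn hTauBasic
  have hTri : StTri := Pool.NL.hTri hCpTau hTauBasic hQw hBn
  have hErr : StErr := Pool.NL.hErr hTri hHub hBn hHh
  have hShift : StShift := Pool.NL.hShift
  have hMany : StMany := Pool.NL.hMany hBn
  have hLine : StLine := Pool.NL.hLine hSurg hBn hBox
  have hBrg : StBrg := Pool.NL.hBrg hMany hShift hPair1 hErr hLine hHub hBn hQw hHh
  have hX2 : StX2 := Pool.NL.hX2 hBrg hCS hHub hBn
  have hMomB : StMomB := Pool.NL.hMomB hMomS hHub hHh hBasic hBn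
  have hBig : StBig := Pool.NL.hBig hX2 hMomB hMany hT4 hBn
  have hLowJ : StLowJ := Pool.NL.hLowJ hBig hShift hPair2 hErr hLine hBn hBasic
  have hUpJ : StUpJ := Pool.NL.hUpJ hMomB hSa hSb hSc hSd hG2 hTri hHub hBn hClu hHh
  have hFam : StFam := Pool.NL.hFam hLowJ hUpJ hPZ hGraph hBn hBasic
  have hSprB : StSprB := Pool.NL.hSprB hFam hSpr hGrow hBn hBasic hClu hS6d
  have hTra : StTra := Pool.NL.hTra hSprB hTree hBn hBasic
  have hLow : StLow := Pool.NL.hLow hTra hSec2 hMomB hBn hBasic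
  have hUp : StUp := Pool.NL.hUp hMomS hHub hBn hBasic
  have hLawE : StLawE := Pool.NL.hLawE hLaw hBox hBasic
  have hClZ : StClZ := Pool.NL.hClZ hBox
  have hEnv : StEnv := envOf hA1 hKpQ hA3 hB8
  exact {
    bBasic := hBasic,
    bClu := hClu,
    bHh := hHh,
    bBn := hBn,
    bEdge := hEdge,
    bMK := hMK,
    bDist := hDist,
    bHub := hHub,
    bCpTau := hCpTau,
    bUpJ := hUpJ,
    bPZ := hPZ,
    bGraph := hGraph,
    bSpr := hSpr,
    bGrow := hGrow,
    bSurg := hSurg,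
    bLow := hLow,
    bUp := hUp,
    bTauBasic := hTauBasic,
    bQw := hQw,
    bDRBK := hDRBK,
    bBK := hBK,
    bBox := hBox,
    bLawE := hLawE,
    bClZ := hClZ,
    bPc := hPc,
    bTauDom := hTauDom,
    bTauMono := hTauMono,
    bTri := hTri,
    bErr := hErr,
    bMomB := hMomB,
    bMomS := hMomS,
    bEnv := hEnv,
    bA1 := hA1,
    bKpQ := hKpQ,
    bA3 := hA3,
    bB8 := hB8,
    bB7 := hB7,
    bB1 := hB1,
    bG3 := hG3,
    bHeq := hHeq,
    bLocE := hLocE,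
    bFin := hFin,
    bCoefU := hCoefU,
    bFZ := hFZ,
    bFejD := hFejD,
    bFejP := hFejP,
    bFej1 := hFej1,
    bKpTau := hKpTau,
    bKpSup := hKpSup,
    bTauLeft := hTauLeft,
    bNuProb := hNuProb,
    bDh := hDh,
    bAE := hAE,
    bKft := hKft,
    bKpInt := hKpInt,
    bRW := hRW,
    bInv := hInv,
    bCvA := hCvA,
    bGcoef := hGcoef,
    bSupp := hSupp,
    bTest := hTest,
    bLine := hLine,
    bShift := hShift,
    bMany := hMany,
    bBig := hBig,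
    bLowJ := hLowJ,
    bFam := hFam,
    bSb := hSb,
    bSc := hSc,
    bSd := hSd,
    bSa := hSa,
    bG2 := hG2,
    bTG2 := hTG2,
    bTree := hTree,
    bSec2 := hSec2,
    bS6d := hS6d,
    bCoef := hCoef,
    bPH := hPH,
    bTRcm := hTRcm,
    bMenger := hMenger,
    bBase := hBase,
    bATT := hATT,
    bEAR := hEAR,
    bTransl := hT,
    bCv := hCv,
    bCvFT := hCvFT,
    bFTadd := hFTadd,
    bFTb := hFTb,
    bJf := hJf,
    bSec := hSec,
    bIso := hIso,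
    bSymT := hSyT,
    bSymG := hSyG,
    bCvB := hCvB,
    bTheta := hTh,
    bThetaSub := hThS,
    bTauBox := hTBx,
    bSub := hSub }

end Pool.NL
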