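import Pool.Agent.Helper22.CM.XA

/-! # Project CM: module Sec3S (second moment of the number of large clusters) -/

set_option autoImplicit false

open scoped BigOperators ENNReal Topology
open Pool.LE Pool.NL Pool.CL Filter MeasureTheory

namespace Pool.CM

theorem hSec3S (hD : StDist) (hB : StBasic) : StSec3S := by
  classical
  intro V _ L E p h0 h1 s hs
  obtain ⟨hmono, hconst, hadd, hsub, hmul, hsum, hpr, hprm, hcs, hmk⟩ := hB V E p h0 h1
  have ind01 : ∀ A : Prop, 0 ≤ ind A ∧ ind A ≤ 1 := by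
    intro A
    unfold ind
    split_ifs <;> norm_num
  have indT : ∀ A : Prop, A → ind A = 1 := fun A h => by unfold ind; rw [if_pos h]
  have indF : ∀ A : Prop, ¬ A → ind A = 0 := fun A h => by unfold ind; rw [if_neg h]
  set N : Finset (Sym2 V) → ℝ := fun ω => ∑ x ∈ L, ind (s ≤ Xc L ω x) with hN
  set q : V → ℝ := fun x => pr E p (fun ω => s ≤ Xc L ω x) with hq
  set m : ℝ := ∑ x ∈ L, q x with hm
  have hEN : ex E p N = m := hsum V L (fun x ω => ind (s ≤ Xc L ω x))
  have hq0 : ∀ x, 0 ≤ q x := fun x => (hpr _).1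
  -- pairs which are not connected
  have hpair : ∀ x y : V, pr E p (fun ω => s ≤ Xc L ω x ∧ s ≤ Xc L ω y ∧ ¬ con ω x y) ≤ q x * q y := by
    intro x y
    have h := hD V p h0 h1 [(x, fun S : Set V => s ≤ (L.filter (fun z => z ∈ S)).card),
      (y, fun S : Set V => s ≤ (L.filter (fun z => z ∈ S)).card)] (by
        intro r hr S S' hSS hS
        simp only [List.mem_cons, List.not_mem_nil, or_false] at hr
        have hc : (L.filter (fun z => z ∈ S)).card ≤ (L.filter (fun z => z ∈ S')).card :=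
          Finset.card_le_card (fun z hz => by
            rw [Finset.mem_filter] at hz ⊢
            exact ⟨hz.1, hSS hz.2⟩)
        rcases hr with rfl | rfl
        · exact le_trans hS hc
        · exact le_trans hS hc) E
    have hX : ∀ (ω : Finset (Sym2 V)) (z : V),
        (L.filter (fun w => w ∈ cset ω z)).card = Xc L ω z := by
      intro ω z
      unfold Xc clu
      congr 1
    simp only [List.map_cons, List.map_nil, List.prod_cons, List.prod_nil, mul_one, List.pairwise_cons,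
      List.mem_cons, List.not_mem_nil, or_false, forall_eq_or_imp, forall_eq, hX] at h
    refine le_trans (hprm _ _ ?_) h
    intro ω _ hω
    refine ⟨⟨hω.1, hω.2.1⟩, hω.2.2, ?_⟩
    simp
  have hxx : ∀ x y : V, ex E p (fun ω => ind (s ≤ Xc L ω x) * ind (s ≤ Xc L ω y)) ≤
      ex E p (fun ω => ind (s ≤ Xc L ω x) * ind (con ω x y)) + q x * q y := by
    intro x y
    have h := hmono (fun ω => ind (s ≤ Xc L ω x) * ind (s ≤ Xc L ω y))
      (fun ω => ind (s ≤ Xc L ω x) * ind (con ω x y) +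
        ind (s ≤ Xc L ω x ∧ s ≤ Xc L ω y ∧ ¬ con ω x y)) (fun ω _ => by
          have g0 := (ind01 (s ≤ Xc L ω x ∧ s ≤ Xc L ω y ∧ ¬ con ω x y)).1
          by_cases c1 : s ≤ Xc L ω x
          · by_cases c2 : s ≤ Xc L ω y
            · by_cases c3 : con ω x y
              · rw [indT _ c1, indT _ c2, indT _ c3]; linarith
              · rw [indT _ c1, indT _ c2, indF _ c3, indT _ ⟨c1, c2, c3⟩]; linarith
            · have g1 := mul_nonneg (ind01 (s ≤ Xc L ω x)).1 (ind01 (con ω x y)).1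
              rw [indF _ c2]; linarith
          · rw [indF _ c1]; linarith)
    have h2 := hadd (fun ω => ind (s ≤ Xc L ω x) * ind (con ω x y))
      (fun ω => ind (s ≤ Xc L ω x ∧ s ≤ Xc L ω y ∧ ¬ con ω x y))
    rw [h2] at h
    have h3 : ex E p (fun ω => ind (s ≤ Xc L ω x ∧ s ≤ Xc L ω y ∧ ¬ con ω x y)) ≤ q x * q y := hpair x y
    linarith
  -- second moment
  have hN2 : ex E p (fun ω => N ω ^ 2) =
      ∑ x ∈ L, ∑ y ∈ L, ex E p (fun ω => ind (s ≤ Xc L ω x) * ind (s ≤ Xc L ω y)) := by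
    have e1 : (fun ω => N ω ^ 2) =
        fun ω => ∑ x ∈ L, ∑ y ∈ L, ind (s ≤ Xc L ω x) * ind (s ≤ Xc L ω y) := by
      funext ω
      rw [hN, _root_.sq, Finset.sum_mul_sum]
    rw [e1, hsum]
    refine Finset.sum_congr rfl fun x _ => ?_
    rw [hsum]
  have hsq : ∀ x ∈ L, ∑ y ∈ L, ex E p (fun ω => ind (s ≤ Xc L ω x) * ind (con ω x y)) ≤
      ex E p (fun ω => (Xc L ω x : ℝ) * ind (s ≤ Xc L ω x)) := by
    intro x _
    rw [← hsum]
    refine hmono _ _ fun ω hω => ?_
    rw [← Finset.mul_sum]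
    have hX := XA.xc_sum L ω x
    rw [← hX, mul_comm]
  have hup : ex E p (fun ω => N ω ^ 2) ≤
      ∑ x ∈ L, ex E p (fun ω => (Xc L ω x : ℝ) * ind (s ≤ Xc L ω x)) + m ^ 2 := by
    rw [hN2]
    have h3 : ∑ x ∈ L, ∑ y ∈ L, ex E p (fun ω => ind (s ≤ Xc L ω x) * ind (s ≤ Xc L ω y)) ≤
        ∑ x ∈ L, (ex E p (fun ω => (Xc L ω x : ℝ) * ind (s ≤ Xc L ω x)) +
          ∑ y ∈ L, q x * q y) := by
      refine Finset.sum_le_sum fun x hx => ?_
      refine (Finset.sum_le_sum fun y _ => hxx x y).trans ?_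
      rw [Finset.sum_add_distrib]
      exact add_le_add_left (hsq x hx) _
    refine h3.trans (le_of_eq ?_)
    rw [Finset.sum_add_distrib, hm, _root_.sq, Finset.sum_mul_sum]
  -- Chebyshev
  have hch : pr E p (fun ω => ∀ x ∈ L, Xc L ω x < s) * m ^ 2 ≤ ex E p (fun ω => (N ω - m) ^ 2) := by
    have h := hmono (fun ω => m ^ 2 * ind (∀ x ∈ L, Xc L ω x < s)) (fun ω => (N ω - m) ^ 2) (fun ω _ => by
      by_cases c : ∀ x ∈ L, Xc L ω x < s
      · have hz : N ω = 0 := by
          rw [hN]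
          refine Finset.sum_eq_zero fun x hx => indF _ (not_le.2 (c x hx))
        rw [indT _ c, hz]
        nlinarith
      · rw [indF _ c]
        nlinarith [sq_nonneg (N ω - m)])
    rw [hmul] at h
    have e : ex E p (fun ω => ind (∀ x ∈ L, Xc L ω x < s)) =
        pr E p (fun ω => ∀ x ∈ L, Xc L ω x < s) := rfl
    rw [e] at h
    linarith
  have hvar : ex E p (fun ω => (N ω - m) ^ 2) = ex E p (fun ω => N ω ^ 2) - m ^ 2 := by
    have e1 : (fun ω => (N ω - m) ^ 2) = fun ω => (N ω ^ 2 - 2 * m * N ω) + m ^ 2 := by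
      funext ω
      ring
    rw [e1, hadd, hsub, hmul, hconst]
    have e2 : ex E p (fun ω => N ω) = m := hEN
    rw [e2]
    ring
  change pr E p (fun ω => ∀ x ∈ L, Xc L ω x < s) * m ^ 2 ≤ _
  linarith

end Pool.CM
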