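import Pool.Agent.Helper22.CM.M_TailS

/-! # Project CM: module Tail (tail bounds, the source set is the box) -/

set_option autoImplicit false

open scoped BigOperators ENNReal Topology
open Pool.LE Pool.NL Pool.CL Filter MeasureTheory

namespace Pool.CM

theorem hTail (hB : StBasic) : StTail := by
  intro d C₁ B c₀ CL hE n θ K hn hθ hK x hx s hs
  exact hTailS hB d C₁ B c₀ CL hE n (Bn d n) θ K x hn hθ (hK x hx) s hs

end Pool.CM
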