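import Pool.Agent.Helper65.CL.StE

/-!
# Project CM (MP_65faa7): definitions and statements of parts E and F
Paper proof: /team-store/MP_65faa7-CM-EF-plan.md
-/

set_option autoImplicit false

open scoped BigOperators ENNReal Topology
open Pool.LE Pool.NL Pool.CL Filter MeasureTheory

namespace Pool.CM

/-! ## Finite graphs -/

section Fin

variable {V : Type} [DecidableEq V]

/-- two-point function with exponential weight -/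
noncomputable def tH (L : Finset V) (E : Finset (Sym2 V)) (p h : ℝ) (ψ : V → ℝ) (x y : V) : ℝ :=
  ex E p (fun ω => ind (con ω x y) * Real.exp (h * ms ψ (clu L ω x)))

/-- mean mass with exponential weight -/
noncomputable def cH (L : Finset V) (E : Finset (Sym2 V)) (p h : ℝ) (ψ : V → ℝ) (x : V) : ℝ :=
  ex E p (fun ω => ms ψ (clu L ω x) * Real.exp (h * ms ψ (clu L ω x)))

end Fin

/-- cost of the change of parameter -/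
noncomputable def Phq (q : ℕ) (p p' : ℝ) : ℝ := p' ^ q / p ^ (q - 1) + (1 - p') ^ q / (1 - p) ^ (q - 1)

/-- F01 functional BK inequality -/
def StFBK : Prop := ∀ (V : Type) [DecidableEq V] (E : Finset (Sym2 V)) (p : ℝ), 0 ≤ p → p ≤ 1 →
  ∀ f g F : Finset (Sym2 V) → ℝ, (∀ ω, 0 ≤ f ω) → (∀ ω, 0 ≤ g ω) →
    (∀ ω ω', ω ⊆ ω' → f ω ≤ f ω') → (∀ ω ω', ω ⊆ ω' → g ω ≤ g ω') →
    (∀ ω, ω ⊆ E → ∃ I J : Finset (Sym2 V), I ⊆ ω ∧ J ⊆ ω ∧ Disjoint I J ∧ F ω ≤ f I * g J) →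
      ex E p F ≤ ex E p f * ex E p g

/-- F02 functional BK inequality for three functions -/
def StFBK3 : Prop := ∀ (V : Type) [DecidableEq V] (E : Finset (Sym2 V)) (p : ℝ), 0 ≤ p → p ≤ 1 →
  ∀ f g h F : Finset (Sym2 V) → ℝ, (∀ ω, 0 ≤ f ω) → (∀ ω, 0 ≤ g ω) → (∀ ω, 0 ≤ h ω) →
    (∀ ω ω', ω ⊆ ω' → f ω ≤ f ω') → (∀ ω ω', ω ⊆ ω' → g ω ≤ g ω') →
    (∀ ω ω', ω ⊆ ω' → h ω ≤ h ω') →
    (∀ ω, ω ⊆ E → ∃ I₁ I₂ I₃ : Finset (Sym2 V), I₁ ⊆ ω ∧ I₂ ⊆ ω ∧ I₃ ⊆ ω ∧ Disjoint I₁ I₂ ∧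
      Disjoint I₁ I₃ ∧ Disjoint I₂ I₃ ∧ F ω ≤ f I₁ * (g I₂ * h I₃)) →
      ex E p F ≤ ex E p f * (ex E p g * ex E p h)

/-- F03 a path with hanging clusters -/
def StHang : Prop := ∀ (V : Type) [DecidableEq V] (ω : Finset (Sym2 V)) (a w : V), con ω a w →
  ∃ (γ : (gr ω).Walk a w) (g : V → V) (I : V → Finset (Sym2 V)), γ.IsPath ∧ (∀ z, I z ⊆ ω) ∧
    (∀ z z', z ≠ z' → Disjoint (I z) (I z')) ∧ (∀ z, ∀ e ∈ γ.edges, e ∉ I z) ∧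
    (∀ v ∈ γ.support, g v = v) ∧ ∀ v, con ω a v → g v ∈ γ.support ∧ con (I (g v)) (g v) v

/-- F04 three disjoint pieces which cover the cluster -/
def StExt3 : Prop := ∀ (V : Type) [DecidableEq V] (ω : Finset (Sym2 V)) (x y w : V),
  con ω x y → con ω x w → ∃ (z : V) (I₁ I₂ I₃ : Finset (Sym2 V)), I₁ ⊆ ω ∧ I₂ ⊆ ω ∧ I₃ ⊆ ω ∧
    Disjoint I₁ I₂ ∧ Disjoint I₁ I₃ ∧ Disjoint I₂ I₃ ∧ con I₁ x z ∧ con I₂ z y ∧ con I₃ z w ∧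
    ∀ v, con ω x v → con I₁ x v ∨ con I₂ z v ∨ con I₃ z v

/-- F05 tree graph inequality with exponential weights -/
def StTGh : Prop := ∀ (V : Type) [DecidableEq V] (L : Finset V) (E : Finset (Sym2 V)) (D : ℕ)
  (p h : ℝ) (ψ : V → ℝ), FG L E D → 0 ≤ p → p ≤ 1 → 0 ≤ h → (∀ y, 0 ≤ ψ y) → ∀ x ∈ L, ∀ y ∈ L,
    ex E p (fun ω => ind (con ω x y) * (ms ψ (clu L ω x) * Real.exp (h * ms ψ (clu L ω x)))) ≤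
      ∑ z ∈ L, tH L E p h ψ x z * (tH L E p h ψ z y * cH L E p h ψ z)

open Classical in
/-- F06 the hanging clusters of a path -/
def StPath : Prop := ∀ (V : Type) [DecidableEq V] (L : Finset V) (ω : Finset (Sym2 V)) (a w : V),
  con ω a w → ∃ g : V → V, (∀ y, con ω a y → con ω a (g y)) ∧
    (∀ y, con ω a y → ∃ I₁ I₂ I₃ : Finset (Sym2 V), I₁ ⊆ ω ∧ I₂ ⊆ ω ∧ I₃ ⊆ ω ∧ Disjoint I₁ I₂ ∧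
      Disjoint I₁ I₃ ∧ Disjoint I₂ I₃ ∧ con I₁ a (g y) ∧ con I₂ (g y) w ∧
      ((clu L ω a).filter (fun y' => g y' = g y)).card ≤ Xc L I₃ (g y)) ∧
    ∀ y y', con ω a y → con ω a y' → g y ≠ g y' →
      DR [(a, [], g y), (g y, [], g y'), (g y', [], w), (g y, [], y), (g y', [], y')] ω ∨
      DR [(a, [], g y'), (g y', [], g y), (g y, [], w), (g y', [], y'), (g y, [], y)] ω

/-- F07 local comparison -/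
def StLocC : Prop := ∀ (V : Type) [DecidableEq V] (L : Finset V) (E : Finset (Sym2 V)) (D : ℕ)
  (p : ℝ), FG L E D → 0 ≤ p → p ≤ 1 / 2 → ∀ M m : ℕ, 1 ≤ m → m ≤ M → ∀ a ∈ L, ∀ w ∈ L,
    GG2 L E p M a w ≤
      ∑ z ∈ L, cp E p a z * (cp E p z w * pr E p (fun ω => M - m ≤ Xc L ω z)) +
      2 / ((M : ℝ) * m) * ∑ z ∈ L, ∑ z' ∈ L,
        cp E p a z * cp E p z z' * cp E p z' w * (hh L E p z * hh L E p z')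

/-- F08 pairs of large disjoint clusters -/
def StPair3 : Prop := ∀ (V : Type) [DecidableEq V] (L : Finset V) (E : Finset (Sym2 V)) (D : ℕ)
  (p : ℝ), FG L E D → 0 ≤ p → p ≤ 1 → ∀ a ∈ L, ∀ b ∈ L, ∀ m : ℕ,
    pr E p (fun ω => m ≤ Xc L ω a) * pr E p (fun ω => m ≤ Xc L ω b) -
        ∑ w ∈ L, GG2 L E p m a w * GG2 L E p m b w ≤
      pr E p (fun ω => m ≤ Xc L ω a ∧ m ≤ Xc L ω b ∧ ¬ con ω a b)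

/-- F09 second moment method -/
def StSec3 : Prop := ∀ (V : Type) [DecidableEq V] (L : Finset V) (E : Finset (Sym2 V)) (D : ℕ)
  (p : ℝ), FG L E D → 0 ≤ p → p ≤ 1 → ∀ s : ℕ, 1 ≤ s →
    pr E p (fun ω => ∀ x ∈ L, Xc L ω x < s) * (∑ x ∈ L, pr E p (fun ω => s ≤ Xc L ω x)) ^ 2 ≤
      ∑ x ∈ L, ex E p (fun ω => (Xc L ω x : ℝ) * ind (s ≤ Xc L ω x))

/-- F10 change of the parameter, Hoelder form -/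
def StTreeH : Prop := ∀ (V : Type) [DecidableEq V] (L : Finset V) (E : Finset (Sym2 V)) (D q : ℕ)
  (p p' : ℝ), FG L E D → 2 ≤ q → 0 < p → p < 1 → 0 ≤ p' → p' ≤ 1 → ∀ x ∈ L, ∀ s : ℕ, 1 ≤ s →
    (pr E p' (fun ω => s ≤ Xc L ω x)) ^ q ≤
      (Phq q p p') ^ (D * s) * (pr E p (fun ω => s ≤ Xc L ω x)) ^ (q - 1)

/-- F11 the cost is quadratic -/
def StPhq : Prop := ∀ (q : ℕ) (p : ℝ), 2 ≤ q → 0 < p → p < 1 → ∃ C : ℝ, 0 < C ∧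
  ∀ δ : ℝ, 0 ≤ δ → δ ≤ 1 → 1 ≤ Phq q p (1 - (1 - p) * (1 - δ)) ∧
    Phq q p (1 - (1 - p) * (1 - δ)) ≤ Real.exp (C * δ ^ 2)

/-- F12 differential inequality -/
def StODE : Prop := ∀ (ι : Type) (s : Finset ι) (F F' : ι → ℝ → ℝ) (K t₀ : ℝ), 0 < K →
  (∀ i ∈ s, ∀ t, HasDerivAt (F i) (F' i t) t) → (∀ i ∈ s, ∀ t, 0 ≤ F' i t) →
  (∀ (t M : ℝ), t₀ ≤ t → (∀ i ∈ s, F i t ≤ M) → ∀ i ∈ s, F' i t ≤ M ^ 3) →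
  (∀ i ∈ s, F i t₀ ≤ K) → ∀ i ∈ s, ∀ t, t₀ ≤ t → t ≤ t₀ + 1 / (8 * K ^ 2) → F i t ≤ 2 * K

/-! ## The box -/

/-- rescaled exponential moments with weights -/
noncomputable def snw (d n : ℕ) (θ : ℝ) (ψ : Zd d → ℝ) (x : Zd d) : ℝ :=
  eb d n (fun ω => (XB d n ω x : ℝ) * Real.exp (θ * ms ψ (cb d n ω x) / (n : ℝ) ^ 4)) / (n : ℝ) ^ 2

/-- rescaled exponential moments -/
noncomputable def sn (d n : ℕ) (θ : ℝ) (x : Zd d) : ℝ :=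
  eb d n (fun ω => (XB d n ω x : ℝ) * Real.exp (θ * XB d n ω x / (n : ℝ) ^ 4)) / (n : ℝ) ^ 2

/-- rescaled moments -/
noncomputable def mr (d n r : ℕ) (x : Zd d) : ℝ :=
  eb d n (fun ω => (XB d n ω x : ℝ) ^ (r + 1)) / ((n : ℝ) ^ (2 + 4 * r) * (r.factorial : ℝ))

/-- uniform bound for the exponential moments -/
def Sb (d : ℕ) (θ K : ℝ) : Prop := ∀ n : ℕ, 1 ≤ n → ∀ x ∈ Bn d n, sn d n θ x ≤ K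

/-- rescaled tail -/
noncomputable def uk (d n k : ℕ) (x : Zd d) : ℝ :=
  (n : ℝ) ^ 2 * pB d n (pH d) (fun ω => k * n ^ 4 ≤ XB d n ω x)

/-- mean square of the tail -/
noncomputable def ph2 (d n k : ℕ) : ℝ := av d n (fun x => uk d n k x ^ 2)

/-- `c` are the limits of the moments, `R` is the radius of convergence -/
structure Rad (d : ℕ) (c : ℕ → ℝ) (R : ℝ) : Prop where
  pos : 0 < R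
  lim : ∀ r : ℕ, Tendsto (fun n : ℕ => cr d n r (fun _ => 1)) atTop (𝓝 (c r))
  sub : ∀ θ : ℝ, 0 ≤ θ → θ < R → ∃ K : ℝ, 1 ≤ K ∧ Sb d θ K
  sup : ∀ θ : ℝ, R < θ → ¬ Summable (fun r : ℕ => c r * θ ^ r)

/-- kernel with two steps in the box -/
noncomputable def c2 (d n : ℕ) (a w : Zd d) : ℝ := ∑ z ∈ Bn d n, G0 d n a z * G0 d n z w

/-- kernel with two steps and a function in between -/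
noncomputable def c2f (d n : ℕ) (f : Zd d → ℝ) (a w : Zd d) : ℝ :=
  ∑ z ∈ Bn d n, G0 d n a z * (G0 d n z w * f z)

/-- kernel with three steps in the box -/
noncomputable def c3 (d n : ℕ) (a w : Zd d) : ℝ :=
  ∑ z ∈ Bn d n, ∑ z' ∈ Bn d n, G0 d n a z * G0 d n z z' * G0 d n z' w

/-- `P(X_a ≥ k n^4, a ↔ w)` -/
noncomputable def gk (d n k : ℕ) (a w : Zd d) : ℝ :=
  GG2 (Bn d n) (ES (Bn d n)) (pH d) (k * n ^ 4) a w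

/-- the sprinkled parameter -/
noncomputable def psa (d n : ℕ) (a : ℝ) : ℝ := 1 - (1 - pH d) * (1 - a / (n : ℝ) ^ 2)

/-- E01 `sn` is bounded a bit further -/
def StE1 : Prop := ∀ (d : ℕ) (C₁ B c₀ CL : ℝ), EnvC d C₁ B c₀ CL → ∀ (n : ℕ) (ψ : Zd d → ℝ)
  (K θ θ' : ℝ), 1 ≤ n → U01 ψ → 0 < K → 0 ≤ θ → θ ≤ θ' → θ' ≤ θ + 1 / (8 * K ^ 2) →
    (∀ x ∈ Bn d n, snw d n θ ψ x ≤ K) → ∀ x ∈ Bn d n, snw d n θ' ψ x ≤ 2 * K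

/-- E02 expansion of `sn` -/
def StSer : Prop := ∀ (d : ℕ) (C₁ B c₀ CL : ℝ), EnvC d C₁ B c₀ CL →
  (∀ (n : ℕ) (θ : ℝ) (x : Zd d), snw d n θ (fun _ => 1) x = sn d n θ x) ∧
  (∀ (n r : ℕ), cr d n r (fun _ => 1) = av d n (mr d n r)) ∧
  (∀ (n r : ℕ) (x : Zd d), 0 ≤ mr d n r x) ∧
  (∀ (n : ℕ) (θ : ℝ) (x : Zd d), 1 ≤ n → HasSum (fun r : ℕ => θ ^ r * mr d n r x) (sn d n θ x)) ∧
  (∀ (n N : ℕ) (θ θ' : ℝ) (x : Zd d), 1 ≤ n → 0 ≤ θ → θ < θ' →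
    sn d n θ x ≤ ∑ r ∈ Finset.range N, θ ^ r * mr d n r x + (θ / θ') ^ N * sn d n θ' x) ∧
  (∀ (n : ℕ) (θ θ' : ℝ) (x : Zd d), θ ≤ θ' → sn d n θ x ≤ sn d n θ' x) ∧
  (∀ (n : ℕ) (θ : ℝ), 1 ≤ n → 0 ≤ θ → ∀ x ∈ Bn d n,
    sn d n θ x ≤ (n : ℝ) ^ d * Real.exp (θ * (n : ℝ) ^ d))

/-- E03 pointwise bound for the moments by the average in a larger box -/
def StE2 : Prop := ∀ (d : ℕ) (C₁ B c₀ CL : ℝ), EnvC d C₁ B c₀ CL → ∀ ε : ℝ, 0 < ε → ε ≤ 1 →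
  ∀ n : ℕ, 1 ≤ n → ∃ N : ℕ, n ≤ N ∧ ∀ (r : ℕ), ∀ x ∈ Bn d n,
    mr d n r x ≤ (2 / ε) ^ d * (1 + ε) ^ (4 * r + 2) * cr d N r (fun _ => 1)

/-- E04 `sn` is bounded below the radius of convergence -/
def StE3 : Prop := ∀ (d : ℕ) (C₁ B c₀ CL : ℝ), EnvC d C₁ B c₀ CL → ∀ c : ℕ → ℝ,
  (∀ r : ℕ, Tendsto (fun n : ℕ => cr d n r (fun _ => 1)) atTop (𝓝 (c r))) →
    ∀ θ R : ℝ, 0 ≤ θ → θ < R → Summable (fun r : ℕ => c r * R ^ r) → ∃ K : ℝ, 1 ≤ K ∧ Sb d θ K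

/-- E05 tail bounds -/
def StTail : Prop := ∀ (d : ℕ) (C₁ B c₀ CL : ℝ), EnvC d C₁ B c₀ CL → ∀ (n : ℕ) (θ K : ℝ), 1 ≤ n →
  0 ≤ θ → (∀ x ∈ Bn d n, sn d n θ x ≤ K) → ∀ x ∈ Bn d n, ∀ s : ℝ, 0 < s →
    eb d n (fun ω => (XB d n ω x : ℝ) * ind (s ≤ XB d n ω x)) ≤
      K * (n : ℝ) ^ 2 * Real.exp (-(θ * s / (n : ℝ) ^ 4)) ∧
    pB d n (pH d) (fun ω => s ≤ XB d n ω x) ≤
      K * (n : ℝ) ^ 2 * Real.exp (-(θ * s / (n : ℝ) ^ 4)) / s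

/-- E06 upper bound for the largest cluster -/
def StUpZ : Prop := ∀ (d : ℕ) (C₁ B c₀ CL : ℝ), EnvC d C₁ B c₀ CL → ∀ θ K A : ℝ, 0 < θ → 0 < A →
  Sb d θ K → (d : ℝ) - 6 ≤ θ * A →
    Tendsto (fun n : ℕ => pB d n (pH d) (fun ω => ∀ x ∈ Bn d n,
      (XB d n ω x : ℝ) ≤ A * (n : ℝ) ^ 4 * Real.log n)) atTop (𝓝 1)

/-- E07 the radius of convergence -/
def StRad : Prop := ∀ (d : ℕ) (C₁ B c₀ CL : ℝ), EnvC d C₁ B c₀ CL → ∀ c : ℕ → ℝ,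
  (∀ r : ℕ, Tendsto (fun n : ℕ => cr d n r (fun _ => 1)) atTop (𝓝 (c r))) → ∃ R : ℝ, Rad d c R

/-- E08 the rescaled tail -/
def StUk : Prop := ∀ (d : ℕ) (C₁ B c₀ CL : ℝ), EnvC d C₁ B c₀ CL → ∀ n : ℕ, 1 ≤ n →
  (∀ k x, 0 ≤ uk d n k x) ∧ (∀ k k' x, k ≤ k' → uk d n k' x ≤ uk d n k x) ∧
  (∀ k, 1 ≤ k → ∀ x ∈ Bn d n, uk d n k x ≤ C₁) ∧
  (∀ (k : ℕ) (θ K : ℝ), 1 ≤ k → 0 ≤ θ → (∀ x ∈ Bn d n, sn d n θ x ≤ K) →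
    ∀ x ∈ Bn d n, uk d n k x ≤ K * Real.exp (-(θ * k))) ∧
  (∀ k k', k ≤ k' → ph2 d n k' ≤ ph2 d n k) ∧ (∀ k, (av d n (uk d n k)) ^ 2 ≤ ph2 d n k) ∧
  (∀ (k : ℕ) (Q : ℝ), (∀ x ∈ Bn d n, uk d n k x ≤ Q) → ph2 d n k ≤ Q ^ 2)

/-- F20 the tail is not too small -/
def StF0 : Prop := ∀ (d : ℕ) (C₁ B c₀ CL : ℝ), EnvC d C₁ B c₀ CL → ∀ (c : ℕ → ℝ) (R : ℝ),
  Rad d c R → ∀ (ε : ℝ) (k₀ : ℕ), 0 < ε → ∃ k₂ n₀ : ℕ, k₀ ≤ k₂ ∧ 1 ≤ n₀ ∧ ∀ n : ℕ, n₀ ≤ n →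
    ∃ k : ℕ, k₀ ≤ k ∧ k ≤ k₂ ∧ Real.exp (-((R + ε) * k)) ≤ av d n (uk d n k)

/-- F21 a good level -/
def StF1 : Prop := ∀ (d : ℕ) (C₁ B c₀ CL : ℝ), EnvC d C₁ B c₀ CL → ∀ (c : ℕ → ℝ) (R : ℝ),
  Rad d c R → ∀ (ε : ℝ) (k₀ : ℕ), 0 < ε → ∃ k₂ n₀ : ℕ, k₀ ≤ k₂ ∧ 1 ≤ n₀ ∧ ∀ n : ℕ, n₀ ≤ n →
    ∃ k : ℕ, k₀ ≤ k ∧ k ≤ k₂ ∧ Real.exp (-(2 * (R + ε) * (k + 1))) ≤ ph2 d n (k + 1) ∧
      ph2 d n k ≤ Real.exp (2 * R + 6) * ph2 d n (k + 1)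

/-- F22 sums of kernels -/
def StKpC : Prop := ∀ (d : ℕ) (C₁ B c₀ CL : ℝ), EnvC d C₁ B c₀ CL → ∀ n : ℕ, 1 ≤ n →
  (∀ v : Zd d, ∀ z ∈ Bn d n, ∑ a ∈ Bn d n, ∑ w ∈ Bn d n, ∑ z' ∈ Bn d n,
    ind (a + v ∈ Bn d n) * (G0 d n a z * G0 d n z w * (G0 d n (a + v) z' * G0 d n z' w)) ≤
      B / Qw v) ∧
  (∀ v : Zd d, ∀ z' ∈ Bn d n, ∑ a ∈ Bn d n, ∑ w ∈ Bn d n, ∑ z ∈ Bn d n,
    ind (a + v ∈ Bn d n) * (G0 d n a z * G0 d n z w * (G0 d n (a + v) z' * G0 d n z' w)) ≤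
      B / Qw v) ∧
  (∀ a ∈ Bn d n, ∀ b ∈ Bn d n, ∑ w ∈ Bn d n, c2 d n a w * c2 d n b w ≤ B ∧
    ∑ w ∈ Bn d n, c2 d n a w * c3 d n b w ≤ B ∧ ∑ w ∈ Bn d n, c3 d n a w * c3 d n b w ≤ B)

/-- F23 local comparison in the box -/
def StLocB : Prop := ∀ (d : ℕ) (C₁ B c₀ CL : ℝ), EnvC d C₁ B c₀ CL → ∀ n k : ℕ, 1 ≤ n → 1 ≤ k →
  ∀ a ∈ Bn d n, ∀ w ∈ Bn d n, gk d n (k + 1) a w ≤
    c2f d n (uk d n k) a w / (n : ℝ) ^ 2 + 2 * C₁ ^ 2 / (n : ℝ) ^ 4 * c3 d n a w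

/-- F24 the loss in the pair estimate -/
def StLoss : Prop := ∀ (d : ℕ) (C₁ B c₀ CL : ℝ), EnvC d C₁ B c₀ CL → ∃ C : ℝ, 0 < C ∧
  ∀ n k : ℕ, 1 ≤ n → 1 ≤ k → ∀ v : Zd d,
    ∑ a ∈ Bn d n, ind (a + v ∈ Bn d n) * ∑ w ∈ Bn d n, gk d n (k + 1) a w * gk d n (k + 1) (a + v) w ≤
      (n : ℝ) ^ (d - 4) * (B / Qw v) * ph2 d n k + C * (n : ℝ) ^ (d - 6)

/-- F25 shift of the tail -/
def StShiftU : Prop := ∀ (d : ℕ) (C₁ B c₀ CL : ℝ), EnvC d C₁ B c₀ CL → ∃ C : ℝ, 0 < C ∧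
  ∀ n k l : ℕ, 1 ≤ n → 1 ≤ k → (n : ℝ) ^ d * (ph2 d n k - C * (1 + l) / Real.sqrt n) ≤
    ∑ a ∈ Bn d n, ind (a + e0 l ∈ Bn d n) * (uk d n k a * uk d n k (a + e0 l))

/-- F26 surgery -/
def StSurgS : Prop := ∀ (d : ℕ) (C₁ B c₀ CL : ℝ), EnvC d C₁ B c₀ CL → ∀ n m l : ℕ, 1 ≤ n →
  ∑ a ∈ Bn d n, ind (a + e0 l ∈ Bn d n) * pB d n (pH d) (fun ω => m ≤ XB d n ω a ∧
      m ≤ XB d n ω (a + e0 l) ∧ ¬ con ω a (a + e0 l)) ≤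
    l * (1 / pH d) ^ l * eb d n (fun ω => ((JJ (Bn d n) (ES (Bn d n)) m ω).card : ℝ))

/-- F27 lower bound for the bridges -/
def StLowJz : Prop := ∀ (d : ℕ) (C₁ B c₀ CL : ℝ), EnvC d C₁ B c₀ CL → ∀ Cs : ℝ, 0 ≤ Cs →
  ∃ cL : ℝ, 0 < cL ∧ ∀ β : ℝ, 0 < β → ∃ n₀ : ℕ, 1 ≤ n₀ ∧ ∀ n k : ℕ, n₀ ≤ n → 1 ≤ k →
    β ≤ ph2 d n (k + 1) → ph2 d n k ≤ Real.exp Cs * ph2 d n (k + 1) →
      cL * (n : ℝ) ^ (d - 4) * ph2 d n (k + 1) ≤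
        eb d n (fun ω => ((JJ (Bn d n) (ES (Bn d n)) ((k + 1) * n ^ 4) ω).card : ℝ))

/-- F28 upper bounds for the bridges -/
def StUpJz : Prop := ∀ (d : ℕ) (C₁ B c₀ CL : ℝ), EnvC d C₁ B c₀ CL → ∃ C : ℝ, 0 < C ∧
  ∀ Q : ℝ, 0 < Q → ∃ n₀ : ℕ, 1 ≤ n₀ ∧ ∀ n k : ℕ, n₀ ≤ n → 1 ≤ k → (∀ x ∈ Bn d n, uk d n k x ≤ Q) →
    eb d n (fun ω => ((JJ (Bn d n) (ES (Bn d n)) ((k + 1) * n ^ 4) ω).card : ℝ) ^ 2) ≤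
      C * Q ^ 4 * (n : ℝ) ^ (2 * d - 8) ∧
    eb d n (fun ω => (SS1 (Bn d n) (ES (Bn d n)) ((k + 1) * n ^ 4) ω : ℝ)) ≤
      C * (n : ℝ) ^ (d - 2) ∧
    eb d n (fun ω => (SS2 (Bn d n) (ES (Bn d n)) ((k + 1) * n ^ 4) ω : ℝ)) ≤
      C * Q ^ 2 * (n : ℝ) ^ (d - 4) ∧
    eb d n (fun ω => ((big (Bn d n) ((k + 1) * n ^ 4) ω).card : ℝ)) ≤ C * Q * (n : ℝ) ^ (d - 6)

/-- F29 a family of large clusters with many neighbours -/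
def StFamZ : Prop := ∀ (d : ℕ) (C₁ B c₀ CL : ℝ), EnvC d C₁ B c₀ CL → ∀ (c : ℕ → ℝ) (R : ℝ),
  Rad d c R → ∀ (ε : ℝ) (k₀ : ℕ), 0 < ε → ∃ (k₂ n₀ : ℕ) (c' : ℝ), 1 ≤ n₀ ∧ 0 < c' ∧
    ∀ n : ℕ, n₀ ≤ n → ∃ k : ℕ, k₀ ≤ k ∧ 1 ≤ k ∧ k ≤ k₂ ∧
      c' ≤ pB d n (pH d) (fun ω => ∃ F : Finset (Finset (Zd d)),
        F ⊆ big (Bn d n) (k * n ^ 4) ω ∧ c' * (n : ℝ) ^ (d - 6) ≤ F.card ∧
          minDeg (ES (Bn d n)) F ⌊Real.exp (-((R + ε) * k)) * (n : ℝ) ^ 2⌋₊)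

/-- F30 after sprinkling -/
def StSprZ : Prop := ∀ (d : ℕ) (C₁ B c₀ CL : ℝ), EnvC d C₁ B c₀ CL → ∀ (c : ℕ → ℝ) (R : ℝ),
  Rad d c R → ∀ A a ε : ℝ, 0 < A → 0 < a → a ≤ 1 → 0 < ε → ∃ n₀ : ℕ, 1 ≤ n₀ ∧ ∀ n : ℕ, n₀ ≤ n →
    ∃ s : ℕ, 1 ≤ s ∧ A * (n : ℝ) ^ 4 * Real.log n ≤ s ∧ (s : ℝ) ≤ (A + 1) * (n : ℝ) ^ 4 * Real.log n ∧
      (n : ℝ) ^ ((d : ℝ) - 2 - A * R - ε) ≤
        ∑ x ∈ Bn d n, pB d n (psa d n a) (fun ω => s ≤ XB d n ω x)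

/-- F31 back to the critical point -/
def StTraZ : Prop := ∀ (d : ℕ) (C₁ B c₀ CL : ℝ), EnvC d C₁ B c₀ CL → ∀ (c : ℕ → ℝ) (R : ℝ),
  Rad d c R → ∀ A ε : ℝ, 0 < A → 0 < ε → ∃ n₀ : ℕ, 1 ≤ n₀ ∧ ∀ n : ℕ, n₀ ≤ n →
    ∃ s : ℕ, 1 ≤ s ∧ A * (n : ℝ) ^ 4 * Real.log n ≤ s ∧
      (n : ℝ) ^ ((d : ℝ) - 2 - A * R - ε) ≤
        ∑ x ∈ Bn d n, pB d n (pH d) (fun ω => s ≤ XB d n ω x)

/-- F32 lower bound for the largest cluster -/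
def StLowZ : Prop := ∀ (d : ℕ) (C₁ B c₀ CL : ℝ), EnvC d C₁ B c₀ CL → ∀ (c : ℕ → ℝ) (R : ℝ),
  Rad d c R → ∀ A : ℝ, 0 < A → A * R < (d : ℝ) - 6 →
    Tendsto (fun n : ℕ => pB d n (pH d) (fun ω => ∃ x ∈ Bn d n,
      A * (n : ℝ) ^ 4 * Real.log n ≤ XB d n ω x)) atTop (𝓝 1)

end Pool.CM
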