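import Pool.Agent.Helper22.CM.St

/-!
# Project CM (MP_65faa7): the lower bound for source sets (bulk case)
`Xc A ω x` is the number of points of `A` in the cluster of `x`, for any finite set `A`.
Paper proof: /team-store/MP_65faa7-CM-S-plan.md
-/

set_option autoImplicit false

open scoped BigOperators ENNReal Topology
open Pool.LE Pool.NL Pool.CL Filter MeasureTheory

namespace Pool.CM

/-! ## Finite graphs -/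

open Classical in
/-- the clusters with at least `m` points in `A` -/
noncomputable def bigS {V : Type} [DecidableEq V] (L A : Finset V) (m : ℕ) (ω : Finset (Sym2 V)) :
    Finset (Finset V) :=
  (L.filter (fun x => m ≤ Xc A ω x)).image (clu L ω)

/-- G01 local comparison -/
def StLocCS : Prop := ∀ (V : Type) [DecidableEq V] (L A : Finset V) (E : Finset (Sym2 V)) (D : ℕ)
  (p : ℝ), FG L E D → A ⊆ L → 0 ≤ p → p ≤ 1 / 2 → ∀ M m : ℕ, 1 ≤ m → m ≤ M → ∀ a ∈ L, ∀ w ∈ L,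
    GG2 A E p M a w ≤
      ∑ z ∈ L, cp E p a z * (cp E p z w * pr E p (fun ω => M - m ≤ Xc A ω z)) +
      2 / ((M : ℝ) * m) * ∑ z ∈ L, ∑ z' ∈ L,
        cp E p a z * cp E p z z' * cp E p z' w * (hh A E p z * hh A E p z')

/-- G02 pairs of large disjoint clusters -/
def StPair3S : Prop := ∀ (V : Type) [DecidableEq V] (L A : Finset V) (E : Finset (Sym2 V)) (D : ℕ)
  (p : ℝ), FG L E D → A ⊆ L → 0 ≤ p → p ≤ 1 → ∀ a ∈ L, ∀ b ∈ L, ∀ m : ℕ,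
    pr E p (fun ω => m ≤ Xc A ω a) * pr E p (fun ω => m ≤ Xc A ω b) -
        ∑ w ∈ L, GG2 A E p m a w * GG2 A E p m b w ≤
      pr E p (fun ω => m ≤ Xc A ω a ∧ m ≤ Xc A ω b ∧ ¬ con ω a b)

/-- G03 surgery along a path -/
def StSurgX : Prop := ∀ (V : Type) [DecidableEq V] (A : Finset V) (E : Finset (Sym2 V)) (p : ℝ),
  0 < p → p ≤ 1 → ∀ (f : ℕ → ℕ → ℝ), (∀ a b, 0 ≤ f a b) →
  (∀ a a' b b', a ≤ a' → b ≤ b' → f a b ≤ f a' b') → ∀ (l : ℕ) (v : ℕ → V),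
  (∀ i, i < l → s(v i, v (i + 1)) ∈ E) →
    ex E p (fun ω => f (Xc A ω (v 0)) (Xc A ω (v l)) * ind (¬ con ω (v 0) (v l))) ≤
      (1 / p) ^ l * ∑ i ∈ Finset.range l,
        ex E p (fun ω => f (Xc A ω (v i)) (Xc A ω (v (i + 1))) * ind (¬ con ω (v i) (v (i + 1))))

/-- G04 pairs of bridges with the same first and the same second cluster -/
def StSbS : Prop := ∀ (V : Type) [DecidableEq V] (L A : Finset V) (E : Finset (Sym2 V)) (D : ℕ)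
  (p : ℝ) (m : ℕ), FG L E D → A ⊆ L → 0 ≤ p → p ≤ 1 →
    ex E p (fun ω => (SS2 A E m ω : ℝ)) ≤ ∑ a ∈ drt E, ∑ b ∈ drt E,
      GG2 A E p m a.1 b.1 * GG2 A E p m a.2 b.2

/-- G05 second moment of the number of bridges -/
def StScS : Prop := ∀ (V : Type) [DecidableEq V] (L A : Finset V) (E : Finset (Sym2 V)) (D : ℕ)
  (p q : ℝ) (m : ℕ), FG L E D → A ⊆ L → 0 ≤ p → p ≤ 1 → 0 ≤ q →
  (∀ x ∈ L, pr E p (fun ω => m ≤ Xc A ω x) ≤ q) →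
    ex E p (fun ω => ((JJ A E m ω).card : ℝ) ^ 2) ≤
      ((drt E).card : ℝ) ^ 2 * q ^ 4 + 4 * ex E p (fun ω => (SS1 A E m ω : ℝ))

/-- G06 number of large clusters -/
def StSdS : Prop := ∀ (V : Type) [DecidableEq V] (L A : Finset V) (E : Finset (Sym2 V)) (D : ℕ)
  (p q : ℝ) (m : ℕ), FG L E D → A ⊆ L → 0 ≤ p → p ≤ 1 → 1 ≤ m →
  (∀ x ∈ A, pr E p (fun ω => m ≤ Xc A ω x) ≤ q) →
    ex E p (fun ω => ((bigS L A m ω).card : ℝ)) ≤ A.card * q / m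

/-- G07 the graph of the large clusters -/
def StGraphS : Prop := ∀ (V : Type) [DecidableEq V] (L A : Finset V) (E ω : Finset (Sym2 V))
  (D m : ℕ) (j k₁ k₂ k₃ : ℝ), FG L E D → A ⊆ L → ω ⊆ E → 1 ≤ m → 0 < j → 0 < k₁ → 0 < k₂ → 0 < k₃ →
    j ≤ (JJ A E m ω).card → (SS1 A E m ω : ℝ) ≤ k₁ → (SS2 A E m ω : ℝ) ≤ k₂ →
    ((bigS L A m ω).card : ℝ) ≤ k₃ →
      ∃ F : Finset (Finset V), F ⊆ bigS L A m ω ∧ (j ^ 2 / (2 * k₂)) ^ 2 / k₁ ≤ F.card ∧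
        minDeg E F ⌊j ^ 2 / (4 * k₃ * k₂)⌋₊

/-- G08 growing by sprinkling -/
def StGrowS : Prop := ∀ (V : Type) [DecidableEq V] (L A : Finset V) (E ω : Finset (Sym2 V))
  (D m : ℕ) (δ : ℝ), FG L E D → A ⊆ L → ω ⊆ E → 1 ≤ m → 0 ≤ δ → δ ≤ 1 →
    ∀ (F : Finset (Finset V)) (k' : ℕ), F ⊆ bigS L A m ω → minDeg E F k' →
      ∀ k : ℕ, k ≤ k' → ∀ C ∈ F, ∀ x ∈ C,
        (1 - (1 - δ) ^ (k' - k)) ^ k ≤ ex E δ (fun η => ind ((k + 1) * m ≤ Xc A (ω ∪ η) x))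

/-- G09 change of the parameter for an event which depends on a cluster of bounded size -/
def StTreeQ : Prop := ∀ (V : Type) [DecidableEq V] (L : Finset V) (E : Finset (Sym2 V)) (D q : ℕ)
  (p p' : ℝ) (Q : Finset V → Prop), FG L E D → 2 ≤ q → 0 < p → p < 1 → 0 ≤ p' → p' ≤ 1 →
    ∀ x ∈ L, ∀ N : ℕ, (pr E p' (fun ω => Q (clu L ω x) ∧ Xc L ω x ≤ N)) ^ q ≤
      (Phq q p p') ^ (D * N) * (pr E p (fun ω => Q (clu L ω x) ∧ Xc L ω x ≤ N)) ^ (q - 1)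

/-- G10 second moment method -/
def StSec3S : Prop := ∀ (V : Type) [DecidableEq V] (A : Finset V) (E : Finset (Sym2 V)) (p : ℝ),
  0 ≤ p → p ≤ 1 → ∀ s : ℕ, 1 ≤ s →
    pr E p (fun ω => ∀ x ∈ A, Xc A ω x < s) * (∑ x ∈ A, pr E p (fun ω => s ≤ Xc A ω x)) ^ 2 ≤
      ∑ x ∈ A, ex E p (fun ω => (Xc A ω x : ℝ) * ind (s ≤ Xc A ω x))

/-! ## The box with a source set -/

/-- rescaled exponential moments -/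
noncomputable def snS (d n : ℕ) (S : Finset (Zd d)) (θ : ℝ) (x : Zd d) : ℝ :=
  eb d n (fun ω => (Xc S ω x : ℝ) * Real.exp (θ * Xc S ω x / (n : ℝ) ^ 4)) / (n : ℝ) ^ 2

/-- rescaled moments -/
noncomputable def mrS (d n : ℕ) (S : Finset (Zd d)) (r : ℕ) (x : Zd d) : ℝ :=
  eb d n (fun ω => (Xc S ω x : ℝ) ^ (r + 1)) / ((n : ℝ) ^ (2 + 4 * r) * (r.factorial : ℝ))

/-- rescaled tail -/
noncomputable def ukS (d n : ℕ) (S : Finset (Zd d)) (k : ℕ) (x : Zd d) : ℝ :=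
  (n : ℝ) ^ 2 * pB d n (pH d) (fun ω => k * n ^ 4 ≤ Xc S ω x)

/-- mean square of the tail -/
noncomputable def ph2S (d n : ℕ) (S : Finset (Zd d)) (k : ℕ) : ℝ :=
  av d n (fun x => ukS d n S k x ^ 2)

/-- `P(X_a ≥ k n^4, a ↔ w)` -/
noncomputable def gkS (d n : ℕ) (S : Finset (Zd d)) (k : ℕ) (a w : Zd d) : ℝ :=
  GG2 S (ES (Bn d n)) (pH d) (k * n ^ 4) a w

/-- the number of bridges between clusters with `k n^4` points in `S` -/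
noncomputable def JS (d n : ℕ) (S : Finset (Zd d)) (k : ℕ) (ω : Finset (Sym2 (Zd d))) : ℝ :=
  ((JJ S (ES (Bn d n)) (k * n ^ 4) ω).card : ℝ)

/-- the setting: source sets `S n`, limits `c` of the moments along the filter `l`, uniform
exponential moments below `R₁`, divergence above `R₂` -/
structure RadS (d : ℕ) (l : Filter ℕ) (S : ℕ → Finset (Zd d)) (c : ℕ → ℝ) (R₁ R₂ : ℝ) : Prop where
  pos : 0 < R₁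
  le : R₁ ≤ R₂
  near : 2 * (R₂ - R₁) ≤ R₂
  fil : l ≤ atTop
  sub : ∀ n, S n ⊆ Bn d n
  lim : ∀ r : ℕ, Tendsto (fun n : ℕ => av d n (mrS d n (S n) r)) l (𝓝 (c r))
  bd : ∀ θ : ℝ, 0 ≤ θ → θ < R₁ → ∃ K : ℝ, 1 ≤ K ∧ ∀ᶠ n : ℕ in l, ∀ x ∈ Bn d n, snS d n (S n) θ x ≤ K
  dv : ∀ θ : ℝ, R₂ < θ → ¬ Summable (fun r : ℕ => c r * θ ^ r)

/-- G20 tail bounds -/
def StTailS : Prop := ∀ (d : ℕ) (C₁ B c₀ CL : ℝ), EnvC d C₁ B c₀ CL → ∀ (n : ℕ) (S : Finset (Zd d))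
  (θ K : ℝ) (x : Zd d), 1 ≤ n → 0 ≤ θ → snS d n S θ x ≤ K → ∀ s : ℝ, 0 < s →
    eb d n (fun ω => (Xc S ω x : ℝ) * ind (s ≤ Xc S ω x)) ≤
      K * (n : ℝ) ^ 2 * Real.exp (-(θ * s / (n : ℝ) ^ 4)) ∧
    pB d n (pH d) (fun ω => s ≤ Xc S ω x) ≤
      K * (n : ℝ) ^ 2 * Real.exp (-(θ * s / (n : ℝ) ^ 4)) / s

/-- G21 the rescaled tail -/
def StUkS : Prop := ∀ (d : ℕ) (C₁ B c₀ CL : ℝ), EnvC d C₁ B c₀ CL → ∀ (n : ℕ) (S : Finset (Zd d)),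
  1 ≤ n → S ⊆ Bn d n →
  (∀ k x, 0 ≤ ukS d n S k x) ∧ (∀ k k' x, k ≤ k' → ukS d n S k' x ≤ ukS d n S k x) ∧
  (∀ k, 1 ≤ k → ∀ x ∈ Bn d n, ukS d n S k x ≤ C₁) ∧
  (∀ (k : ℕ) (θ K : ℝ), 1 ≤ k → 0 ≤ θ → (∀ x ∈ Bn d n, snS d n S θ x ≤ K) →
    ∀ x ∈ Bn d n, ukS d n S k x ≤ K * Real.exp (-(θ * k))) ∧
  (∀ k k', k ≤ k' → ph2S d n S k' ≤ ph2S d n S k) ∧
  (∀ k, (av d n (ukS d n S k)) ^ 2 ≤ ph2S d n S k) ∧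
  (∀ (k : ℕ) (Q : ℝ), (∀ x ∈ Bn d n, ukS d n S k x ≤ Q) → ph2S d n S k ≤ Q ^ 2)

/-- G22 local comparison in the box -/
def StLocBS : Prop := ∀ (d : ℕ) (C₁ B c₀ CL : ℝ), EnvC d C₁ B c₀ CL → ∀ (n k : ℕ)
  (S : Finset (Zd d)), 1 ≤ n → 1 ≤ k → S ⊆ Bn d n → ∀ a ∈ Bn d n, ∀ w ∈ Bn d n,
    gkS d n S (k + 1) a w ≤
      c2f d n (ukS d n S k) a w / (n : ℝ) ^ 2 + 2 * C₁ ^ 2 / (n : ℝ) ^ 4 * c3 d n a w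

/-- G23 the loss in the pair estimate -/
def StLossS : Prop := ∀ (d : ℕ) (C₁ B c₀ CL : ℝ), EnvC d C₁ B c₀ CL → ∃ C : ℝ, 0 < C ∧
  ∀ (n k : ℕ) (S : Finset (Zd d)), 1 ≤ n → 1 ≤ k → S ⊆ Bn d n → ∀ v : Zd d,
    ∑ a ∈ Bn d n, ind (a + v ∈ Bn d n) *
        ∑ w ∈ Bn d n, gkS d n S (k + 1) a w * gkS d n S (k + 1) (a + v) w ≤
      (n : ℝ) ^ (d - 4) * (B / Qw v) * ph2S d n S k + C * (n : ℝ) ^ (d - 6)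

/-- G24 shift of the tail -/
def StShiftUS : Prop := ∀ (d : ℕ) (C₁ B c₀ CL : ℝ), EnvC d C₁ B c₀ CL → ∃ C : ℝ, 0 < C ∧
  ∀ (n k l : ℕ) (S : Finset (Zd d)), 1 ≤ n → 1 ≤ k → S ⊆ Bn d n →
    (n : ℝ) ^ d * (ph2S d n S k - C * (1 + l) / Real.sqrt n) ≤
      ∑ a ∈ Bn d n, ind (a + e0 l ∈ Bn d n) * (ukS d n S k a * ukS d n S k (a + e0 l))

/-- G25 surgery -/
def StSurgSS : Prop := ∀ (d : ℕ) (C₁ B c₀ CL : ℝ), EnvC d C₁ B c₀ CL → ∀ (n k l : ℕ)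
  (S : Finset (Zd d)), 1 ≤ n → S ⊆ Bn d n →
    ∑ a ∈ Bn d n, ind (a + e0 l ∈ Bn d n) * pB d n (pH d) (fun ω => k * n ^ 4 ≤ Xc S ω a ∧
        k * n ^ 4 ≤ Xc S ω (a + e0 l) ∧ ¬ con ω a (a + e0 l)) ≤
      l * (1 / pH d) ^ l * eb d n (JS d n S k)

/-- G26 lower bound for the bridges -/
def StLowJS : Prop := ∀ (d : ℕ) (C₁ B c₀ CL : ℝ), EnvC d C₁ B c₀ CL → ∀ Cs : ℝ, 0 ≤ Cs →
  ∃ cL : ℝ, 0 < cL ∧ ∀ β : ℝ, 0 < β → ∃ n₀ : ℕ, 1 ≤ n₀ ∧ ∀ (n k : ℕ) (S : Finset (Zd d)), n₀ ≤ n →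
    1 ≤ k → S ⊆ Bn d n → β ≤ ph2S d n S (k + 1) → ph2S d n S k ≤ Real.exp Cs * ph2S d n S (k + 1) →
      cL * (n : ℝ) ^ (d - 4) * ph2S d n S (k + 1) ≤ eb d n (JS d n S (k + 1))

/-- G27 upper bounds for the bridges -/
def StUpJS : Prop := ∀ (d : ℕ) (C₁ B c₀ CL : ℝ), EnvC d C₁ B c₀ CL → ∃ C : ℝ, 0 < C ∧
  ∀ Q : ℝ, 0 < Q → ∃ n₀ : ℕ, 1 ≤ n₀ ∧ ∀ (n k : ℕ) (S : Finset (Zd d)), n₀ ≤ n → 1 ≤ k →
    S ⊆ Bn d n → (∀ x ∈ Bn d n, ukS d n S k x ≤ Q) →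
    eb d n (fun ω => (JS d n S (k + 1) ω) ^ 2) ≤ C * Q ^ 4 * (n : ℝ) ^ (2 * d - 8) ∧
    eb d n (fun ω => (SS1 S (ES (Bn d n)) ((k + 1) * n ^ 4) ω : ℝ)) ≤ C * (n : ℝ) ^ (d - 2) ∧
    eb d n (fun ω => (SS2 S (ES (Bn d n)) ((k + 1) * n ^ 4) ω : ℝ)) ≤
      C * Q ^ 2 * (n : ℝ) ^ (d - 4) ∧
    eb d n (fun ω => ((bigS (Bn d n) S ((k + 1) * n ^ 4) ω).card : ℝ)) ≤
      C * Q * (n : ℝ) ^ (d - 6)

/-- G30 the tail is not too small -/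
def StF0S : Prop := ∀ (d : ℕ) (C₁ B c₀ CL : ℝ), EnvC d C₁ B c₀ CL → ∀ (l : Filter ℕ)
  (S : ℕ → Finset (Zd d)) (c : ℕ → ℝ) (R₁ R₂ : ℝ), RadS d l S c R₁ R₂ → ∀ (ε : ℝ) (k₀ : ℕ), 0 < ε →
    ∃ k₂ : ℕ, k₀ ≤ k₂ ∧ ∀ᶠ n : ℕ in l, ∃ k : ℕ, k₀ ≤ k ∧ k ≤ k₂ ∧
      Real.exp (-((R₂ + ε) * k)) ≤ av d n (ukS d n (S n) k)

/-- G31 a good level -/
def StF1S : Prop := ∀ (d : ℕ) (C₁ B c₀ CL : ℝ), EnvC d C₁ B c₀ CL → ∀ (l : Filter ℕ)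
  (S : ℕ → Finset (Zd d)) (c : ℕ → ℝ) (R₁ R₂ : ℝ), RadS d l S c R₁ R₂ → ∀ (ε : ℝ) (k₀ : ℕ), 0 < ε →
    ∃ k₂ : ℕ, k₀ ≤ k₂ ∧ ∀ᶠ n : ℕ in l, ∃ k : ℕ, k₀ ≤ k ∧ k ≤ k₂ ∧
      Real.exp (-(2 * (R₂ + 2 * (R₂ - R₁) + ε) * (k + 1))) ≤ ph2S d n (S n) (k + 1) ∧
      ph2S d n (S n) k ≤ Real.exp (8 * R₂) * ph2S d n (S n) (k + 1)

/-- G32 a family of large clusters with many neighbours -/
def StFamS : Prop := ∀ (d : ℕ) (C₁ B c₀ CL : ℝ), EnvC d C₁ B c₀ CL → ∀ (l : Filter ℕ)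
  (S : ℕ → Finset (Zd d)) (c : ℕ → ℝ) (R₁ R₂ : ℝ), RadS d l S c R₁ R₂ → ∀ (ε : ℝ) (k₀ : ℕ), 0 < ε →
    ∃ (k₂ : ℕ) (c' : ℝ), 0 < c' ∧ ∀ᶠ n : ℕ in l, ∃ k : ℕ, k₀ ≤ k ∧ 1 ≤ k ∧ k ≤ k₂ ∧
      c' ≤ pB d n (pH d) (fun ω => ∃ F : Finset (Finset (Zd d)),
        F ⊆ bigS (Bn d n) (S n) (k * n ^ 4) ω ∧ c' * (n : ℝ) ^ (d - 6) ≤ F.card ∧
          minDeg (ES (Bn d n)) F
            ⌊Real.exp (-((R₂ + 35 * (R₂ - R₁) + ε) * k)) * (n : ℝ) ^ 2⌋₊)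

/-- G33 after sprinkling -/
def StSprS : Prop := ∀ (d : ℕ) (C₁ B c₀ CL : ℝ), EnvC d C₁ B c₀ CL → ∀ (l : Filter ℕ)
  (S : ℕ → Finset (Zd d)) (c : ℕ → ℝ) (R₁ R₂ : ℝ), RadS d l S c R₁ R₂ → ∀ A a ε : ℝ, 0 < A →
    0 < a → a ≤ 1 → 0 < ε → ∀ᶠ n : ℕ in l, ∃ s : ℕ, 1 ≤ s ∧ A * (n : ℝ) ^ 4 * Real.log n ≤ s ∧
      (s : ℝ) ≤ (A + 1) * (n : ℝ) ^ 4 * Real.log n ∧
      (n : ℝ) ^ ((d : ℝ) - 2 - A * (R₂ + 35 * (R₂ - R₁)) - ε) ≤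
        ∑ x ∈ S n, pB d n (psa d n a) (fun ω => s ≤ Xc (S n) ω x)

/-- G34 back to the critical point -/
def StTraS : Prop := ∀ (d : ℕ) (C₁ B c₀ CL : ℝ), EnvC d C₁ B c₀ CL → ∀ (l : Filter ℕ)
  (S : ℕ → Finset (Zd d)) (c : ℕ → ℝ) (R₁ R₂ : ℝ), RadS d l S c R₁ R₂ → ∀ A ε : ℝ, 0 < A → 0 < ε →
    ∀ᶠ n : ℕ in l, ∃ s : ℕ, 1 ≤ s ∧ A * (n : ℝ) ^ 4 * Real.log n ≤ s ∧
      (n : ℝ) ^ ((d : ℝ) - 2 - A * (R₂ + 35 * (R₂ - R₁)) - ε) ≤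
        ∑ x ∈ S n, pB d n (pH d) (fun ω => s ≤ Xc (S n) ω x)

/-- G35 **lower bound for the largest trace of a cluster on the source set** -/
def StLowS : Prop := ∀ (d : ℕ) (C₁ B c₀ CL : ℝ), EnvC d C₁ B c₀ CL → ∀ (l : Filter ℕ)
  (S : ℕ → Finset (Zd d)) (c : ℕ → ℝ) (R₁ R₂ : ℝ), RadS d l S c R₁ R₂ → ∀ A : ℝ, 0 < A →
    A * (R₂ + 71 * (R₂ - R₁)) < (d : ℝ) - 6 →
      Tendsto (fun n : ℕ => pB d n (pH d) (fun ω => ∃ x ∈ S n,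
        A * (n : ℝ) ^ 4 * Real.log n ≤ Xc (S n) ω x)) l (𝓝 1)

end Pool.CM
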