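import Pool.Agent.Helper22.CM.St2
import Pool.Agent.Helper22.NL.M_Clu
import Pool.Agent.Helper22.NL.M_Basic

/-! # Project CM: elementary facts on `Xc A` for a finite set `A` -/

set_option autoImplicit false

open scoped BigOperators ENNReal Topology
open Pool.LE Pool.NL Pool.CL Filter MeasureTheory

namespace Pool.CM
namespace XA

variable {V : Type} [DecidableEq V]

/-- the cluster of connected points -/
theorem clu_eq (A : Finset V) {ω : Finset (Sym2 V)} {x y : V} (h : con ω x y) :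
    clu A ω x = clu A ω y := by
  ext z
  rw [mem_Clu, mem_Clu]
  exact ⟨fun hz => ⟨hz.1, con_trans (con_symm h) hz.2⟩, fun hz => ⟨hz.1, con_trans h hz.2⟩⟩

theorem xc_eq (A : Finset V) {ω : Finset (Sym2 V)} {x y : V} (h : con ω x y) :
    Xc A ω x = Xc A ω y := by
  unfold Xc
  rw [clu_eq A h]

theorem clu_mono (A : Finset V) {ω η : Finset (Sym2 V)} (h : ω ⊆ η) (x : V) :
    clu A ω x ⊆ clu A η x := by
  intro z hz
  rw [mem_Clu] at hz ⊢
  exact ⟨hz.1, con_mono h hz.2⟩

theorem xc_mono (A : Finset V) {ω η : Finset (Sym2 V)} (h : ω ⊆ η) (x : V) :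
    Xc A ω x ≤ Xc A η x := Finset.card_le_card (clu_mono A h x)

theorem xc_sub {A L : Finset V} (h : A ⊆ L) (ω : Finset (Sym2 V)) (x : V) :
    Xc A ω x ≤ Xc L ω x := by
  refine Finset.card_le_card fun z hz => ?_
  rw [mem_Clu] at hz ⊢
  exact ⟨h hz.1, hz.2⟩

theorem clu_disj (A : Finset V) {ω : Finset (Sym2 V)} {x y : V} (h : ¬ con ω x y) :
    Disjoint (clu A ω x) (clu A ω y) := by
  rw [Finset.disjoint_left]
  intro z hz hz'
  rw [mem_Clu] at hz hz'
  exact h (con_trans hz.2 (con_symm hz'.2))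

/-- the trace of the cluster on `A` -/
theorem clu_filter {A L : Finset V} (h : A ⊆ L) (ω : Finset (Sym2 V)) (x : V) :
    (clu L ω x).filter (fun y => y ∈ A) = clu A ω x := by
  ext z
  rw [Finset.mem_filter, mem_Clu, mem_Clu]
  exact ⟨fun hz => ⟨hz.2, hz.1.2⟩, fun hz => ⟨⟨h hz.1, hz.2⟩, hz.1⟩⟩

theorem xc_filter {A L : Finset V} (h : A ⊆ L) (ω : Finset (Sym2 V)) (x : V) :
    ((clu L ω x).filter (fun y => y ∈ A)).card = Xc A ω x := by
  rw [clu_filter h]
  rfl

theorem xc_sum (A : Finset V) (ω : Finset (Sym2 V)) (x : V) :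
    (Xc A ω x : ℝ) = ∑ y ∈ A, ind (con ω x y) := by
  classical
  unfold Xc clu
  rw [Finset.card_filter]
  push_cast
  refine Finset.sum_congr rfl fun y _ => ?_
  unfold ind
  rfl

theorem ex_xc (A : Finset V) (E : Finset (Sym2 V)) (p : ℝ) (x : V) :
    ex E p (fun ω => (Xc A ω x : ℝ)) = hh A E p x := by
  have h : (fun ω : Finset (Sym2 V) => (Xc A ω x : ℝ)) = fun ω => ∑ y ∈ A, ind (con ω x y) := by
    funext ω
    exact xc_sum A ω x
  rw [h, Basic.ex_sum]
  rfl

end XA
end Pool.CM
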